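import Pool.Agent.Helper706.JD.Taylor

set_option autoImplicit false

open scoped Topology ContDiff
open Set Filter Complex

namespace Pool.Agent.Results.MP_51bf1a_an.JetDet
open Classical in
/-- the homogeneous polynomial attached to a continuous multilinear map -/
noncomputable def homPoly {ι : Type*} [Fintype ι] (j : ℕ)
    (q : ContinuousMultilinearMap ℂ (fun _ : Fin j => (ι → ℂ)) ℂ) : MvPolynomial ι ℂ :=
  ∑ r : Fin j → ι, MvPolynomial.C (q (fun l => Pi.single (r l) 1)) * ∏ l, MvPolynomial.X (r l)

theorem homPoly_isHomogeneous {ι : Type*} [Fintype ι] (j : ℕ)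
    (q : ContinuousMultilinearMap ℂ (fun _ : Fin j => (ι → ℂ)) ℂ) :
    (homPoly j q).IsHomogeneous j := by
  classical
  unfold homPoly
  refine MvPolynomial.IsHomogeneous.sum _ _ _ fun r _ => ?_
  have h1 := MvPolynomial.isHomogeneous_C ι (q (fun l => Pi.single (r l) 1))
  have h2 : (∏ l, (MvPolynomial.X (r l) : MvPolynomial ι ℂ)).IsHomogeneous (∑ _l : Fin j, 1) :=
    MvPolynomial.IsHomogeneous.prod _ _ _ fun l _ => MvPolynomial.isHomogeneous_X _ _
  simpa using h1.mul h2

theorem eval_homPoly {ι : Type*} [Fintype ι] (j : ℕ)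
    (q : ContinuousMultilinearMap ℂ (fun _ : Fin j => (ι → ℂ)) ℂ) (x : ι → ℂ) :
    MvPolynomial.eval x (homPoly j q) = q (fun _ => x) := by
  classical
  have hx : x = ∑ i, x i • (Pi.single i (1:ℂ) : ι → ℂ) := by
    funext k
    simp [Finset.sum_apply, Pi.single_apply]
  have h1 : q (fun _ => x) = q (fun _ => ∑ i, x i • (Pi.single i (1:ℂ) : ι → ℂ)) :=
    congrArg q (funext fun _ => hx)
  rw [h1, ContinuousMultilinearMap.map_sum]
  unfold homPoly
  rw [map_sum]
  refine Finset.sum_congr rfl fun r _ => ?_
  rw [ContinuousMultilinearMap.map_smul_univ, map_mul, MvPolynomial.eval_C, map_prod]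
  simp [mul_comm]

/-- Every function analytic at `0` has a Taylor series. -/
theorem exists_isTaylor {ι : Type*} [Fintype ι] {f : (ι → ℂ) → ℂ} (hf : AnalyticAt ℂ f 0) :
    ∃ F : MvPowerSeries ι ℂ, IsTaylor f F := by
  classical
  obtain ⟨p, hp⟩ := hf
  obtain ⟨F, hF⟩ : ∃ F : MvPowerSeries ι ℂ, ∀ e, MvPowerSeries.coeff e F =
      MvPolynomial.coeff e (homPoly e.degree (p e.degree)) :=
    ⟨fun e => MvPolynomial.coeff e (homPoly e.degree (p e.degree)), fun e => rfl⟩
  refine ⟨F, fun k => ?_⟩
  have h1 : ∀ x, MvPolynomial.eval x (MvPowerSeries.truncTotal k F) = p.partialSum k x := by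
    intro x
    have h2 : MvPowerSeries.truncTotal k F = ∑ j ∈ Finset.range k, homPoly j (p j) := by
      ext e
      rw [MvPowerSeries.coeff_truncTotal_eq_ite, MvPolynomial.coeff_sum, hF]
      split_ifs with h
      · rw [Finset.sum_eq_single_of_mem e.degree (Finset.mem_range.mpr h)]
        intro j _ hj
        by_contra hc
        have := homPoly_isHomogeneous j (p j) hc
        change Finsupp.weight (fun _ => 1) e = j at this
        rw [← Finsupp.degree_eq_weight_one] at this
        exact hj this.symm
      · symm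
        refine Finset.sum_eq_zero fun j hj => ?_
        by_contra hc
        have := homPoly_isHomogeneous j (p j) hc
        change Finsupp.weight (fun _ => 1) e = j at this
        rw [← Finsupp.degree_eq_weight_one] at this
        rw [Finset.mem_range] at hj
        omega
    rw [h2, map_sum]
    unfold FormalMultilinearSeries.partialSum
    exact Finset.sum_congr rfl fun j _ => eval_homPoly j (p j) x
  have h3 := hp.isBigO_sub_partialSum_pow k
  simp only [zero_add] at h3
  simpa only [h1] using h3

/-- An analytic function with zero Taylor series vanishes near `0`. -/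
theorem IsTaylor.eventually_eq_zero {ι : Type*} [Fintype ι] {f : (ι → ℂ) → ℂ}
    (hf : AnalyticAt ℂ f 0) (h : IsTaylor f 0) : ∀ᶠ x in 𝓝 0, f x = 0 := by
  obtain ⟨p, hp⟩ := hf
  have hO : ∀ k : ℕ, f =O[𝓝 0] (fun x : ι → ℂ => ‖x‖ ^ k) := by
    intro k
    have := h k
    simpa only [map_zero, sub_zero] using this
  have hz : ∀ n : ℕ, ∀ y : ι → ℂ, (p n fun _ => y) = 0 := by
    intro n
    refine Nat.strong_induction_on n fun k hk => ?_
    have psum_eq : p.partialSum (k + 1) = fun y => p k fun _ => y := by
      funext z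
      refine Finset.sum_eq_single _ (fun b hb hnb => ?_) fun hn => ?_
      · have := Finset.mem_range_succ_iff.mp hb
        simp only [hk b (this.lt_of_ne hnb)]
      · exact False.elim (hn (Finset.mem_range.mpr (lt_add_one k)))
    have h1 := hp.isBigO_sub_partialSum_pow k.succ
    simp only [zero_add] at h1
    have h2 : (fun y => p.partialSum (k + 1) y) =O[𝓝 0] (fun x : ι → ℂ => ‖x‖ ^ (k + 1)) := by
      have := (hO (k + 1)).sub h1
      simpa using this
    rw [psum_eq] at h2
    exact h2.continuousMultilinearMap_apply_eq_zero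
  obtain ⟨r, hr⟩ := hp
  have hball := Metric.eball_mem_nhds (0 : ι → ℂ) hr.r_pos
  filter_upwards [hball] with x hx
  have := hr.hasSum hx
  simp only [hz, zero_add] at this
  exact this.unique hasSum_zero

end Pool.Agent.Results.MP_51bf1a_an.JetDet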