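import Pool.Agent.Helper706.JD.Taylor

set_option autoImplicit false

open scoped Topology ContDiff
open Set Filter Complex

namespace Pool.Agent.Results.MP_51bf1a_an.JetDet
theorem tc_eventually_le_one {ι : Type*} [Fintype ι] : ∀ᶠ x : ι → ℂ in 𝓝 0, ‖x‖ ≤ 1 := by
  have h : Tendsto (fun x : ι → ℂ => ‖x‖) (𝓝 0) (𝓝 0) := by
    have h1 := (continuous_norm (E := ι → ℂ)).tendsto 0
    rwa [norm_zero] at h1
  exact (h.eventually (gt_mem_nhds (zero_lt_one))).mono fun x hx => le_of_lt hx

theorem tc_pow_isBigO {ι : Type*} [Fintype ι] {a b : ℕ} (h : a ≤ b) :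
    (fun x : ι → ℂ => ‖x‖ ^ b) =O[𝓝 0] (fun x : ι → ℂ => ‖x‖ ^ a) := by
  apply Asymptotics.IsBigO.of_bound 1
  filter_upwards [tc_eventually_le_one] with x hx
  rw [Real.norm_of_nonneg (pow_nonneg (norm_nonneg x) b),
    Real.norm_of_nonneg (pow_nonneg (norm_nonneg x) a), one_mul]
  exact pow_le_pow_of_le_one (norm_nonneg x) hx h

theorem tc_monomial_isBigO {ι : Type*} [Fintype ι] (e : ι →₀ ℕ) (c : ℂ) :
    (fun x : ι → ℂ => c * e.prod fun i n => x i ^ n) =O[𝓝 0]
      (fun x : ι → ℂ => ‖x‖ ^ e.degree) := by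
  apply Asymptotics.IsBigO.const_mul_left
  apply Asymptotics.IsBigO.of_bound 1
  refine Filter.Eventually.of_forall fun x => ?_
  rw [Real.norm_of_nonneg (pow_nonneg (norm_nonneg x) _), one_mul, Finsupp.prod, norm_prod,
    Finsupp.degree_apply, ← Finset.prod_pow_eq_pow_sum]
  apply Finset.prod_le_prod
  · intro i _
    exact norm_nonneg _
  · intro i _
    rw [norm_pow]
    exact pow_le_pow_left₀ (norm_nonneg _) (norm_le_pi_norm x i) _

theorem tc_poly_isBigO {ι : Type*} [Fintype ι] (P : MvPolynomial ι ℂ) (k : ℕ)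
    (hP : ∀ e : ι →₀ ℕ, e.degree < k → P.coeff e = 0) :
    (fun x : ι → ℂ => MvPolynomial.eval x P) =O[𝓝 0] (fun x : ι → ℂ => ‖x‖ ^ k) := by
  have h1 : (fun x : ι → ℂ => MvPolynomial.eval x P) =
      fun x => ∑ e ∈ P.support, P.coeff e * e.prod fun i n => x i ^ n := by
    funext x
    rw [MvPolynomial.eval_eq]
    rfl
  rw [h1]
  apply Asymptotics.IsBigO.fun_sum
  intro e he
  have hk : k ≤ e.degree := by
    by_contra hlt
    push Not at hlt
    exact (MvPolynomial.mem_support_iff.mp he) (hP e hlt)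
  exact (tc_monomial_isBigO e _).trans (tc_pow_isBigO hk)

theorem tc_poly_bdd {ι : Type*} [Fintype ι] (P : MvPolynomial ι ℂ) :
    (fun x : ι → ℂ => MvPolynomial.eval x P) =O[𝓝 0] (fun _ : ι → ℂ => (1 : ℝ)) := by
  have := tc_poly_isBigO P 0 (fun e he => absurd he (Nat.not_lt_zero _))
  simpa using this

theorem tc_eval_smul {ι : Type*} [Fintype ι] (P : MvPolynomial ι ℂ) (m : ℕ)
    (hP : ∀ e : ι →₀ ℕ, P.coeff e ≠ 0 → e.degree = m) (t : ℂ) (x : ι → ℂ) :
    MvPolynomial.eval (t • x) P = t ^ m * MvPolynomial.eval x P := by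
  rw [MvPolynomial.eval_eq, MvPolynomial.eval_eq, Finset.mul_sum]
  apply Finset.sum_congr rfl
  intro e he
  have h1 := hP e (MvPolynomial.mem_support_iff.mp he)
  have h2 : ∏ i ∈ e.support, (t • x) i ^ e i = t ^ m * ∏ i ∈ e.support, x i ^ e i := by
    rw [← h1, Finsupp.degree_apply, ← Finset.prod_pow_eq_pow_sum, ← Finset.prod_mul_distrib]
    apply Finset.prod_congr rfl
    intro i _
    rw [Pi.smul_apply, smul_eq_mul, mul_pow]
  rw [h2]
  ring

/-- a homogeneous polynomial of degree `m` which is `O(|x|^(m+1))` vanishes -/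
theorem tc_homog_zero {ι : Type*} [Fintype ι] (P : MvPolynomial ι ℂ) (m : ℕ)
    (hP : ∀ e : ι →₀ ℕ, P.coeff e ≠ 0 → e.degree = m)
    (hO : (fun x : ι → ℂ => MvPolynomial.eval x P) =O[𝓝 0] (fun x : ι → ℂ => ‖x‖ ^ (m + 1))) :
    P = 0 := by
  apply MvPolynomial.funext
  intro x
  rw [map_zero]
  obtain ⟨C, hC⟩ := hO.bound
  have hlim : Tendsto (fun t : ℝ => ((t : ℂ)) • x) (𝓝[>] 0) (𝓝 0) := by
    have h1 : Tendsto (fun t : ℝ => ((t : ℂ)) • x) (𝓝 0) (𝓝 (((0 : ℝ) : ℂ) • x)) :=
      (Continuous.smul Complex.continuous_ofReal continuous_const).tendsto 0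
    rw [Complex.ofReal_zero, zero_smul] at h1
    exact h1.mono_left nhdsWithin_le_nhds
  have h2 := hlim.eventually hC
  have h3 : ∀ᶠ t : ℝ in 𝓝[>] 0, ‖MvPolynomial.eval x P‖ ≤ C * ‖x‖ ^ (m + 1) * t := by
    filter_upwards [h2, self_mem_nhdsWithin] with t ht htpos
    have htp : (0 : ℝ) < t := htpos
    rw [tc_eval_smul P m hP, norm_mul, norm_pow, Complex.norm_real, Real.norm_of_nonneg htp.le,
      norm_smul, Complex.norm_real, Real.norm_of_nonneg htp.le,
      Real.norm_of_nonneg (pow_nonneg (mul_nonneg htp.le (norm_nonneg x)) _)] at ht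
    have h4 : t ^ m * ‖MvPolynomial.eval x P‖ ≤ t ^ m * (C * ‖x‖ ^ (m + 1) * t) := by
      calc t ^ m * ‖MvPolynomial.eval x P‖ ≤ C * (t * ‖x‖) ^ (m + 1) := ht
        _ = t ^ m * (C * ‖x‖ ^ (m + 1) * t) := by ring
    exact le_of_mul_le_mul_left h4 (pow_pos htp m)
  have h5 : Tendsto (fun t : ℝ => C * ‖x‖ ^ (m + 1) * t) (𝓝[>] 0) (𝓝 0) := by
    have h1 : Tendsto (fun t : ℝ => C * ‖x‖ ^ (m + 1) * t) (𝓝 0)
        (𝓝 (C * ‖x‖ ^ (m + 1) * 0)) := (continuous_const.mul continuous_id).tendsto 0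
    rw [mul_zero] at h1
    exact h1.mono_left nhdsWithin_le_nhds
  have h6 : ‖MvPolynomial.eval x P‖ ≤ 0 := ge_of_tendsto h5 h3
  exact norm_le_zero_iff.mp h6

/-- The Taylor series is unique. -/
theorem IsTaylor.unique {ι : Type*} [Fintype ι] {f : (ι → ℂ) → ℂ} {F G : MvPowerSeries ι ℂ}
    (hF : IsTaylor f F) (hG : IsTaylor f G) : F = G := by
  have hD : ∀ k : ℕ, (fun x => MvPolynomial.eval x (MvPowerSeries.truncTotal k (F - G))) =O[𝓝 0]
      (fun x : ι → ℂ => ‖x‖ ^ k) := by
    intro k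
    have h1 := (hG k).sub (hF k)
    refine h1.congr_left fun x => ?_
    have h2 : MvPowerSeries.truncTotal k (F - G) = MvPowerSeries.truncTotal k F -
        MvPowerSeries.truncTotal k G := map_sub _ _ _
    rw [h2, map_sub]
    ring
  have key : ∀ m : ℕ, ∀ e : ι →₀ ℕ, e.degree = m → MvPowerSeries.coeff e (F - G) = 0 := by
    intro m
    induction m using Nat.strong_induction_on with
    | _ m ih =>
      intro e he
      have hz : MvPowerSeries.truncTotal (m + 1) (F - G) = 0 := by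
        apply tc_homog_zero _ m _ (hD (m + 1))
        intro d hd
        by_contra hne
        rcases Nat.lt_or_ge d.degree (m + 1) with hlt | hge
        · rw [MvPowerSeries.coeff_truncTotal _ hlt] at hd
          exact hd (ih d.degree (by omega) d rfl)
        · exact hd (MvPowerSeries.coeff_truncTotal_eq_zero _ hge)
      rw [← MvPowerSeries.coeff_truncTotal (n := m + 1) _ (by omega), hz, MvPolynomial.coeff_zero]
  have hsub : F - G = 0 := by
    ext e
    rw [key _ e rfl, map_zero]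
  exact sub_eq_zero.mp hsub

theorem IsTaylor.bdd {ι : Type*} [Fintype ι] {f : (ι → ℂ) → ℂ} {F : MvPowerSeries ι ℂ}
    (hF : IsTaylor f F) : f =O[𝓝 0] (fun _ : ι → ℂ => (1 : ℝ)) := by
  have h0 := hF 0
  have h1 : MvPowerSeries.truncTotal 0 F = 0 := by
    ext d
    rw [MvPowerSeries.coeff_truncTotal_eq_zero _ (Nat.zero_le _), MvPolynomial.coeff_zero]
  simpa [h1] using h0

theorem IsTaylor.mul {ι : Type*} [Fintype ι] {f g : (ι → ℂ) → ℂ} {F G : MvPowerSeries ι ℂ}
    (hF : IsTaylor f F) (hG : IsTaylor g G) : IsTaylor (fun x => f x * g x) (F * G) := by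
  intro k
  have h1 := (hF k).mul hG.bdd
  have h2 := (tc_poly_bdd (MvPowerSeries.truncTotal k F)).mul (hG k)
  have h3 := tc_poly_isBigO (MvPowerSeries.truncTotal k F * MvPowerSeries.truncTotal k G -
    MvPowerSeries.truncTotal k (F * G)) k (by
      intro e he
      rw [MvPolynomial.coeff_sub, MvPowerSeries.coeff_truncTotal _ he,
        MvPowerSeries.coeff_truncTotal_mul_truncTotal_eq_coeff_mul _ _ he, sub_self])
  simp only [mul_one, one_mul] at h1 h2
  refine ((h1.add h2).add h3).congr_left fun x => ?_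
  rw [map_sub, map_mul]
  ring

theorem tc_poly_isTaylor {ι : Type*} [Fintype ι] (P : MvPolynomial ι ℂ) :
    IsTaylor (fun x : ι → ℂ => MvPolynomial.eval x P) (P : MvPowerSeries ι ℂ) := by
  intro k
  have h3 := tc_poly_isBigO (P - MvPowerSeries.truncTotal k (P : MvPowerSeries ι ℂ)) k (by
      intro e he
      rw [MvPolynomial.coeff_sub, MvPowerSeries.coeff_truncTotal _ he, MvPolynomial.coeff_coe,
        sub_self])
  refine h3.congr_left fun x => ?_
  rw [map_sub]

theorem isTaylor_coord {ι : Type*} [Fintype ι] (i : ι) :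
    IsTaylor (fun x : ι → ℂ => x i) (MvPowerSeries.X i) := by
  have h := tc_poly_isTaylor (MvPolynomial.X i : MvPolynomial ι ℂ)
  rw [MvPolynomial.coe_X] at h
  simpa only [MvPolynomial.eval_X] using h

theorem isTaylor_const {ι : Type*} [Fintype ι] (c : ℂ) :
    IsTaylor (fun _ : ι → ℂ => c) (MvPowerSeries.C c) := by
  have h := tc_poly_isTaylor (MvPolynomial.C c : MvPolynomial ι ℂ)
  rw [MvPolynomial.coe_C] at h
  simpa only [MvPolynomial.eval_C] using h

theorem IsTaylor.isBigO_norm {κ : Type*} [Fintype κ] {g : (κ → ℂ) → ℂ} {G : MvPowerSeries κ ℂ}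
    (hG : IsTaylor g G) (hG0 : MvPowerSeries.constantCoeff G = 0) :
    g =O[𝓝 0] (fun x : κ → ℂ => ‖x‖) := by
  have h1 := hG 1
  have h2 : MvPowerSeries.truncTotal 1 G = 0 := by
    ext d
    rw [MvPolynomial.coeff_zero]
    rcases Nat.lt_or_ge d.degree 1 with hlt | hge
    · rw [MvPowerSeries.coeff_truncTotal _ hlt]
      have h3 : d = 0 := by
        have h4 : d.degree = 0 := by omega
        exact (Finsupp.degree_eq_zero_iff d).mp h4
      rw [h3, MvPowerSeries.coeff_zero_eq_constantCoeff_apply, hG0]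
    · exact MvPowerSeries.coeff_truncTotal_eq_zero _ hge
  simpa [h2] using h1

/-- substituting approximations into a polynomial -/
theorem tc_poly_subst {ι κ : Type*} [Fintype ι] [Fintype κ] (P : MvPolynomial ι ℂ) (k : ℕ)
    {g h : ι → (κ → ℂ) → ℂ} (hg : ∀ i, g i =O[𝓝 0] (fun _ : κ → ℂ => (1 : ℝ)))
    (hh : ∀ i, h i =O[𝓝 0] (fun _ : κ → ℂ => (1 : ℝ)))
    (hgh : ∀ i, (fun x => g i x - h i x) =O[𝓝 0] (fun x : κ → ℂ => ‖x‖ ^ k)) :
    (fun x => MvPolynomial.eval (fun i => g i x) P) =O[𝓝 0] (fun _ : κ → ℂ => (1 : ℝ)) ∧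
    (fun x => MvPolynomial.eval (fun i => g i x) P - MvPolynomial.eval (fun i => h i x) P)
      =O[𝓝 0] (fun x : κ → ℂ => ‖x‖ ^ k) := by
  induction P using MvPolynomial.induction_on with
  | C a =>
    constructor
    · simp only [MvPolynomial.eval_C]
      exact Asymptotics.isBigO_const_const _ one_ne_zero _
    · simp only [MvPolynomial.eval_C, sub_self]
      exact Asymptotics.isBigO_zero _ _
  | add p q hp hq =>
    constructor
    · refine (hp.1.add hq.1).congr_left fun x => ?_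
      rw [map_add]
    · refine (hp.2.add hq.2).congr_left fun x => ?_
      rw [map_add, map_add]
      ring
  | mul_X p i hp =>
    constructor
    · have h1 := hp.1.mul (hg i)
      simp only [mul_one] at h1
      refine h1.congr_left fun x => ?_
      rw [map_mul, MvPolynomial.eval_X]
    · have h1 := hp.1.mul (hgh i)
      have h2 := hp.2.mul (hh i)
      simp only [mul_one, one_mul] at h1 h2
      refine (h1.add h2).congr_left fun x => ?_
      rw [map_mul, map_mul, MvPolynomial.eval_X, MvPolynomial.eval_X]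
      ring

/-- Composition of Taylor series. -/
theorem IsTaylor.comp {ι κ : Type*} [Fintype ι] [Fintype κ] {f : (ι → ℂ) → ℂ}
    {F : MvPowerSeries ι ℂ} {g : ι → (κ → ℂ) → ℂ} {G : ι → MvPowerSeries κ ℂ}
    (hF : IsTaylor f F) (hG : ∀ i, IsTaylor (g i) (G i))
    (hG0 : ∀ i, MvPowerSeries.constantCoeff (G i) = 0) :
    IsTaylor (fun x => f (fun i => g i x)) (MvPowerSeries.subst G F) := by
  intro k
  have hgO : (fun x => (fun i => g i x)) =O[𝓝 0] (fun x : κ → ℂ => ‖x‖) := by
    rw [Asymptotics.isBigO_pi]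
    intro i
    exact (hG i).isBigO_norm (hG0 i)
  have hlim : Tendsto (fun x : κ → ℂ => (fun i => g i x)) (𝓝 0) (𝓝 0) := by
    apply hgO.trans_tendsto
    have h1 := (continuous_norm (E := κ → ℂ)).tendsto 0
    rwa [norm_zero] at h1
  have h1 : (fun x => f (fun i => g i x) - MvPolynomial.eval (fun i => g i x)
      (MvPowerSeries.truncTotal k F)) =O[𝓝 0] (fun x : κ → ℂ => ‖x‖ ^ k) := by
    have h2 := (hF k).comp_tendsto hlim
    refine h2.trans ?_
    exact hgO.norm_left.pow k
  have h2 := (tc_poly_subst (MvPowerSeries.truncTotal k F) k (g := g)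
    (h := fun i x => MvPolynomial.eval x (MvPowerSeries.truncTotal k (G i)))
    (fun i => (hG i).bdd) (fun i => tc_poly_bdd _) (fun i => hG i k)).2
  have hs := MvPowerSeries.truncTotal_subst (a := G) (f := F) (k := k) hG0
  set Q : MvPolynomial κ ℂ := MvPolynomial.bind₁ (fun i => MvPowerSeries.truncTotal k (G i))
    (MvPowerSeries.truncTotal k F) with hQ
  have hQ2 : MvPowerSeries.subst (fun i => ((MvPowerSeries.truncTotal k (G i) :
      MvPolynomial κ ℂ) : MvPowerSeries κ ℂ)) ((MvPowerSeries.truncTotal k F :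
      MvPolynomial ι ℂ) : MvPowerSeries ι ℂ) = (Q : MvPowerSeries κ ℂ) := by
    rw [MvPowerSeries.subst_coe, hQ, MvPolynomial.bind₁]
    have h5 := MvPolynomial.comp_aeval_apply (fun i => MvPowerSeries.truncTotal k (G i))
      (MvPolynomial.coeToMvPowerSeries.algHom (R := ℂ) (σ := κ) ℂ) (MvPowerSeries.truncTotal k F)
    simpa [MvPolynomial.coeToMvPowerSeries.algHom_apply] using h5.symm
  have h3 := tc_poly_isBigO (Q - MvPowerSeries.truncTotal k (MvPowerSeries.subst G F)) k (by
      intro e he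
      rw [hs, hQ2, MvPolynomial.coeff_sub, MvPowerSeries.coeff_truncTotal _ he,
        MvPolynomial.coeff_coe, sub_self])
  refine ((h1.add h2).add h3).congr_left fun x => ?_
  rw [map_sub, hQ]
  have h4 : MvPolynomial.eval x (MvPolynomial.bind₁ (fun i => MvPowerSeries.truncTotal k (G i))
      (MvPowerSeries.truncTotal k F)) = MvPolynomial.eval (fun i => MvPolynomial.eval x
      (MvPowerSeries.truncTotal k (G i))) (MvPowerSeries.truncTotal k F) := by
    rw [← MvPolynomial.aeval_eq_eval, MvPolynomial.aeval_bind₁]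
    rfl
  rw [h4]
  ring

end Pool.Agent.Results.MP_51bf1a_an.JetDet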