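import Pool.Agent.Helper706.JD.Taylor

set_option autoImplicit false

open scoped Topology ContDiff
open Set Filter Complex

namespace Pool.Agent.Results.MP_51bf1a_an.JetDet
theorem hasDerivAt_eval_line {ι : Type*} [Fintype ι] [DecidableEq ι] (i : ι) (x : ι → ℂ)
    (P : MvPolynomial ι ℂ) :
    HasDerivAt (fun t : ℂ => MvPolynomial.eval (x + t • Pi.single i 1) P)
      (MvPolynomial.eval x (MvPolynomial.pderiv i P)) 0 := by
  induction P using MvPolynomial.induction_on with
  | C a =>
    simp only [MvPolynomial.eval_C, MvPolynomial.pderiv_C, map_zero]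
    exact hasDerivAt_const _ _
  | add p q hp hq =>
    simp only [map_add]
    exact hp.add hq
  | mul_X p j hp =>
    have hX : HasDerivAt (fun t : ℂ => (x + t • (Pi.single i 1 : ι → ℂ)) j)
        ((Pi.single i 1 : ι → ℂ) j) 0 := by
      have h1 : HasDerivAt (fun t : ℂ => x j + t * (Pi.single i 1 : ι → ℂ) j)
          (1 * (Pi.single i 1 : ι → ℂ) j) 0 :=
        ((hasDerivAt_id (0 : ℂ)).mul_const _).const_add _
      simpa using h1
    have h := hp.mul hX
    have hfun : (fun t : ℂ => MvPolynomial.eval (x + t • Pi.single i 1) (p * MvPolynomial.X j)) =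
        ((fun t : ℂ => MvPolynomial.eval (x + t • Pi.single i 1) p) *
          fun t : ℂ => (x + t • (Pi.single i 1 : ι → ℂ)) j) := by
      funext t
      rw [Pi.mul_apply, map_mul, MvPolynomial.eval_X]
    rw [hfun]
    refine h.congr_deriv ?_
    rw [MvPolynomial.pderiv_mul, map_add, map_mul, map_mul, MvPolynomial.eval_X,
      MvPolynomial.pderiv_X]
    by_cases hj : i = j
    · subst hj; simp
    · have hj' : ¬ (j = i) := fun h => hj h.symm
      simp [hj']

theorem truncTotal_pderiv {ι : Type*} [Fintype ι] [DecidableEq ι] (F : MvPowerSeries ι ℂ)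
    (i : ι) (k : ℕ) :
    MvPowerSeries.truncTotal k (MvPowerSeries.pderiv ℂ i F) =
      MvPolynomial.pderiv i (MvPowerSeries.truncTotal (k + 1) F) := by
  ext m
  rw [MvPolynomial.coeff_pderiv, MvPowerSeries.coeff_truncTotal_eq_ite,
    MvPowerSeries.coeff_truncTotal_eq_ite, MvPowerSeries.coeff_pderiv]
  have hd : (m + Finsupp.single i 1).degree = m.degree + 1 := by
    rw [map_add, Finsupp.degree_single]
  rw [hd]
  by_cases h : m.degree < k
  · rw [if_pos h, if_pos (by omega)]
  · rw [if_neg h, if_neg (by omega), zero_mul]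

/-- The Taylor series of a partial derivative is the partial derivative of the Taylor series. -/
theorem IsTaylor.pderiv {ι : Type*} [Fintype ι] [DecidableEq ι] {f : (ι → ℂ) → ℂ}
    {F : MvPowerSeries ι ℂ} (hf : AnalyticAt ℂ f 0) (hF : IsTaylor f F) (i : ι) :
    IsTaylor (fun x => fderiv ℂ f x (Pi.single i 1)) (MvPowerSeries.pderiv ℂ i F) := by
  intro k
  set P : MvPolynomial ι ℂ := MvPowerSeries.truncTotal (k + 1) F with hP
  set g : (ι → ℂ) → ℂ := fun x => f x - MvPolynomial.eval x P with hg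
  set e : ι → ℂ := Pi.single i 1 with he
  have hPan : ∀ x, AnalyticAt ℂ (fun x : ι → ℂ => MvPolynomial.eval x P) x := by
    intro x
    exact AnalyticOnNhd.eval_mvPolynomial P x (mem_univ x)
  have hgan : AnalyticAt ℂ g 0 := hf.sub (hPan 0)
  have henorm : ‖e‖ = 1 := by
    rw [he, Pi.norm_single, norm_one]
  have hev := hgan.eventually_analyticAt
  have hfev := hf.eventually_analyticAt
  obtain ⟨C, hC0, hC⟩ := (hF (k + 1)).exists_pos
  have hC' := hC.bound
  obtain ⟨r, hr0, hr⟩ := Metric.eventually_nhds_iff.1 (hev.and (hfev.and hC'))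
  -- the derivative of g
  have hderiv : ∀ x : ι → ℂ, ‖x‖ < r →
      fderiv ℂ f x e - MvPolynomial.eval x (MvPowerSeries.truncTotal k (MvPowerSeries.pderiv ℂ i F))
        = fderiv ℂ g x e := by
    intro x hx
    have h1 := (hr (y := x) (by simpa using hx)).2.1
    have h2 : fderiv ℂ (fun x : ι → ℂ => MvPolynomial.eval x P) x e =
        MvPolynomial.eval x (MvPolynomial.pderiv i P) := by
      have h3 : HasDerivAt (fun t : ℂ => MvPolynomial.eval (x + t • e) P)
          (fderiv ℂ (fun x : ι → ℂ => MvPolynomial.eval x P) x e) 0 := by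
        have hd : HasFDerivAt (fun x : ι → ℂ => MvPolynomial.eval x P)
          (fderiv ℂ (fun x : ι → ℂ => MvPolynomial.eval x P) x) x :=
          (hPan x).differentiableAt.hasFDerivAt
        exact hd.hasLineDerivAt e
      exact h3.unique (hasDerivAt_eval_line i x P)
    rw [truncTotal_pderiv, ← hP, ← h2, hg]
    rw [fderiv_fun_sub h1.differentiableAt (hPan x).differentiableAt]
    rfl
  -- Cauchy estimate
  have hcauchy : ∀ x : ι → ℂ, x ≠ 0 → ‖x‖ < r / 2 →
      ‖fderiv ℂ g x e‖ ≤ C * 2 ^ (k + 1) * ‖x‖ ^ k := by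
    intro x hx0 hx
    have hxpos : 0 < ‖x‖ := norm_pos_iff.2 hx0
    have hline : ∀ t : ℂ, ‖t‖ ≤ ‖x‖ → ‖x + t • e‖ ≤ 2 * ‖x‖ := by
      intro t ht
      calc ‖x + t • e‖ ≤ ‖x‖ + ‖t • e‖ := norm_add_le _ _
        _ = ‖x‖ + ‖t‖ := by rw [norm_smul, henorm, mul_one]
        _ ≤ 2 * ‖x‖ := by linarith
    have hdiff : ∀ t : ℂ, ‖t‖ ≤ ‖x‖ → DifferentiableAt ℂ (fun t : ℂ => g (x + t • e)) t := by
      intro t ht
      have h1 : AnalyticAt ℂ g (x + t • e) :=
        (hr (y := x + t • e) (by simpa using lt_of_le_of_lt (hline t ht) (by linarith))).1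
      have h2 : DifferentiableAt ℂ (fun t : ℂ => x + t • e) t :=
        (differentiableAt_id.smul_const e).const_add x
      exact DifferentiableAt.comp t h1.differentiableAt h2
    have hdc : DiffContOnCl ℂ (fun t : ℂ => g (x + t • e)) (Metric.ball 0 ‖x‖) := by
      apply DifferentiableOn.diffContOnCl
      intro t ht
      rw [closure_ball (0 : ℂ) hxpos.ne'] at ht
      have ht' : ‖t‖ ≤ ‖x‖ := by simpa using ht
      exact (hdiff t ht').differentiableWithinAt
    have hb : ∀ z ∈ Metric.sphere (0 : ℂ) ‖x‖, ‖g (x + z • e)‖ ≤ C * (2 * ‖x‖) ^ (k + 1) := by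
      intro z hz
      have hz' : ‖z‖ ≤ ‖x‖ := by
        have : ‖z‖ = ‖x‖ := by simpa using hz
        exact this.le
      have h1 := (hr (y := x + z • e)
        (by simpa using lt_of_le_of_lt (hline z hz') (by linarith))).2.2
      calc ‖g (x + z • e)‖ ≤ C * ‖‖x + z • e‖ ^ (k + 1)‖ := h1
        _ = C * ‖x + z • e‖ ^ (k + 1) := by rw [norm_pow, norm_norm]
        _ ≤ C * (2 * ‖x‖) ^ (k + 1) := by
            have := hline z hz'
            gcongr
    have hc := norm_deriv_le_of_forall_mem_sphere_norm_le hxpos hdc hb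
    have hd : deriv (fun t : ℂ => g (x + t • e)) 0 = fderiv ℂ g x e := by
      have h1 : AnalyticAt ℂ g x := (hr (y := x) (by simpa using (by linarith : ‖x‖ < r))).1
      exact (h1.differentiableAt.hasFDerivAt.hasLineDerivAt e).deriv
    rw [hd] at hc
    refine hc.trans (le_of_eq ?_)
    rw [mul_pow]
    field_simp
    ring
  have hcauchy0 : ‖fderiv ℂ g 0 e‖ ≤ C * 2 ^ (k + 1) * ‖(0 : ι → ℂ)‖ ^ k := by
    have hcont : ContinuousAt (fun x : ι → ℂ => ‖fderiv ℂ g x e‖) 0 :=
      ((hgan.fderiv.continuousAt).clm_apply continuousAt_const).norm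
    have hcont2 : ContinuousAt (fun x : ι → ℂ => C * 2 ^ (k + 1) * ‖x‖ ^ k) 0 := by
      fun_prop
    have hne : (𝓝[≠] (0 : ι → ℂ)).NeBot := by
      have : Nontrivial (ι → ℂ) := ⟨⟨e, 0, by
        intro h
        rw [h, norm_zero] at henorm
        exact zero_ne_one henorm⟩⟩
      exact Module.punctured_nhds_neBot ℂ (ι → ℂ) 0
    apply le_of_tendsto_of_tendsto (hcont.tendsto.mono_left nhdsWithin_le_nhds)
      (hcont2.tendsto.mono_left nhdsWithin_le_nhds) (b := 𝓝[≠] 0)
    have hball : Metric.ball (0 : ι → ℂ) (r / 2) ∈ 𝓝 (0 : ι → ℂ) :=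
      Metric.ball_mem_nhds _ (by linarith)
    filter_upwards [self_mem_nhdsWithin, mem_nhdsWithin_of_mem_nhds hball] with x hx hx2
    exact hcauchy x hx (by simpa using hx2)
  apply Asymptotics.IsBigO.of_bound (C * 2 ^ (k + 1))
  have hball : Metric.ball (0 : ι → ℂ) (r / 2) ∈ 𝓝 (0 : ι → ℂ) :=
    Metric.ball_mem_nhds _ (by linarith)
  filter_upwards [hball] with x hx
  have hx' : ‖x‖ < r / 2 := by simpa using hx
  rw [hderiv x (by linarith), norm_pow, norm_norm]
  by_cases hx0 : x = 0
  · rw [hx0]; exact hcauchy0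
  · exact hcauchy x hx0 hx'

end Pool.Agent.Results.MP_51bf1a_an.JetDet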