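import Pool.Agent.Helper706.JD.ChartDefs
import Pool.Agent.Helper706.JD.A1
import Pool.Agent.Helper706.JD.A2
import Pool.Agent.Helper706.JD.A3

set_option autoImplicit false

open scoped Topology ContDiff ComplexConjugate
open Set Filter Complex

namespace Pool.Agent.Results.MP_51bf1a_an.JetDet

/-! ### more Taylor calculus -/

theorem IsTaylor.congr {ι : Type*} [Fintype ι] {f g : (ι → ℂ) → ℂ} {F : MvPowerSeries ι ℂ}
    (hF : IsTaylor f F) (h : f =ᶠ[𝓝 0] g) : IsTaylor g F := by
  intro k
  refine (hF k).congr' ?_ Filter.EventuallyEq.rfl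
  filter_upwards [h] with x hx
  rw [hx]

theorem IsTaylor.add {ι : Type*} [Fintype ι] {f g : (ι → ℂ) → ℂ} {F G : MvPowerSeries ι ℂ}
    (hF : IsTaylor f F) (hG : IsTaylor g G) : IsTaylor (fun x => f x + g x) (F + G) := by
  intro k
  refine ((hF k).add (hG k)).congr_left fun x => ?_
  rw [map_add, map_add]
  ring

theorem IsTaylor.sub {ι : Type*} [Fintype ι] {f g : (ι → ℂ) → ℂ} {F G : MvPowerSeries ι ℂ}
    (hF : IsTaylor f F) (hG : IsTaylor g G) : IsTaylor (fun x => f x - g x) (F - G) := by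
  intro k
  refine ((hF k).sub (hG k)).congr_left fun x => ?_
  rw [map_sub, map_sub]
  ring

theorem IsTaylor.sum {ι α : Type*} [Fintype ι] (s : Finset α) {f : α → (ι → ℂ) → ℂ}
    {F : α → MvPowerSeries ι ℂ} (hF : ∀ a ∈ s, IsTaylor (f a) (F a)) :
    IsTaylor (fun x => ∑ a ∈ s, f a x) (∑ a ∈ s, F a) := by
  intro k
  have h := Asymptotics.IsBigO.sum (fun a ha => hF a ha k)
  refine h.congr_left fun x => ?_
  rw [map_sum, map_sum, Finset.sum_apply, Finset.sum_sub_distrib]

theorem IsTaylor.conj {ι : Type*} [Fintype ι] {f : (ι → ℂ) → ℂ} {F : MvPowerSeries ι ℂ}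
    (hF : IsTaylor f F) :
    IsTaylor (fun x => conj (f (cj x))) (MvPowerSeries.map (starRingEnd ℂ) F) := by
  intro k
  have htr : MvPowerSeries.truncTotal k (MvPowerSeries.map (starRingEnd ℂ) F) =
      MvPolynomial.map (starRingEnd ℂ) (MvPowerSeries.truncTotal k F) := by
    ext d
    rw [MvPowerSeries.coeff_truncTotal_eq_ite, MvPolynomial.coeff_map,
      MvPowerSeries.coeff_truncTotal_eq_ite, MvPowerSeries.coeff_map]
    split_ifs <;> simp
  have hev : ∀ x : ι → ℂ, MvPolynomial.eval x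
      (MvPolynomial.map (starRingEnd ℂ) (MvPowerSeries.truncTotal k F)) =
      conj (MvPolynomial.eval (cj x) (MvPowerSeries.truncTotal k F)) := by
    intro x
    rw [MvPolynomial.eval_map, MvPolynomial.eval, MvPolynomial.coe_eval₂Hom,
      MvPolynomial.eval₂_comp_left]
    congr 1
    funext i
    simp [cj]
  have hcont : Continuous (cj : (ι → ℂ) → (ι → ℂ)) := by
    unfold cj
    exact continuous_pi fun i => Complex.continuous_conj.comp (continuous_apply i)
  have ht : Tendsto (cj : (ι → ℂ) → (ι → ℂ)) (𝓝 0) (𝓝 0) := by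
    have h0 : cj (0 : ι → ℂ) = 0 := by funext i; simp [cj]
    have := hcont.tendsto 0
    rwa [h0] at this
  have hnorm : ∀ x : ι → ℂ, ‖cj x‖ = ‖x‖ := by
    intro x
    have hb : ∀ b, ‖(starRingEnd ℂ) (x b)‖₊ = ‖x b‖₊ := fun b =>
      NNReal.eq (RCLike.norm_conj (x b))
    simp only [Pi.norm_def, cj, hb]
  have h := (hF k).comp_tendsto ht
  rw [← Asymptotics.isBigO_norm_norm] at h ⊢
  refine h.congr (fun x => ?_) (fun x => ?_)
  · simp only [Function.comp_apply]
    rw [htr, hev, ← map_sub, RCLike.norm_conj]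
  · simp only [Function.comp_apply]
    rw [hnorm]

theorem IsTaylor.constantCoeff {ι : Type*} [Fintype ι] {f : (ι → ℂ) → ℂ} {F : MvPowerSeries ι ℂ}
    (hF : IsTaylor f F) : MvPowerSeries.constantCoeff F = f 0 := by
  obtain ⟨C, hC⟩ := (hF 1).bound
  have h0 := hC.self_of_nhds
  simp only [norm_zero, pow_one, mul_zero] at h0
  have h1 : f 0 - MvPolynomial.eval 0 (MvPowerSeries.truncTotal 1 F) = 0 := norm_le_zero_iff.1 h0
  have h2 : MvPolynomial.eval (0 : ι → ℂ) (MvPowerSeries.truncTotal 1 F) =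
      MvPowerSeries.constantCoeff F := by
    rw [MvPolynomial.eval_zero, MvPowerSeries.constantCoeff_truncTotal_eq_ite, if_pos one_pos]
  rw [← h2]
  exact (sub_eq_zero.1 h1).symm

private theorem a4_eval_smul {ι : Type*} [Fintype ι] {P : MvPolynomial ι ℂ} {j : ℕ}
    (hP : ∀ d, d.degree ≠ j → P.coeff d = 0) (t : ℂ) (x : ι → ℂ) :
    MvPolynomial.eval (t • x) P = t ^ j * MvPolynomial.eval x P := by
  rw [MvPolynomial.eval_eq', MvPolynomial.eval_eq', Finset.mul_sum]
  refine Finset.sum_congr rfl fun d hd => ?_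
  have hdj : d.degree = j := by
    by_contra h
    exact (MvPolynomial.mem_support_iff.1 hd) (hP d h)
  have : ∏ i, (t • x) i ^ d i = t ^ j * ∏ i, x i ^ d i := by
    simp only [Pi.smul_apply, smul_eq_mul, mul_pow]
    rw [Finset.prod_mul_distrib, Finset.prod_pow_eq_pow_sum, ← hdj, Finsupp.degree_eq_sum]
  rw [this]
  ring

/-- flatness to order `m` of the function gives the order of the Taylor series -/
theorem IsTaylor.order_of_isBigO {ι : Type*} [Fintype ι] {f : (ι → ℂ) → ℂ} {F : MvPowerSeries ι ℂ}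
    (hF : IsTaylor f F) {m : ℕ} (h : f =O[𝓝 0] (fun x : ι → ℂ => ‖x‖ ^ m)) :
    (m : ℕ∞) ≤ F.order := by
  have key : ∀ j, j ≤ m → ∀ d : ι →₀ ℕ, d.degree < j → MvPowerSeries.coeff d F = 0 := by
    intro j
    induction j with
    | zero => intro _ d hd; exact absurd hd (Nat.not_lt_zero _)
    | succ j ih =>
      intro hj d hd
      have ih' := ih (by omega)
      set P := MvPowerSeries.truncTotal (j + 1) F with hPdef
      have hP : ∀ d : ι →₀ ℕ, d.degree ≠ j → P.coeff d = 0 := by
        intro d hd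
        rw [hPdef, MvPowerSeries.coeff_truncTotal_eq_ite]
        split_ifs with hlt
        · exact ih' d (by omega)
        · rfl
      have hf : f =O[𝓝 0] (fun x : ι → ℂ => ‖x‖ ^ (j + 1)) := by
        refine h.trans ?_
        refine Asymptotics.IsBigO.of_bound 1 ?_
        filter_upwards [Metric.ball_mem_nhds (0 : ι → ℂ) one_pos] with x hx
        have hx1 : ‖x‖ ≤ 1 := (mem_ball_zero_iff.1 hx).le
        rw [one_mul, norm_pow, norm_pow, norm_norm]
        exact pow_le_pow_of_le_one (norm_nonneg _) hx1 hj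
      have hPO : (fun x => MvPolynomial.eval x P) =O[𝓝 0] (fun x : ι → ℂ => ‖x‖ ^ (j + 1)) := by
        refine (hf.sub (hF (j + 1))).congr_left fun x => ?_
        ring
      obtain ⟨C, hC⟩ := hPO.bound
      have hP0 : ∀ x, MvPolynomial.eval x P = 0 := by
        intro x
        have ht : Tendsto (fun t : ℂ => t • x) (𝓝[≠] 0) (𝓝 0) := by
          have : Tendsto (fun t : ℂ => t • x) (𝓝 0) (𝓝 ((0 : ℂ) • x)) :=
            (continuous_id.smul continuous_const).tendsto 0
          rw [zero_smul] at this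
          exact this.mono_left nhdsWithin_le_nhds
        have h1 := ht.eventually hC
        have h2 : ∀ᶠ t : ℂ in 𝓝[≠] 0, ‖MvPolynomial.eval x P‖ ≤ C * (‖t‖ * ‖x‖ ^ (j + 1)) := by
          filter_upwards [h1, self_mem_nhdsWithin] with t ht1 ht2
          rw [a4_eval_smul hP, norm_mul, norm_pow, norm_pow, norm_norm, norm_smul, mul_pow,
            pow_succ ‖t‖] at ht1
          have ht0 : 0 < ‖t‖ ^ j := pow_pos (norm_pos_iff.2 ht2) _
          refine le_of_mul_le_mul_left ?_ ht0
          calc ‖t‖ ^ j * ‖MvPolynomial.eval x P‖ ≤ C * (‖t‖ ^ j * ‖t‖ * ‖x‖ ^ (j + 1)) := ht1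
            _ = _ := by ring
        have h3 : Tendsto (fun t : ℂ => C * (‖t‖ * ‖x‖ ^ (j + 1))) (𝓝[≠] 0) (𝓝 0) := by
          have : Tendsto (fun t : ℂ => C * (‖t‖ * ‖x‖ ^ (j + 1))) (𝓝 0)
              (𝓝 (C * (‖(0 : ℂ)‖ * ‖x‖ ^ (j + 1)))) :=
            (continuous_const.mul (continuous_norm.mul continuous_const)).tendsto 0
          simp only [norm_zero, zero_mul, mul_zero] at this
          exact this.mono_left nhdsWithin_le_nhds
        have h4 := ge_of_tendsto h3 h2
        exact norm_le_zero_iff.1 h4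
      have hPz : P = 0 := MvPolynomial.funext fun x => by rw [hP0 x, map_zero]
      have := MvPowerSeries.coeff_truncTotal F hd
      rw [← this, ← hPdef, hPz, MvPolynomial.coeff_zero]
  exact MvPowerSeries.nat_le_order (key m le_rfl)

end Pool.Agent.Results.MP_51bf1a_an.JetDet
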