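import Pool.Agent.Helper706.JD.ChartDefs

set_option autoImplicit false

open scoped Topology ContDiff ComplexConjugate
open Set Filter Complex

namespace Pool.Agent.Results.MP_51bf1a_an.JetDet

/-- holomorphic vector fields on the complexification: iterated brackets of the fields `∂/∂x_j`
and of their reflections -/
inductive AIter {N n d : ℕ} {M : Set (Fin N → ℂ)} {p : Fin N → ℂ} (c : Chart n d M p) :
    ((SI n d → ℂ) → (SI n d → ℂ)) → Prop
  | L (j : Fin n) : AIter c (fun _ => Sum.elim (Pi.single j 1) 0)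
  | L' (j : Fin n) : AIter c (fun s => Sum.elim 0 (Sum.elim (Pi.single j 1)
      (fderiv ℂ (c.q false) (flipE (c.q true) s) (Pi.single (Sum.inl j) 1))))
  | bracket (Y Y' : (SI n d → ℂ) → (SI n d → ℂ)) (hY : AIter c Y) (hY' : AIter c Y') :
      AIter c (fun s => fderiv ℂ Y' s (Y s) - fderiv ℂ Y s (Y' s))

end Pool.Agent.Results.MP_51bf1a_an.JetDet
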