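import Mathlib

set_option autoImplicit false

open scoped Topology ContDiff ComplexConjugate
open Set Filter Complex

namespace Pool.Agent.Results.MP_51bf1a_an.JetDet
section Cplx

variable {ι : Type*} [Fintype ι]

open Classical in
/-- The real basis vectors of `ℂᴺ`. -/
noncomputable def cE (r : ι × Bool) : ι → ℂ := Pi.single r.1 (cond r.2 1 I)

/-- The real coordinates. -/
noncomputable def cC (r : ι × Bool) (y : ι → ℂ) : ℝ := cond r.2 (y r.1).re (y r.1).im

/-- The complexified coordinates. -/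
noncomputable def cL (r : ι × Bool) : ((ι → ℂ) × (ι → ℂ)) →L[ℂ] ℂ :=
  cond r.2
    ((1 / 2 : ℂ) • ((ContinuousLinearMap.proj r.1).comp (ContinuousLinearMap.fst ℂ (ι → ℂ) (ι → ℂ)) +
      (ContinuousLinearMap.proj r.1).comp (ContinuousLinearMap.snd ℂ (ι → ℂ) (ι → ℂ))))
    ((1 / (2 * I) : ℂ) •
      ((ContinuousLinearMap.proj r.1).comp (ContinuousLinearMap.fst ℂ (ι → ℂ) (ι → ℂ)) -
      (ContinuousLinearMap.proj r.1).comp (ContinuousLinearMap.snd ℂ (ι → ℂ) (ι → ℂ))))

theorem norm_cE_le (r : ι × Bool) : ‖cE r‖ ≤ 1 := by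
  classical
  rw [pi_norm_le_iff_of_nonneg zero_le_one]
  intro i
  unfold cE
  rcases eq_or_ne i r.1 with h | h
  · subst h
    rw [Pi.single_eq_same]
    cases r.2 <;> simp
  · rw [Pi.single_eq_of_ne h]
    simp

theorem norm_cL_le (r : ι × Bool) : ‖cL r‖ ≤ 1 := by
  apply ContinuousLinearMap.opNorm_le_bound _ zero_le_one
  rintro ⟨a, b⟩
  have ha : ‖a r.1‖ ≤ ‖(a, b)‖ := (norm_le_pi_norm a r.1).trans (norm_fst_le (a, b))
  have hb : ‖b r.1‖ ≤ ‖(a, b)‖ := (norm_le_pi_norm b r.1).trans (norm_snd_le (a, b))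
  unfold cL
  cases r.2
  · simp only [cond_false, ContinuousLinearMap.smul_apply, ContinuousLinearMap.sub_apply,
      ContinuousLinearMap.comp_apply, ContinuousLinearMap.proj_apply,
      ContinuousLinearMap.coe_fst', ContinuousLinearMap.coe_snd', smul_eq_mul, norm_mul, one_mul]
    have h1 : ‖(1 / (2 * I) : ℂ)‖ = 1 / 2 := by simp
    rw [h1]
    have := norm_sub_le (a r.1) (b r.1)
    linarith
  · simp only [cond_true, ContinuousLinearMap.smul_apply, ContinuousLinearMap.add_apply,
      ContinuousLinearMap.comp_apply, ContinuousLinearMap.proj_apply,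
      ContinuousLinearMap.coe_fst', ContinuousLinearMap.coe_snd', smul_eq_mul, norm_mul, one_mul]
    have h1 : ‖(1 / 2 : ℂ)‖ = 1 / 2 := by simp
    rw [h1]
    have := norm_add_le (a r.1) (b r.1)
    linarith

theorem cL_conj (r : ι × Bool) (y : ι → ℂ) : cL r (y, fun i => conj (y i)) = (cC r y : ℂ) := by
  unfold cL cC
  cases r.2
  · simp only [cond_false, ContinuousLinearMap.smul_apply, ContinuousLinearMap.sub_apply,
      ContinuousLinearMap.comp_apply, ContinuousLinearMap.proj_apply,
      ContinuousLinearMap.coe_fst', ContinuousLinearMap.coe_snd', smul_eq_mul]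
    rw [Complex.sub_conj]
    have : (2 * I : ℂ) ≠ 0 := by simp
    field_simp
    push_cast
    ring
  · simp only [cond_true, ContinuousLinearMap.smul_apply, ContinuousLinearMap.add_apply,
      ContinuousLinearMap.comp_apply, ContinuousLinearMap.proj_apply,
      ContinuousLinearMap.coe_fst', ContinuousLinearMap.coe_snd', smul_eq_mul]
    rw [Complex.add_conj]
    push_cast
    ring

theorem sum_cE (y : ι → ℂ) : ∑ r : ι × Bool, (cC r y) • cE r = y := by
  classical
  rw [Fintype.sum_prod_type]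
  ext i
  simp only [Fintype.sum_bool, Finset.sum_apply, Pi.add_apply, Pi.smul_apply]
  rw [Finset.sum_eq_single i]
  · simp [cE, cC]
  · intro j _ hj
    simp [cE, Pi.single_eq_of_ne hj.symm]
  · simp

/-- The complexified power series. -/
noncomputable def cplx (p : FormalMultilinearSeries ℝ (ι → ℂ) ℂ) :
    FormalMultilinearSeries ℂ ((ι → ℂ) × (ι → ℂ)) ℂ := fun n =>
  ∑ r : Fin n → ι × Bool, (p n fun l => cE (r l)) •
    (ContinuousMultilinearMap.mkPiAlgebra ℂ (Fin n) ℂ).compContinuousLinearMap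
      (fun l => cL (r l))

theorem cplx_apply (p : FormalMultilinearSeries ℝ (ι → ℂ) ℂ) (n : ℕ) (y : ι → ℂ) :
    cplx p n (fun _ => (y, fun i => conj (y i))) = p n fun _ => y := by
  have h1 : (p n fun _ => y) = p n fun _ => ∑ r : ι × Bool, (cC r y) • cE r := by
    rw [sum_cE]
  rw [h1, ContinuousMultilinearMap.map_sum]
  unfold cplx
  rw [ContinuousMultilinearMap.sum_apply]
  refine Finset.sum_congr rfl fun r _ => ?_
  rw [ContinuousMultilinearMap.map_smul_univ, ContinuousMultilinearMap.smul_apply,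
    ContinuousMultilinearMap.compContinuousLinearMap_apply,
    ContinuousMultilinearMap.mkPiAlgebra_apply]
  simp only [cL_conj]
  rw [smul_eq_mul, Complex.real_smul, mul_comm]
  push_cast
  rfl

theorem norm_cplx_le (p : FormalMultilinearSeries ℝ (ι → ℂ) ℂ) (n : ℕ) :
    ‖cplx p n‖ ≤ (Fintype.card (ι × Bool) : ℝ) ^ n * ‖p n‖ := by
  unfold cplx
  refine (norm_sum_le _ _).trans ?_
  have h : ∀ r : Fin n → ι × Bool, ‖(p n fun l => cE (r l)) •
      (ContinuousMultilinearMap.mkPiAlgebra ℂ (Fin n) ℂ).compContinuousLinearMap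
      (fun l => cL (r l))‖ ≤ ‖p n‖ := by
    intro r
    rw [norm_smul]
    have h1 : ‖p n fun l => cE (r l)‖ ≤ ‖p n‖ := by
      refine (ContinuousMultilinearMap.le_opNorm _ _).trans ?_
      refine mul_le_of_le_one_right (norm_nonneg _) ?_
      exact Finset.prod_le_one (fun _ _ => norm_nonneg _) fun l _ => norm_cE_le _
    have h2 : ‖(ContinuousMultilinearMap.mkPiAlgebra ℂ (Fin n) ℂ).compContinuousLinearMap
        (fun l => cL (r l))‖ ≤ 1 := by
      refine (ContinuousMultilinearMap.norm_compContinuousLinearMap_le _ _).trans ?_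
      rw [ContinuousMultilinearMap.norm_mkPiAlgebra, one_mul]
      exact Finset.prod_le_one (fun _ _ => norm_nonneg _) fun l _ => norm_cL_le _
    calc _ ≤ ‖p n‖ * 1 := by gcongr
      _ = ‖p n‖ := mul_one _
  refine (Finset.sum_le_sum fun r _ => h r).trans ?_
  rw [Finset.sum_const, nsmul_eq_mul, Finset.card_univ, Fintype.card_fun, Fintype.card_fin]
  push_cast
  rfl

theorem cplx_radius_pos (p : FormalMultilinearSeries ℝ (ι → ℂ) ℂ) (hp : 0 < p.radius) :
    0 < (cplx p).radius := by
  obtain ⟨r, hr0, hr⟩ := ENNReal.lt_iff_exists_nnreal_btwn.1 hp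
  obtain ⟨C, hC0, hC⟩ := p.norm_mul_pow_le_of_lt_radius hr
  have hr0' : 0 < r := by exact_mod_cast hr0
  set K : NNReal := (Fintype.card (ι × Bool) : NNReal) + 1 with hK
  have hKpos : 0 < K := by positivity
  have hle : ((r / K : NNReal) : ENNReal) ≤ (cplx p).radius := by
    apply FormalMultilinearSeries.le_radius_of_bound _ C
    intro n
    calc ‖cplx p n‖ * ((r / K : NNReal) : ℝ) ^ n
        ≤ ((Fintype.card (ι × Bool) : ℝ) ^ n * ‖p n‖) * ((r / K : NNReal) : ℝ) ^ n := by
          gcongr; exact norm_cplx_le p n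
      _ = (‖p n‖ * (r : ℝ) ^ n) * ((Fintype.card (ι × Bool) : ℝ) / (K : ℝ)) ^ n := by
          rw [NNReal.coe_div, div_pow, div_pow]; ring
      _ ≤ (‖p n‖ * (r : ℝ) ^ n) * 1 := by
          apply mul_le_mul_of_nonneg_left _ (by positivity)
          apply pow_le_one₀ (by positivity)
          rw [div_le_one (by exact_mod_cast hKpos), hK]
          push_cast
          linarith
      _ ≤ C := by rw [mul_one]; exact hC n
  refine lt_of_lt_of_le ?_ hle
  have : 0 < r / K := div_pos hr0' hKpos
  exact_mod_cast this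

end Cplx

/-- A real-analytic function on `ℂᴺ` is, locally, the restriction to the antidiagonal
`{(x, conj x)}` of a holomorphic function of `2N` variables. -/
theorem exists_complexification {ι : Type*} [Fintype ι] {f : (ι → ℂ) → ℂ} {q : ι → ℂ}
    (hf : AnalyticAt ℝ f q) :
    ∃ F : (ι → ℂ) × (ι → ℂ) → ℂ, AnalyticAt ℂ F (q, fun i => conj (q i)) ∧
      ∀ᶠ x in 𝓝 q, F (x, fun i => conj (x i)) = f x := by
  obtain ⟨p, hp⟩ := hf
  have hpos : 0 < p.radius := hp.radius_pos
  have hP := (cplx p).hasFPowerSeriesOnBall (cplx_radius_pos p hpos)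
  refine ⟨fun w => (cplx p).sum (w - (q, fun i => conj (q i))), ?_, ?_⟩
  · exact hP.analyticAt.comp_of_eq (analyticAt_id.sub analyticAt_const) (by simp)
  · filter_upwards [hp.eventually_hasSum_sub] with x hx
    rw [← hx.tsum_eq]
    show ∑' n, cplx p n (fun _ => (x, fun i => conj (x i)) - (q, fun i => conj (q i))) = _
    refine tsum_congr fun n => ?_
    rw [← cplx_apply]
    congr 1
    funext _
    ext i
    · rfl
    · simp
      
end Pool.Agent.Results.MP_51bf1a_an.JetDet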