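import Mathlib

set_option autoImplicit false

open scoped Topology ContDiff ComplexConjugate
open Set Filter Complex

namespace Pool.Agent.Results.MP_51bf1a_an.JetDet
theorem real_identity {J : Type*} [Fintype J] {G : (J → ℂ) → ℂ} (hG : AnalyticAt ℂ G 0)
    (h : ∀ᶠ x : J → ℂ in 𝓝 0, (∀ j, (x j).im = 0) → G x = 0) : ∀ᶠ x in 𝓝 0, G x = 0 := by
  classical
  have h1 : ∀ᶠ x in 𝓝 (0 : J → ℂ), AnalyticAt ℂ G x := hG.eventually_analyticAt
  obtain ⟨r, hr, hball⟩ := Metric.eventually_nhds_iff_ball.mp (h1.and h)
  have key : ∀ S : Finset J, ∀ x ∈ Metric.ball (0 : J → ℂ) r,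
      (∀ j, j ∉ S → (x j).im = 0) → G x = 0 := by
    intro S
    induction S using Finset.induction_on with
    | empty =>
      intro x hx hre
      exact (hball x hx).2 (fun j => hre j (by simp))
    | insert j S hj ih =>
      intro x hx hre
      have hupd : ∀ t ∈ Metric.ball (0:ℂ) r,
          Function.update x j t ∈ Metric.ball (0 : J → ℂ) r := by
        intro t ht
        rw [mem_ball_zero_iff] at *
        rw [pi_norm_lt_iff hr] at *
        intro i
        by_cases hij : i = j
        · subst hij; simpa using ht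
        · rw [Function.update_of_ne hij]; exact hx i
      have hg : AnalyticOnNhd ℂ (fun t => G (Function.update x j t)) (Metric.ball (0:ℂ) r) := by
        intro t ht
        have h2 := (hball _ (hupd t ht)).1
        have h3 : (fun t : ℂ => Function.update x j t)
            = fun t : ℂ => x + (t - x j) • (Pi.single j (1:ℂ) : J → ℂ) := by
          funext t
          ext i
          by_cases hij : i = j
          · subst hij; simp
          · simp [Function.update_of_ne hij, Pi.single_eq_of_ne hij]
        have h4 : AnalyticAt ℂ (fun t : ℂ => Function.update x j t) t := by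
          rw [h3]
          exact analyticAt_const.add ((analyticAt_id.sub analyticAt_const).smul analyticAt_const)
        exact h2.comp h4
      have hfr : ∃ᶠ t in 𝓝[≠] (0:ℂ), (fun t => G (Function.update x j t)) t = 0 := by
        have ht : Tendsto (fun s : ℝ => (s : ℂ)) (𝓝[≠] 0) (𝓝[≠] 0) := by
          apply tendsto_nhdsWithin_of_tendsto_nhds_of_eventually_within
          · have : Tendsto (fun s : ℝ => (s : ℂ)) (𝓝 0) (𝓝 ((0:ℝ) : ℂ)) :=
              (Complex.continuous_ofReal.tendsto 0)
            rw [Complex.ofReal_zero] at this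
            exact this.mono_left nhdsWithin_le_nhds
          · filter_upwards [self_mem_nhdsWithin] with s hs
            simpa using hs
        apply ht.frequently
        apply Eventually.frequently
        have hb : ∀ᶠ s : ℝ in 𝓝[≠] 0, |s| < r := by
          apply nhdsWithin_le_nhds
          have := Metric.ball_mem_nhds (0:ℝ) hr
          filter_upwards [this] with s hs
          simpa [Real.dist_eq] using hs
        filter_upwards [hb] with s hs
        have hsb : (s : ℂ) ∈ Metric.ball (0:ℂ) r := by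
          rw [mem_ball_zero_iff, Complex.norm_real]; exact hs
        apply ih _ (hupd _ hsb)
        intro i hi
        by_cases hij : i = j
        · subst hij; simp
        · rw [Function.update_of_ne hij]
          apply hre
          simp only [Finset.mem_insert, not_or]
          exact ⟨hij, hi⟩
      have heq := hg.eqOn_zero_of_preconnected_of_frequently_eq_zero
        (convex_ball (0:ℂ) r).isPreconnected (Metric.mem_ball_self hr) hfr
      have hxj : x j ∈ Metric.ball (0:ℂ) r := by
        rw [mem_ball_zero_iff] at *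
        exact (pi_norm_lt_iff hr).mp hx j
      have := heq hxj
      simpa using this
  filter_upwards [Metric.ball_mem_nhds (0 : J → ℂ) hr] with x hx
  exact key Finset.univ x hx (fun j hj => absurd (Finset.mem_univ j) hj)

/-- Identity theorem for the totally real subspace `{(z, conj z, s) : z ∈ ℂⁿ, s ∈ ℝᵈ}` of
`ℂⁿ × ℂⁿ × ℂᵈ`. -/
theorem eventually_eq_zero_of_real {ι κ : Type*} [Fintype ι] [Fintype κ]
    {G : (ι → ℂ) × (ι → ℂ) × (κ → ℂ) → ℂ} (hG : AnalyticAt ℂ G 0)
    (h : ∀ᶠ y : (ι → ℂ) × (κ → ℝ) in 𝓝 0, G (y.1, fun i => conj (y.1 i), fun k => (y.2 k : ℂ)) = 0) :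
    ∀ᶠ x in 𝓝 0, G x = 0 := by
  classical
  -- the linear change of variables
  let Φ : (ι ⊕ ι ⊕ κ → ℂ) →L[ℂ] (ι → ℂ) × (ι → ℂ) × (κ → ℂ) :=
    (ContinuousLinearMap.pi (fun i => ContinuousLinearMap.proj (R := ℂ) (φ := fun _ => ℂ) (Sum.inl i)
      + I • ContinuousLinearMap.proj (R := ℂ) (φ := fun _ => ℂ) (Sum.inr (Sum.inl i)))).prod
    ((ContinuousLinearMap.pi (fun i => ContinuousLinearMap.proj (R := ℂ) (φ := fun _ => ℂ) (Sum.inl i)
      - I • ContinuousLinearMap.proj (R := ℂ) (φ := fun _ => ℂ) (Sum.inr (Sum.inl i)))).prod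
    (ContinuousLinearMap.pi (fun k => ContinuousLinearMap.proj (R := ℂ) (φ := fun _ => ℂ)
      (Sum.inr (Sum.inr k)))))
  have hΦ : ∀ v : ι ⊕ ι ⊕ κ → ℂ, Φ v = (fun i => v (Sum.inl i) + I * v (Sum.inr (Sum.inl i)),
      fun i => v (Sum.inl i) - I * v (Sum.inr (Sum.inl i)), fun k => v (Sum.inr (Sum.inr k))) := by
    intro v
    rfl
  let Ψ : (ι → ℂ) × (ι → ℂ) × (κ → ℂ) → (ι ⊕ ι ⊕ κ → ℂ) := fun x =>
    Sum.elim (fun i => (x.1 i + x.2.1 i) / 2)
      (Sum.elim (fun i => (x.1 i - x.2.1 i) / (2 * I)) (fun k => x.2.2 k))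
  have hΨc : Continuous Ψ := by
    apply continuous_pi
    rintro (i | i | k)
    · simp only [Ψ, Sum.elim_inl]; fun_prop
    · simp only [Ψ, Sum.elim_inl, Sum.elim_inr]; fun_prop
    · simp only [Ψ, Sum.elim_inr]; fun_prop
  have hΨ0 : Ψ 0 = 0 := by
    funext j
    rcases j with (i | i | k) <;> simp [Ψ]
  have hΦΨ : ∀ x, Φ (Ψ x) = x := by
    intro x
    rw [hΦ]
    ext i
    · simp only [Ψ, Sum.elim_inl, Sum.elim_inr]
      field_simp
      ring
    · simp only [Ψ, Sum.elim_inl, Sum.elim_inr]
      field_simp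
      ring
    · simp only [Ψ, Sum.elim_inr]
  have hG' : AnalyticAt ℂ (fun v => G (Φ v)) 0 := by
    have h1 : AnalyticAt ℂ G (Φ 0) := by rw [map_zero]; exact hG
    exact h1.comp (Φ.analyticAt 0)
  -- real points
  have hreal : ∀ᶠ v : ι ⊕ ι ⊕ κ → ℂ in 𝓝 0, (∀ j, (v j).im = 0) → G (Φ v) = 0 := by
    let R : (ι ⊕ ι ⊕ κ → ℂ) → (ι → ℂ) × (κ → ℝ) := fun v =>
      (fun i => v (Sum.inl i) + I * v (Sum.inr (Sum.inl i)), fun k => (v (Sum.inr (Sum.inr k))).re)
    have hRc : Continuous R := by
      apply Continuous.prodMk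
      · fun_prop
      · apply continuous_pi
        intro k
        exact Complex.continuous_re.comp (continuous_apply _)
    have hR0 : R 0 = 0 := by
      simp only [R]
      ext <;> simp
    have hRt : Tendsto R (𝓝 0) (𝓝 0) := by
      have := hRc.tendsto 0
      rwa [hR0] at this
    filter_upwards [hRt.eventually h] with v hv hre
    rw [hΦ]
    convert hv using 2
    have hre' : ∀ j, conj (v j) = v j := fun j => Complex.conj_eq_iff_im.mpr (hre j)
    simp only [R, Prod.mk.injEq, true_and]
    constructor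
    · funext i
      rw [map_add, map_mul, hre', hre', Complex.conj_I]
      ring
    · funext k
      exact (Complex.ext (by simp) (by simp [hre]))
  have hfin := real_identity hG' hreal
  have hΨt : Tendsto Ψ (𝓝 0) (𝓝 0) := by
    have := hΨc.tendsto 0
    rwa [hΨ0] at this
  filter_upwards [hΨt.eventually hfin] with x hx
  rwa [hΦΨ] at hx

end Pool.Agent.Results.MP_51bf1a_an.JetDet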