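import Pool.Agent.Helper706.JD.F2

set_option autoImplicit false

open MvPowerSeries

namespace Pool.Agent.Results.MP_51bf1a_an.JetDet

section coredefs

/-- index set of the coordinates `(z, w)` of `ℂⁿ × ℂᵈ` -/
abbrev ZI (n d : ℕ) := Fin n ⊕ Fin d

/-- index set of the coordinates `(x, v)` of the complexification, `x ∈ ℂⁿ`, `v ∈ ℂⁿ × ℂᵈ` -/
abbrev SI (n d : ℕ) := Fin n ⊕ (Fin n ⊕ Fin d)

/-- index set of the variables of the chains -/
abbrev VI (n d : ℕ) := (Fin n ⊕ Fin d) ⊕ (ℕ × Fin n)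

variable {n d : ℕ}

/-- the endpoint `u = (x, Q_b(x, v))` of the edge `(x, v)` -/
noncomputable def uv (Q : Bool → Fin d → MvPowerSeries (SI n d) ℂ) (b : Bool) :
    ZI n d → MvPowerSeries (SI n d) ℂ :=
  Sum.elim (fun j => X (Sum.inl j)) (Q b)

/-- the endpoint `v` of the edge `(x, v)` -/
noncomputable def pv : ZI n d → MvPowerSeries (SI n d) ℂ := fun i => X (Sum.inr i)

/-- the edge `(x, v)` seen from the other endpoint: `(v_z, u)` -/
noncomputable def inve (Q : Bool → Fin d → MvPowerSeries (SI n d) ℂ) (b : Bool) :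
    SI n d → MvPowerSeries (SI n d) ℂ :=
  Sum.elim (fun j => X (Sum.inr (Sum.inl j))) (uv Q b)

/-- a formal generic CR structure -/
structure FormalCR (Q : Bool → Fin d → MvPowerSeries (SI n d) ℂ) : Prop where
  const : ∀ b μ, constantCoeff (Q b μ) = 0
  invol : ∀ b μ, (subst (inve Q b) (Q (!b) μ) : MvPowerSeries (SI n d) ℂ) = X (Sum.inr (Sum.inr μ))

/-- the formal vector field `Y` applied to a power series -/
noncomputable def fapp {σ : Type*} [Fintype σ] [DecidableEq σ] (Y : σ → MvPowerSeries σ ℂ)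
    (f : MvPowerSeries σ ℂ) : MvPowerSeries σ ℂ := ∑ s, Y s * pderiv ℂ s f

/-- the bracket of formal vector fields -/
noncomputable def fbr {σ : Type*} [Fintype σ] [DecidableEq σ] (Y Y' : σ → MvPowerSeries σ ℂ) :
    σ → MvPowerSeries σ ℂ := fun s => fapp Y (Y' s) - fapp Y' (Y s)

/-- iterated brackets of the fields `L_j` and `L'_j` -/
inductive FIter (Q : Bool → Fin d → MvPowerSeries (SI n d) ℂ) (b : Bool) :
    (SI n d → MvPowerSeries (SI n d) ℂ) → Prop
  | L (j : Fin n) : FIter Q b (Sum.elim (Pi.single j 1) 0)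
  | L' (j : Fin n) : FIter Q b (Sum.elim 0 (Sum.elim (Pi.single j 1)
      (fun ν => subst (inve Q b) (pderiv ℂ (Sum.inl j) (Q (!b) ν)))))
  | bracket (Y Y' : SI n d → MvPowerSeries (SI n d) ℂ) (hY : FIter Q b Y) (hY' : FIter Q b Y') :
      FIter Q b (fbr Y Y')

/-- formal finite type condition (at a generic point) -/
def FBG (Q : Bool → Fin d → MvPowerSeries (SI n d) ℂ) (b : Bool) : Prop :=
  ∃ Y : SI n d → (SI n d → MvPowerSeries (SI n d) ℂ), (∀ s, FIter Q b (Y s)) ∧
    (Matrix.of Y).det ≠ 0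

/-- iterated derivatives in the variables `x` -/
noncomputable def pdx : List (Fin n) → MvPowerSeries (SI n d) ℂ → MvPowerSeries (SI n d) ℂ
  | [], f => f
  | j :: w, f => pderiv ℂ (Sum.inl j) (pdx w f)

/-- iterated derivatives in the variables of an endpoint -/
noncomputable def pdz {σ : Type*} [DecidableEq σ] : List σ → MvPowerSeries σ ℂ → MvPowerSeries σ ℂ
  | [], f => f
  | i :: w, f => pderiv ℂ i (pdz w f)

/-- formal holomorphic nondegeneracy -/
def FHN (Q : Bool → Fin d → MvPowerSeries (SI n d) ℂ) (b : Bool) : Prop :=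
  ∃ r : ZI n d → List (Fin n) × Fin d,
    (Matrix.of fun i i' => pdx (r i).1 (pderiv ℂ (Sum.inr i') (Q b (r i).2))).det ≠ 0

/-- tangency of the formal vector fields `X_b` -/
def Tang (Q : Bool → Fin d → MvPowerSeries (SI n d) ℂ) (b : Bool)
    (X : Bool → ZI n d → MvPowerSeries (ZI n d) ℂ) : Prop :=
  ∀ μ, (subst (uv Q b) (X b (Sum.inr μ)) : MvPowerSeries (SI n d) ℂ) =
    ∑ j, pderiv ℂ (Sum.inl j) (Q b μ) * subst (uv Q b) (X b (Sum.inl j)) +
    ∑ i, pderiv ℂ (Sum.inr i) (Q b μ) * subst pv (X (!b) i)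

/-- types of the points of the chain -/
def ty : ℕ → Bool
  | 0 => false
  | k + 1 => !ty k

/-- the points of the chain -/
noncomputable def om (Q : Bool → Fin d → MvPowerSeries (SI n d) ℂ) :
    ℕ → ZI n d → MvPowerSeries (VI n d) ℂ
  | 0 => fun i => X (Sum.inl i)
  | k + 1 => Sum.elim (fun j => X (Sum.inr (k, j)))
      (fun μ => subst (Sum.elim (fun j => X (Sum.inr (k, j))) (om Q k) :
        SI n d → MvPowerSeries (VI n d) ℂ) (Q (ty (k + 1)) μ))

/-- the edges of the chain -/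
noncomputable def edge (Q : Bool → Fin d → MvPowerSeries (SI n d) ℂ) (k : ℕ) :
    SI n d → MvPowerSeries (VI n d) ℂ :=
  Sum.elim (fun j => X (Sum.inr (k, j))) (om Q k)

end coredefs

end Pool.Agent.Results.MP_51bf1a_an.JetDet
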