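import Mathlib

set_option autoImplicit false

open scoped Topology ContDiff
open Set Filter Complex

namespace Pool.Agent.Results.MP_51bf1a_an.JetDet

/-- `F` is the Taylor series at `0` of the function `f` of finitely many complex variables. -/
def IsTaylor {ι : Type*} [Fintype ι] (f : (ι → ℂ) → ℂ) (F : MvPowerSeries ι ℂ) : Prop :=
  ∀ k : ℕ, (fun x => f x - MvPolynomial.eval x (MvPowerSeries.truncTotal k F)) =O[𝓝 0]
    (fun x : ι → ℂ => ‖x‖ ^ k)

end Pool.Agent.Results.MP_51bf1a_an.JetDet
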