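import Pool.Agent.Helper706.JD.Defs
import Pool.Agent.Helper706.JD.Taylor
import Pool.Agent.Helper706.JD.CoreDefs

set_option autoImplicit false

open scoped Topology ContDiff ComplexConjugate
open Set Filter Complex

namespace Pool.Agent.Results.MP_51bf1a_an.JetDet

section chartdefs

/-- coordinatewise complex conjugation -/
def cj {σ : Type*} (y : σ → ℂ) : σ → ℂ := fun i => conj (y i)

/-- the point `y` of `ℂᴺ` as the point `(ȳ_z, y)` of the complexification -/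
def inc {n d : ℕ} (y : ZI n d → ℂ) : SI n d → ℂ := Sum.elim (fun j => conj (y (Sum.inl j))) y

/-- the edge `s = (x, v)` seen from the other endpoint: `(v_z, (x, f s))` -/
def flipE {n d : ℕ} (f : (SI n d → ℂ) → (Fin d → ℂ)) (s : SI n d → ℂ) : SI n d → ℂ :=
  Sum.elim (fun j => s (Sum.inr (Sum.inl j))) (Sum.elim (fun j => s (Sum.inl j)) (f s))

/-- A holomorphic chart for the generic submanifold `M` near `p`, together with the (conjugate)
defining functions of its complexification. -/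
structure Chart {N : ℕ} (n d : ℕ) (M : Set (Fin N → ℂ)) (p : Fin N → ℂ) where
  A : (ZI n d → ℂ) ≃L[ℂ] (Fin N → ℂ)
  q : Bool → (SI n d → ℂ) → (Fin d → ℂ)
  analytic : ∀ b, AnalyticAt ℂ (q b) 0
  zero : ∀ b, q b 0 = 0
  conj_q : ∀ b s, q (!b) (cj s) = cj (q b s)
  invol : ∀ b, ∀ᶠ s in 𝓝 0, q (!b) (flipE (q b) s) = fun μ => s (Sum.inr (Sum.inr μ))
  mem : ∀ᶠ y in 𝓝 0, (p + A y ∈ M ↔ q false (cj (inc y)) = fun μ => y (Sum.inr μ))
  tangent : ∀ᶠ y in 𝓝 0, p + A y ∈ M → ∀ v, (TangentVec d M (p + A y) (A v) ↔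
    fderiv ℂ (q false) (cj (inc y)) (cj (inc v)) = fun μ => v (Sum.inr μ))
  identity : ∀ᶠ y in 𝓝 0, p + A y ∈ M → ∀ F : (SI n d → ℂ) → ℂ, AnalyticAt ℂ F (inc y) →
    (∀ᶠ y' in 𝓝 y, p + A y' ∈ M → F (inc y') = 0) → ∀ᶠ s in 𝓝 (inc y), F s = 0

/-- `R` is the polarization of the defining function `g`, normalised at `0` -/
structure Polar {n d : ℕ} (g : (ZI n d → ℂ) → (Fin d → ℝ))
    (R : (ZI n d → ℂ) × (ZI n d → ℂ) → (Fin d → ℂ)) : Prop where
  analytic : AnalyticAt ℂ R 0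
  diag : ∀ᶠ y in 𝓝 0, R (y, cj y) = fun μ => (g y μ : ℂ)
  zero : R 0 = 0
  deriv : ∀ a b μ, fderiv ℂ R 0 (a, b) μ = (a (Sum.inr μ) + b (Sum.inr μ)) / 2
  herm : ∀ᶠ x in 𝓝 0, R (cj x.2, cj x.1) = cj (R x)

/-- `q` is the graph description of the complexification `{R = 0}` -/
structure Graph {n d : ℕ} (R : (ZI n d → ℂ) × (ZI n d → ℂ) → (Fin d → ℂ))
    (q : Bool → (SI n d → ℂ) → (Fin d → ℂ)) : Prop where
  analytic : ∀ b, AnalyticAt ℂ (q b) 0
  zero : ∀ b, q b 0 = 0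
  conj_q : ∀ b s, q (!b) (cj s) = cj (q b s)
  mem_false : ∀ᶠ x in 𝓝 0, (R x = 0 ↔
    q false (Sum.elim (fun j => x.1 (Sum.inl j)) x.2) = fun μ => x.1 (Sum.inr μ))
  mem_true : ∀ᶠ x in 𝓝 0, (R x = 0 ↔
    q true (Sum.elim (fun j => x.2 (Sum.inl j)) x.1) = fun μ => x.2 (Sum.inr μ))

end chartdefs

end Pool.Agent.Results.MP_51bf1a_an.JetDet
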