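import Mathlib

set_option autoImplicit false

open scoped Topology ContDiff
open Set Filter Complex

namespace Pool.Agent.Results.MP_51bf1a_an.JetDet

/-- `ρ : ℂᴺ → ℝᵈ` is, near `q`, a real-analytic defining function of `M ⊆ ℂᴺ`, and near `q` the
set `M` is a generic submanifold of real codimension `d`: the differential `dρ_q` is onto and
`T_q M + i T_q M = ℂᴺ`, where `T_q M = ker dρ_q`. -/
def IsDefiningAt {N : ℕ} (d : ℕ) (M : Set (Fin N → ℂ)) (ρ : (Fin N → ℂ) → (Fin d → ℝ))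
    (q : Fin N → ℂ) : Prop :=
  AnalyticAt ℝ ρ q ∧ (∀ᶠ x in 𝓝 q, x ∈ M ↔ ρ x = 0) ∧
  Function.Surjective (fderiv ℝ ρ q) ∧
  ∀ v : Fin N → ℂ, ∃ a b : Fin N → ℂ, fderiv ℝ ρ q a = 0 ∧ fderiv ℝ ρ q b = 0 ∧ v = a + I • b

/-- `M` is a real-analytic generic submanifold of `ℂᴺ` of real codimension `d`. -/
def IsGenericSubmanifold {N : ℕ} (d : ℕ) (M : Set (Fin N → ℂ)) : Prop :=
  ∀ q ∈ M, ∃ ρ, IsDefiningAt d M ρ q

/-- The vector `v` is tangent to `M` at `q`. -/
def TangentVec {N : ℕ} (d : ℕ) (M : Set (Fin N → ℂ)) (q v : Fin N → ℂ) : Prop :=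
  ∃ ρ, IsDefiningAt d M ρ q ∧ fderiv ℝ ρ q v = 0

/-- The vector `v` lies in the complex tangent space `T_q M ∩ i T_q M`. -/
def CTangentVec {N : ℕ} (d : ℕ) (M : Set (Fin N → ℂ)) (q v : Fin N → ℂ) : Prop :=
  TangentVec d M q v ∧ TangentVec d M q (I • v)

/-- `M` is holomorphically nondegenerate: there are no point `q ∈ M` and no holomorphic vector
field `X = ∑ a_j ∂/∂z_j` near `q`, not identically zero near `q`, that is tangent to `M` near `q`
(equivalently, whose real and imaginary parts `Re X`, `Im X` are tangent to `M`). -/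
def HolomorphicallyNondegenerate {N : ℕ} (d : ℕ) (M : Set (Fin N → ℂ)) : Prop :=
  ∀ q ∈ M, ∀ a : (Fin N → ℂ) → (Fin N → ℂ), AnalyticAt ℂ a q →
    (∀ᶠ x in 𝓝 q, x ∈ M → CTangentVec d M x (a x)) → ∀ᶠ x in 𝓝 q, a x = 0

/-- The vector fields near `q` that are iterated Lie brackets of smooth real vector fields whose
values at the points of `M` are complex tangential, `V(x) ∈ T_x M ∩ i T_x M`. -/
inductive IteratedBracket {N : ℕ} (d : ℕ) (M : Set (Fin N → ℂ)) (q : Fin N → ℂ) :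
    ((Fin N → ℂ) → (Fin N → ℂ)) → Prop
  | base (V : (Fin N → ℂ) → (Fin N → ℂ)) (hV : ContDiffAt ℝ ∞ V q)
      (hT : ∀ᶠ x in 𝓝 q, x ∈ M → CTangentVec d M x (V x)) : IteratedBracket d M q V
  | bracket (V W : (Fin N → ℂ) → (Fin N → ℂ)) (hV : IteratedBracket d M q V)
      (hW : IteratedBracket d M q W) : IteratedBracket d M q (VectorField.lieBracket ℝ V W)

/-- `M` is of finite type (Kohn, Bloom–Graham) at `q`: the complex tangential real vector fields
and their iterated Lie brackets span the tangent space `T_q M`. -/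
def FiniteTypeAt {N : ℕ} (d : ℕ) (M : Set (Fin N → ℂ)) (q : Fin N → ℂ) : Prop :=
  ∀ v, TangentVec d M q v →
    v ∈ Submodule.span ℝ {w : Fin N → ℂ | ∃ V, IteratedBracket d M q V ∧ w = V q}

/-- `H` is (a representative of) a germ at `p` of a biholomorphic map `(ℂᴺ, p) → (ℂᴺ, p)` sending
`M` into `M`, i.e. a local analytic CR automorphism of `M` fixing `p`. -/
def IsLocalAutomorphism {N : ℕ} (M : Set (Fin N → ℂ)) (p : Fin N → ℂ)
    (H : (Fin N → ℂ) → (Fin N → ℂ)) : Prop :=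
  AnalyticAt ℂ H p ∧ H p = p ∧ Function.Bijective (fderiv ℂ H p) ∧ ∀ᶠ x in 𝓝 p, x ∈ M → H x ∈ M

/-- `H₁` and `H₂` have the same `k`-jet at `p`. -/
def SameJet {N : ℕ} (k : ℕ) (p : Fin N → ℂ) (H₁ H₂ : (Fin N → ℂ) → (Fin N → ℂ)) : Prop :=
  ∀ j ≤ k, iteratedFDeriv ℂ j H₁ p = iteratedFDeriv ℂ j H₂ p

/-- The local automorphisms of `M` fixing `p` are determined by their `k`-jets at `p`. -/
def DeterminedByJets {N : ℕ} (M : Set (Fin N → ℂ)) (p : Fin N → ℂ) (k : ℕ) : Prop :=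
  ∀ H₁ H₂, IsLocalAutomorphism M p H₁ → IsLocalAutomorphism M p H₂ → SameJet k p H₁ H₂ →
    H₁ =ᶠ[𝓝 p] H₂

end Pool.Agent.Results.MP_51bf1a_an.JetDet
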