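import Mathlib

set_option autoImplicit false

open MvPowerSeries

namespace Pool.Agent.Results.MP_51bf1a_an.JetDet.FLog
variable {ι : Type*} [Fintype ι]

/-- `σ_a - 1`, where `σ_a f = f ∘ a`. -/
noncomputable def nilOp (a : ι → MvPowerSeries ι ℂ) (f : MvPowerSeries ι ℂ) : MvPowerSeries ι ℂ :=
  subst a f - f

/-- The formal logarithm `log σ_a = ∑_{j ≥ 0} (-1)^j (σ_a - 1)^{j+1} / (j+1)`, coefficientwise. -/
noncomputable def flog (a : ι → MvPowerSeries ι ℂ) (f : MvPowerSeries ι ℂ) : MvPowerSeries ι ℂ :=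
  fun e => ∑ j ∈ Finset.range (e.degree + 1),
    ((-1 : ℂ) ^ j / (j + 1)) * coeff e ((nilOp a)^[j + 1] f)

theorem coeff_flog (a : ι → MvPowerSeries ι ℂ) (f : MvPowerSeries ι ℂ) (e : ι →₀ ℕ) :
    coeff e (flog a f) = ∑ j ∈ Finset.range (e.degree + 1),
    ((-1 : ℂ) ^ j / (j + 1)) * coeff e ((nilOp a)^[j + 1] f) := rfl

theorem cc_zero {a : ι → MvPowerSeries ι ℂ} {k : ℕ} (hk : 1 ≤ k)
    (ha : ∀ i, ((k + 1 : ℕ) : ℕ∞) ≤ (a i - X i).order) (i : ι) : constantCoeff (a i) = 0 := by
  have h1 : constantCoeff (a i - X i) = 0 := by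
    rw [← one_le_order_iff_constCoeff_eq_zero]
    refine le_trans ?_ (ha i)
    exact_mod_cast (by omega : 1 ≤ k + 1)
  simpa using h1

theorem hasSubst {a : ι → MvPowerSeries ι ℂ} {k : ℕ} (hk : 1 ≤ k)
    (ha : ∀ i, ((k + 1 : ℕ) : ℕ∞) ≤ (a i - X i).order) : HasSubst a :=
  hasSubst_of_constantCoeff_zero (cc_zero hk ha)

theorem order_subst {κ : Type*} [Fintype κ] {c : ι → MvPowerSeries κ ℂ}
    (hc : ∀ i, constantCoeff (c i) = 0) (f : MvPowerSeries ι ℂ) : f.order ≤ (subst c f).order := by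
  refine le_trans ?_ (le_order_subst (hasSubst_of_constantCoeff_zero hc) f)
  have h1 : (1 : ℕ∞) ≤ ⨅ i, (c i).order := by
    refine le_iInf fun i => ?_
    rw [one_le_order_iff_constCoeff_eq_zero]; exact hc i
  calc f.order = 1 * f.order := by rw [one_mul]
    _ ≤ _ := mul_le_mul_left h1 _

theorem order_subst' {a : ι → MvPowerSeries ι ℂ} {k : ℕ} (hk : 1 ≤ k)
    (ha : ∀ i, ((k + 1 : ℕ) : ℕ∞) ≤ (a i - X i).order) (f : MvPowerSeries ι ℂ) :
    f.order ≤ (subst a f).order := order_subst (cc_zero hk ha) f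

/-- product estimate -/
theorem P_mul {a : ι → MvPowerSeries ι ℂ} {k : ℕ} (hk : 1 ≤ k)
    (ha : ∀ i, ((k + 1 : ℕ) : ℕ∞) ≤ (a i - X i).order) {f g : MvPowerSeries ι ℂ} {m m' : ℕ}
    (hf : (m : ℕ∞) ≤ f.order) (hg : (m' : ℕ∞) ≤ g.order)
    (hf' : ((m + k : ℕ) : ℕ∞) ≤ (subst a f - f).order)
    (hg' : ((m' + k : ℕ) : ℕ∞) ≤ (subst a g - g).order) :
    ((m + m' + k : ℕ) : ℕ∞) ≤ (subst a (f * g) - f * g).order := by
  have hs := hasSubst hk ha
  have e : subst a (f * g) - f * g = (subst a f - f) * subst a g + f * (subst a g - g) := by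
    rw [subst_mul hs]; ring
  rw [e]
  refine le_trans ?_ min_order_le_add
  refine le_min ?_ ?_
  · refine le_trans ?_ le_order_mul
    have h1 := le_trans hg (order_subst' hk ha g)
    calc ((m + m' + k : ℕ) : ℕ∞) = ((m + k : ℕ) : ℕ∞) + (m' : ℕ∞) := by push_cast; ring
      _ ≤ _ := add_le_add hf' h1
  · refine le_trans ?_ le_order_mul
    calc ((m + m' + k : ℕ) : ℕ∞) = (m : ℕ∞) + ((m' + k : ℕ) : ℕ∞) := by push_cast; ring
      _ ≤ _ := add_le_add hf hg'

theorem P_prod {a : ι → MvPowerSeries ι ℂ} {k : ℕ} (hk : 1 ≤ k)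
    (ha : ∀ i, ((k + 1 : ℕ) : ℕ∞) ≤ (a i - X i).order) (d : ι →₀ ℕ) :
    ((d.degree : ℕ) : ℕ∞) ≤ (monomial d (1 : ℂ)).order ∧
    ((d.degree + k : ℕ) : ℕ∞) ≤ (subst a (monomial d (1 : ℂ)) - monomial d (1 : ℂ)).order := by
  classical
  have hs := hasSubst hk ha
  induction d using Finsupp.induction_linear with
  | zero =>
    constructor
    · simp
    · have : (monomial (0 : ι →₀ ℕ) (1 : ℂ)) = (1 : MvPowerSeries ι ℂ) := rfl
      rw [this]
      have h1 : subst a (1 : MvPowerSeries ι ℂ) = 1 := by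
        rw [← coe_substAlgHom hs, map_one]
      rw [h1]; simp
  | add d d' h h' =>
    have e : monomial (d + d') (1 : ℂ) = monomial d (1 : ℂ) * monomial d' (1 : ℂ) := by
      rw [monomial_mul_monomial, one_mul]
    rw [e]
    constructor
    · refine le_trans ?_ le_order_mul
      rw [map_add]
      push_cast
      exact add_le_add h.1 h'.1
    · rw [map_add]
      exact P_mul hk ha h.1 h'.1 h.2 h'.2
  | single i n =>
    induction n with
    | zero =>
      constructor
      · simp
      · have : (monomial (Finsupp.single i 0) (1 : ℂ)) = (1 : MvPowerSeries ι ℂ) := by simp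
        rw [this]
        have h1 : subst a (1 : MvPowerSeries ι ℂ) = 1 := by
          rw [← coe_substAlgHom hs, map_one]
        rw [h1]; simp
    | succ n ih =>
      have hX1 : ((1 : ℕ) : ℕ∞) ≤ (X i : MvPowerSeries ι ℂ).order := by
        have := one_le_order_iff_constCoeff_eq_zero (f := (X i : MvPowerSeries ι ℂ))
        push_cast
        rw [this]; simp
      have hX2 : ((1 + k : ℕ) : ℕ∞) ≤ (subst a (X i : MvPowerSeries ι ℂ) - X i).order := by
        rw [subst_X hs, add_comm]; exact ha i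
      have e : monomial (Finsupp.single i (n + 1)) (1 : ℂ)
          = monomial (Finsupp.single i n) (1 : ℂ) * X i := by
        rw [X, monomial_mul_monomial, one_mul, ← Finsupp.single_add]
      have hd : (Finsupp.single i (n + 1)).degree = (Finsupp.single i n).degree + 1 := by
        simp
      rw [e, hd]
      constructor
      · refine le_trans ?_ le_order_mul
        push_cast
        exact add_le_add ih.1 (by exact_mod_cast hX1)
      · exact P_mul hk ha ih.1 hX1 ih.2 hX2

/-- `nilOp a` raises the order by `k`. -/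
theorem order_nilOp {a : ι → MvPowerSeries ι ℂ} {k : ℕ} (hk : 1 ≤ k)
    (ha : ∀ i, ((k + 1 : ℕ) : ℕ∞) ≤ (a i - X i).order) {f : MvPowerSeries ι ℂ} {m : ℕ}
    (hf : (m : ℕ∞) ≤ f.order) : ((m + k : ℕ) : ℕ∞) ≤ (nilOp a f).order := by
  have hs := hasSubst hk ha
  refine le_order fun e he => ?_
  have h0 : f = subst (X : ι → MvPowerSeries ι ℂ) f := by rw [subst_self]; rfl
  have h1 : coeff e (nilOp a f) = ∑ᶠ d, coeff d f •
      coeff e ((d.prod fun s e => (a s) ^ e) - (d.prod fun s e => (X s : MvPowerSeries ι ℂ) ^ e)) := by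
    have h0' : coeff e f = ∑ᶠ d, coeff d f •
        coeff e (d.prod fun s e => (X s : MvPowerSeries ι ℂ) ^ e) := by
      conv_lhs => rw [h0]
      exact coeff_subst HasSubst.X f e
    unfold nilOp
    rw [map_sub, coeff_subst hs, h0', ← finsum_sub_distrib (coeff_subst_finite hs f e)
      (coeff_subst_finite HasSubst.X f e)]
    congr 1
    ext d
    rw [map_sub, smul_sub]
  rw [h1]
  apply finsum_eq_zero_of_forall_eq_zero
  intro d
  by_cases hd : coeff d f = 0
  · rw [hd, zero_smul]
  · have h2 : (m : ℕ∞) ≤ (d.degree : ℕ∞) := le_trans hf (order_le hd)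
    have h3 := (P_prod hk ha d).2
    rw [subst_monomial hs, map_one, one_mul] at h3
    have h4 : (monomial d (1 : ℂ)) = (d.prod fun s e => (X s : MvPowerSeries ι ℂ) ^ e) := by
      have := subst_monomial (R := ℂ) (a := (X : ι → MvPowerSeries ι ℂ)) HasSubst.X d (1 : ℂ)
      rw [subst_self, (algebraMap ℂ (MvPowerSeries ι ℂ)).map_one, one_mul] at this
      exact this
    rw [h4] at h3
    have h5 : coeff e ((d.prod fun s e => (a s) ^ e)
        - (d.prod fun s e => (X s : MvPowerSeries ι ℂ) ^ e)) = 0 := by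
      apply coeff_of_lt_order
      refine lt_of_lt_of_le he (le_trans ?_ h3)
      have : m ≤ d.degree := by exact_mod_cast h2
      exact_mod_cast Nat.add_le_add_right this k
    rw [h5, smul_zero]

theorem order_nilOp_iter {a : ι → MvPowerSeries ι ℂ} {k : ℕ} (hk : 1 ≤ k)
    (ha : ∀ i, ((k + 1 : ℕ) : ℕ∞) ≤ (a i - X i).order) {f : MvPowerSeries ι ℂ} {m : ℕ}
    (hf : (m : ℕ∞) ≤ f.order) (j : ℕ) : ((m + j : ℕ) : ℕ∞) ≤ ((nilOp a)^[j] f).order := by
  induction j with
  | zero => simpa using hf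
  | succ j ih =>
    rw [Function.iterate_succ_apply']
    have := order_nilOp hk ha ih
    refine le_trans ?_ this
    exact_mod_cast (by omega : m + (j + 1) ≤ m + j + k)

theorem coeff_iter_zero {a : ι → MvPowerSeries ι ℂ} {k : ℕ} (hk : 1 ≤ k)
    (ha : ∀ i, ((k + 1 : ℕ) : ℕ∞) ≤ (a i - X i).order) (f : MvPowerSeries ι ℂ) {e : ι →₀ ℕ} {j : ℕ}
    (hj : e.degree < j) : coeff e ((nilOp a)^[j] f) = 0 := by
  apply coeff_of_lt_order
  have := order_nilOp_iter hk ha (f := f) (m := 0) (by simp) j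
  refine lt_of_lt_of_le ?_ this
  rw [zero_add]
  exact_mod_cast hj

theorem coeff_subst_iter {a : ι → MvPowerSeries ι ℂ} {k : ℕ} (hk : 1 ≤ k)
    (ha : ∀ i, ((k + 1 : ℕ) : ℕ∞) ≤ (a i - X i).order) (f : MvPowerSeries ι ℂ) (e : ι →₀ ℕ)
    (n : ℕ) : coeff e ((subst a)^[n] f) =
      ∑ j ∈ Finset.range (e.degree + 1), (n.choose j : ℂ) * coeff e ((nilOp a)^[j] f) := by
  have hs := hasSubst hk ha
  let S : Module.End ℂ (MvPowerSeries ι ℂ) := (substAlgHom hs).toLinearMap
  let N : Module.End ℂ (MvPowerSeries ι ℂ) := S - 1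
  have hS : ∀ f, S f = subst a f := fun f => substAlgHom_apply hs f
  have hN : ∀ f, N f = nilOp a f := by
    intro f
    show S f - f = nilOp a f
    rw [hS]; rfl
  have hSn : ∀ (n : ℕ) f, (S ^ n) f = (subst a)^[n] f := by
    intro n f
    rw [Module.End.pow_apply]
    congr 2
    ext1 f; exact hS f
  have hNn : ∀ (n : ℕ) f, (N ^ n) f = (nilOp a)^[n] f := by
    intro n f
    rw [Module.End.pow_apply]
    congr 2
    ext1 f; exact hN f
  have h1 : S ^ n = ∑ j ∈ Finset.range (n + 1), (n.choose j : ℂ) • N ^ j := by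
    have h2 : S = N + 1 := by simp [N]
    rw [h2, (Commute.one_right N).add_pow]
    refine Finset.sum_congr rfl fun j _ => ?_
    rw [one_pow, mul_one, ← nsmul_eq_mul', ← Nat.cast_smul_eq_nsmul ℂ]
  rw [← hSn, h1]
  simp only [LinearMap.sum_apply, LinearMap.smul_apply, hNn, map_sum, map_smul, smul_eq_mul]
  -- compare the two ranges
  have key : ∀ M : ℕ, n + 1 ≤ M → e.degree + 1 ≤ M →
      ∑ j ∈ Finset.range (n + 1), (n.choose j : ℂ) * coeff e ((nilOp a)^[j] f) =
      ∑ j ∈ Finset.range M, (n.choose j : ℂ) * coeff e ((nilOp a)^[j] f) ∧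
      ∑ j ∈ Finset.range (e.degree + 1), (n.choose j : ℂ) * coeff e ((nilOp a)^[j] f) =
      ∑ j ∈ Finset.range M, (n.choose j : ℂ) * coeff e ((nilOp a)^[j] f) := by
    intro M h1 h2
    constructor
    · apply Finset.sum_subset (Finset.range_subset_range.2 h1)
      intro j _ hj
      rw [Finset.mem_range, not_lt] at hj
      rw [Nat.choose_eq_zero_of_lt (by omega)]; simp
    · apply Finset.sum_subset (Finset.range_subset_range.2 h2)
      intro j _ hj
      rw [Finset.mem_range, not_lt] at hj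
      rw [coeff_iter_zero hk ha f (by omega)]; simp
  have := key (max (n + 1) (e.degree + 1)) (le_max_left _ _) (le_max_right _ _)
  rw [this.1, this.2]

/-- `t choose j` as a polynomial -/
noncomputable def chP (j : ℕ) : Polynomial ℂ :=
  Polynomial.C (1 / (j.factorial : ℂ)) * descPochhammer ℂ j

theorem chP_eval (j n : ℕ) : (chP j).eval (n : ℂ) = n.choose j := by
  unfold chP
  rw [Polynomial.eval_mul, Polynomial.eval_C, descPochhammer_eval_eq_descFactorial,
    Nat.descFactorial_eq_factorial_mul_choose]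
  have : (j.factorial : ℂ) ≠ 0 := by exact_mod_cast j.factorial_ne_zero
  push_cast
  field_simp

theorem desc_neg_one (j : ℕ) : (descPochhammer ℂ j).eval (-1 : ℂ) = (-1) ^ j * j.factorial := by
  induction j with
  | zero => simp
  | succ j ih =>
    rw [descPochhammer_succ_right, Polynomial.eval_mul, ih]
    simp [Nat.factorial_succ]
    ring

theorem chP_deriv (j : ℕ) : (Polynomial.derivative (chP (j + 1))).eval 0
    = (-1 : ℂ) ^ j / (j + 1) := by
  unfold chP
  rw [Polynomial.derivative_C_mul, Polynomial.eval_C_mul, descPochhammer_succ_left,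
    Polynomial.derivative_mul]
  simp only [Polynomial.derivative_X, one_mul, Polynomial.eval_add, Polynomial.eval_comp,
    Polynomial.eval_sub, Polynomial.eval_X, Polynomial.eval_one, zero_sub, Polynomial.eval_mul,
    zero_mul, add_zero, desc_neg_one]
  have h1 : (j.factorial : ℂ) ≠ 0 := by exact_mod_cast j.factorial_ne_zero
  have h2 : ((j : ℂ) + 1) ≠ 0 := by exact_mod_cast j.succ_ne_zero
  rw [Nat.factorial_succ]
  push_cast
  field_simp

theorem chP_zero : chP 0 = 1 := by
  simp [chP]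

/-- the polynomial in `n` giving the coefficient of `σ^n f` -/
noncomputable def PP (a : ι → MvPowerSeries ι ℂ) (e : ι →₀ ℕ) (f : MvPowerSeries ι ℂ) :
    Polynomial ℂ :=
  ∑ j ∈ Finset.range (e.degree + 1), Polynomial.C (coeff e ((nilOp a)^[j] f)) * chP j

theorem PP_eval {a : ι → MvPowerSeries ι ℂ} {k : ℕ} (hk : 1 ≤ k)
    (ha : ∀ i, ((k + 1 : ℕ) : ℕ∞) ≤ (a i - X i).order) (f : MvPowerSeries ι ℂ) (e : ι →₀ ℕ)
    (n : ℕ) : (PP a e f).eval (n : ℂ) = coeff e ((subst a)^[n] f) := by
  rw [coeff_subst_iter hk ha, PP, Polynomial.eval_finsetSum]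
  refine Finset.sum_congr rfl fun j _ => ?_
  rw [Polynomial.eval_C_mul, chP_eval, mul_comm]

theorem PP_deriv {a : ι → MvPowerSeries ι ℂ} {k : ℕ} (hk : 1 ≤ k)
    (ha : ∀ i, ((k + 1 : ℕ) : ℕ∞) ≤ (a i - X i).order) (f : MvPowerSeries ι ℂ) (e : ι →₀ ℕ) :
    (Polynomial.derivative (PP a e f)).eval 0 = coeff e (flog a f) := by
  rw [coeff_flog, PP, Polynomial.derivative_sum, Polynomial.eval_finsetSum, Finset.sum_range_succ',
    Finset.sum_range_succ,
    coeff_iter_zero hk ha f (j := e.degree + 1) (by omega), mul_zero, add_zero, chP_zero]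
  simp only [Polynomial.derivative_C_mul, Polynomial.eval_C_mul, chP_deriv,
    Polynomial.derivative_one, Polynomial.eval_zero, mul_zero, add_zero]
  refine Finset.sum_congr rfl fun j _ => ?_
  ring

theorem iter_mul {a : ι → MvPowerSeries ι ℂ} (hs : HasSubst a) (f g : MvPowerSeries ι ℂ) (n : ℕ) :
    (subst a)^[n] (f * g) = (subst a)^[n] f * ((subst a)^[n] g : MvPowerSeries ι ℂ) := by
  induction n with
  | zero => rfl
  | succ n ih =>
    rw [Function.iterate_succ_apply', ih, subst_mul hs, ← Function.iterate_succ_apply' (subst a),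
      ← Function.iterate_succ_apply' (subst a)]

/-- `log σ_a` is a derivation (because `n ↦ σ_a^n` is polynomial in `n` coefficientwise and each
`σ_a^n` is multiplicative). -/
theorem flog_mul {a : ι → MvPowerSeries ι ℂ} (ha : ∀ i, 2 ≤ (a i - X i).order)
    (f g : MvPowerSeries ι ℂ) : flog a (f * g) = flog a f * g + f * flog a g := by
  classical
  have ha' : ∀ i, ((1 + 1 : ℕ) : ℕ∞) ≤ (a i - X i).order := ha
  have hs := hasSubst le_rfl ha'
  ext e
  have key : PP a e (f * g) = ∑ p ∈ Finset.HasAntidiagonal.antidiagonal e, PP a p.1 f * PP a p.2 g := by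
    apply Polynomial.eq_of_infinite_eval_eq
    apply Set.Infinite.mono (s := Set.range (fun n : ℕ => (n : ℂ)))
    · rintro _ ⟨n, rfl⟩
      show (PP a e (f * g)).eval (n : ℂ) = _
      rw [PP_eval le_rfl ha', iter_mul hs, coeff_mul, Polynomial.eval_finsetSum]
      refine Finset.sum_congr rfl fun p _ => ?_
      rw [Polynomial.eval_mul, PP_eval le_rfl ha', PP_eval le_rfl ha']
    · exact Set.infinite_range_of_injective Nat.cast_injective
  have h1 := congrArg (fun p => (Polynomial.derivative p).eval 0) key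
  simp only [Polynomial.derivative_sum, Polynomial.eval_finsetSum, Polynomial.derivative_mul,
    Polynomial.eval_add, Polynomial.eval_mul, PP_deriv le_rfl ha'] at h1
  have h0 : ∀ (e : ι →₀ ℕ) (f : MvPowerSeries ι ℂ), (PP a e f).eval 0 = coeff e f := by
    intro e f
    have := PP_eval le_rfl ha' f e 0
    simpa using this
  simp only [h0] at h1
  rw [h1, map_add, coeff_mul, coeff_mul, ← Finset.sum_add_distrib]

theorem nilOp_add {a : ι → MvPowerSeries ι ℂ} (hs : HasSubst a) (f g : MvPowerSeries ι ℂ) :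
    nilOp a (f + g) = nilOp a f + nilOp a g := by
  unfold nilOp
  rw [subst_add hs]; ring

theorem nilOp_smul {a : ι → MvPowerSeries ι ℂ} (hs : HasSubst a) (r : ℂ) (f : MvPowerSeries ι ℂ) :
    nilOp a (r • f) = r • nilOp a f := by
  unfold nilOp
  rw [subst_smul hs, smul_sub]

theorem nilOp_iter_add {a : ι → MvPowerSeries ι ℂ} (hs : HasSubst a) (f g : MvPowerSeries ι ℂ)
    (j : ℕ) : (nilOp a)^[j] (f + g) = (nilOp a)^[j] f + (nilOp a)^[j] g := by
  induction j with
  | zero => rfl
  | succ j ih => simp only [Function.iterate_succ_apply', ih, nilOp_add hs]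

theorem nilOp_iter_smul {a : ι → MvPowerSeries ι ℂ} (hs : HasSubst a) (r : ℂ)
    (f : MvPowerSeries ι ℂ) (j : ℕ) : (nilOp a)^[j] (r • f) = r • (nilOp a)^[j] f := by
  induction j with
  | zero => rfl
  | succ j ih => simp only [Function.iterate_succ_apply', ih, nilOp_smul hs]

theorem flog_add {a : ι → MvPowerSeries ι ℂ} (hs : HasSubst a) (f g : MvPowerSeries ι ℂ) :
    flog a (f + g) = flog a f + flog a g := by
  ext e
  simp only [map_add, coeff_flog, nilOp_iter_add hs, mul_add, Finset.sum_add_distrib]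

theorem flog_C {a : ι → MvPowerSeries ι ℂ} (hs : HasSubst a) (r : ℂ) :
    flog a (C r) = 0 := by
  have h0 : nilOp a (C r) = 0 := by
    unfold nilOp; rw [subst_C, sub_self]
  have h00 : nilOp a 0 = 0 := by
    have := nilOp_smul hs (0 : ℂ) 0
    simpa using this
  have h1 : ∀ j, (nilOp a)^[j + 1] (C r) = 0 := by
    intro j
    induction j with
    | zero => exact h0
    | succ j ih => rw [Function.iterate_succ_apply', ih, h00]
  ext e
  simp [coeff_flog, h1]

theorem order_flog {a : ι → MvPowerSeries ι ℂ} (ha : ∀ i, ((1 + 1 : ℕ) : ℕ∞) ≤ (a i - X i).order)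
    {f : MvPowerSeries ι ℂ} {m : ℕ} (hf : (m : ℕ∞) ≤ f.order) : (m : ℕ∞) ≤ (flog a f).order := by
  refine le_order fun e he => ?_
  rw [coeff_flog]
  refine Finset.sum_eq_zero fun j _ => ?_
  have h1 := order_nilOp_iter le_rfl ha hf (j + 1)
  rw [coeff_of_lt_order (lt_of_lt_of_le he (le_trans (by exact_mod_cast Nat.le_add_right _ _) h1)),
    mul_zero]

/-- The components of the logarithm vanish to the same order as `a - id`. -/
theorem le_order_flog_X {a : ι → MvPowerSeries ι ℂ} {k : ℕ} (hk : 1 ≤ k)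
    (ha : ∀ i, ((k + 1 : ℕ) : ℕ∞) ≤ (a i - X i).order) (i : ι) :
    ((k + 1 : ℕ) : ℕ∞) ≤ (flog a (X i)).order := by
  refine le_order fun e he => ?_
  rw [coeff_flog]
  refine Finset.sum_eq_zero fun j _ => ?_
  have h0 : nilOp a (X i) = a i - X i := by
    unfold nilOp; rw [subst_X (hasSubst hk ha)]
  have h1 := order_nilOp_iter hk ha (ha i) j
  rw [Function.iterate_succ_apply, h0, coeff_of_lt_order (lt_of_lt_of_le he
    (le_trans (by exact_mod_cast Nat.le_add_right _ _) h1)), mul_zero]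

theorem order_pderiv (i : ι) {f : MvPowerSeries ι ℂ} {m : ℕ} (hf : ((m + 1 : ℕ) : ℕ∞) ≤ f.order) :
    (m : ℕ∞) ≤ (pderiv ℂ i f).order := by
  refine le_order fun e he => ?_
  rw [coeff_pderiv, coeff_of_lt_order, zero_mul]
  refine lt_of_lt_of_le ?_ hf
  rw [map_add, Finsupp.degree_single]
  have : e.degree < m := by exact_mod_cast he
  exact_mod_cast (by omega : e.degree + 1 < m + 1)

/-- `log σ_a` is the formal vector field with components `log σ_a (X_i)`. -/
theorem flog_eq_sum [DecidableEq ι] {a : ι → MvPowerSeries ι ℂ} (ha : ∀ i, 2 ≤ (a i - X i).order)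
    (f : MvPowerSeries ι ℂ) : flog a f = ∑ i, pderiv ℂ i f * flog a (X i) := by
  have ha' : ∀ i, ((1 + 1 : ℕ) : ℕ∞) ≤ (a i - X i).order := ha
  have hs := hasSubst le_rfl ha'
  -- polynomials
  have hpoly : ∀ p : MvPolynomial ι ℂ, flog a (p : MvPowerSeries ι ℂ)
      = ∑ i, pderiv ℂ i (p : MvPowerSeries ι ℂ) * flog a (X i) := by
    intro p
    induction p using MvPolynomial.induction_on with
    | C r =>
      rw [MvPolynomial.coe_C, flog_C hs]
      simp
    | add p q hp hq =>
      rw [MvPolynomial.coe_add, flog_add hs, hp, hq, ← Finset.sum_add_distrib]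
      refine Finset.sum_congr rfl fun i _ => ?_
      rw [map_add, add_mul]
    | mul_X p j hp =>
      rw [MvPolynomial.coe_mul, MvPolynomial.coe_X, flog_mul ha, hp]
      simp only [Derivation.leibniz, smul_eq_mul, pderiv_X]
      simp only [add_mul, Finset.sum_add_distrib]
      rw [add_comm]
      congr 1
      · rw [Finset.sum_eq_single j]
        · simp
        · intro b _ hb
          simp [Pi.single_apply, hb, Ne.symm hb]
        · intro h; exact absurd (Finset.mem_univ _) h
      · rw [Finset.sum_mul]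
        refine Finset.sum_congr rfl fun i _ => ?_
        ring
  ext e
  obtain ⟨p, hp⟩ : ∃ p : MvPolynomial ι ℂ, p = truncTotal (e.degree + 1) f := ⟨_, rfl⟩
  obtain ⟨r, hr⟩ : ∃ r : MvPowerSeries ι ℂ, r = f - p := ⟨_, rfl⟩
  have hf : f = p + r := by rw [hr]; ring
  have hro : ((e.degree + 1 : ℕ) : ℕ∞) ≤ r.order := by
    refine le_order fun d hd => ?_
    have hd' : d.degree < e.degree + 1 := by exact_mod_cast hd
    rw [hr, map_sub, hp, MvPolynomial.coeff_coe, coeff_truncTotal _ hd', sub_self]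
  have h1 : coeff e (flog a r) = 0 := by
    apply coeff_of_lt_order
    refine lt_of_lt_of_le ?_ (order_flog ha' hro)
    exact_mod_cast Nat.lt_succ_self _
  have h2 : ∀ i, coeff e (pderiv ℂ i r * flog a (X i)) = 0 := by
    intro i
    apply coeff_of_lt_order
    have h3 := order_pderiv i hro
    have h4 := le_order_flog_X le_rfl ha' i
    refine lt_of_lt_of_le ?_ (le_trans (add_le_add h3 h4) le_order_mul)
    exact_mod_cast (by omega : e.degree < e.degree + (1 + 1))
  rw [hf, flog_add hs, map_add, h1, add_zero, hpoly, map_sum, map_sum]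
  refine Finset.sum_congr rfl fun i _ => ?_
  rw [map_add, add_mul, map_add, h2, add_zero]

/-- Naturality. -/
theorem flog_natural {κ : Type*} [Fintype κ] {a : ι → MvPowerSeries ι ℂ}
    {b : κ → MvPowerSeries κ ℂ} {c : ι → MvPowerSeries κ ℂ}
    (ha : ∀ i, 2 ≤ (a i - X i).order) (hb : ∀ i, 2 ≤ (b i - X i).order)
    (hc : ∀ i, constantCoeff (c i) = 0)
    (h : ∀ f : MvPowerSeries ι ℂ, subst c (subst a f : MvPowerSeries ι ℂ) =
      subst b (subst c f : MvPowerSeries κ ℂ)) (f : MvPowerSeries ι ℂ) :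
    flog b (subst c f) = subst c (flog a f) := by
  have ha' : ∀ i, ((1 + 1 : ℕ) : ℕ∞) ≤ (a i - X i).order := ha
  have hs := hasSubst le_rfl ha'
  have hsc : HasSubst c := hasSubst_of_constantCoeff_zero hc
  have hn : ∀ f : MvPowerSeries ι ℂ, nilOp b (subst c f) = subst c (nilOp a f) := by
    intro f
    unfold nilOp
    rw [← h, subst_sub hsc]
  have hni : ∀ (j : ℕ) (f : MvPowerSeries ι ℂ),
      (nilOp b)^[j] (subst c f) = subst c ((nilOp a)^[j] f) := by
    intro j f
    induction j with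
    | zero => rfl
    | succ j ih => rw [Function.iterate_succ_apply', ih, hn, ← Function.iterate_succ_apply' (nilOp a)]
  ext e
  rw [coeff_flog]
  simp only [hni]
  obtain ⟨p, hp⟩ : ∃ p : MvPowerSeries ι ℂ, p = ∑ j ∈ Finset.range (e.degree + 1),
    ((-1 : ℂ) ^ j / (j + 1)) • ((nilOp a)^[j + 1] f) := ⟨_, rfl⟩
  have h1 : ((e.degree + 1 : ℕ) : ℕ∞) ≤ (flog a f - p).order := by
    refine le_order fun d hd => ?_
    have hd' : d.degree < e.degree + 1 := by exact_mod_cast hd
    rw [map_sub, coeff_flog, hp, map_sum]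
    simp only [map_smul, smul_eq_mul]
    rw [sub_eq_zero]
    apply Finset.sum_subset (Finset.range_subset_range.2 (by omega))
    intro j _ hj
    rw [Finset.mem_range, not_lt] at hj
    rw [coeff_iter_zero le_rfl ha' f (j := j + 1) (by omega), mul_zero]
  have h2 : coeff e (subst c (flog a f - p)) = 0 := by
    apply coeff_of_lt_order
    refine lt_of_lt_of_le ?_ (le_trans h1 (order_subst hc _))
    exact_mod_cast Nat.lt_succ_self _
  have h3 : coeff e (subst c (flog a f)) = coeff e (subst c p) := by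
    have : flog a f = (flog a f - p) + p := by ring
    rw [this, subst_add hsc, map_add, h2, zero_add]
  rw [h3, hp, ← coe_substAlgHom hsc, map_sum, map_sum]
  refine Finset.sum_congr rfl fun j _ => ?_
  rw [map_smul, map_smul, smul_eq_mul]

/-- If the logarithm vanishes, `a` is the identity. -/
theorem eq_X_of_flog_eq_zero {a : ι → MvPowerSeries ι ℂ} (ha : ∀ i, 2 ≤ (a i - X i).order)
    (h : ∀ i, flog a (X i) = 0) : a = X := by
  classical
  have ha' : ∀ i, ((1 + 1 : ℕ) : ℕ∞) ≤ (a i - X i).order := ha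
  have hs := hasSubst le_rfl ha'
  have h0 : ∀ f, flog a f = 0 := by
    intro f
    rw [flog_eq_sum ha]
    simp [h]
  ext1 i
  by_contra hne
  have hN : nilOp a (X i) = a i - X i := by
    unfold nilOp; rw [subst_X hs]
  have hne' : a i - X i ≠ 0 := sub_ne_zero.2 hne
  obtain ⟨e, he1, he2⟩ := exists_coeff_ne_zero_and_order (ne_zero_iff_order_finite.1 hne')
  have h2 := congrArg (coeff e) (h0 (X i))
  rw [coeff_flog, Finset.sum_range_succ', map_zero] at h2
  have h3 : ∑ j ∈ Finset.range e.degree, ((-1 : ℂ) ^ (j + 1) / (((j + 1 : ℕ) : ℂ) + 1)) *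
      coeff e ((nilOp a)^[j + 1 + 1] (X i)) = 0 := by
    refine Finset.sum_eq_zero fun j _ => ?_
    rw [Function.iterate_succ_apply, hN]
    have h4 := order_nilOp_iter le_rfl ha' (f := a i - X i) (m := e.degree) (le_of_eq he2) (j + 1)
    rw [coeff_of_lt_order (lt_of_lt_of_le (by exact_mod_cast (by omega : e.degree <
      e.degree + (j + 1))) h4), mul_zero]
  rw [h3] at h2
  simp [hN] at h2
  exact he1 (by simpa using h2)

end Pool.Agent.Results.MP_51bf1a_an.JetDet.FLog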