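import Mathlib

set_option autoImplicit false

open MvPowerSeries

namespace Pool.Agent.Results.MP_51bf1a_an.JetDet

section basic

variable {ι κ : Type*}

theorem order_sub_truncTotal [Fintype ι] (m : ℕ) (f : MvPowerSeries ι ℂ) :
    (m : ℕ∞) ≤ (f - (truncTotal m f : MvPowerSeries ι ℂ)).order := by
  apply nat_le_order
  intro e he
  rw [map_sub, MvPolynomial.coeff_coe, coeff_truncTotal _ he, sub_self]

/-- Two additive operations agreeing on polynomials and controlled by the order agree. -/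
theorem ext_of_poly [Fintype ι] {T₁ T₂ : MvPowerSeries ι ℂ → MvPowerSeries κ ℂ}
    (h₁ : ∀ f g, T₁ (f + g) = T₁ f + T₁ g) (h₂ : ∀ f g, T₂ (f + g) = T₂ f + T₂ g)
    (hp : ∀ p : MvPolynomial ι ℂ, T₁ p = T₂ p) (c : ℕ)
    (ho₁ : ∀ (f : MvPowerSeries ι ℂ) (m : ℕ), ((m + c : ℕ) : ℕ∞) ≤ f.order → (m : ℕ∞) ≤ (T₁ f).order)
    (ho₂ : ∀ (f : MvPowerSeries ι ℂ) (m : ℕ), ((m + c : ℕ) : ℕ∞) ≤ f.order → (m : ℕ∞) ≤ (T₂ f).order)
    (f : MvPowerSeries ι ℂ) : T₁ f = T₂ f := by
  ext e
  set m := e.degree + 1 with hm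
  have hf := order_sub_truncTotal (m + c) f
  set g := f - (truncTotal (m + c) f : MvPowerSeries ι ℂ) with hg
  have hfg : f = (truncTotal (m + c) f : MvPowerSeries ι ℂ) + g := by rw [hg]; ring
  have e1 : coeff e (T₁ g) = 0 := by
    apply coeff_of_lt_order
    refine lt_of_lt_of_le ?_ (ho₁ g m hf)
    rw [hm]; exact_mod_cast Nat.lt_succ_self _
  have e2 : coeff e (T₂ g) = 0 := by
    apply coeff_of_lt_order
    refine lt_of_lt_of_le ?_ (ho₂ g m hf)
    rw [hm]; exact_mod_cast Nat.lt_succ_self _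
  rw [hfg, h₁, h₂, hp, map_add, map_add, e1, e2]

theorem order_pderiv [DecidableEq ι] (i : ι) (f : MvPowerSeries ι ℂ) (m : ℕ)
    (h : ((m + 1 : ℕ) : ℕ∞) ≤ f.order) : (m : ℕ∞) ≤ (pderiv ℂ i f).order := by
  apply nat_le_order
  intro e he
  rw [coeff_pderiv, coeff_of_lt_order, zero_mul]
  refine lt_of_lt_of_le ?_ h
  rw [map_add, Finsupp.degree_single]
  exact_mod_cast Nat.succ_lt_succ he

theorem order_subst [Fintype ι] {a : ι → MvPowerSeries κ ℂ} (ha : ∀ i, constantCoeff (a i) = 0)
    (f : MvPowerSeries ι ℂ) (m : ℕ) (h : (m : ℕ∞) ≤ f.order) :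
    (m : ℕ∞) ≤ (subst a f : MvPowerSeries κ ℂ).order := by
  refine le_trans ?_ (le_order_subst (hasSubst_of_constantCoeff_zero ha) f)
  have h1 : (1 : ℕ∞) ≤ ⨅ i, (a i).order := by
    apply le_iInf
    intro i
    exact one_le_order_iff_constCoeff_eq_zero.mpr (ha i)
  calc (m : ℕ∞) = 1 * m := (one_mul _).symm
    _ ≤ _ := mul_le_mul' h1 h

theorem order_add_le {f g : MvPowerSeries ι ℂ} {m : ℕ∞} (hf : m ≤ f.order) (hg : m ≤ g.order) :
    m ≤ (f + g).order := le_trans (le_min hf hg) min_order_le_add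

theorem order_sum_le {α : Type*} (s : Finset α) {f : α → MvPowerSeries ι ℂ} {m : ℕ∞}
    (h : ∀ i ∈ s, m ≤ (f i).order) : m ≤ (∑ i ∈ s, f i).order := by
  classical
  induction s using Finset.induction_on with
  | empty => simp
  | insert a s ha ih =>
    rw [Finset.sum_insert ha]
    exact order_add_le (h a (Finset.mem_insert_self _ _))
      (ih fun i hi => h i (Finset.mem_insert_of_mem hi))

theorem order_mul_le {f g : MvPowerSeries ι ℂ} {m : ℕ∞} (hf : m ≤ f.order) :
    m ≤ (f * g).order := le_trans (le_trans hf le_self_add) le_order_mul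

theorem order_mul_le' {f g : MvPowerSeries ι ℂ} {m : ℕ∞} (hg : m ≤ g.order) :
    m ≤ (f * g).order := le_trans (le_trans hg le_add_self) le_order_mul

theorem subst_C' [Fintype ι] {a : ι → MvPowerSeries κ ℂ} (ha : ∀ i, constantCoeff (a i) = 0)
    (c : ℂ) : (subst a (C c : MvPowerSeries ι ℂ) : MvPowerSeries κ ℂ) = C c := by
  have hs := hasSubst_of_constantCoeff_zero ha
  have h1 : (C c : MvPowerSeries ι ℂ) = algebraMap ℂ _ c := by
    rw [MvPowerSeries.algebraMap_apply]; rfl
  have h2 : (C c : MvPowerSeries κ ℂ) = algebraMap ℂ _ c := by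
    rw [MvPowerSeries.algebraMap_apply]; rfl
  rw [← substAlgHom_apply hs, h1, AlgHom.commutes, h2]

variable [Fintype ι] [DecidableEq ι] [DecidableEq κ]

/-- Chain rule for substitution of power series. -/
theorem pderiv_subst {a : ι → MvPowerSeries κ ℂ} (ha : ∀ i, constantCoeff (a i) = 0) (j : κ)
    (f : MvPowerSeries ι ℂ) :
    pderiv ℂ j (subst a f : MvPowerSeries κ ℂ) =
      ∑ i, subst a (pderiv ℂ i f) * pderiv ℂ j (a i) := by
  have hs := hasSubst_of_constantCoeff_zero ha
  refine ext_of_poly (T₁ := fun f => pderiv ℂ j (subst a f : MvPowerSeries κ ℂ))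
    (T₂ := fun f => ∑ i, (subst a (pderiv ℂ i f) : MvPowerSeries κ ℂ) * pderiv ℂ j (a i))
    ?_ ?_ ?_ 1 ?_ ?_ f
  · intro f g
    simp only [subst_add hs, map_add]
  · intro f g
    simp only [subst_add hs, map_add, add_mul, Finset.sum_add_distrib]
  · intro p
    induction p using MvPolynomial.induction_on with
    | C c =>
      rw [MvPolynomial.coe_C, subst_C' ha, pderiv_C]
      refine (Finset.sum_eq_zero fun i _ => ?_).symm
      rw [pderiv_C, ← substAlgHom_apply hs, map_zero, zero_mul]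
    | add p q hp hq =>
      rw [MvPolynomial.coe_add, subst_add hs, map_add, hp, hq, ← Finset.sum_add_distrib]
      refine Finset.sum_congr rfl fun i _ => ?_
      rw [map_add, subst_add hs, add_mul]
    | mul_X p i hp =>
      rw [MvPolynomial.coe_mul, MvPolynomial.coe_X, subst_mul hs, subst_X hs, Derivation.leibniz, hp]
      have : ∀ i', (subst a (pderiv ℂ i' ((p : MvPowerSeries ι ℂ) * X i)) : MvPowerSeries κ ℂ) *
          pderiv ℂ j (a i') = a i * (subst a (pderiv ℂ i' (p : MvPowerSeries ι ℂ)) * pderiv ℂ j (a i'))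
          + if i' = i then subst a (p : MvPowerSeries ι ℂ) * pderiv ℂ j (a i) else 0 := by
        intro i'
        rw [Derivation.leibniz, smul_eq_mul, smul_eq_mul, subst_add hs, subst_mul hs, subst_mul hs,
          subst_X hs]
        by_cases h : i' = i
        · subst h
          rw [pderiv_X_self, if_pos rfl, ← substAlgHom_apply hs (1 : MvPowerSeries ι ℂ), map_one]
          ring
        · rw [pderiv_X_of_ne (Ne.symm h), if_neg h, ← substAlgHom_apply hs (0 : MvPowerSeries ι ℂ),
            map_zero]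
          ring
      simp only [this, Finset.sum_add_distrib, Finset.sum_ite_eq', Finset.mem_univ, if_true,
        ← Finset.mul_sum, smul_eq_mul]
      ring
  · intro f m h
    exact order_pderiv j _ m (order_subst ha f (m + 1) h)
  · intro f m h
    exact order_sum_le _ fun i _ => order_mul_le (order_subst ha _ m (order_pderiv i f m h))

end basic

end Pool.Agent.Results.MP_51bf1a_an.JetDet
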