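import Pool.Agent.Helper706.JD.F1

set_option autoImplicit false

open MvPowerSeries

namespace Pool.Agent.Results.MP_51bf1a_an.JetDet

section ext

variable {P : Type*} [CommRing P] [IsDomain P] [Algebra ℂ P]

/-- The ring homomorphism `x ↦ x + ε D x`. -/
noncomputable def dualHom (D : Derivation ℂ P P) : P →+* TrivSqZeroExt (FractionRing P) (FractionRing P) where
  toFun x := TrivSqZeroExt.inl (algebraMap P (FractionRing P) x) +
    TrivSqZeroExt.inr (algebraMap P (FractionRing P) (D x))
  map_one' := by
    simp
  map_mul' x y := by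
    ext
    · simp only [TrivSqZeroExt.fst_add, TrivSqZeroExt.fst_inl, TrivSqZeroExt.fst_inr,
        TrivSqZeroExt.fst_mul, map_mul, add_zero]
    · simp only [TrivSqZeroExt.snd_add, TrivSqZeroExt.snd_inl, TrivSqZeroExt.snd_inr,
        TrivSqZeroExt.snd_mul, TrivSqZeroExt.fst_add, TrivSqZeroExt.fst_inl, TrivSqZeroExt.fst_inr,
        Derivation.leibniz, map_add, map_mul, smul_eq_mul, add_zero, zero_add,
        MulOpposite.smul_eq_mul_unop, MulOpposite.unop_op]
      ring
  map_zero' := by simp
  map_add' x y := by
    ext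
    · simp only [TrivSqZeroExt.fst_add, TrivSqZeroExt.fst_inl, TrivSqZeroExt.fst_inr, map_add,
        add_zero]
    · simp only [TrivSqZeroExt.snd_add, TrivSqZeroExt.snd_inl, TrivSqZeroExt.snd_inr, map_add,
        zero_add]

theorem dualHom_snd (D : Derivation ℂ P P) (x : P) :
    (dualHom D x).snd = algebraMap P (FractionRing P) (D x) := by
  simp only [dualHom, RingHom.coe_mk, MonoidHom.coe_mk, OneHom.coe_mk, TrivSqZeroExt.snd_add,
    TrivSqZeroExt.snd_inl, TrivSqZeroExt.snd_inr, zero_add]

theorem dualHom_fst (D : Derivation ℂ P P) (x : P) :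
    (dualHom D x).fst = algebraMap P (FractionRing P) x := by
  simp only [dualHom, RingHom.coe_mk, MonoidHom.coe_mk, OneHom.coe_mk, TrivSqZeroExt.fst_add,
    TrivSqZeroExt.fst_inl, TrivSqZeroExt.fst_inr, add_zero]

theorem dualHom_isUnit (D : Derivation ℂ P P) (y : nonZeroDivisors P) : IsUnit (dualHom D y) := by
  rw [TrivSqZeroExt.isUnit_iff_isUnit_fst]
  have h : TrivSqZeroExt.fst (dualHom D (y : P)) = algebraMap P (FractionRing P) y := by
    simp [dualHom]
  rw [h]
  exact IsLocalization.map_units _ y

theorem exists_extend (D : Derivation ℂ P P) :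
    ∃ D' : Derivation ℂ (FractionRing P) (FractionRing P),
      ∀ x : P, D' (algebraMap P (FractionRing P) x) = algebraMap P (FractionRing P) (D x) := by
  let L : FractionRing P →+* TrivSqZeroExt (FractionRing P) (FractionRing P) :=
    IsLocalization.lift (M := nonZeroDivisors P) (dualHom_isUnit D)
  have hL : ∀ x : P, L (algebraMap P (FractionRing P) x) = dualHom D x :=
    fun x => IsLocalization.lift_eq _ x
  have hfst : ∀ k, (L k).fst = k := by
    intro k
    have h1 : (TrivSqZeroExt.fstHom ℂ (FractionRing P) (FractionRing P)).toRingHom.comp L =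
        RingHom.id _ := by
      apply IsLocalization.ringHom_ext (nonZeroDivisors P)
      ext x
      simp only [RingHom.comp_apply, hL, RingHom.id_apply]
      exact dualHom_fst D x
    exact congrArg (fun φ : FractionRing P →+* FractionRing P => φ k) h1
  have hadd : ∀ x y, (L (x + y)).snd = (L x).snd + (L y).snd := by
    intro x y
    rw [map_add, TrivSqZeroExt.snd_add]
  have hmul : ∀ x y, (L (x * y)).snd = x * (L y).snd + y * (L x).snd := by
    intro x y
    rw [map_mul, TrivSqZeroExt.snd_mul, hfst, hfst, smul_eq_mul, MulOpposite.smul_eq_mul_unop,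
      MulOpposite.unop_op]
    ring
  have hsm : ∀ (c : ℂ) k, (L (c • k)).snd = c • (L k).snd := by
    intro c k
    rw [Algebra.smul_def, hmul, IsScalarTower.algebraMap_apply ℂ P (FractionRing P), hL,
      dualHom_snd, Derivation.map_algebraMap, map_zero, mul_zero, add_zero, Algebra.smul_def,
      IsScalarTower.algebraMap_apply ℂ P (FractionRing P)]
  refine ⟨Derivation.mk' { toFun := fun k => (L k).snd, map_add' := hadd, map_smul' := hsm } ?_, ?_⟩
  · intro x y
    exact hmul x y
  · intro x
    show (L (algebraMap P (FractionRing P) x)).snd = _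
    rw [hL, dualHom_snd]

/-- The extension of a derivation to the fraction field. -/
noncomputable def extD (D : Derivation ℂ P P) : Derivation ℂ (FractionRing P) (FractionRing P) :=
  (exists_extend D).choose

theorem extD_alg (D : Derivation ℂ P P) (x : P) :
    extD D (algebraMap P (FractionRing P) x) = algebraMap P (FractionRing P) (D x) :=
  (exists_extend D).choose_spec x

end ext

section span

set_option linter.unusedSectionVars false

variable {V : Type*} [DecidableEq V]

instance : IsDomain (MvPowerSeries V ℂ) := NoZeroDivisors.to_isDomain _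

/-- fraction field of the power series ring -/
abbrev KK (V : Type*) := FractionRing (MvPowerSeries V ℂ)

noncomputable abbrev al (V : Type*) : MvPowerSeries V ℂ →+* KK V := algebraMap _ _

theorem al_inj {x y : MvPowerSeries V ℂ} (h : al V x = al V y) : x = y :=
  IsFractionRing.injective (MvPowerSeries V ℂ) (KK V) h

/-- partial derivatives on the fraction field -/
noncomputable def DK (v : V) : Derivation ℂ (KK V) (KK V) := extD (pderiv ℂ v)

theorem DK_al (v : V) (x : MvPowerSeries V ℂ) : DK v (al V x) = al V (pderiv ℂ v x) :=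
  extD_alg _ x

/-- The `K`-span of the partial derivatives along the variables in `W`. -/
noncomputable def DD (W : Set V) : Submodule (KK V) (Derivation ℂ (KK V) (KK V)) :=
  Submodule.span (KK V) (DK '' W)

/-- Chain rule for the derivations in `DD`. -/
theorem chain_rule {ι : Type*} [Fintype ι] [DecidableEq ι] {W : Set V}
    {D : Derivation ℂ (KK V) (KK V)} (hD : D ∈ DD W) {a : ι → MvPowerSeries V ℂ}
    (ha : ∀ i, constantCoeff (a i) = 0) (f : MvPowerSeries ι ℂ) :
    D (al V (subst a f)) = ∑ i, al V (subst a (pderiv ℂ i f)) * D (al V (a i)) := by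
  induction hD using Submodule.span_induction with
  | mem D hD =>
    obtain ⟨v, -, rfl⟩ := hD
    rw [DK_al, pderiv_subst ha, map_sum]
    refine Finset.sum_congr rfl fun i _ => ?_
    rw [map_mul, DK_al]
  | zero => simp
  | add D D' _ _ h h' =>
    rw [Derivation.add_apply, h, h', ← Finset.sum_add_distrib]
    refine Finset.sum_congr rfl fun i _ => ?_
    rw [Derivation.add_apply]; ring
  | smul c D _ h =>
    rw [Derivation.smul_apply, h, smul_eq_mul, Finset.mul_sum]
    refine Finset.sum_congr rfl fun i _ => ?_
    rw [Derivation.smul_apply, smul_eq_mul]; ring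

theorem DD_mono {W W' : Set V} (h : W ⊆ W') : DD W ≤ DD W' :=
  Submodule.span_mono (Set.image_mono h)

theorem DK_mem {W : Set V} {v : V} (h : v ∈ W) : DK v ∈ DD W :=
  Submodule.subset_span ⟨v, h, rfl⟩

/-- Derivations along variables in `W` kill power series not involving these variables. -/
theorem DD_kill {W : Set V} {D : Derivation ℂ (KK V) (KK V)} (hD : D ∈ DD W)
    {f : MvPowerSeries V ℂ} (hf : ∀ v ∈ W, pderiv ℂ v f = 0) : D (al V f) = 0 := by
  induction hD using Submodule.span_induction with
  | mem D hD =>
    obtain ⟨v, hv, rfl⟩ := hD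
    rw [DK_al, hf v hv, map_zero]
  | zero => simp
  | add D D' _ _ h h' => rw [Derivation.add_apply, h, h', add_zero]
  | smul c D _ h => rw [Derivation.smul_apply, h, smul_zero]

/-- A dual family of derivations makes a substitution injective, and two complementary dual
families make two substitutions linearly disjoint. -/
theorem two_point {ι κ J : Type*} [Fintype ι] [DecidableEq ι] [Fintype κ] [DecidableEq κ]
    [Fintype J] {a : ι → MvPowerSeries V ℂ} {b : κ → MvPowerSeries V ℂ}
    (ha : ∀ i, constantCoeff (a i) = 0) (hb : ∀ i, constantCoeff (b i) = 0)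
    {W : Set V} {Da : ι → Derivation ℂ (KK V) (KK V)} {Db : κ → Derivation ℂ (KK V) (KK V)}
    (hDa : ∀ i, Da i ∈ DD W) (hDb : ∀ i, Db i ∈ DD W)
    (haa : ∀ i i', Da i (al V (a i')) = if i = i' then 1 else 0)
    (hab : ∀ i i', Da i (al V (b i')) = 0)
    (hbb : ∀ i i', Db i (al V (b i')) = if i = i' then 1 else 0)
    (hba : ∀ i i', Db i (al V (a i')) = 0)
    (c : J → MvPowerSeries ι ℂ) (g : J → MvPowerSeries κ ℂ)
    (h : ∑ j, (subst a (c j) : MvPowerSeries V ℂ) * subst b (g j) = 0) :
    ∀ e e', ∑ j, coeff e (c j) * coeff e' (g j) = 0 := by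
  have hsa := hasSubst_of_constantCoeff_zero ha
  have hsb := hasSubst_of_constantCoeff_zero hb
  -- differentiate in the `a` directions
  have stepa : ∀ (i : ι) (c : J → MvPowerSeries ι ℂ) (g : J → MvPowerSeries κ ℂ),
      ∑ j, (subst a (c j) : MvPowerSeries V ℂ) * subst b (g j) = 0 →
      ∑ j, (subst a (pderiv ℂ i (c j)) : MvPowerSeries V ℂ) * subst b (g j) = 0 := by
    intro i c g h
    apply al_inj
    have h1 := congrArg (fun x => Da i (al V x)) h
    simp only [map_sum, map_zero, map_mul] at h1 ⊢
    rw [← h1]
    refine Finset.sum_congr rfl fun j _ => ?_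
    rw [Derivation.leibniz, chain_rule (hDa i) ha, chain_rule (hDa i) hb]
    simp [haa, hab, mul_comm]
  have stepb : ∀ (i : κ) (c : J → MvPowerSeries ι ℂ) (g : J → MvPowerSeries κ ℂ),
      ∑ j, (subst a (c j) : MvPowerSeries V ℂ) * subst b (g j) = 0 →
      ∑ j, (subst a (c j) : MvPowerSeries V ℂ) * subst b (pderiv ℂ i (g j)) = 0 := by
    intro i c g h
    apply al_inj
    have h1 := congrArg (fun x => Db i (al V x)) h
    simp only [map_sum, map_zero, map_mul] at h1 ⊢
    rw [← h1]
    refine Finset.sum_congr rfl fun j _ => ?_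
    rw [Derivation.leibniz, chain_rule (hDb i) ha, chain_rule (hDb i) hb]
    simp [hba, hbb, mul_comm]
  have base : ∀ (c : J → MvPowerSeries ι ℂ) (g : J → MvPowerSeries κ ℂ),
      ∑ j, (subst a (c j) : MvPowerSeries V ℂ) * subst b (g j) = 0 →
      ∑ j, coeff 0 (c j) * coeff 0 (g j) = 0 := by
    intro c g h
    have h1 := congrArg (constantCoeff (σ := V) (R := ℂ)) h
    simp only [map_sum, map_mul, map_zero] at h1
    rw [← h1]
    refine Finset.sum_congr rfl fun j _ => ?_
    have e1 : ∀ f : MvPowerSeries ι ℂ, constantCoeff (subst a f : MvPowerSeries V ℂ) = coeff 0 f := by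
      intro f
      have : f = C (constantCoeff f) + (f - C (constantCoeff f)) := by ring
      conv_lhs => rw [this, subst_add hsa, subst_C' ha, map_add]
      have h2 : constantCoeff (subst a (f - C (constantCoeff f)) : MvPowerSeries V ℂ) = 0 := by
        rw [← one_le_order_iff_constCoeff_eq_zero]
        apply order_subst ha _ 1
        rw [Nat.cast_one, one_le_order_iff_constCoeff_eq_zero]
        simp
      rw [h2]; simp
    have e2 : ∀ f : MvPowerSeries κ ℂ, constantCoeff (subst b f : MvPowerSeries V ℂ) = coeff 0 f := by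
      intro f
      have : f = C (constantCoeff f) + (f - C (constantCoeff f)) := by ring
      conv_lhs => rw [this, subst_add hsb, subst_C' hb, map_add]
      have h2 : constantCoeff (subst b (f - C (constantCoeff f)) : MvPowerSeries V ℂ) = 0 := by
        rw [← one_le_order_iff_constCoeff_eq_zero]
        apply order_subst hb _ 1
        rw [Nat.cast_one, one_le_order_iff_constCoeff_eq_zero]
        simp
      rw [h2]; simp
    rw [e1, e2]
  -- induction on the degrees
  have key2 : ∀ (k : ℕ) (e' : κ →₀ ℕ), e'.degree = k → ∀ (c : J → MvPowerSeries ι ℂ)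
      (g : J → MvPowerSeries κ ℂ),
      ∑ j, (subst a (c j) : MvPowerSeries V ℂ) * subst b (g j) = 0 →
      ∑ j, coeff 0 (c j) * coeff e' (g j) = 0 := by
    intro k
    induction k with
    | zero =>
      intro e' he c g h
      rw [Finsupp.degree_eq_zero_iff] at he
      rw [he]; exact base c g h
    | succ k ih =>
      intro e' he c g h
      have hne : e' ≠ 0 := by rintro rfl; simp at he
      obtain ⟨i, hi⟩ := Finsupp.ne_iff.mp hne
      have hle : Finsupp.single i 1 ≤ e' := by
        rw [Finsupp.single_le_iff]; exact Nat.one_le_iff_ne_zero.mpr hi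
      obtain ⟨e₀, rfl⟩ := exists_add_of_le hle
      rw [map_add, Finsupp.degree_single, add_comm] at he
      have h1 := ih e₀ (Nat.succ_injective he) c _ (stepb i c g h)
      simp only [coeff_pderiv] at h1
      have h2 : (∑ j, coeff 0 (c j) * coeff (Finsupp.single i 1 + e₀) (g j)) * ((e₀ i : ℂ) + 1) = 0 := by
        rw [Finset.sum_mul, ← h1]
        refine Finset.sum_congr rfl fun j _ => ?_
        rw [add_comm e₀]; ring
      exact (mul_eq_zero.mp h2).resolve_right (Nat.cast_add_one_ne_zero _)
  have key1 : ∀ (k : ℕ) (e : ι →₀ ℕ), e.degree = k → ∀ (e' : κ →₀ ℕ) (c : J → MvPowerSeries ι ℂ)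
      (g : J → MvPowerSeries κ ℂ),
      ∑ j, (subst a (c j) : MvPowerSeries V ℂ) * subst b (g j) = 0 →
      ∑ j, coeff e (c j) * coeff e' (g j) = 0 := by
    intro k
    induction k with
    | zero =>
      intro e he e' c g h
      rw [Finsupp.degree_eq_zero_iff] at he
      rw [he]; exact key2 _ e' rfl c g h
    | succ k ih =>
      intro e he e' c g h
      have hne : e ≠ 0 := by rintro rfl; simp at he
      obtain ⟨i, hi⟩ := Finsupp.ne_iff.mp hne
      have hle : Finsupp.single i 1 ≤ e := by
        rw [Finsupp.single_le_iff]; exact Nat.one_le_iff_ne_zero.mpr hi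
      obtain ⟨e₀, rfl⟩ := exists_add_of_le hle
      rw [map_add, Finsupp.degree_single, add_comm] at he
      have h1 := ih e₀ (Nat.succ_injective he) e' _ g (stepa i c g h)
      simp only [coeff_pderiv] at h1
      have h2 : (∑ j, coeff (Finsupp.single i 1 + e₀) (c j) * coeff e' (g j)) * ((e₀ i : ℂ) + 1) = 0 := by
        rw [Finset.sum_mul, ← h1]
        refine Finset.sum_congr rfl fun j _ => ?_
        rw [add_comm e₀]; ring
      exact (mul_eq_zero.mp h2).resolve_right (Nat.cast_add_one_ne_zero _)
  intro e e'
  exact key1 _ e rfl e' c g h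

/-- A dual family of derivations makes a substitution injective. -/
theorem subst_inj {ι : Type*} [Fintype ι] [DecidableEq ι] {a : ι → MvPowerSeries V ℂ}
    (ha : ∀ i, constantCoeff (a i) = 0) {W : Set V} {Da : ι → Derivation ℂ (KK V) (KK V)}
    (hDa : ∀ i, Da i ∈ DD W) (haa : ∀ i i', Da i (al V (a i')) = if i = i' then 1 else 0)
    {f : MvPowerSeries ι ℂ} (h : (subst a f : MvPowerSeries V ℂ) = 0) : f = 0 := by
  have h1 := two_point (ι := ι) (κ := Fin 0) (J := Unit) (a := a) (b := fun i => i.elim0) ha
    (fun i => i.elim0) (W := W) (Da := Da) (Db := fun i => i.elim0) hDa (fun i => i.elim0) haa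
    (fun i i' => i'.elim0) (fun i => i.elim0) (fun i => i.elim0) (fun _ => f) (fun _ => 1)
    (by simp [h])
  ext e
  have h2 := h1 e 0
  simpa using h2

end span

end Pool.Agent.Results.MP_51bf1a_an.JetDet
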