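import Pool.Agent.Helper706.JD.G3

set_option autoImplicit false

open scoped Topology ContDiff ComplexConjugate
open Set Filter Complex

namespace Pool.Agent.Results.MP_51bf1a_an.JetDet





/-! ### identity theorem along the real points -/

/-- the map `Φ` -/
noncomputable def G5phi {n d : ℕ} (R : (ZI n d → ℂ) × (ZI n d → ℂ) → (Fin d → ℂ))
    (x : (ZI n d → ℂ) × (ZI n d → ℂ)) :
    (Fin n → ℂ) × (Fin n → ℂ) × (Fin d → ℂ) × (Fin d → ℂ) :=
  (fun j => x.1 (Sum.inl j), fun j => x.2 (Sum.inl j), R x,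
    fun μ => (x.1 (Sum.inr μ) - x.2 (Sum.inr μ)) / (2 * I))

/-- its derivative at `0` -/
noncomputable def G5lin (n d : ℕ) : ((ZI n d → ℂ) × (ZI n d → ℂ)) ≃ₗ[ℂ]
    ((Fin n → ℂ) × (Fin n → ℂ) × (Fin d → ℂ) × (Fin d → ℂ)) where
  toFun x := (fun j => x.1 (Sum.inl j), fun j => x.2 (Sum.inl j),
    fun μ => (x.1 (Sum.inr μ) + x.2 (Sum.inr μ)) / 2,
    fun μ => (x.1 (Sum.inr μ) - x.2 (Sum.inr μ)) / (2 * I))
  map_add' x y := by
    refine Prod.ext ?_ (Prod.ext ?_ (Prod.ext ?_ ?_)) <;> funext j <;> simp <;> ring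
  map_smul' c x := by
    refine Prod.ext ?_ (Prod.ext ?_ (Prod.ext ?_ ?_)) <;> funext j <;> simp <;> ring
  invFun y := (Sum.elim y.1 (fun μ => y.2.2.1 μ + I * y.2.2.2 μ),
    Sum.elim y.2.1 (fun μ => y.2.2.1 μ - I * y.2.2.2 μ))
  left_inv x := by
    have hI : I ≠ 0 := I_ne_zero
    refine Prod.ext ?_ ?_
    · funext i
      rcases i with i | i
      · rfl
      · simp only [Sum.elim_inr]
        field_simp
        ring
    · funext i
      rcases i with i | i
      · rfl
      · simp only [Sum.elim_inr]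
        field_simp
        ring
  right_inv y := by
    have hI : I ≠ 0 := I_ne_zero
    refine Prod.ext rfl (Prod.ext rfl (Prod.ext ?_ ?_)) <;> funext j
    · simp only [Sum.elim_inr]
      ring
    · simp only [Sum.elim_inr]
      field_simp
      ring

theorem G5_hasFDerivAt {n d : ℕ} {g : (ZI n d → ℂ) → (Fin d → ℝ)}
    {R : (ZI n d → ℂ) × (ZI n d → ℂ) → (Fin d → ℂ)} (hR : Polar g R) :
    AnalyticAt ℂ (G5phi R) 0 ∧
      fderiv ℂ (G5phi R) 0 = ((G5lin n d).toContinuousLinearEquiv : _ →L[ℂ] _) := by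
  let P1 : ((ZI n d → ℂ) × (ZI n d → ℂ)) →L[ℂ] (Fin n → ℂ) :=
    ContinuousLinearMap.pi fun j => (ContinuousLinearMap.proj (Sum.inl j)).comp
      (ContinuousLinearMap.fst ℂ (ZI n d → ℂ) (ZI n d → ℂ))
  let P2 : ((ZI n d → ℂ) × (ZI n d → ℂ)) →L[ℂ] (Fin n → ℂ) :=
    ContinuousLinearMap.pi fun j => (ContinuousLinearMap.proj (Sum.inl j)).comp
      (ContinuousLinearMap.snd ℂ (ZI n d → ℂ) (ZI n d → ℂ))
  let P4 : ((ZI n d → ℂ) × (ZI n d → ℂ)) →L[ℂ] (Fin d → ℂ) :=
    (2 * I)⁻¹ • (ContinuousLinearMap.pi fun j => (ContinuousLinearMap.proj (Sum.inr j)).comp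
      (ContinuousLinearMap.fst ℂ (ZI n d → ℂ) (ZI n d → ℂ)) -
      (ContinuousLinearMap.proj (Sum.inr j)).comp
      (ContinuousLinearMap.snd ℂ (ZI n d → ℂ) (ZI n d → ℂ)))
  have e : G5phi R = fun x => (P1 x, P2 x, R x, P4 x) := by
    funext x
    refine Prod.ext rfl (Prod.ext rfl (Prod.ext rfl ?_))
    funext μ
    simp [G5phi, P4, div_eq_inv_mul]
  have h1 : AnalyticAt ℂ (G5phi R) 0 := by
    rw [e]
    exact (P1.analyticAt 0).prod ((P2.analyticAt 0).prod (hR.analytic.prod (P4.analyticAt 0)))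
  refine ⟨h1, ?_⟩
  have h2 : HasFDerivAt (G5phi R) (P1.prod (P2.prod ((fderiv ℂ R 0).prod P4))) 0 := by
    rw [e]
    exact P1.hasFDerivAt.prodMk (P2.hasFDerivAt.prodMk
      (hR.analytic.differentiableAt.hasFDerivAt.prodMk P4.hasFDerivAt))
  rw [h2.fderiv]
  refine ContinuousLinearMap.ext fun x => ?_
  refine Prod.ext rfl (Prod.ext rfl (Prod.ext ?_ ?_))
  · funext μ
    exact hR.deriv x.1 x.2 μ
  · funext μ
    simp [G5lin, P4, div_eq_inv_mul]

theorem G5_inc_eq {n d : ℕ} (y : ZI n d → ℂ) :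
    inc y = Sum.elim (fun j => cj y (Sum.inl j)) y := rfl

theorem G5_continuous_cj {σ : Type*} : Continuous (cj : (σ → ℂ) → (σ → ℂ)) :=
  continuous_pi fun i => continuous_conj.comp (continuous_apply i)

theorem G5_cj_cj {σ : Type*} (y : σ → ℂ) : cj (cj y) = y := by
  funext i
  simp [cj]

theorem identity_near {n d : ℕ} {g : (ZI n d → ℂ) → (Fin d → ℝ)}
    {R : (ZI n d → ℂ) × (ZI n d → ℂ) → (Fin d → ℂ)}
    {q : Bool → (SI n d → ℂ) → (Fin d → ℂ)} (hR : Polar g R) (hq : Graph R q) :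
    ∀ᶠ y in 𝓝 (0 : ZI n d → ℂ), g y = 0 → ∀ F : (SI n d → ℂ) → ℂ, AnalyticAt ℂ F (inc y) →
      (∀ᶠ y' in 𝓝 y, g y' = 0 → F (inc y') = 0) → ∀ᶠ s in 𝓝 (inc y), F s = 0 := by
  obtain ⟨hΦa, hΦd⟩ := G5_hasFDerivAt hR
  have hst : HasStrictFDerivAt (G5phi R) ((G5lin n d).toContinuousLinearEquiv : _ →L[ℂ] _) 0 := by
    have := hΦa.hasStrictFDerivAt
    rwa [hΦd] at this
  set e := hst.toOpenPartialHomeomorph (G5phi R) with he
  have hcoe : ∀ x, e x = G5phi R x := fun x => rfl
  have h0s : (0 : (ZI n d → ℂ) × (ZI n d → ℂ)) ∈ e.source :=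
    hst.mem_toOpenPartialHomeomorph_source
  have hsymm : AnalyticAt ℂ e.symm (G5phi R 0) := e.analyticAt_symm' h0s hΦa hΦd
  -- the conjugation swap
  have hsw : Continuous (fun x : (ZI n d → ℂ) × (ZI n d → ℂ) => (cj x.2, cj x.1)) :=
    (G5_continuous_cj.comp continuous_snd).prodMk (G5_continuous_cj.comp continuous_fst)
  have hsw0 : ((cj (0 : (ZI n d → ℂ) × (ZI n d → ℂ)).2, cj (0 : (ZI n d → ℂ) × (ZI n d → ℂ)).1) :
      (ZI n d → ℂ) × (ZI n d → ℂ)) = 0 := by
    refine Prod.ext ?_ ?_ <;> funext i <;> simp [cj]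
  have c1 : ∀ᶠ x in 𝓝 (0 : (ZI n d → ℂ) × (ZI n d → ℂ)), x ∈ e.source :=
    e.open_source.mem_nhds h0s
  have c2 : ∀ᶠ x in 𝓝 (0 : (ZI n d → ℂ) × (ZI n d → ℂ)), (cj x.2, cj x.1) ∈ e.source :=
    hsw.continuousAt.eventually_mem (by rw [hsw0]; exact e.open_source.mem_nhds h0s)
  have c3 := hR.herm
  have c4 : ∀ᶠ x in 𝓝 (0 : (ZI n d → ℂ) × (ZI n d → ℂ)), AnalyticAt ℂ e.symm (G5phi R x) :=
    hΦa.continuousAt.eventually hsymm.eventually_analyticAt
  have c5 : ∀ᶠ x in 𝓝 (0 : (ZI n d → ℂ) × (ZI n d → ℂ)),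
      R (x.1, cj x.1) = fun μ => (g x.1 μ : ℂ) := by
    have : ContinuousAt (fun x : (ZI n d → ℂ) × (ZI n d → ℂ) => x.1) 0 := continuous_fst.continuousAt
    exact this.eventually hR.diag
  have c6 := hq.mem_true
  have call := (c1.and (c2.and (c3.and (c4.and (c5.and c6))))).eventually_nhds
  -- pull back along `y ↦ (y, cj y)`
  have hdg : Continuous (fun y : ZI n d → ℂ => (y, cj y)) := continuous_id.prodMk G5_continuous_cj
  have hdg0 : ((0 : ZI n d → ℂ), cj (0 : ZI n d → ℂ)) = 0 := by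
    refine Prod.ext rfl ?_
    funext i
    simp [cj]
  have hinc : Continuous (inc : (ZI n d → ℂ) → (SI n d → ℂ)) := by
    refine continuous_pi fun i => ?_
    rcases i with i | i
    · exact continuous_conj.comp (continuous_apply _)
    · exact continuous_apply _
  have hinc0 : inc (0 : ZI n d → ℂ) = 0 := by
    funext i
    rcases i with i | i <;> simp [inc]
  have d1 : ∀ᶠ y in 𝓝 (0 : ZI n d → ℂ), ∀ᶠ x in 𝓝 ((y, cj y) : (ZI n d → ℂ) × (ZI n d → ℂ)),
      x ∈ e.source ∧ (cj x.2, cj x.1) ∈ e.source ∧ R (cj x.2, cj x.1) = cj (R x) ∧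
      AnalyticAt ℂ e.symm (G5phi R x) ∧ (R (x.1, cj x.1) = fun μ => (g x.1 μ : ℂ)) ∧
      (R x = 0 ↔
        q true (Sum.elim (fun j => x.2 (Sum.inl j)) x.1) = fun μ => x.2 (Sum.inr μ)) := by
    have h := hdg.continuousAt (x := (0 : ZI n d → ℂ))
    unfold ContinuousAt at h
    beta_reduce at h
    rw [hdg0] at h
    exact h.eventually call
  have d2 : ∀ᶠ y in 𝓝 (0 : ZI n d → ℂ), AnalyticAt ℂ (q true) (inc y) := by
    have h := hinc.continuousAt (x := (0 : ZI n d → ℂ))
    unfold ContinuousAt at h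
    rw [hinc0] at h
    exact h.eventually (hq.analytic true).eventually_analyticAt
  filter_upwards [d1, d2] with y0 hy1 hy2 hg0 F hF hF0
  obtain ⟨a1, a2, a3, a4, a5, a6⟩ := hy1.self_of_nhds
  simp only at a1 a2 a3 a4 a5 a6
  set x0 : (ZI n d → ℂ) × (ZI n d → ℂ) := (y0, cj y0) with hx0
  have hRx0 : R x0 = 0 := by
    rw [a5, hg0]
    funext μ
    simp
  -- base point
  set b0 : (Fin n → ℂ) × (Fin n → ℂ) × (Fin d → ℂ) :=
    (fun j => y0 (Sum.inl j), fun j => conj (y0 (Sum.inl j)), fun μ => ((y0 (Sum.inr μ)).im : ℂ))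
    with hb0
  let j0 : (Fin n → ℂ) × (Fin n → ℂ) × (Fin d → ℂ) →
      (Fin n → ℂ) × (Fin n → ℂ) × (Fin d → ℂ) × (Fin d → ℂ) := fun b => (b.1, b.2.1, 0, b.2.2)
  have him : ∀ z : ℂ, (z - conj z) / (2 * I) = (z.im : ℂ) := by
    intro z
    rw [Complex.sub_conj]
    have : I ≠ 0 := I_ne_zero
    push_cast
    field_simp
  have hj0 : j0 b0 = G5phi R x0 := by
    refine Prod.ext rfl (Prod.ext rfl (Prod.ext hRx0.symm ?_))
    funext μ
    exact (him _).symm
  have hj0a : AnalyticAt ℂ j0 b0 := by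
    have e1 : AnalyticAt ℂ (fun b : (Fin n → ℂ) × (Fin n → ℂ) × (Fin d → ℂ) => b.1) b0 :=
      analyticAt_fst
    have e2 : AnalyticAt ℂ (fun b : (Fin n → ℂ) × (Fin n → ℂ) × (Fin d → ℂ) => b.2.1) b0 :=
      analyticAt_fst.comp analyticAt_snd
    have e3 : AnalyticAt ℂ (fun b : (Fin n → ℂ) × (Fin n → ℂ) × (Fin d → ℂ) => b.2.2) b0 :=
      analyticAt_snd.comp analyticAt_snd
    exact e1.prod (e2.prod (analyticAt_const.prod e3))
  let Ψ : (Fin n → ℂ) × (Fin n → ℂ) × (Fin d → ℂ) → (ZI n d → ℂ) × (ZI n d → ℂ) :=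
    fun b => e.symm (j0 b)
  have hΨa : AnalyticAt ℂ Ψ b0 := AnalyticAt.comp_of_eq a4 hj0a hj0
  have hΨ0 : Ψ b0 = x0 := by
    show e.symm (j0 b0) = x0
    rw [hj0, ← hcoe, e.left_inv a1]
  let S : (ZI n d → ℂ) × (ZI n d → ℂ) → (SI n d → ℂ) := fun x =>
    Sum.elim (fun j => x.2 (Sum.inl j)) x.1
  have hSa : ∀ x, AnalyticAt ℂ S x := by
    intro x
    refine AnalyticAt.pi fun i => ?_
    rcases i with i | i
    · exact ((ContinuousLinearMap.proj (R := ℂ) (Sum.inl i)).comp
        (ContinuousLinearMap.snd ℂ (ZI n d → ℂ) (ZI n d → ℂ))).analyticAt x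
    · exact ((ContinuousLinearMap.proj (R := ℂ) i).comp
        (ContinuousLinearMap.fst ℂ (ZI n d → ℂ) (ZI n d → ℂ))).analyticAt x
  have hSx0 : S x0 = inc y0 := rfl
  have hFS : AnalyticAt ℂ (fun b => F (S (Ψ b))) b0 := by
    have h1 : AnalyticAt ℂ (fun b => S (Ψ b)) b0 := (hSa _).comp hΨa
    refine AnalyticAt.comp_of_eq (y := inc y0) hF h1 ?_
    rw [hΨ0, hSx0]
  -- translate
  have hFt : ∀ᶠ b in 𝓝 b0, F (S (Ψ b)) = 0 := by
    have hG : AnalyticAt ℂ (fun x => F (S (Ψ (b0 + x)))) 0 := by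
      refine AnalyticAt.comp_of_eq (g := fun b => F (S (Ψ b))) (f := fun x => b0 + x) (y := b0)
        hFS (analyticAt_const.add analyticAt_id) (add_zero _)
    have hreal : ∀ᶠ y : (Fin n → ℂ) × (Fin d → ℝ) in 𝓝 0,
        F (S (Ψ (b0 + (y.1, fun i => conj (y.1 i), fun k => (y.2 k : ℂ))))) = 0 := by
      let r : (Fin n → ℂ) × (Fin d → ℝ) → (Fin n → ℂ) × (Fin n → ℂ) × (Fin d → ℂ) :=
        fun y => b0 + (y.1, fun i => conj (y.1 i), fun k => (y.2 k : ℂ))
      have hr : Continuous r := by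
        refine continuous_const.add (continuous_fst.prodMk (Continuous.prodMk ?_ ?_))
        · exact continuous_pi fun i => continuous_conj.comp ((continuous_apply i).comp continuous_fst)
        · exact continuous_pi fun i => continuous_ofReal.comp ((continuous_apply i).comp continuous_snd)
      have hr0 : r 0 = b0 := by
        refine Prod.ext ?_ (Prod.ext ?_ ?_)
        · show b0.1 + 0 = b0.1
          exact add_zero _
        · funext i
          simp [r]
        · funext i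
          simp [r]
      have hrt : Tendsto r (𝓝 0) (𝓝 b0) := by
        have := hr.continuousAt (x := (0 : (Fin n → ℂ) × (Fin d → ℝ)))
        unfold ContinuousAt at this
        rwa [hr0] at this
      have hΨt : Tendsto Ψ (𝓝 b0) (𝓝 x0) := by
        have := hΨa.continuousAt
        unfold ContinuousAt at this
        rwa [hΨ0] at this
      have ev1 := (hΨt.comp hrt).eventually hy1
      have hjt : Tendsto j0 (𝓝 b0) (𝓝 (G5phi R x0)) := by
        have := hj0a.continuousAt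
        unfold ContinuousAt at this
        rwa [hj0] at this
      have ev2 : ∀ᶠ y in 𝓝 (0 : (Fin n → ℂ) × (Fin d → ℝ)), j0 (r y) ∈ e.target :=
        (hjt.comp hrt).eventually (e.open_target.mem_nhds (by rw [← hcoe]; exact e.map_source a1))
      have ev3 : ∀ᶠ y in 𝓝 (0 : (Fin n → ℂ) × (Fin d → ℝ)),
          g (Ψ (r y)).1 = 0 → F (inc (Ψ (r y)).1) = 0 := by
        have h1 : Tendsto (fun x : (ZI n d → ℂ) × (ZI n d → ℂ) => x.1) (𝓝 x0) (𝓝 y0) :=
          continuous_fst.continuousAt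
        exact (h1.comp (hΨt.comp hrt)).eventually hF0
      filter_upwards [ev1, ev2, ev3] with y h1 h2 h3
      obtain ⟨g1, g2, g3, g4, g5, g6⟩ := h1
      simp only [Function.comp_apply] at g1 g2 g3 g4 g5 g6
      set x := Ψ (r y) with hx
      have hΦx : G5phi R x = j0 (r y) := by
        rw [← hcoe, hx]
        exact e.right_inv h2
      have q1 : ∀ j, x.1 (Sum.inl j) = b0.1 j + y.1 j := fun j =>
        congrFun (congrArg Prod.fst hΦx) j
      have q2 : ∀ j, x.2 (Sum.inl j) = b0.2.1 j + conj (y.1 j) := fun j =>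
        congrFun (congrArg (fun p => p.2.1) hΦx) j
      have q3 : R x = 0 := congrArg (fun p => p.2.2.1) hΦx
      have q4 : ∀ μ, (x.1 (Sum.inr μ) - x.2 (Sum.inr μ)) / (2 * I) = b0.2.2 μ + (y.2 μ : ℂ) :=
        fun μ => congrFun (congrArg (fun p => p.2.2.2) hΦx) μ
      have hx' : (cj x.2, cj x.1) = x := by
        apply e.injOn g2 g1
        rw [hcoe, hcoe]
        refine Prod.ext ?_ (Prod.ext ?_ (Prod.ext ?_ ?_))
        · funext j
          show conj (x.2 (Sum.inl j)) = x.1 (Sum.inl j)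
          rw [q1, q2]
          simp [hb0]
        · funext j
          show conj (x.1 (Sum.inl j)) = x.2 (Sum.inl j)
          rw [q1, q2]
          simp [hb0]
        · show R (cj x.2, cj x.1) = R x
          rw [g3, q3]
          funext i
          simp [cj]
        · funext μ
          show (conj (x.2 (Sum.inr μ)) - conj (x.1 (Sum.inr μ))) / (2 * I) =
            (x.1 (Sum.inr μ) - x.2 (Sum.inr μ)) / (2 * I)
          have h5 : (conj (x.2 (Sum.inr μ)) - conj (x.1 (Sum.inr μ))) / (2 * I) =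
              conj ((x.1 (Sum.inr μ) - x.2 (Sum.inr μ)) / (2 * I)) := by
            rw [map_div₀, map_sub, map_mul, conj_I]
            have : I ≠ 0 := I_ne_zero
            have h2c : (starRingEnd ℂ) 2 = 2 := map_ofNat (starRingEnd ℂ) 2
            rw [h2c]
            field_simp
            ring
          rw [h5, q4]
          simp [hb0]
      have hx2 : x.2 = cj x.1 := (congrArg Prod.snd hx').symm
      have hgx : g x.1 = 0 := by
        have h6 : R (x.1, cj x.1) = 0 := by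
          rw [← hx2]; exact q3
        rw [g5] at h6
        funext μ
        have := congrFun h6 μ
        simpa using this
      have h7 := h3 hgx
      show F (S x) = 0
      have : S x = inc x.1 := by
        show Sum.elim (fun j => x.2 (Sum.inl j)) x.1 = inc x.1
        rw [G5_inc_eq, hx2]
      rw [this]; exact h7
    have h8 := eventually_eq_zero_of_real hG hreal
    have h9 : Tendsto (fun b => b - b0) (𝓝 b0) (𝓝 0) := by
      have : ContinuousAt (fun b : (Fin n → ℂ) × (Fin n → ℂ) × (Fin d → ℂ) => b - b0) b0 := by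
        fun_prop
      unfold ContinuousAt at this
      beta_reduce at this
      rwa [sub_self] at this
    filter_upwards [h9.eventually h8] with b hb
    rwa [add_sub_cancel] at hb
  -- final step
  let xs : (SI n d → ℂ) → (ZI n d → ℂ) × (ZI n d → ℂ) := fun s =>
    (fun i => s (Sum.inr i), Sum.elim (fun j => s (Sum.inl j)) (q true s))
  have hxs0 : xs (inc y0) = x0 := by
    refine Prod.ext rfl ?_
    funext i
    rcases i with i | i
    · rfl
    · exact congrFun (a6.mp hRx0) i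
  have hxsc : ContinuousAt xs (inc y0) := by
    refine ContinuousAt.prodMk ?_ ?_
    · exact (continuous_pi fun i => continuous_apply _).continuousAt
    · refine continuousAt_pi.mpr fun i => ?_
      rcases i with i | i
      · exact (continuous_apply _).continuousAt
      · exact (continuous_apply i).continuousAt.comp hy2.continuousAt
  have hxst : Tendsto xs (𝓝 (inc y0)) (𝓝 x0) := by
    unfold ContinuousAt at hxsc
    rwa [hxs0] at hxsc
  let bs : (ZI n d → ℂ) × (ZI n d → ℂ) → (Fin n → ℂ) × (Fin n → ℂ) × (Fin d → ℂ) := fun x =>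
    (fun j => x.1 (Sum.inl j), fun j => x.2 (Sum.inl j),
      fun μ => (x.1 (Sum.inr μ) - x.2 (Sum.inr μ)) / (2 * I))
  have hbs0 : bs x0 = b0 := by
    refine Prod.ext rfl (Prod.ext rfl ?_)
    funext μ
    exact him _
  have hbsc : Continuous bs := by
    refine Continuous.prodMk ?_ (Continuous.prodMk ?_ ?_)
    · fun_prop
    · fun_prop
    · fun_prop
  have hbst : Tendsto bs (𝓝 x0) (𝓝 b0) := by
    have := hbsc.continuousAt (x := x0)
    unfold ContinuousAt at this
    rwa [hbs0] at this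
  filter_upwards [hxst.eventually hy1, (hbst.comp hxst).eventually hFt] with s h1 h2
  obtain ⟨g1, g2, g3, g4, g5, g6⟩ := h1
  simp only [Function.comp_apply] at h2
  have hSs : S (xs s) = s := by
    funext i
    rcases i with i | i <;> rfl
  have hR0 : R (xs s) = 0 := by
    apply g6.mpr
    have h3 : Sum.elim (fun j => (xs s).2 (Sum.inl j)) (xs s).1 = s := hSs
    rw [h3]
    rfl
  have hj : j0 (bs (xs s)) = G5phi R (xs s) := by
    refine Prod.ext rfl (Prod.ext rfl (Prod.ext hR0.symm rfl))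
  have hΨs : Ψ (bs (xs s)) = xs s := by
    show e.symm (j0 (bs (xs s))) = xs s
    rw [hj, ← hcoe, e.left_inv g1]
  rw [hΨs, hSs] at h2
  exact h2

end Pool.Agent.Results.MP_51bf1a_an.JetDet
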