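import Pool.Agent.Helper706.JD.ChartDefs

set_option autoImplicit false

open scoped Topology ContDiff ComplexConjugate
open Set Filter Complex

namespace Pool.Agent.Results.MP_51bf1a_an.JetDet

/-- Lagrange multipliers: a function constant on the level set has derivative vanishing on the
kernel. -/
theorem tangential_aux {E F : Type*} [NormedAddCommGroup E] [NormedSpace ℝ E] [CompleteSpace E]
    [NormedAddCommGroup F] [NormedSpace ℝ F] [CompleteSpace F]
    {g : E → F} {g' : E →L[ℝ] F} {φ : E → ℝ} {φ' : E →L[ℝ] ℝ} {x : E}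
    (hg : HasStrictFDerivAt g g' x) (hφ : HasStrictFDerivAt φ φ' x)
    (hsurj : Function.Surjective g') (h0 : ∀ᶠ y in 𝓝 x, g y = g x → φ y = φ x)
    (v : E) (hv : g' v = 0) : φ' v = 0 := by
  have hext : IsLocalExtrOn φ {y | g y = g x} x := by
    left
    show ∀ᶠ y in 𝓝[{y | g y = g x}] x, φ x ≤ φ y
    rw [eventually_nhdsWithin_iff]
    filter_upwards [h0] with y hy hy'
    exact (hy hy').ge
  obtain ⟨Λ, Λ₀, hne, h⟩ := hext.exists_linear_map_of_hasStrictFDerivAt hg hφ
  by_cases hΛ : Λ₀ = 0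
  · exfalso
    apply hne
    rw [hΛ] at h ⊢
    have : Λ = 0 := by
      ext y
      obtain ⟨z, rfl⟩ := hsurj y
      have := h z
      simpa using this
    rw [this]
    rfl
  · have h1 := h v
    rw [hv, map_zero, zero_add, smul_eq_mul] at h1
    rcases mul_eq_zero.mp h1 with h2 | h2
    · exact absurd h2 hΛ
    · exact h2

/-- the complex linear map whose real part is `D` -/
noncomputable def lamC {N d : ℕ} (D : (Fin N → ℂ) →L[ℝ] (Fin d → ℝ)) :
    (Fin N → ℂ) →ₗ[ℂ] (Fin d → ℂ) where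
  toFun v := fun μ => (D v μ : ℂ) - I * (D (I • v) μ : ℂ)
  map_add' v w := by
    funext μ
    simp only [smul_add, map_add, Pi.add_apply, ofReal_add]
    ring
  map_smul' c v := by
    have h1 : c • v = (c.re : ℝ) • v + (c.im : ℝ) • (I • v) := by
      funext i
      simp only [Pi.smul_apply, Pi.add_apply, smul_eq_mul, Complex.real_smul]
      conv_lhs => rw [← Complex.re_add_im c]
      ring
    have h2 : I • (c • v) = (c.re : ℝ) • (I • v) + (c.im : ℝ) • (-v) := by
      funext i
      simp only [Pi.smul_apply, Pi.add_apply, smul_eq_mul, Complex.real_smul, Pi.neg_apply]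
      conv_lhs => rw [← Complex.re_add_im c]
      linear_combination (c.im : ℂ) * v i * Complex.I_mul_I
    funext μ
    have h3 : D (c • v) μ = c.re * D v μ + c.im * D (I • v) μ := by
      rw [h1, map_add, map_smul, map_smul]
      rfl
    have h4 : D (I • (c • v)) μ = c.re * D (I • v) μ - c.im * D v μ := by
      rw [h2, map_add, D.map_smul c.re (I • v), D.map_smul c.im (-v), map_neg]
      simp only [Pi.add_apply, Pi.smul_apply, smul_eq_mul, Pi.neg_apply]
      ring
    simp only [RingHom.id_apply, Pi.smul_apply, smul_eq_mul]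
    rw [h3, h4]
    push_cast
    conv_rhs => rw [← Complex.re_add_im c]
    linear_combination ((c.im : ℂ) * (D (I • v) μ : ℂ)) * Complex.I_mul_I

theorem lamC_apply {N d : ℕ} (D : (Fin N → ℂ) →L[ℝ] (Fin d → ℝ)) (v : Fin N → ℂ) (μ : Fin d) :
    lamC D v μ = (D v μ : ℂ) - I * (D (I • v) μ : ℂ) := rfl

theorem lamC_re {N d : ℕ} (D : (Fin N → ℂ) →L[ℝ] (Fin d → ℝ)) (v : Fin N → ℂ) (μ : Fin d) :
    (lamC D v μ).re = D v μ := by
  rw [lamC_apply]
  simp

theorem lamC_surj_iff {N d : ℕ} (D : (Fin N → ℂ) →L[ℝ] (Fin d → ℝ)) :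
    (Function.Surjective D ∧ ∀ v : Fin N → ℂ, ∃ a b : Fin N → ℂ, D a = 0 ∧ D b = 0 ∧
      v = a + I • b) ↔ Function.Surjective (lamC D) := by
  constructor
  · rintro ⟨hs, hv⟩
    have key : ∀ c : Fin d → ℝ, ∃ w, lamC D w = fun μ => (c μ : ℂ) := by
      intro c
      obtain ⟨v, hvc⟩ := hs c
      obtain ⟨a, b, ha, hb, hab⟩ := hv v
      refine ⟨I • b, ?_⟩
      have h1 : D (I • b) = c := by
        rw [← hvc, hab, map_add, ha, zero_add]
      have h2 : I • (I • b) = -b := by
        rw [smul_smul, Complex.I_mul_I, neg_one_smul]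
      funext μ
      rw [lamC_apply, h1, h2, map_neg, hb]
      simp
    intro c
    obtain ⟨w1, h1⟩ := key (fun μ => (c μ).re)
    obtain ⟨w2, h2⟩ := key (fun μ => (c μ).im)
    refine ⟨w1 + I • w2, ?_⟩
    rw [map_add, map_smul, h1, h2]
    funext μ
    simp only [Pi.add_apply, Pi.smul_apply, smul_eq_mul]
    rw [mul_comm]
    exact Complex.re_add_im _
  · intro hs
    constructor
    · intro c
      obtain ⟨v, hv⟩ := hs (fun μ => (c μ : ℂ))
      refine ⟨v, ?_⟩
      funext μ
      rw [← lamC_re, hv]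
      simp
    · intro v
      obtain ⟨b, hb⟩ := hs (fun μ => -I * (D v μ : ℂ))
      refine ⟨v - I • b, b, ?_, ?_, by abel⟩
      · funext μ
        rw [← lamC_re, map_sub, map_smul, hb]
        simp only [Pi.sub_apply, Pi.smul_apply, smul_eq_mul, Pi.zero_apply]
        have : I * (-I * (D v μ : ℂ)) = (D v μ : ℂ) := by
          linear_combination (-(D v μ : ℂ)) * Complex.I_mul_I
        rw [this, Complex.sub_re, lamC_re]
        simp
      · funext μ
        rw [← lamC_re, hb]
        simp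

theorem lamC_surj_eventually {N d : ℕ} {D : (Fin N → ℂ) → ((Fin N → ℂ) →L[ℝ] (Fin d → ℝ))}
    {p : Fin N → ℂ} (hD : ContinuousAt D p) (hp : Function.Surjective (lamC (D p))) :
    ∀ᶠ x in 𝓝 p, Function.Surjective (lamC (D x)) := by
  choose V hV using fun j : Fin d => hp (Pi.single j 1)
  have hc : ContinuousAt (fun x => Matrix.det (Matrix.of fun j k => lamC (D x) (V j) k)) p := by
    have h1 : ContinuousAt (fun x => (Matrix.of fun j k => lamC (D x) (V j) k :
        Matrix (Fin d) (Fin d) ℂ)) p := by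
      refine continuousAt_pi.mpr fun j => continuousAt_pi.mpr fun k => ?_
      have h2 : ∀ v : Fin N → ℂ, ContinuousAt (fun x => ((D x v k : ℝ) : ℂ)) p := by
        intro v
        have h3 : ContinuousAt (fun x => D x v) p := hD.clm_apply continuousAt_const
        exact Complex.continuous_ofReal.continuousAt.comp ((continuous_apply k).continuousAt.comp h3)
      exact (h2 (V j)).sub (continuousAt_const.mul (h2 (I • V j)))
    exact (Continuous.matrix_det continuous_id).continuousAt.comp h1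
  have hne : Matrix.det (Matrix.of fun j k => lamC (D p) (V j) k) ≠ 0 := by
    have : (Matrix.of fun j k => lamC (D p) (V j) k : Matrix (Fin d) (Fin d) ℂ) = 1 := by
      ext j k
      rw [Matrix.of_apply, hV j, Matrix.one_apply, Pi.single_apply]
      simp only [eq_comm]
    rw [this, Matrix.det_one]
    exact one_ne_zero
  filter_upwards [hc.eventually_ne hne] with x hx
  intro c
  set A : Matrix (Fin d) (Fin d) ℂ := Matrix.of fun j k => lamC (D x) (V j) k with hA
  have hu : IsUnit A.det := isUnit_iff_ne_zero.mpr hx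
  refine ⟨∑ j, (Matrix.vecMul c A⁻¹) j • V j, ?_⟩
  rw [map_sum]
  have h1 : Matrix.vecMul (Matrix.vecMul c A⁻¹) A = c := by
    rw [Matrix.vecMul_vecMul, Matrix.nonsing_inv_mul _ hu, Matrix.vecMul_one]
  conv_rhs => rw [← h1]
  funext k
  rw [Finset.sum_apply, Matrix.vecMul, dotProduct]
  refine Finset.sum_congr rfl fun j _ => ?_
  rw [map_smul, Pi.smul_apply, smul_eq_mul]
  rfl

/-! ### openness of the defining condition; tangent vectors -/

theorem IsDefiningAt.eventually {N d : ℕ} {M : Set (Fin N → ℂ)} {p : Fin N → ℂ}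
    {ρ : (Fin N → ℂ) → (Fin d → ℝ)} (h : IsDefiningAt d M ρ p) :
    ∀ᶠ x in 𝓝 p, IsDefiningAt d M ρ x := by
  obtain ⟨h1, h2, h3, h4⟩ := h
  have hs : Function.Surjective (lamC (fderiv ℝ ρ p)) := (lamC_surj_iff _).mp ⟨h3, h4⟩
  have hc : ContinuousAt (fderiv ℝ ρ) p := h1.fderiv.continuousAt
  filter_upwards [h1.eventually_analyticAt, h2.eventually_nhds, lamC_surj_eventually hc hs]
    with x a1 a2 a3
  exact ⟨a1, a2, (lamC_surj_iff _).mpr a3⟩

theorem tangentVec_iff {N d : ℕ} {M : Set (Fin N → ℂ)} {x : Fin N → ℂ}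
    {ρ : (Fin N → ℂ) → (Fin d → ℝ)} (h : IsDefiningAt d M ρ x) (hx : x ∈ M) (v : Fin N → ℂ) :
    TangentVec d M x v ↔ fderiv ℝ ρ x v = 0 := by
  refine ⟨?_, fun hv => ⟨ρ, h, hv⟩⟩
  rintro ⟨ρ', ⟨h1', h2', h3', -⟩, hv⟩
  obtain ⟨h1, h2, -, -⟩ := h
  have hx1 : ρ x = 0 := h2.self_of_nhds.mp hx
  have hx2 : ρ' x = 0 := h2'.self_of_nhds.mp hx
  have hs : HasStrictFDerivAt ρ (fderiv ℝ ρ x) x := h1.hasStrictFDerivAt
  have hs' : HasStrictFDerivAt ρ' (fderiv ℝ ρ' x) x := h1'.hasStrictFDerivAt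
  funext μ
  have hμ : HasStrictFDerivAt (fun y => ρ y μ)
      ((ContinuousLinearMap.proj (R := ℝ) (φ := fun _ : Fin d => ℝ) μ).comp (fderiv ℝ ρ x)) x :=
    (ContinuousLinearMap.proj (R := ℝ) (φ := fun _ : Fin d => ℝ) μ).hasStrictFDerivAt.comp x hs
  have := tangential_aux hs' hμ h3' (by
    filter_upwards [h2, h2'] with y b1 b2 b3
    rw [hx2] at b3
    have b4 : ρ y = 0 := b1.mp (b2.mpr b3)
    rw [b4, hx1]) v hv
  exact this

end Pool.Agent.Results.MP_51bf1a_an.JetDet
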