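import Pool.Agent.Helper706.JD.G3

set_option autoImplicit false

open scoped Topology ContDiff ComplexConjugate
open Set Filter Complex

namespace Pool.Agent.Results.MP_51bf1a_an.JetDet

/-! ### the involution; the tangent space in terms of the graph function -/

theorem Graph.invol {n d : ℕ} {R : (ZI n d → ℂ) × (ZI n d → ℂ) → (Fin d → ℂ)}
    {q : Bool → (SI n d → ℂ) → (Fin d → ℂ)} (hq : Graph R q) (b : Bool) :
    ∀ᶠ s in 𝓝 0, q (!b) (flipE (q b) s) = fun μ => s (Sum.inr (Sum.inr μ)) := by
  have hc : ContinuousAt (q b) 0 := (hq.analytic b).continuousAt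
  have hcμ : ∀ μ, ContinuousAt (fun s => q b s μ) 0 := fun μ =>
    (continuous_apply μ).continuousAt.comp hc
  cases b
  · -- b = false
    have hX : Tendsto (fun s : SI n d → ℂ =>
        ((Sum.elim (fun j => s (Sum.inl j)) (q false s), fun k => s (Sum.inr k)) :
          (ZI n d → ℂ) × (ZI n d → ℂ))) (𝓝 0) (𝓝 0) := by
      have hca : ContinuousAt (fun s : SI n d → ℂ =>
        ((Sum.elim (fun j => s (Sum.inl j)) (q false s), fun k => s (Sum.inr k)) :
          (ZI n d → ℂ) × (ZI n d → ℂ))) 0 := by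
        apply ContinuousAt.prodMk
        · rw [continuousAt_pi]
          rintro (j | μ)
          · exact (continuous_apply (Sum.inl j)).continuousAt
          · exact hcμ μ
        · rw [continuousAt_pi]
          intro k
          exact (continuous_apply (Sum.inr k)).continuousAt
      have h0 : ((Sum.elim (fun j => (0 : SI n d → ℂ) (Sum.inl j)) (q false 0),
          fun k => (0 : SI n d → ℂ) (Sum.inr k)) : (ZI n d → ℂ) × (ZI n d → ℂ)) = 0 := by
        rw [hq.zero]
        refine Prod.ext ?_ ?_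
        · ext (j | μ) <;> rfl
        · ext k; rfl
      have := hca.tendsto
      rwa [h0] at this
    filter_upwards [hX.eventually hq.mem_false, hX.eventually hq.mem_true] with s h1 h2
    have hs : (Sum.elim (fun j => s (Sum.inl j)) (fun k => s (Sum.inr k)) : SI n d → ℂ) = s := by
      ext (j | k) <;> rfl
    have hR : R (Sum.elim (fun j => s (Sum.inl j)) (q false s), fun k => s (Sum.inr k)) = 0 := by
      rw [h1]
      simp only [Sum.elim_inl, Sum.elim_inr, hs]
    have := h2.mp hR
    simpa only [Sum.elim_inl, Sum.elim_inr, Bool.not_false, flipE] using this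
  · -- b = true
    have hX : Tendsto (fun s : SI n d → ℂ =>
        ((fun k => s (Sum.inr k), Sum.elim (fun j => s (Sum.inl j)) (q true s)) :
          (ZI n d → ℂ) × (ZI n d → ℂ))) (𝓝 0) (𝓝 0) := by
      have hca : ContinuousAt (fun s : SI n d → ℂ =>
        ((fun k => s (Sum.inr k), Sum.elim (fun j => s (Sum.inl j)) (q true s)) :
          (ZI n d → ℂ) × (ZI n d → ℂ))) 0 := by
        apply ContinuousAt.prodMk
        · rw [continuousAt_pi]
          intro k
          exact (continuous_apply (Sum.inr k)).continuousAt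
        · rw [continuousAt_pi]
          rintro (j | μ)
          · exact (continuous_apply (Sum.inl j)).continuousAt
          · exact hcμ μ
      have h0 : ((fun k => (0 : SI n d → ℂ) (Sum.inr k),
          Sum.elim (fun j => (0 : SI n d → ℂ) (Sum.inl j)) (q true 0)) :
          (ZI n d → ℂ) × (ZI n d → ℂ)) = 0 := by
        rw [hq.zero]
        refine Prod.ext ?_ ?_
        · ext k; rfl
        · ext (j | μ) <;> rfl
      have := hca.tendsto
      rwa [h0] at this
    filter_upwards [hX.eventually hq.mem_false, hX.eventually hq.mem_true] with s h1 h2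
    have hs : (Sum.elim (fun j => s (Sum.inl j)) (fun k => s (Sum.inr k)) : SI n d → ℂ) = s := by
      ext (j | k) <;> rfl
    have hR : R (fun k => s (Sum.inr k), Sum.elim (fun j => s (Sum.inl j)) (q true s)) = 0 := by
      rw [h2]
      simp only [Sum.elim_inl, Sum.elim_inr, hs]
    have := h1.mp hR
    simpa only [Sum.elim_inl, Sum.elim_inr, Bool.not_true, flipE] using this

/-- `y ↦ (y, ȳ)` as a continuous `ℝ`-linear map -/
noncomputable def PsiL {σ : Type*} [Fintype σ] : (σ → ℂ) →L[ℝ] (σ → ℂ) × (σ → ℂ) :=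
  (ContinuousLinearMap.id ℝ (σ → ℂ)).prod
    (ContinuousLinearMap.pi fun i => (Complex.conjCLE : ℂ →L[ℝ] ℂ).comp
      (ContinuousLinearMap.proj (R := ℝ) (φ := fun _ : σ => ℂ) i))

theorem PsiL_apply {σ : Type*} [Fintype σ] (y : σ → ℂ) : PsiL y = (y, cj y) := by
  refine Prod.ext rfl ?_
  ext i
  simp [PsiL, cj]

/-- the inclusion `ℝᵈ → ℂᵈ` -/
noncomputable def ofRL (d : ℕ) : (Fin d → ℝ) →L[ℝ] (Fin d → ℂ) :=
  ContinuousLinearMap.pi fun i => Complex.ofRealCLM.comp
      (ContinuousLinearMap.proj (R := ℝ) (φ := fun _ : Fin d => ℝ) i)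

theorem ofRL_apply {d : ℕ} (y : Fin d → ℝ) : ofRL d y = fun μ => (y μ : ℂ) := by
  ext i
  simp [ofRL]

theorem ofRL_eq_zero {d : ℕ} (y : Fin d → ℝ) : ofRL d y = 0 ↔ y = 0 := by
  rw [ofRL_apply]
  constructor
  · intro h
    ext i
    have := congrFun h i
    simpa using this
  · intro h
    ext i
    simp [h]

theorem tangent_local {n d : ℕ} {g : (ZI n d → ℂ) → (Fin d → ℝ)}
    {R : (ZI n d → ℂ) × (ZI n d → ℂ) → (Fin d → ℂ)}
    {q : Bool → (SI n d → ℂ) → (Fin d → ℂ)} (hg : AnalyticAt ℝ g 0) (hR : Polar g R)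
    (hq : Graph R q) :
    ∀ᶠ y in 𝓝 (0 : ZI n d → ℂ), g y = 0 → ∀ v, (fderiv ℝ g y v = 0 ↔
      fderiv ℂ (q false) (cj (inc y)) (cj (inc v)) = fun μ => v (Sum.inr μ)) := by
  -- the map `Ψ y = (y, ȳ)` tends to `0`
  have hΨ : Tendsto (fun y : ZI n d → ℂ => ((y, cj y) : (ZI n d → ℂ) × (ZI n d → ℂ))) (𝓝 0) (𝓝 0) := by
    have := (PsiL (σ := ZI n d)).continuous.tendsto 0
    rw [map_zero] at this
    refine this.congr fun y => ?_
    rw [PsiL_apply]
  -- the map `y ↦ conj (inc y)` tends to `0`
  have hs0 : Tendsto (fun y : ZI n d → ℂ => cj (inc y)) (𝓝 0) (𝓝 0) := by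
    have hca : Continuous (fun y : ZI n d → ℂ => cj (inc y)) := by
      refine continuous_pi ?_
      rintro (j | k)
      · exact Complex.continuous_conj.comp (Complex.continuous_conj.comp (continuous_apply _))
      · exact Complex.continuous_conj.comp (continuous_apply _)
    have h0 : cj (inc (0 : ZI n d → ℂ)) = 0 := by
      ext (j | k) <;> simp [cj, inc]
    have := hca.tendsto 0
    rwa [h0] at this
  -- analytic near 0
  have hgd : ∀ᶠ y in 𝓝 0, DifferentiableAt ℝ g y :=
    hg.eventually_analyticAt.mono fun y hy => hy.differentiableAt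
  have hRd : ∀ᶠ x in 𝓝 0, DifferentiableAt ℂ R x :=
    hR.analytic.eventually_analyticAt.mono fun y hy => hy.differentiableAt
  have hqd : ∀ᶠ x in 𝓝 0, DifferentiableAt ℂ (q false) x :=
    (hq.analytic false).eventually_analyticAt.mono fun y hy => hy.differentiableAt
  -- the map X
  have hX : Tendsto (fun s : SI n d → ℂ =>
        ((Sum.elim (fun j => s (Sum.inl j)) (q false s), fun k => s (Sum.inr k)) :
          (ZI n d → ℂ) × (ZI n d → ℂ))) (𝓝 0) (𝓝 0) := by
    have hc : ContinuousAt (q false) 0 := (hq.analytic false).continuousAt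
    have hcμ : ∀ μ, ContinuousAt (fun s => q false s μ) 0 := fun μ =>
      (continuous_apply μ).continuousAt.comp hc
    have hca : ContinuousAt (fun s : SI n d → ℂ =>
        ((Sum.elim (fun j => s (Sum.inl j)) (q false s), fun k => s (Sum.inr k)) :
          (ZI n d → ℂ) × (ZI n d → ℂ))) 0 := by
      apply ContinuousAt.prodMk
      · rw [continuousAt_pi]
        rintro (j | μ)
        · exact (continuous_apply (Sum.inl j)).continuousAt
        · exact hcμ μ
      · rw [continuousAt_pi]
        intro k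
        exact (continuous_apply (Sum.inr k)).continuousAt
    have h0 : ((Sum.elim (fun j => (0 : SI n d → ℂ) (Sum.inl j)) (q false 0),
          fun k => (0 : SI n d → ℂ) (Sum.inr k)) : (ZI n d → ℂ) × (ZI n d → ℂ)) = 0 := by
      rw [hq.zero]
      refine Prod.ext ?_ ?_
      · ext (j | μ) <;> rfl
      · ext k; rfl
    have := hca.tendsto
    rwa [h0] at this
  have hRX : ∀ᶠ s in 𝓝 (0 : SI n d → ℂ),
      R (Sum.elim (fun j => s (Sum.inl j)) (q false s), fun k => s (Sum.inr k)) = 0 := by
    filter_upwards [hX.eventually hq.mem_false] with s h1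
    have hs : (Sum.elim (fun j => s (Sum.inl j)) (fun k => s (Sum.inr k)) : SI n d → ℂ) = s := by
      ext (j | k) <;> rfl
    rw [h1]
    simp only [Sum.elim_inl, Sum.elim_inr, hs]
  -- continuity of the derivative of R
  have hRc : ∀ᶠ x in 𝓝 0, ‖fderiv ℂ R x - fderiv ℂ R 0‖ < 1 / 4 := by
    have hc : ContinuousAt (fderiv ℂ R) 0 := hR.analytic.fderiv.continuousAt
    have := Metric.tendsto_nhds.mp hc.tendsto (1 / 4) (by norm_num)
    simpa only [dist_eq_norm] using this
  filter_upwards [hgd, hΨ.eventually hRd, hs0.eventually hqd, hs0.eventually hRX.eventually_nhds,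
    hΨ.eventually hRc, hR.diag.eventually_nhds, hΨ.eventually hq.mem_false] with y h1 h2 h3 h4 h5 h6 h7 hgy v
  -- (1) fderiv of g
  have hR1 : HasFDerivAt R ((fderiv ℂ R (y, cj y)).restrictScalars ℝ) (PsiL y) := by
    rw [PsiL_apply]
    exact h2.hasFDerivAt.restrictScalars ℝ
  have hA : HasFDerivAt (R ∘ PsiL) (((fderiv ℂ R (y, cj y)).restrictScalars ℝ).comp PsiL) y :=
    hR1.comp y PsiL.hasFDerivAt
  have hB : HasFDerivAt (ofRL d ∘ g) ((ofRL d).comp (fderiv ℝ g y)) y :=
    (ofRL d).hasFDerivAt.comp y h1.hasFDerivAt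
  have hAB : (ofRL d ∘ g) =ᶠ[𝓝 y] (R ∘ PsiL) := by
    filter_upwards [h6] with z hz
    simp only [Function.comp, PsiL_apply, hz, ofRL_apply]
  have hE := hB.unique (hA.congr_of_eventuallyEq hAB)
  have hEv : ofRL d (fderiv ℝ g y v) = fderiv ℂ R (y, cj y) (v, cj v) := by
    have := congrArg (fun L => L v) hE
    simpa only [ContinuousLinearMap.comp_apply, ContinuousLinearMap.coe_restrictScalars', PsiL_apply]
      using this
  -- (2) s0
  have hs0eq : cj (inc y) = Sum.elim (fun j => y (Sum.inl j)) (cj y) := by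
    ext (j | k) <;> simp [cj, inc]
  have hσeq : cj (inc v) = Sum.elim (fun j => v (Sum.inl j)) (cj v) := by
    ext (j | k) <;> simp [cj, inc]
  have hqy : q false (cj (inc y)) = fun μ => y (Sum.inr μ) := by
    rw [hs0eq]
    apply h7.mp
    have := h6.self_of_nhds
    rw [this, hgy]
    ext μ; simp
  -- derivative of X at s0
  have hXd : HasFDerivAt (fun s : SI n d → ℂ =>
        ((Sum.elim (fun j => s (Sum.inl j)) (q false s), fun k => s (Sum.inr k)) :
          (ZI n d → ℂ) × (ZI n d → ℂ)))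
      ((ContinuousLinearMap.pi fun i => Sum.casesOn (motive := fun _ => (SI n d → ℂ) →L[ℂ] ℂ) i
          (fun j => ContinuousLinearMap.proj (R := ℂ) (φ := fun _ : SI n d => ℂ) (Sum.inl j))
          (fun μ => (ContinuousLinearMap.proj (R := ℂ) (φ := fun _ : Fin d => ℂ) μ).comp
            (fderiv ℂ (q false) (cj (inc y))))).prod
        (ContinuousLinearMap.pi fun k =>
          ContinuousLinearMap.proj (R := ℂ) (φ := fun _ : SI n d => ℂ) (Sum.inr k)))
      (cj (inc y)) := by
    apply HasFDerivAt.prodMk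
    · rw [hasFDerivAt_pi]
      rintro (j | μ)
      · exact (ContinuousLinearMap.proj (R := ℂ) (φ := fun _ : SI n d => ℂ) (Sum.inl j)).hasFDerivAt
      · exact (ContinuousLinearMap.proj (R := ℂ) (φ := fun _ : Fin d => ℂ) μ).hasFDerivAt.comp _
          h3.hasFDerivAt
    · rw [hasFDerivAt_pi]
      intro k
      exact (ContinuousLinearMap.proj (R := ℂ) (φ := fun _ : SI n d => ℂ) (Sum.inr k)).hasFDerivAt
  have hXs0 : ((Sum.elim (fun j => (cj (inc y)) (Sum.inl j)) (q false (cj (inc y))),
      fun k => (cj (inc y)) (Sum.inr k)) : (ZI n d → ℂ) × (ZI n d → ℂ)) = (y, cj y) := by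
    rw [hqy]
    refine Prod.ext ?_ ?_
    · ext (j | μ)
      · simp [cj, inc]
      · rfl
    · ext k
      rfl
  have hR2 : HasFDerivAt R (fderiv ℂ R (y, cj y)) ((Sum.elim (fun j => (cj (inc y)) (Sum.inl j)) (q false (cj (inc y))),
      fun k => (cj (inc y)) (Sum.inr k)) : (ZI n d → ℂ) × (ZI n d → ℂ)) := by
    rw [hXs0]
    exact h2.hasFDerivAt
  have hC := hR2.comp (cj (inc y)) hXd
  have hD : HasFDerivAt (fun _ : SI n d → ℂ => (0 : Fin d → ℂ)) (0 : (SI n d → ℂ) →L[ℂ] (Fin d → ℂ))
      (cj (inc y)) := hasFDerivAt_const _ _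
  have hF := hC.unique (hD.congr_of_eventuallyEq (by
    filter_upwards [h4] with s hs
    simpa only [Function.comp] using hs))
  have hFv : fderiv ℂ R (y, cj y) (Sum.elim (fun j => v (Sum.inl j))
      (fderiv ℂ (q false) (cj (inc y)) (cj (inc v))), cj v) = 0 := by
    have := congrArg (fun L => L (cj (inc v))) hF
    simp only [ContinuousLinearMap.comp_apply, zero_apply] at this
    rw [← this]
    congr 1
    refine Prod.ext ?_ ?_
    · ext (j | μ)
      · simp [cj, inc]
      · rfl
    · ext k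
      rfl
  -- combine
  obtain ⟨D, hDdef⟩ : ∃ D, D = fderiv ℂ (q false) (cj (inc y)) (cj (inc v)) := ⟨_, rfl⟩
  rw [← hDdef] at hFv ⊢
  obtain ⟨om, hom⟩ : ∃ om : Fin d → ℂ, om = fun μ => v (Sum.inr μ) - D μ := ⟨_, rfl⟩
  have hG : ofRL d (fderiv ℝ g y v) = fderiv ℂ R (y, cj y) (Sum.elim (fun _ => 0) om, 0) := by
    rw [hEv]
    have : ((v, cj v) : (ZI n d → ℂ) × (ZI n d → ℂ)) = (Sum.elim (fun _ => 0) om, 0) +
        (Sum.elim (fun j => v (Sum.inl j)) D, cj v) := by
      refine Prod.ext ?_ ?_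
      · ext (j | μ)
        · simp
        · simp [hom]
      · simp
    rw [this, map_add, hFv, add_zero]
  have hinj : fderiv ℂ R (y, cj y) (Sum.elim (fun _ => 0) om, 0) = 0 → om = 0 := by
    intro h
    have e0 : fderiv ℂ R 0 (Sum.elim (fun _ => 0) om, 0) = (1 / 2 : ℂ) • om := by
      ext μ
      rw [hR.deriv]
      simp
      ring
    have e1 : ‖(fderiv ℂ R (y, cj y) - fderiv ℂ R 0) (Sum.elim (fun _ => 0) om, 0)‖ ≤
        1 / 4 * ‖om‖ := by
      refine (ContinuousLinearMap.le_opNorm _ _).trans ?_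
      refine mul_le_mul h5.le ?_ (norm_nonneg _) (by norm_num)
      rw [Prod.norm_def]
      refine max_le ?_ (by simp)
      refine (pi_norm_le_iff_of_nonneg (norm_nonneg _)).mpr ?_
      rintro (j | μ)
      · simp
      · exact norm_le_pi_norm om μ
    rw [ContinuousLinearMap.sub_apply, h, e0, zero_sub, norm_neg, norm_smul] at e1
    have : ‖(1 / 2 : ℂ)‖ = 1 / 2 := by simp
    rw [this] at e1
    have : ‖om‖ = 0 := by
      have := norm_nonneg om
      linarith
    exact norm_eq_zero.mp this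
  constructor
  · intro h
    rw [h, map_zero] at hG
    have := hinj hG.symm
    ext μ
    have h' := congrFun this μ
    rw [hom] at h'
    simp only [Pi.zero_apply] at h'
    exact (sub_eq_zero.mp h').symm
  · intro h
    have h0 : om = 0 := by
      rw [hom, h]; ext μ; simp
    rw [h0] at hG
    have e : ((Sum.elim (fun _ => 0) (0 : Fin d → ℂ), 0) : (ZI n d → ℂ) × (ZI n d → ℂ)) = 0 := by
      refine Prod.ext ?_ rfl
      ext (j | μ) <;> rfl
    rw [e, map_zero, ofRL_eq_zero] at hG
    exact hG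

end Pool.Agent.Results.MP_51bf1a_an.JetDet
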