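import Pool.Agent.Helper706.JD.G1
import Pool.Agent.Helper706.JD.G6ab
import Pool.Agent.Helper706.JD.G5
import Pool.Agent.Helper706.JD.G6c

set_option autoImplicit false

open scoped Topology ContDiff ComplexConjugate
open Set Filter Complex

namespace Pool.Agent.Results.MP_51bf1a_an.JetDet











/-! ### existence of charts -/

theorem cj_inc {n d : ℕ} (y : ZI n d → ℂ) :
    cj (inc y) = Sum.elim (fun j => y (Sum.inl j)) (cj y) := by
  funext i
  rcases i with j | j
  · simp [cj, inc]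
  · simp [cj, inc]

theorem exists_chart {N d : ℕ} {M : Set (Fin N → ℂ)} (hM : IsGenericSubmanifold d M)
    {p : Fin N → ℂ} (hp : p ∈ M) : ∃ n, Nonempty (Chart n d M p) := by
  obtain ⟨ρ, hρ⟩ := hM p hp
  obtain ⟨n, A, hA⟩ := exists_coords hρ
  set Ar : (ZI n d → ℂ) →L[ℝ] (Fin N → ℂ) :=
    (A : (ZI n d → ℂ) →L[ℂ] (Fin N → ℂ)).restrictScalars ℝ with hAr
  set T : (ZI n d → ℂ) → (Fin N → ℂ) := fun y => p + A y with hT
  have hT0 : T 0 = p := by simp [hT]
  have hTcont : Continuous T := by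
    rw [hT]; fun_prop
  have hTt : Tendsto T (𝓝 0) (𝓝 p) := by
    have := hTcont.tendsto 0
    rwa [hT0] at this
  have hTd : ∀ y, HasFDerivAt T Ar y := by
    intro y
    have := (Ar.hasFDerivAt (x := y)).const_add p
    exact this
  set g : (ZI n d → ℂ) → (Fin d → ℝ) := fun y => ρ (T y) with hg
  have hTa : AnalyticAt ℝ T 0 := by
    have h1 : AnalyticAt ℝ (fun y => Ar y) (0 : ZI n d → ℂ) := Ar.analyticAt 0
    exact analyticAt_const.add h1
  have hga : AnalyticAt ℝ g 0 := by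
    have h2 : AnalyticAt ℝ ρ (T 0) := by rw [hT0]; exact hρ.1
    exact h2.comp hTa
  have hmem := hρ.2.1
  have hρp : ρ p = 0 := hmem.self_of_nhds.1 hp
  have hg0 : g 0 = 0 := by
    simp only [hg, hT0, hρp]
  have hgfd : ∀ y, DifferentiableAt ℝ ρ (T y) → ∀ v, fderiv ℝ g y v = fderiv ℝ ρ (T y) (A v) := by
    intro y hy v
    have h1 : HasFDerivAt g ((fderiv ℝ ρ (T y)).comp Ar) y := hy.hasFDerivAt.comp y (hTd y)
    rw [h1.fderiv]
    rfl
  have hd : ∀ y μ, fderiv ℝ g 0 y μ = (y (Sum.inr μ)).re := by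
    intro y μ
    rw [hgfd 0 (by rw [hT0]; exact hρ.1.differentiableAt), hT0]
    exact hA y μ
  obtain ⟨R, hR⟩ := exists_polar hga hg0 hd
  obtain ⟨q, hq⟩ := exists_graph hR
  -- membership in terms of `g`
  have hmemg : ∀ᶠ y in 𝓝 (0 : ZI n d → ℂ), (T y ∈ M ↔ g y = 0) := hTt.eventually hmem
  have hmem2 : ∀ᶠ y in 𝓝 (0 : ZI n d → ℂ), ∀ᶠ y' in 𝓝 y, (T y' ∈ M ↔ g y' = 0) :=
    eventually_eventually_nhds.2 hmemg
  have hcj : Continuous (fun y : ZI n d → ℂ => cj y) := by
    unfold cj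
    fun_prop
  have hpair : Tendsto (fun y : ZI n d → ℂ => (y, cj y)) (𝓝 0) (𝓝 0) := by
    have h1 : Continuous (fun y : ZI n d → ℂ => (y, cj y)) := by fun_prop
    have h2 := h1.tendsto 0
    have h3 : ((0 : ZI n d → ℂ), cj (0 : ZI n d → ℂ)) = 0 := by
      ext i <;> simp [cj]
    rwa [h3] at h2
  have hmf := hpair.eventually hq.mem_false
  refine ⟨n, ⟨{
    A := A
    q := q
    analytic := hq.analytic
    zero := hq.zero
    conj_q := hq.conj_q
    invol := fun b => hq.invol b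
    mem := ?_
    tangent := ?_
    identity := ?_ }⟩⟩
  · filter_upwards [hmemg, hR.diag, hmf] with y h1 h2 h3
    change T y ∈ M ↔ _
    rw [h1, cj_inc]
    rw [← h3, h2]
    constructor
    · intro h
      funext μ
      rw [h]; simp
    · intro h
      funext μ
      have := congrFun h μ
      simpa using this
  · have hdiff : ∀ᶠ y in 𝓝 (0 : ZI n d → ℂ), IsDefiningAt d M ρ (T y) :=
      hTt.eventually hρ.eventually
    filter_upwards [hmemg, hdiff, tangent_local hga hR hq] with y h1 h2 h3 hy v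
    change T y ∈ M at hy
    change TangentVec d M (T y) (A v) ↔ _
    rw [tangentVec_iff h2 hy, ← hgfd y h2.1.differentiableAt]
    exact h3 (h1.1 hy) v
  · filter_upwards [hmemg, hmem2, identity_near hR hq] with y h1 h2 h3 hy F hF hFz
    apply h3 (h1.1 hy) F hF
    filter_upwards [h2, hFz] with y' h4 h5 h6
    exact h5 (h4.2 h6)

end Pool.Agent.Results.MP_51bf1a_an.JetDet
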