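import Pool.Agent.Helper706.JD.Defs

set_option autoImplicit false

open scoped Topology ContDiff
open Set Filter Complex

namespace Pool.Agent.Results.MP_51bf1a_an.JetDet

namespace CEx




section ce
open scoped ComplexConjugate

/-- real part of a coordinate -/
noncomputable def reL (i : Fin 3) : (Fin 3 → ℂ) →L[ℝ] ℝ :=
  reCLM.comp (ContinuousLinearMap.proj i)

/-- imaginary part of a coordinate -/
noncomputable def imL (i : Fin 3) : (Fin 3 → ℂ) →L[ℝ] ℝ :=
  imCLM.comp (ContinuousLinearMap.proj i)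

theorem reL_apply (i : Fin 3) (x : Fin 3 → ℂ) : reL i x = (x i).re := rfl
theorem imL_apply (i : Fin 3) (x : Fin 3 → ℂ) : imL i x = (x i).im := rfl

/-- squared modulus of a coordinate -/
noncomputable def ns (i : Fin 3) (x : Fin 3 → ℂ) : ℝ := reL i x * reL i x + imL i x * imL i x

theorem ns_eq (i : Fin 3) (x : Fin 3 → ℂ) : ns i x = normSq (x i) := by
  rw [ns, normSq_apply]; rfl

theorem ns_analytic (i : Fin 3) (x : Fin 3 → ℂ) : AnalyticAt ℝ (ns i) x :=
  (((reL i).analyticAt x).mul ((reL i).analyticAt x)).add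
    (((imL i).analyticAt x).mul ((imL i).analyticAt x))

theorem ns_deriv (i : Fin 3) (x : Fin 3 → ℂ) :
    HasFDerivAt (ns i) ((2 * (x i).re) • reL i + (2 * (x i).im) • imL i) x := by
  have h := (((reL i).hasFDerivAt (x := x)).mul ((reL i).hasFDerivAt (x := x))).add
    (((imL i).hasFDerivAt (x := x)).mul ((imL i).hasFDerivAt (x := x)))
  refine h.congr_fderiv ?_
  ext v
  simp [reL_apply, imL_apply]
  ring

/-- the defining function -/
noncomputable def rho (x : Fin 3 → ℂ) : Fin 2 → ℝ :=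
  ![imL 1 x - ns 0 x, imL 2 x]

/-- the manifold -/
def Mset : Set (Fin 3 → ℂ) := {x | (x 1).im = normSq (x 0) ∧ (x 2).im = 0}

theorem rho_zero_iff (x : Fin 3 → ℂ) : x ∈ Mset ↔ rho x = 0 := by
  rw [funext_iff, Fin.forall_fin_two]
  simp only [rho, Matrix.cons_val_zero, Matrix.cons_val_one, ns_eq, imL_apply,
    Pi.zero_apply, sub_eq_zero, Mset, mem_ofPred_eq]

theorem rho_analytic (x : Fin 3 → ℂ) : AnalyticAt ℝ rho x := by
  rw [analyticAt_pi_iff]
  intro i
  fin_cases i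
  · exact ((imL 1).analyticAt x).sub (ns_analytic 0 x)
  · exact (imL 2).analyticAt x

/-- complex-linear form whose real part is the differential of the first component -/
noncomputable def A1 (q v : Fin 3 → ℂ) : ℂ := -I * v 1 - 2 * conj (q 0) * v 0

/-- complex-linear form whose real part is the differential of the second component -/
noncomputable def A2 (v : Fin 3 → ℂ) : ℂ := -I * v 2

theorem rho_fderiv (q v : Fin 3 → ℂ) : fderiv ℝ rho q v = ![(A1 q v).re, (A2 v).re] := by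
  have h0 := ((imL 1).hasFDerivAt (x := q)).sub (ns_deriv 0 q)
  have h1 := ((imL 2).hasFDerivAt (x := q))
  have hd : HasFDerivAt rho (fderiv ℝ rho q) q :=
    (rho_analytic q).differentiableAt.hasFDerivAt
  have e0 := (hasFDerivAt_pi'.mp hd 0).unique h0
  have e1 := (hasFDerivAt_pi'.mp hd 1).unique h1
  ext i
  fin_cases i
  · have := congrArg (fun L : (Fin 3 → ℂ) →L[ℝ] ℝ => L v) e0
    simp only [ContinuousLinearMap.comp_apply, ContinuousLinearMap.proj_apply] at this
    show fderiv ℝ rho q v 0 = (A1 q v).re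
    rw [this]
    simp [A1, reL_apply, imL_apply]
  · have := congrArg (fun L : (Fin 3 → ℂ) →L[ℝ] ℝ => L v) e1
    simp only [ContinuousLinearMap.comp_apply, ContinuousLinearMap.proj_apply] at this
    show fderiv ℝ rho q v 1 = (A2 v).re
    rw [this]
    simp [A2, imL_apply]

theorem A1_smul (q v : Fin 3 → ℂ) (c : ℂ) : A1 q (c • v) = c * A1 q v := by
  simp [A1]; ring

theorem A2_smul (v : Fin 3 → ℂ) (c : ℂ) : A2 (c • v) = c * A2 v := by
  simp [A2]; ring

theorem A1_sub (q v w : Fin 3 → ℂ) : A1 q (v - w) = A1 q v - A1 q w := by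
  simp [A1]; ring

theorem A2_sub (v w : Fin 3 → ℂ) : A2 (v - w) = A2 v - A2 w := by
  simp [A2]; ring

theorem solve (q : Fin 3 → ℂ) (c d : ℂ) : ∃ y, A1 q y = c ∧ A2 y = d := by
  refine ⟨![0, I * c, I * d], ?_, ?_⟩
  · simp only [A1, Matrix.cons_val_one, Matrix.cons_val]
    linear_combination (-c) * I_mul_I
  · simp only [A2, Matrix.cons_val]
    linear_combination (-d) * I_mul_I

theorem rho_defining (q : Fin 3 → ℂ) : IsDefiningAt 2 Mset rho q := by
  refine ⟨rho_analytic q, Eventually.of_forall rho_zero_iff, ?_, ?_⟩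
  · intro s
    obtain ⟨y, h1, h2⟩ := solve q (s 0 : ℂ) (s 1 : ℂ)
    refine ⟨y, ?_⟩
    rw [rho_fderiv, h1, h2]
    ext i
    fin_cases i <;> simp
  · intro v
    obtain ⟨y, h1, h2⟩ := solve q (-(I * ((A1 q v).re : ℂ))) (-(I * ((A2 v).re : ℂ)))
    refine ⟨v - I • y, y, ?_, ?_, ?_⟩
    · rw [rho_fderiv, A1_sub, A2_sub, A1_smul, A2_smul, h1, h2]
      ext i
      fin_cases i
      · simp
      · simp
    · rw [rho_fderiv, h1, h2]
      ext i
      fin_cases i <;> simp
    · simp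

/-- A function vanishing on a regular level set has zero derivative in tangential directions. -/
theorem tangential {E F : Type*} [NormedAddCommGroup E] [NormedSpace ℝ E] [CompleteSpace E]
    [NormedAddCommGroup F] [NormedSpace ℝ F] [CompleteSpace F]
    {g : E → F} {g' : E →L[ℝ] F} {φ : E → ℝ} {φ' : E →L[ℝ] ℝ} {x : E}
    (hg : HasStrictFDerivAt g g' x) (hφ : HasStrictFDerivAt φ φ' x)
    (hsurj : Function.Surjective g') (h0 : ∀ᶠ y in 𝓝 x, g y = g x → φ y = φ x)
    (v : E) (hv : g' v = 0) : φ' v = 0 := by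
  have hext : IsLocalExtrOn φ {y | g y = g x} x := by
    left
    show ∀ᶠ y in 𝓝[{y | g y = g x}] x, φ x ≤ φ y
    rw [eventually_nhdsWithin_iff]
    filter_upwards [h0] with y hy hy'
    exact (hy hy').ge
  obtain ⟨Λ, Λ₀, hne, h⟩ := hext.exists_linear_map_of_hasStrictFDerivAt hg hφ
  by_cases hΛ : Λ₀ = 0
  · exfalso
    apply hne
    rw [hΛ] at h ⊢
    have : Λ = 0 := by
      ext y
      obtain ⟨z, rfl⟩ := hsurj y
      have := h z
      simpa using this
    rw [this]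
    rfl
  · have h1 := h v
    rw [hv, map_zero, zero_add, smul_eq_mul] at h1
    rcases mul_eq_zero.mp h1 with h2 | h2
    · exact absurd h2 hΛ
    · exact h2

theorem tangent_rho {x v : Fin 3 → ℂ} (hx : x ∈ Mset) (hv : TangentVec 2 Mset x v) :
    fderiv ℝ rho x v = 0 := by
  obtain ⟨ρ', ⟨han, hM, hsurj, -⟩, hρ'⟩ := hv
  have hg : HasStrictFDerivAt ρ' (fderiv ℝ ρ' x) x := han.hasStrictFDerivAt
  have hr : HasStrictFDerivAt rho (fderiv ℝ rho x) x := (rho_analytic x).hasStrictFDerivAt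
  have hx0 : ρ' x = 0 := hM.self_of_nhds.1 hx
  ext i
  have h2 := (hasStrictFDerivAt_pi'.mp hr) i
  exact tangential hg h2 hsurj (by
    filter_upwards [hM] with y hy hy'
    rw [hx0] at hy'
    have h3 := (rho_zero_iff y).1 (hy.2 hy')
    have h4 := (rho_zero_iff x).1 hx
    show rho y i = rho x i
    rw [h3, h4]) v hρ'

theorem ctangent {x v : Fin 3 → ℂ} (hx : x ∈ Mset) (hv : CTangentVec 2 Mset x v) :
    A1 x v = 0 ∧ v 2 = 0 := by
  have h1 := tangent_rho hx hv.1
  have h2 := tangent_rho hx hv.2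
  rw [rho_fderiv] at h1 h2
  rw [A1_smul, A2_smul] at h2
  have a1 := congrFun h1 0
  have a2 := congrFun h1 1
  have b1 := congrFun h2 0
  have b2 := congrFun h2 1
  simp at a1 a2 b1 b2
  refine ⟨Complex.ext a1 b1, ?_⟩
  have h3 : A2 v = 0 := Complex.ext a2 b2
  simp only [A2] at h3
  rcases mul_eq_zero.1 h3 with h4 | h4
  · exfalso; simp at h4
  · exact h4

theorem real_identity {n : ℕ} {f : (Fin n → ℂ) → ℂ} {p : Fin n → ℂ} (hf : AnalyticAt ℂ f p)
    (h0 : ∀ᶠ r : Fin n → ℝ in 𝓝 0, f (fun i => p i + (r i : ℂ)) = 0) : ∀ᶠ x in 𝓝 p, f x = 0 := by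
  obtain ⟨R1, hR1, h1⟩ := Metric.eventually_nhds_iff.1 h0
  obtain ⟨R2, hR2, h2⟩ := Metric.eventually_nhds_iff.1 hf.eventually_analyticAt
  set R := min R1 R2 with hR
  have hRpos : 0 < R := lt_min hR1 hR2
  rw [Metric.eventually_nhds_iff]
  refine ⟨R / 4, by positivity, fun x hx => ?_⟩
  set a : Fin n → ℝ := fun i => (x i - p i).re with ha
  set b : Fin n → ℝ := fun i => (x i - p i).im with hb
  have hxi : ∀ i, ‖x i - p i‖ < R / 4 := by
    intro i
    rw [dist_eq_norm] at hx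
    exact (norm_le_pi_norm (x - p) i).trans_lt hx
  have hai : ∀ i, |a i| < R / 4 := fun i => (abs_re_le_norm _).trans_lt (hxi i)
  have hbi : ∀ i, |b i| < R / 4 := fun i => (abs_im_le_norm _).trans_lt (hxi i)
  set ℓ : ℂ → (Fin n → ℂ) := fun s i => p i + ((a i : ℂ) + s * (b i : ℂ)) with hℓ
  have hℓan : ∀ s, AnalyticAt ℂ ℓ s := by
    intro s
    rw [analyticAt_pi_iff]
    intro i
    exact analyticAt_const.add (analyticAt_const.add (analyticAt_id.mul analyticAt_const))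
  have hdist : ∀ s : ℂ, ‖s‖ < 2 → dist (ℓ s) p < R := by
    intro s hs
    rw [dist_eq_norm, pi_norm_lt_iff hRpos]
    intro i
    have h3 : (ℓ s - p) i = (a i : ℂ) + s * (b i : ℂ) := by
      simp [hℓ]
    rw [h3]
    refine (norm_add_le _ _).trans_lt ?_
    rw [norm_mul, Complex.norm_real, Complex.norm_real, Real.norm_eq_abs, Real.norm_eq_abs]
    nlinarith [hai i, hbi i, norm_nonneg s, abs_nonneg (b i)]
  have han : AnalyticOnNhd ℂ (fun s => f (ℓ s)) (Metric.ball 0 2) := by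
    intro s hs
    rw [Metric.mem_ball, dist_zero_right] at hs
    exact (h2 ((hdist s hs).trans_le (min_le_right _ _))).comp (hℓan s)
  have hreal : ∀ r : ℝ, |r| < 2 → f (ℓ (r : ℂ)) = 0 := by
    intro r hr
    have h4 : ℓ (r : ℂ) = fun i => p i + (((a + r • b) i : ℝ) : ℂ) := by
      funext i
      simp [hℓ]
    rw [h4]
    apply h1
    rw [dist_zero_right, pi_norm_lt_iff hR1]
    intro i
    rw [Pi.add_apply, Pi.smul_apply, smul_eq_mul, Real.norm_eq_abs]
    have h5 := min_le_left R1 R2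
    refine (abs_add_le _ _).trans_lt ?_
    rw [abs_mul]
    nlinarith [hai i, hbi i, abs_nonneg r, abs_nonneg (b i)]
  have hfreq : ∃ᶠ s in 𝓝[≠] (0 : ℂ), f (ℓ s) = 0 := by
    have hmap : Tendsto (fun r : ℝ => (r : ℂ)) (𝓝[≠] 0) (𝓝[≠] 0) := by
      refine tendsto_nhdsWithin_iff.2 ⟨?_, ?_⟩
      · have : Tendsto (fun r : ℝ => (r : ℂ)) (𝓝 0) (𝓝 ((0 : ℝ) : ℂ)) :=
          Complex.continuous_ofReal.tendsto 0
        rw [Complex.ofReal_zero] at this
        exact this.mono_left nhdsWithin_le_nhds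
      · filter_upwards [self_mem_nhdsWithin] with r hr
        simpa using hr
    refine hmap.frequently (Eventually.frequently ?_)
    have : ∀ᶠ r : ℝ in 𝓝 0, |r| < 2 := by
      have := (continuous_abs (G := ℝ)).tendsto 0
      rw [abs_zero] at this
      exact this.eventually (gt_mem_nhds (by norm_num))
    filter_upwards [nhdsWithin_le_nhds this] with r hr
    exact hreal r hr
  have hall := han.eqOn_zero_of_preconnected_of_frequently_eq_zero
    (convex_ball (0 : ℂ) 2).isPreconnected (Metric.mem_ball_self (by norm_num)) hfreq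
  have hI := hall (show (I : ℂ) ∈ Metric.ball (0 : ℂ) 2 by simp)
  have hx' : ℓ I = x := by
    funext i
    simp only [hℓ, ha, hb]
    have := Complex.re_add_im (x i - p i)
    rw [mul_comm] at this
    linear_combination this
  simp only [hx', Pi.zero_apply] at hI
  exact hI

/-- parametrisation of a neighbourhood in the complexification -/
noncomputable def Psi (z0 : ℂ) (s0 t0 : ℂ) (x : Fin 4 → ℂ) : Fin 3 → ℂ :=
  ![z0 + x 0 + I * x 1, s0 + x 2 + I * ((z0 + x 0 + I * x 1) * (conj z0 + x 0 - I * x 1)), t0 + x 3]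

theorem Psi_analytic (z0 s0 t0 : ℂ) (x : Fin 4 → ℂ) : AnalyticAt ℂ (Psi z0 s0 t0) x := by
  have hp : ∀ i : Fin 4, AnalyticAt ℂ (fun x : Fin 4 → ℂ => x i) x := fun i =>
    (ContinuousLinearMap.proj (R := ℂ) (φ := fun _ : Fin 4 => ℂ) i).analyticAt x
  have hz : AnalyticAt ℂ (fun x : Fin 4 → ℂ => z0 + x 0 + I * x 1) x :=
    (analyticAt_const.add (hp 0)).add (analyticAt_const.mul (hp 1))
  have hw : AnalyticAt ℂ (fun x : Fin 4 → ℂ => conj z0 + x 0 - I * x 1) x :=
    (analyticAt_const.add (hp 0)).sub (analyticAt_const.mul (hp 1))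
  rw [analyticAt_pi_iff]
  intro i
  fin_cases i
  · exact hz
  · exact (analyticAt_const.add (hp 2)).add (analyticAt_const.mul (hz.mul hw))
  · exact analyticAt_const.add (hp 3)

/-- inverse of the parametrisation -/
noncomputable def Theta (z0 : ℂ) (s0 t0 : ℂ) (p : (Fin 3 → ℂ) × ℂ) : Fin 4 → ℂ :=
  ![((p.1 0 - z0) + (p.2 - conj z0)) / 2, ((p.1 0 - z0) - (p.2 - conj z0)) / (2 * I),
    p.1 1 - I * (p.1 0 * p.2) - s0, p.1 2 - t0]

theorem Theta_continuous (z0 s0 t0 : ℂ) : Continuous (Theta z0 s0 t0) := by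
  refine continuous_pi fun i => ?_
  fin_cases i
  · show Continuous fun p : (Fin 3 → ℂ) × ℂ => ((p.1 0 - z0) + (p.2 - conj z0)) / 2
    fun_prop
  · show Continuous fun p : (Fin 3 → ℂ) × ℂ => ((p.1 0 - z0) - (p.2 - conj z0)) / (2 * I)
    fun_prop
  · show Continuous fun p : (Fin 3 → ℂ) × ℂ => p.1 1 - I * (p.1 0 * p.2) - s0
    fun_prop
  · show Continuous fun p : (Fin 3 → ℂ) × ℂ => p.1 2 - t0
    fun_prop

theorem Theta_spec (z0 s0 t0 : ℂ) (y : Fin 3 → ℂ) (w : ℂ) :
    Psi z0 s0 t0 (Theta z0 s0 t0 (y, w)) = y ∧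
    conj z0 + Theta z0 s0 t0 (y, w) 0 - I * Theta z0 s0 t0 (y, w) 1 = w := by
  have e0 : Theta z0 s0 t0 (y, w) 0 = ((y 0 - z0) + (w - conj z0)) / 2 := rfl
  have e1 : Theta z0 s0 t0 (y, w) 1 = ((y 0 - z0) - (w - conj z0)) / (2 * I) := rfl
  have e2 : Theta z0 s0 t0 (y, w) 2 = y 1 - I * (y 0 * w) - s0 := rfl
  have e3 : Theta z0 s0 t0 (y, w) 3 = y 2 - t0 := rfl
  have h1 : I * Theta z0 s0 t0 (y, w) 1 = ((y 0 - z0) - (w - conj z0)) / 2 := by
    rw [e1]; field_simp
  have hz : z0 + Theta z0 s0 t0 (y, w) 0 + I * Theta z0 s0 t0 (y, w) 1 = y 0 := by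
    rw [h1, e0]; ring
  have hw : conj z0 + Theta z0 s0 t0 (y, w) 0 - I * Theta z0 s0 t0 (y, w) 1 = w := by
    rw [h1, e0]; ring
  refine ⟨?_, hw⟩
  funext i
  fin_cases i
  · exact hz
  · show s0 + Theta z0 s0 t0 (y, w) 2 + I * ((z0 + Theta z0 s0 t0 (y, w) 0
      + I * Theta z0 s0 t0 (y, w) 1) * (conj z0 + Theta z0 s0 t0 (y, w) 0
      - I * Theta z0 s0 t0 (y, w) 1)) = y 1
    rw [hz, hw, e2]; ring
  · show t0 + Theta z0 s0 t0 (y, w) 3 = y 2
    rw [e3]; ring

theorem holo_nondeg : HolomorphicallyNondegenerate 2 Mset := by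
  intro q hq a ha hT
  set z0 := q 0 with hz0
  set s0 : ℂ := ((q 1).re : ℂ) with hs0
  set t0 : ℂ := ((q 2).re : ℂ) with ht0
  have hq1 : q 1 = s0 + I * (z0 * conj z0) := by
    rw [mul_conj, ← hq.1]
    rw [mul_comm I]
    exact (Complex.re_add_im (q 1)).symm
  have hq2 : q 2 = t0 := by
    refine Complex.ext (by simp [ht0]) (by simp [ht0, hq.2])
  have hΨ0 : Psi z0 s0 t0 0 = q := by
    funext i
    fin_cases i
    · show z0 + 0 + I * 0 = q 0
      simp [hz0]
    · show s0 + 0 + I * ((z0 + 0 + I * 0) * (conj z0 + 0 - I * 0)) = q 1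
      rw [hq1]; ring
    · show t0 + 0 = q 2
      rw [hq2]; ring
  have hΨan := Psi_analytic z0 s0 t0 0
  have haΨ : AnalyticAt ℂ (fun x => a (Psi z0 s0 t0 x)) 0 := by
    have ha' : AnalyticAt ℂ a (Psi z0 s0 t0 0) := by rw [hΨ0]; exact ha
    exact ha'.comp hΨan
  have haΨi : ∀ i, AnalyticAt ℂ (fun x => a (Psi z0 s0 t0 x) i) 0 := fun i =>
    (analyticAt_pi_iff.1 haΨ) i
  have hΨM : ∀ r : Fin 4 → ℝ, Psi z0 s0 t0 (fun i => (r i : ℂ)) ∈ Mset ∧
      conj (Psi z0 s0 t0 (fun i => (r i : ℂ)) 0) = conj z0 + r 0 - I * r 1 := by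
    intro r
    have h2 : conj (Psi z0 s0 t0 (fun i => (r i : ℂ)) 0) = conj z0 + r 0 - I * r 1 := by
      show conj (z0 + (r 0 : ℂ) + I * (r 1 : ℂ)) = _
      rw [map_add, map_add, map_mul, conj_I, conj_ofReal, conj_ofReal]
      ring
    refine ⟨⟨?_, ?_⟩, h2⟩
    · have h3 : Psi z0 s0 t0 (fun i => (r i : ℂ)) 1 = s0 + (r 2 : ℂ) +
          I * ((normSq (Psi z0 s0 t0 (fun i => (r i : ℂ)) 0) : ℝ) : ℂ) := by
        rw [← mul_conj, h2]
        rfl
      rw [h3]
      simp [hs0]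
    · show (t0 + (r 3 : ℂ)).im = 0
      simp [ht0]
  have hreal : ∀ᶠ r : Fin 4 → ℝ in 𝓝 0,
      A1 (Psi z0 s0 t0 (fun i => (r i : ℂ))) (a (Psi z0 s0 t0 (fun i => (r i : ℂ)))) = 0 ∧
      a (Psi z0 s0 t0 (fun i => (r i : ℂ))) 2 = 0 := by
    have hc : Tendsto (fun r : Fin 4 → ℝ => Psi z0 s0 t0 (fun i => (r i : ℂ))) (𝓝 0) (𝓝 q) := by
      have h1 : Continuous (fun r : Fin 4 → ℝ => (fun i => (r i : ℂ) : Fin 4 → ℂ)) := by
        fun_prop
      have h2 := h1.tendsto 0
      have h3 : (fun i => ((0 : Fin 4 → ℝ) i : ℂ) : Fin 4 → ℂ) = 0 := by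
        funext i; simp
      rw [h3] at h2
      have h4 := hΨan.continuousAt.tendsto.comp h2
      rw [hΨ0] at h4
      exact h4
    filter_upwards [hc.eventually hT] with r hr
    exact ctangent (hΨM r).1 (hr (hΨM r).1)
  -- the two identities
  have h2 : ∀ᶠ x in 𝓝 (0 : Fin 4 → ℂ), a (Psi z0 s0 t0 x) 2 = 0 := by
    apply real_identity (haΨi 2)
    filter_upwards [hreal] with r hr
    simp only [Pi.zero_apply, zero_add]
    exact hr.2
  have hp : ∀ i : Fin 4, AnalyticAt ℂ (fun x : Fin 4 → ℂ => x i) 0 := fun i =>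
    (ContinuousLinearMap.proj (R := ℂ) (φ := fun _ : Fin 4 => ℂ) i).analyticAt 0
  have h1 : ∀ᶠ x in 𝓝 (0 : Fin 4 → ℂ), -I * a (Psi z0 s0 t0 x) 1
      - 2 * (conj z0 + x 0 - I * x 1) * a (Psi z0 s0 t0 x) 0 = 0 := by
    apply real_identity (f := fun x => -I * a (Psi z0 s0 t0 x) 1
      - 2 * (conj z0 + x 0 - I * x 1) * a (Psi z0 s0 t0 x) 0)
    · exact (analyticAt_const.mul (haΨi 1)).sub
        ((analyticAt_const.mul ((analyticAt_const.add (hp 0)).sub
          (analyticAt_const.mul (hp 1)))).mul (haΨi 0))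
    · filter_upwards [hreal] with r hr
      simp only [Pi.zero_apply, zero_add]
      rw [← (hΨM r).2]
      exact hr.1
  have hΘ0 : Theta z0 s0 t0 (q, conj z0) = 0 := by
    funext i
    fin_cases i
    · show ((q 0 - z0) + (conj z0 - conj z0)) / 2 = 0
      simp [hz0]
    · show ((q 0 - z0) - (conj z0 - conj z0)) / (2 * I) = 0
      simp [hz0]
    · show q 1 - I * (q 0 * conj z0) - s0 = 0
      rw [hq1, ← hz0]; ring
    · show q 2 - t0 = 0
      rw [hq2]; ring
  have hΘ : Tendsto (Theta z0 s0 t0) (𝓝 (q, conj z0)) (𝓝 0) := by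
    have := (Theta_continuous z0 s0 t0).tendsto (q, conj z0)
    rwa [hΘ0] at this
  have e1 : ∀ᶠ p : (Fin 3 → ℂ) × ℂ in 𝓝 (q, conj z0), a p.1 2 = 0 ∧
      -I * a p.1 1 - 2 * p.2 * a p.1 0 = 0 := by
    filter_upwards [hΘ.eventually h2, hΘ.eventually h1] with p hp1 hp2
    obtain ⟨hs1, hs2⟩ := Theta_spec z0 s0 t0 p.1 p.2
    rw [Prod.mk.eta] at hs1 hs2
    rw [hs1] at hp1 hp2
    rw [hs2] at hp2
    exact ⟨hp1, hp2⟩
  filter_upwards [e1.curry_nhds] with y hy
  have hy0 := hy.self_of_nhds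
  have hne : ∃ w, (a y 2 = 0 ∧ -I * a y 1 - 2 * w * a y 0 = 0) ∧ w ≠ conj z0 :=
    ((hy.filter_mono nhdsWithin_le_nhds).and
      (self_mem_nhdsWithin : {w | w ≠ conj z0} ∈ 𝓝[≠] (conj z0))).exists
  obtain ⟨w, ⟨-, hw⟩, hwne⟩ := hne
  have ha0 : a y 0 = 0 := by
    have h3 : (w - conj z0) * a y 0 = 0 := by
      linear_combination (1/2 : ℂ) * hy0.2 - (1/2 : ℂ) * hw
    rcases mul_eq_zero.1 h3 with h4 | h4
    · exact absurd (sub_eq_zero.1 h4) hwne
    · exact h4
  have ha1 : a y 1 = 0 := by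
    have h3 := hy0.2
    rw [ha0, mul_zero, sub_zero] at h3
    rcases mul_eq_zero.1 h3 with h4 | h4
    · exfalso; simp at h4
    · exact h4
  funext i
  fin_cases i
  · exact ha0
  · exact ha1
  · exact hy0.1

theorem M_connected : IsConnected Mset := by
  have hc : Continuous (fun p : ℂ × ℝ × ℝ =>
      (![p.1, (p.2.1 : ℂ) + I * ((normSq p.1 : ℝ) : ℂ), (p.2.2 : ℂ)] : Fin 3 → ℂ)) := by
    refine continuous_pi fun i => ?_
    fin_cases i
    · exact continuous_fst
    · show Continuous fun p : ℂ × ℝ × ℝ => (p.2.1 : ℂ) + I * ((normSq p.1 : ℝ) : ℂ)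
      have : Continuous fun p : ℂ × ℝ × ℝ => normSq p.1 := continuous_normSq.comp continuous_fst
      fun_prop
    · show Continuous fun p : ℂ × ℝ × ℝ => (p.2.2 : ℂ)
      fun_prop
  have hr := isConnected_range hc
  have hM : range (fun p : ℂ × ℝ × ℝ =>
      (![p.1, (p.2.1 : ℂ) + I * ((normSq p.1 : ℝ) : ℂ), (p.2.2 : ℂ)] : Fin 3 → ℂ)) = Mset := by
    ext x
    constructor
    · rintro ⟨p, rfl⟩
      refine ⟨?_, ?_⟩
      · show ((p.2.1 : ℂ) + I * ((normSq p.1 : ℝ) : ℂ)).im = normSq p.1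
        simp
      · show ((p.2.2 : ℂ)).im = 0
        simp
    · rintro ⟨h1, h2⟩
      refine ⟨(x 0, (x 1).re, (x 2).re), ?_⟩
      funext i
      fin_cases i
      · rfl
      · show ((x 1).re : ℂ) + I * ((normSq (x 0) : ℝ) : ℂ) = x 1
        rw [← h1, mul_comm I]
        exact Complex.re_add_im (x 1)
      · show ((x 2).re : ℂ) = x 2
        exact Complex.ext (by simp) (by simp [h2])
  rw [hM] at hr
  exact hr

theorem iteratedDeriv_pow_smul {V : Type*} [NormedAddCommGroup V] [NormedSpace ℂ V] (c : ℂ) :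
    ∀ (j m : ℕ) (v : V), j < m → iteratedDeriv j (fun ζ : ℂ => (ζ - c) ^ m • v) c = 0 := by
  intro j
  induction j with
  | zero =>
    intro m v hm
    rw [iteratedDeriv_zero, sub_self, zero_pow (by omega), zero_smul]
  | succ j ih =>
    intro m v hm
    rw [iteratedDeriv_succ']
    have hd : deriv (fun ζ : ℂ => (ζ - c) ^ m • v)
        = fun ζ : ℂ => (ζ - c) ^ (m - 1) • ((m : ℂ) • v) := by
      funext ζ
      have h1 : HasDerivAt (fun ζ : ℂ => (ζ - c) ^ m) ((m : ℂ) * (ζ - c) ^ (m - 1) * 1) ζ :=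
        ((hasDerivAt_id ζ).sub_const c).pow m
      have h2 := h1.smul_const v
      rw [h2.deriv, smul_smul]
      congr 1
      ring
    rw [hd]
    exact ih (m - 1) ((m : ℂ) • v) (by omega)

/-- the perturbation -/
noncomputable def pert (p : Fin 3 → ℂ) (k : ℕ) (z : Fin 3 → ℂ) : Fin 3 → ℂ :=
  (z 2 - p 2) ^ (k + 2) • (Pi.single 2 1 : Fin 3 → ℂ)

theorem pert_analytic (p : Fin 3 → ℂ) (k : ℕ) (z : Fin 3 → ℂ) : AnalyticAt ℂ (pert p k) z := by
  have hp : AnalyticAt ℂ (fun x : Fin 3 → ℂ => x 2) z :=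
    (ContinuousLinearMap.proj (R := ℂ) (φ := fun _ : Fin 3 => ℂ) 2).analyticAt z
  exact ((hp.sub analyticAt_const).pow (k + 2)).smul analyticAt_const

theorem pert_iterated (p : Fin 3 → ℂ) (k j : ℕ) (hj : j ≤ k + 1) :
    iteratedFDeriv ℂ j (pert p k) p = 0 := by
  set L : (Fin 3 → ℂ) →L[ℂ] ℂ := ContinuousLinearMap.proj 2 with hL
  set f : ℂ → (Fin 3 → ℂ) := fun ζ => (ζ - p 2) ^ (k + 2) • (Pi.single 2 1 : Fin 3 → ℂ) with hf
  have h1 : pert p k = f ∘ L := rfl
  have hfc : ContDiff ℂ j f := by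
    have : ContDiff ℂ j (fun ζ : ℂ => (ζ - p 2) ^ (k + 2)) :=
      (contDiff_id.sub contDiff_const).pow _
    exact this.smul contDiff_const
  rw [h1, ContinuousLinearMap.iteratedFDeriv_comp_right L hfc p le_rfl]
  have h2 : iteratedFDeriv ℂ j f (L p) = 0 := by
    rw [← norm_eq_zero, norm_iteratedFDeriv_eq_norm_iteratedDeriv, norm_eq_zero]
    exact iteratedDeriv_pow_smul (p 2) j (k + 2) _ (by omega)
  rw [h2]
  rfl

theorem pert_fderiv (p : Fin 3 → ℂ) (k : ℕ) :
    HasFDerivAt (pert p k) (0 : (Fin 3 → ℂ) →L[ℂ] (Fin 3 → ℂ)) p := by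
  have h1 : HasFDerivAt (fun x : Fin 3 → ℂ => x 2 - p 2)
      (ContinuousLinearMap.proj (R := ℂ) (φ := fun _ : Fin 3 => ℂ) 2) p :=
    ((ContinuousLinearMap.proj (R := ℂ) (φ := fun _ : Fin 3 => ℂ) 2).hasFDerivAt).sub_const _
  have h2 := (h1.pow (k + 2)).smul_const (Pi.single 2 1 : Fin 3 → ℂ)
  refine h2.congr_fderiv ?_
  ext v i
  simp

theorem no_jets (p : Fin 3 → ℂ) (hp : p ∈ Mset) (k : ℕ) : ¬ DeterminedByJets Mset p k := by
  intro hdet
  have hid : IsLocalAutomorphism Mset p (fun z => z) := by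
    refine ⟨analyticAt_id, rfl, ?_, Eventually.of_forall fun x hx => hx⟩
    have : fderiv ℂ (fun z : Fin 3 → ℂ => z) p = ContinuousLinearMap.id ℂ _ := fderiv_fun_id
    rw [this]
    exact Function.bijective_id
  have hp0 : pert p k p = 0 := by
    rw [pert, sub_self, zero_pow (by omega), zero_smul]
  have hH : IsLocalAutomorphism Mset p (fun z => z + pert p k z) := by
    refine ⟨analyticAt_id.add (pert_analytic p k p), ?_, ?_, ?_⟩
    · show p + pert p k p = p
      rw [hp0, add_zero]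
    · have h1 : HasFDerivAt (fun z => z + pert p k z)
          (ContinuousLinearMap.id ℂ (Fin 3 → ℂ) + 0) p := (hasFDerivAt_id p).add (pert_fderiv p k)
      rw [h1.fderiv, add_zero]
      exact Function.bijective_id
    · refine Eventually.of_forall fun x hx => ?_
      have e0 : (x + pert p k x) 0 = x 0 := by simp [pert]
      have e1 : (x + pert p k x) 1 = x 1 := by simp [pert]
      have e2 : (x + pert p k x) 2 = x 2 + (x 2 - p 2) ^ (k + 2) := by simp [pert]
      refine ⟨?_, ?_⟩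
      · show ((x + pert p k x) 1).im = normSq ((x + pert p k x) 0)
        rw [e0, e1]; exact hx.1
      · show ((x + pert p k x) 2).im = 0
        rw [e2]
        have h2 : x 2 = ((x 2).re : ℂ) := Complex.ext (by simp) (by simp [hx.2])
        have h3 : p 2 = ((p 2).re : ℂ) := Complex.ext (by simp) (by simp [hp.2])
        rw [h2, h3]
        have h4 : ((x 2).re : ℂ) + (((x 2).re : ℂ) - ((p 2).re : ℂ)) ^ (k + 2)
            = (((x 2).re + ((x 2).re - (p 2).re) ^ (k + 2) : ℝ) : ℂ) := by push_cast; ring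
        rw [h4]
        exact ofReal_im _
  have hjet : SameJet k p (fun z => z) (fun z => z + pert p k z) := by
    intro j hj
    have h1 : iteratedFDeriv ℂ j (fun z => z + pert p k z) p
        = iteratedFDeriv ℂ j (fun z => z) p + iteratedFDeriv ℂ j (pert p k) p := by
      have hc1 : ContDiffAt ℂ j (fun z : Fin 3 → ℂ => z) p := contDiffAt_id
      have hc2 : ContDiffAt ℂ j (pert p k) p := (pert_analytic p k p).contDiffAt
      exact iteratedFDeriv_add_apply hc1 hc2
    rw [h1, pert_iterated p k j (by omega), add_zero]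
  have heq := hdet _ _ hid hH hjet
  have hline : Tendsto (fun ζ : ℂ => Function.update p 2 ζ) (𝓝 (p 2)) (𝓝 p) := by
    have h1 : Continuous (fun ζ : ℂ => Function.update p 2 ζ) :=
      continuous_const.update 2 continuous_id
    have h2 := h1.tendsto (p 2)
    rwa [Function.update_eq_self] at h2
  have hev := hline.eventually heq
  obtain ⟨ζ, hζ, hne⟩ := ((hev.filter_mono nhdsWithin_le_nhds).and
      (self_mem_nhdsWithin : {w | w ≠ p 2} ∈ 𝓝[≠] (p 2))).exists
  have h5 := congrFun hζ 2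
  simp only [Pi.add_apply, pert, Function.update_self, Pi.smul_apply, Pi.single_eq_same,
    smul_eq_mul, mul_one] at h5
  have h6 : (ζ - p 2) ^ (k + 2) = 0 := by linear_combination -h5
  exact hne (sub_eq_zero.1 (pow_eq_zero_iff (by omega) |>.1 h6))

end ce

/-- Without a minimality assumption finite jet determination fails: the manifold
`M = {Im z₁ = |z₀|², Im z₂ = 0} ⊆ ℂ³`. -/
theorem counterexample : ∃ M : Set (Fin 3 → ℂ), IsGenericSubmanifold 2 M ∧ IsConnected M ∧
    HolomorphicallyNondegenerate 2 M ∧ ∀ p ∈ M, ∀ k, ¬ DeterminedByJets M p k :=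
  ⟨Mset, fun q _ => ⟨rho, rho_defining q⟩, M_connected, holo_nondeg, no_jets⟩

end CEx

end Pool.Agent.Results.MP_51bf1a_an.JetDet
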