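import Pool.Agent.Helper706.JD.K5a
import Pool.Agent.Helper706.JD.E

set_option autoImplicit false

open MvPowerSeries

namespace Pool.Agent.Results.MP_51bf1a_an.JetDet

/-! ### the logarithm of a formal automorphism is tangent -/

section K5b

variable {n d : ℕ} {Q : Bool → Fin d → MvPowerSeries (SI n d) ℂ}

theorem cc_of_order {ι : Type*} {f : MvPowerSeries ι ℂ} {i : ι} (h : 2 ≤ (f - X i).order) :
    constantCoeff f = 0 := by
  have h1 : (1 : ℕ∞) ≤ (f - X i).order := le_trans (by norm_num) h
  rw [one_le_order_iff_constCoeff_eq_zero] at h1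
  rw [map_sub, constantCoeff_X, sub_zero] at h1
  exact h1

theorem subst_sub' {ι κ : Type*} {a : ι → MvPowerSeries κ ℂ} (hs : HasSubst a)
    (f g : MvPowerSeries ι ℂ) :
    (subst a (f - g) : MvPowerSeries κ ℂ) = subst a f - subst a g := by
  rw [← substAlgHom_apply hs, ← substAlgHom_apply hs, ← substAlgHom_apply hs, map_sub]

theorem tang_of_pres (h : FormalCR Q) {H : Bool → ZI n d → MvPowerSeries (ZI n d) ℂ}
    (hH : ∀ b i, 2 ≤ (H b i - X i).order) (hP : Pres Q H) :
    ∀ b, Tang Q b (fun b i => FLog.flog (H b) (X i)) := by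
  intro b
  have hHc : ∀ b i, constantCoeff (H b i) = 0 := fun b i => cc_of_order (hH b i)
  have huv : ∀ b i, constantCoeff (uv Q b i) = 0 := by
    intro b i
    rcases i with j | μ
    · exact constantCoeff_X _
    · exact h.const b μ
  have hpv : ∀ i, constantCoeff ((pv : ZI n d → MvPowerSeries (SI n d) ℂ) i) = 0 :=
    fun i => constantCoeff_X _
  have hsH : ∀ b, HasSubst (H b) := fun b => hasSubst_of_constantCoeff_zero (hHc b)
  have hsuv : HasSubst (uv Q b) := hasSubst_of_constantCoeff_zero (huv b)
  have hspv : HasSubst (pv : ZI n d → MvPowerSeries (SI n d) ℂ) :=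
    hasSubst_of_constantCoeff_zero hpv
  -- the orders of the formal edge map
  have heta : ∀ s, 2 ≤ (eta Q H b s - X s).order := by
    intro s
    rcases s with j | i
    · have e1 : eta Q H b (Sum.inl j) - X (Sum.inl j) =
          subst (uv Q b) (H b (Sum.inl j) - X (Sum.inl j)) := by
        rw [subst_sub' hsuv, subst_X hsuv]
        rfl
      rw [e1]
      exact order_subst (huv b) _ 2 (hH b (Sum.inl j))
    · have e1 : eta Q H b (Sum.inr i) - X (Sum.inr i) =
          subst pv (H (!b) i - X i) := by
        rw [subst_sub' hspv, subst_X hspv]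
        rfl
      rw [e1]
      exact order_subst hpv _ 2 (hH (!b) i)
  have hetac : ∀ s, constantCoeff (eta Q H b s) = 0 := fun s => cc_of_order (heta s)
  have hseta : HasSubst (eta Q H b) := hasSubst_of_constantCoeff_zero hetac
  -- commutation
  have hcuv : ∀ f : MvPowerSeries (ZI n d) ℂ,
      subst (uv Q b) (subst (H b) f : MvPowerSeries (ZI n d) ℂ) =
        subst (eta Q H b) (subst (uv Q b) f : MvPowerSeries (SI n d) ℂ) := by
    intro f
    rw [subst_comp_subst_apply (hsH b) hsuv, subst_comp_subst_apply hsuv hseta]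
    congr 1
    funext i
    rcases i with j | μ
    · show _ = subst (eta Q H b) (X (Sum.inl j))
      rw [subst_X hseta]
      rfl
    · exact hP b μ
  have hcpv : ∀ f : MvPowerSeries (ZI n d) ℂ,
      subst pv (subst (H (!b)) f : MvPowerSeries (ZI n d) ℂ) =
        subst (eta Q H b) (subst pv f : MvPowerSeries (SI n d) ℂ) := by
    intro f
    rw [subst_comp_subst_apply (hsH (!b)) hspv, subst_comp_subst_apply hspv hseta]
    congr 1
    funext i
    show _ = subst (eta Q H b) (X (Sum.inr i))
    rw [subst_X hseta]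
    rfl
  have nuv : ∀ f : MvPowerSeries (ZI n d) ℂ,
      FLog.flog (eta Q H b) (subst (uv Q b) f) = subst (uv Q b) (FLog.flog (H b) f) :=
    fun f => FLog.flog_natural (hH b) heta (huv b) hcuv f
  have npv : ∀ f : MvPowerSeries (ZI n d) ℂ,
      FLog.flog (eta Q H b) (subst pv f) = subst pv (FLog.flog (H (!b)) f) :=
    fun f => FLog.flog_natural (hH (!b)) heta hpv hcpv f
  intro μ
  have e1 := nuv (X (Sum.inr μ))
  rw [subst_X hsuv] at e1
  rw [← e1]
  show FLog.flog (eta Q H b) (Q b μ) = _
  rw [FLog.flog_eq_sum heta, Fintype.sum_sum_type]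
  congr 1
  · refine Finset.sum_congr rfl fun j _ => ?_
    congr 1
    have e2 := nuv (X (Sum.inl j))
    rw [subst_X hsuv] at e2
    exact e2
  · refine Finset.sum_congr rfl fun i _ => ?_
    congr 1
    have e2 := npv (X i)
    rw [subst_X hspv] at e2
    exact e2

end K5b

end Pool.Agent.Results.MP_51bf1a_an.JetDet
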