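import Pool.Agent.Helper706.JD.K4
import Pool.Agent.Helper706.JD.K5b
import Pool.Agent.Helper706.JD.K6

set_option autoImplicit false

open MvPowerSeries

namespace Pool.Agent.Results.MP_51bf1a_an.JetDet

section K5c

variable {n d : ℕ} {Q : Bool → Fin d → MvPowerSeries (SI n d) ℂ}







/-! ### formal finite jet determination -/

theorem K5c_order_sub {κ : Type*} {x y : MvPowerSeries κ ℂ} {m : ℕ} (hx : (m : ℕ∞) ≤ x.order)
    (hy : (m : ℕ∞) ≤ y.order) : (m : ℕ∞) ≤ (x - y).order := by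
  apply nat_le_order
  intro e he
  rw [map_sub, coeff_of_lt_order (lt_of_lt_of_le (by exact_mod_cast he) hx),
    coeff_of_lt_order (lt_of_lt_of_le (by exact_mod_cast he) hy), sub_zero]

theorem K5c_order_comm {κ : Type*} {x y : MvPowerSeries κ ℂ} {m : ℕ∞} (h : m ≤ (x - y).order) :
    m ≤ (y - x).order := by
  have : y - x = -(x - y) := by ring
  rw [this]
  refine le_trans h (le_of_eq ?_)
  exact (MvPowerSeries.order_neg _).symm

theorem order_subst_sub {ι κ : Type*} [Fintype ι] {a b : ι → MvPowerSeries κ ℂ} {m : ℕ}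
    (ha : ∀ i, constantCoeff (a i) = 0) (hb : ∀ i, constantCoeff (b i) = 0)
    (hab : ∀ i, (m : ℕ∞) ≤ (a i - b i).order) (f : MvPowerSeries ι ℂ) :
    (m : ℕ∞) ≤ ((subst a f : MvPowerSeries κ ℂ) - subst b f).order := by
  have hsa := hasSubst_of_constantCoeff_zero ha
  have hsb := hasSubst_of_constantCoeff_zero hb
  have hpoly : ∀ p : MvPolynomial ι ℂ,
      (m : ℕ∞) ≤ ((subst a (p : MvPowerSeries ι ℂ) : MvPowerSeries κ ℂ) -
        subst b (p : MvPowerSeries ι ℂ)).order := by
    intro p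
    induction p using MvPolynomial.induction_on with
    | C c =>
      rw [MvPolynomial.coe_C, subst_C' ha, subst_C' hb, sub_self, order_zero]
      exact le_top
    | add p q hp hq =>
      rw [MvPolynomial.coe_add, subst_add hsa, subst_add hsb]
      have : (subst a (p : MvPowerSeries ι ℂ) : MvPowerSeries κ ℂ) + subst a (q : MvPowerSeries ι ℂ) -
          (subst b (p : MvPowerSeries ι ℂ) + subst b (q : MvPowerSeries ι ℂ)) =
          (subst a (p : MvPowerSeries ι ℂ) - subst b (p : MvPowerSeries ι ℂ)) +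
          (subst a (q : MvPowerSeries ι ℂ) - subst b (q : MvPowerSeries ι ℂ)) := by ring
      rw [this]
      exact order_add_le hp hq
    | mul_X p i hp =>
      rw [MvPolynomial.coe_mul, MvPolynomial.coe_X, subst_mul hsa, subst_mul hsb, subst_X hsa,
        subst_X hsb]
      have : (subst a (p : MvPowerSeries ι ℂ) : MvPowerSeries κ ℂ) * a i -
          subst b (p : MvPowerSeries ι ℂ) * b i =
          subst a (p : MvPowerSeries ι ℂ) * (a i - b i) +
          (subst a (p : MvPowerSeries ι ℂ) - subst b (p : MvPowerSeries ι ℂ)) * b i := by ring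
      rw [this]
      exact order_add_le (order_mul_le' (hab i)) (order_mul_le hp)
  have hf : f = (truncTotal m f : MvPowerSeries ι ℂ) +
      (f - (truncTotal m f : MvPowerSeries ι ℂ)) := by ring
  have hg := order_sub_truncTotal m f
  obtain ⟨g, hgd⟩ : ∃ g, g = f - (truncTotal m f : MvPowerSeries ι ℂ) := ⟨_, rfl⟩
  rw [← hgd] at hf hg
  rw [hf, subst_add hsa, subst_add hsb]
  have : (subst a (truncTotal m f : MvPowerSeries ι ℂ) : MvPowerSeries κ ℂ) + subst a g -
      (subst b (truncTotal m f : MvPowerSeries ι ℂ) + subst b g) =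
      (subst a (truncTotal m f : MvPowerSeries ι ℂ) - subst b (truncTotal m f : MvPowerSeries ι ℂ)) +
      (subst a g - subst b g) := by ring
  rw [this]
  exact order_add_le (hpoly _) (K5c_order_sub (order_subst ha g m hg) (order_subst hb g m hg))

theorem K5c_comp {ι κ τ : Type*} [Finite ι] [Finite κ] {a : ι → MvPowerSeries κ ℂ}
    {b : κ → MvPowerSeries τ ℂ} (ha : ∀ i, constantCoeff (a i) = 0)
    (hb : ∀ i, constantCoeff (b i) = 0) (f : MvPowerSeries ι ℂ) :
    (subst b (subst a f : MvPowerSeries κ ℂ) : MvPowerSeries τ ℂ) =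
      subst (fun s => (subst b (a s) : MvPowerSeries τ ℂ)) f :=
  subst_comp_subst_apply (hasSubst_of_constantCoeff_zero ha) (hasSubst_of_constantCoeff_zero hb) f

theorem K5c_const {ι κ : Type*} [Fintype ι] {a : ι → MvPowerSeries κ ℂ}
    (ha : ∀ i, constantCoeff (a i) = 0) {f : MvPowerSeries ι ℂ} (hf : constantCoeff f = 0) :
    constantCoeff (subst a f : MvPowerSeries κ ℂ) = 0 := by
  rw [← one_le_order_iff_constCoeff_eq_zero]
  have := order_subst ha f 1 (by
    rw [Nat.cast_one, one_le_order_iff_constCoeff_eq_zero]; exact hf)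
  simpa using this

theorem K5c_X {ι κ : Type*} [Finite ι] {a : ι → MvPowerSeries κ ℂ}
    (ha : ∀ i, constantCoeff (a i) = 0) (i : ι) :
    (subst a (X i : MvPowerSeries ι ℂ) : MvPowerSeries κ ℂ) = a i :=
  subst_X (hasSubst_of_constantCoeff_zero ha) i

theorem K5c_uv_const (h : FormalCR Q) (b : Bool) (i : ZI n d) :
    constantCoeff (uv Q b i) = 0 := by
  rcases i with j | μ
  · simp [uv]
  · exact h.const b μ

theorem K5c_pv_const (i : ZI n d) :
    constantCoeff (pv i : MvPowerSeries (SI n d) ℂ) = 0 := by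
  simp [pv]

theorem K5c_uv (h : FormalCR Q) {A : Bool → ZI n d → MvPowerSeries (ZI n d) ℂ}
    (hA0 : ∀ b i, constantCoeff (A b i) = 0) (hP : Pres Q A) (b : Bool) (i : ZI n d) :
    (subst (uv Q b) (A b i) : MvPowerSeries (SI n d) ℂ) = subst (eta Q A b) (uv Q b i) := by
  rcases i with j | μ
  · have : uv Q b (Sum.inl j) = X (Sum.inl j) := rfl
    rw [this, K5c_X (eta_const h hA0 b)]
    rfl
  · exact hP b μ

theorem K5c_pv (h : FormalCR Q) {A : Bool → ZI n d → MvPowerSeries (ZI n d) ℂ}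
    (hA0 : ∀ b i, constantCoeff (A b i) = 0) (b : Bool) (i : ZI n d) :
    (subst pv (A (!b) i) : MvPowerSeries (SI n d) ℂ) = subst (eta Q A b) (pv i) := by
  have : (pv i : MvPowerSeries (SI n d) ℂ) = X (Sum.inr i) := rfl
  rw [this, K5c_X (eta_const h hA0 b)]
  rfl

theorem formal_main (h : FormalCR Q) (hHN : ∀ b, FHN Q b) (hBG : ∀ b, FBG Q b) :
    ∃ k : ℕ, 1 ≤ k ∧ ∀ A B : Bool → ZI n d → MvPowerSeries (ZI n d) ℂ,
      (∀ b i, constantCoeff (A b i) = 0) → (∀ b i, constantCoeff (B b i) = 0) →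
      (∀ b, IsUnit (Matrix.of fun i j => constantCoeff (pderiv ℂ j (A b i))).det) →
      Pres Q A → Pres Q B →
      (∀ b i, ((k + 1 : ℕ) : ℕ∞) ≤ (A b i - B b i).order) → A false = B false := by
  obtain ⟨k0, hk0⟩ := formal_core h hHN hBG
  refine ⟨max k0 1, le_max_right _ _, ?_⟩
  intro A B hA0 hB0 hAJ hPA hPB hAB
  obtain ⟨k, hk⟩ : ∃ k, k = max k0 1 := ⟨_, rfl⟩
  rw [← hk] at hAB
  have hk1 : 1 ≤ k := by rw [hk]; exact le_max_right _ _
  have hkk : k0 ≤ k := by rw [hk]; exact le_max_left _ _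
  have hinv := fun b => exists_formal_inverse (A b) (hA0 b) (hAJ b)
  choose C hC0 hAC hCA using hinv
  have hEA := eta_const h hA0
  have hEB := eta_const h hB0
  have hinv2 := fun b => exists_formal_inverse (eta Q A b) (hEA b) (eta_jacobian h hA0 hAJ hPA b)
  choose θ hθ0 hEθ hθE using hinv2
  obtain ⟨H, hH⟩ : ∃ H : Bool → ZI n d → MvPowerSeries (ZI n d) ℂ,
      H = fun b i => subst (B b) (C b i) := ⟨_, rfl⟩
  have huv := K5c_uv_const (Q := Q) h
  have hpv := K5c_pv_const (n := n) (d := d)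
  -- `C_b ∘ uv_b = uv_b ∘ θ_b`
  have h3 : ∀ b i, (subst (uv Q b) (C b i) : MvPowerSeries (SI n d) ℂ) =
      subst (θ b) (uv Q b i) := by
    intro b i
    have e0 : (subst (uv Q b) (C b i) : MvPowerSeries (SI n d) ℂ) =
        subst (θ b) (subst (eta Q A b) (subst (uv Q b) (C b i) : MvPowerSeries (SI n d) ℂ) :
          MvPowerSeries (SI n d) ℂ) := by
      rw [K5c_comp (hEA b) (hθ0 b)]
      have : (fun s => (subst (θ b) (eta Q A b s) : MvPowerSeries (SI n d) ℂ)) = X :=
        funext (hθE b)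
      rw [this, subst_self]; rfl
    rw [e0, K5c_comp (huv b) (hEA b)]
    have e1 : (fun s => (subst (eta Q A b) (uv Q b s) : MvPowerSeries (SI n d) ℂ)) =
        fun s => subst (uv Q b) (A b s) := funext fun s => (K5c_uv h hA0 hPA b s).symm
    rw [e1, ← K5c_comp (hA0 b) (huv b), hAC b i, K5c_X (huv b)]
  have h4 : ∀ b i, (subst pv (C (!b) i) : MvPowerSeries (SI n d) ℂ) =
      subst (θ b) (pv i) := by
    intro b i
    have e0 : (subst pv (C (!b) i) : MvPowerSeries (SI n d) ℂ) =
        subst (θ b) (subst (eta Q A b) (subst pv (C (!b) i) : MvPowerSeries (SI n d) ℂ) :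
          MvPowerSeries (SI n d) ℂ) := by
      rw [K5c_comp (hEA b) (hθ0 b)]
      have : (fun s => (subst (θ b) (eta Q A b s) : MvPowerSeries (SI n d) ℂ)) = X :=
        funext (hθE b)
      rw [this, subst_self]; rfl
    rw [e0, K5c_comp hpv (hEA b)]
    have e1 : (fun s => (subst (eta Q A b) (pv s) : MvPowerSeries (SI n d) ℂ)) =
        fun s => subst pv (A (!b) s) := funext fun s => (K5c_pv h hA0 b s).symm
    rw [e1, ← K5c_comp (hA0 (!b)) hpv, hAC (!b) i, K5c_X hpv]
  obtain ⟨ζ, hζ⟩ : ∃ ζ : Bool → SI n d → MvPowerSeries (SI n d) ℂ,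
      ζ = fun b s => subst (eta Q B b) (θ b s) := ⟨_, rfl⟩
  have hζ0 : ∀ b s, constantCoeff (ζ b s) = 0 := by
    intro b s; rw [hζ]; exact K5c_const (hEB b) (hθ0 b s)
  have hH0 : ∀ b i, constantCoeff (H b i) = 0 := by
    intro b i; rw [hH]; exact K5c_const (hB0 b) (hC0 b i)
  have h5 : ∀ b i, (subst (uv Q b) (H b i) : MvPowerSeries (SI n d) ℂ) =
      subst (ζ b) (uv Q b i) := by
    intro b i
    rw [hH, hζ]
    simp only
    rw [K5c_comp (hB0 b) (huv b)]
    have e1 : (fun s => (subst (uv Q b) (B b s) : MvPowerSeries (SI n d) ℂ)) =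
        fun s => subst (eta Q B b) (uv Q b s) := funext fun s => K5c_uv h hB0 hPB b s
    rw [e1, ← K5c_comp (huv b) (hEB b), h3 b i, K5c_comp (hθ0 b) (hEB b)]
  have h6 : ∀ b i, (subst pv (H (!b) i) : MvPowerSeries (SI n d) ℂ) =
      subst (ζ b) (pv i) := by
    intro b i
    rw [hH, hζ]
    simp only
    rw [K5c_comp (hB0 (!b)) hpv]
    have e1 : (fun s => (subst pv (B (!b) s) : MvPowerSeries (SI n d) ℂ)) =
        fun s => subst (eta Q B b) (pv s) := funext fun s => K5c_pv h hB0 b s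
    rw [e1, ← K5c_comp hpv (hEB b), h4 b i, K5c_comp (hθ0 b) (hEB b)]
  have h7 : ∀ b, eta Q H b = ζ b := by
    intro b
    funext s
    rcases s with j | i
    · show (subst (uv Q b) (H b (Sum.inl j)) : MvPowerSeries (SI n d) ℂ) = _
      rw [h5 b (Sum.inl j)]
      exact K5c_X (hζ0 b) (Sum.inl j)
    · show (subst pv (H (!b) i) : MvPowerSeries (SI n d) ℂ) = _
      rw [h6 b i]
      exact K5c_X (hζ0 b) (Sum.inr i)
  have h8 : Pres Q H := by
    intro b μ
    rw [h7 b]
    exact h5 b (Sum.inr μ)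
  have h9 : ∀ b i, ((k + 1 : ℕ) : ℕ∞) ≤ (H b i - X i).order := by
    intro b i
    have e1 : H b i - X i = subst (B b) (C b i) - subst (A b) (C b i) := by
      rw [hH, hAC b i]
    rw [e1]
    exact order_subst_sub (hB0 b) (hA0 b) (fun j => K5c_order_comm (hAB b j)) _
  have h10 : ∀ b i, 2 ≤ (H b i - X i).order := by
    intro b i
    refine le_trans ?_ (h9 b i)
    have : 2 ≤ k + 1 := by omega
    exact_mod_cast this
  have h11 := tang_of_pres h h10 h8
  have h12 := hk0 (fun b i => FLog.flog (H b) (X i)) h11 (fun i => by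
    refine le_trans ?_ (FLog.le_order_flog_X hk1 (h9 false) i)
    exact_mod_cast (by omega : k0 ≤ k + 1))
  have h13 : H false = X := FLog.eq_X_of_flog_eq_zero (h10 false) (fun i => congrFun h12 i)
  funext i
  have e1 : A false i = subst (H false) (A false i) := by
    rw [h13, subst_self]; rfl
  rw [e1, hH]
  simp only
  rw [← K5c_comp (hC0 false) (hB0 false), hCA false i, K5c_X (hB0 false)]

end K5c

end Pool.Agent.Results.MP_51bf1a_an.JetDet
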