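import Mathlib

set_option autoImplicit false

namespace Pool.Agent.Results.MP_51bf1a_an.JetDet


/-- If all the maximal minors of a matrix with finitely many columns over a domain vanish, its
columns satisfy a nontrivial linear relation. -/
theorem exists_relation_of_minors {R J ι : Type*} [CommRing R] [IsDomain R] [Fintype ι]
    [DecidableEq ι] (m : J → ι → R) (h : ∀ r : ι → J, (Matrix.of fun i i' => m (r i) i').det = 0) :
    ∃ a : ι → R, a ≠ 0 ∧ ∀ j, ∑ i, m j i * a i = 0 := by
  classical
  set K := FractionRing R
  set f : R →+* K := algebraMap R K with hf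
  have hinj : Function.Injective f := IsFractionRing.injective R K
  set v : J → ι → K := fun j i => f (m j i) with hv
  set W : Submodule K (ι → K) := Submodule.span K (Set.range v) with hW
  have hWne : W ≠ ⊤ := by
    intro htop
    have hs : ⊤ ≤ Submodule.span K (Set.range v) := by rw [← hW, htop]
    set b := Module.Basis.ofSpan hs with hb
    have hsub := Module.Basis.ofSpan_subset hs
    set b' := b.reindex ((Pi.basisFun K ι).indexEquiv b).symm with hb'
    have hmem : ∀ i, ∃ j, v j = b' i := by
      intro i
      have h1 : b' i ∈ Set.range b := by rw [hb', Module.Basis.reindex_apply]; exact ⟨_, rfl⟩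
      exact hsub h1
    choose r hr' using hmem
    have hli : LinearIndependent K (Matrix.of fun i i' => f (m (r i) i')).row := by
      have : (Matrix.of fun i i' => f (m (r i) i')).row = b' := by
        funext i
        rw [← hr' i]
        rfl
      rw [this]
      exact b'.linearIndependent
    rw [Matrix.linearIndependent_rows_iff_isUnit, Matrix.isUnit_iff_isUnit_det] at hli
    apply hli.ne_zero
    have h2 : (Matrix.of fun i i' => f (m (r i) i')) = (Matrix.of fun i i' => m (r i) i').map f := by
      ext i i'
      rfl
    rw [h2, ← RingHom.mapMatrix_apply, ← RingHom.map_det, h r, map_zero]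
  obtain ⟨φ, hφ0, hφ⟩ := Submodule.exists_le_ker_of_lt_top W (lt_top_iff_ne_top.2 hWne)
  set b : ι → K := fun i => φ (fun j => if i = j then 1 else 0) with hb
  have hφv : ∀ w : ι → K, φ w = ∑ i, w i * b i := by
    intro w
    rw [LinearMap.pi_apply_eq_sum_univ φ w]
    rfl
  obtain ⟨c, hc⟩ := IsLocalization.exist_integer_multiples_of_finite (nonZeroDivisors R) b
  choose a ha using hc
  have hc0 : f (c : R) ≠ 0 := by
    intro h0
    exact nonZeroDivisors.coe_ne_zero c (hinj (by rw [h0, map_zero]))
  have ha' : ∀ i, f (a i) = f (c : R) * b i := by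
    intro i
    have := ha i
    rw [Algebra.smul_def] at this
    exact this
  refine ⟨a, ?_, ?_⟩
  · intro h0
    apply hφ0
    have h1 : ∀ i, b i = 0 := by
      intro i
      have h2 := ha' i
      rw [h0, Pi.zero_apply, map_zero] at h2
      rcases mul_eq_zero.1 h2.symm with h3 | h3
      · exact absurd h3 hc0
      · exact h3
    apply LinearMap.ext
    intro w
    rw [hφv, LinearMap.zero_apply]
    exact Finset.sum_eq_zero (fun i _ => by rw [h1 i, mul_zero])
  · intro j
    apply hinj
    rw [map_sum, map_zero]
    have h1 : φ (v j) = 0 := hφ (Submodule.subset_span ⟨j, rfl⟩)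
    rw [hφv] at h1
    calc ∑ i, f (m j i * a i) = ∑ i, f (c : R) * (v j i * b i) := by
          refine Finset.sum_congr rfl (fun i _ => ?_)
          rw [map_mul, ha']; simp only [hv]; ring
      _ = 0 := by rw [← Finset.mul_sum, h1, mul_zero]



end Pool.Agent.Results.MP_51bf1a_an.JetDet
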