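import Pool.Agent.Helper706.JD.A4
import Pool.Agent.Helper706.JD.T1a

set_option autoImplicit false

open scoped Topology ContDiff ComplexConjugate
open Set Filter Complex

namespace Pool.Agent.Results.MP_51bf1a_an.JetDet





















/-! ### helpers for T1b -/

section T1b

open MvPowerSeries

/-- embedding of the `v` coordinates -/
def t1bE_T1b (n d : ℕ) : ZI n d ↪ SI n d := ⟨Sum.inr, Sum.inr_injective⟩

/-- restriction to `x = 0` -/
noncomputable def t1bK_T1b (n d : ℕ) : MvPowerSeries (SI n d) ℂ →ₐ[ℂ] MvPowerSeries (ZI n d) ℂ :=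
  killCompl (t1bE_T1b n d)

/-- substitution `x = 0` -/
noncomputable def t1bX_T1b (n d : ℕ) : SI n d → MvPowerSeries (ZI n d) ℂ :=
  Sum.elim (fun _ => 0) (fun i => X i)

theorem t1b_K_X_T1b {n d : ℕ} (s : SI n d) : t1bK_T1b n d (X s) = t1bX_T1b n d s := by
  rcases s with j | i
  · exact killCompl_X_eq_zero (by rintro ⟨y, hy⟩; exact Sum.inr_ne_inl hy)
  · exact killCompl_X (e := t1bE_T1b n d) i

theorem t1b_subst_T1b {n d : ℕ} (F : MvPowerSeries (SI n d) ℂ) :
    subst (t1bX_T1b n d) F = t1bK_T1b n d F := by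
  classical
  have hs : HasSubst (t1bX_T1b n d) := hasSubst_of_constantCoeff_zero (by
    rintro (j | i)
    · exact map_zero _
    · exact constantCoeff_X _)
  have h : ∀ m : SI n d →₀ ℕ, (m.prod fun s e => (t1bX_T1b n d s) ^ e) =
      t1bK_T1b n d (monomial m (1 : ℂ)) := by
    intro m
    have h1 : (monomial m (1 : ℂ)) = m.prod fun s e => (X s : MvPowerSeries (SI n d) ℂ) ^ e := by
      have := MvPowerSeries.monomial_eq' (σ := SI n d) (R := ℂ) m 1
      simpa using this
    rw [h1, map_finsuppProd]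
    simp only [map_pow, t1b_K_X_T1b]
  ext e
  rw [coeff_subst hs]
  simp only [h]
  rw [finsum_eq_single _ (Finsupp.embDomain (t1bE_T1b n d) e)]
  · unfold t1bK_T1b
    rw [killCompl_monomial_embDomain, coeff_killCompl, coeff_monomial_same, smul_eq_mul, mul_one]
  · intro m hm
    have : coeff e (t1bK_T1b n d (monomial m (1 : ℂ))) = 0 := by
      unfold t1bK_T1b
      rw [coeff_killCompl, coeff_monomial_ne hm.symm]
    rw [this, smul_zero]

theorem t1b_analytic_pd_T1b {ι : Type*} [Fintype ι] [DecidableEq ι] {f : (ι → ℂ) → ℂ}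
    {x : ι → ℂ} (hf : AnalyticAt ℂ f x) (v : ι → ℂ) :
    AnalyticAt ℂ (fun x => fderiv ℂ f x v) x :=
  ((ContinuousLinearMap.apply ℂ ℂ v).analyticAt _).fun_comp hf.fderiv

theorem t1b_conv_pdx_T1b {n d : ℕ} {F : MvPowerSeries (SI n d) ℂ} {f : (SI n d → ℂ) → ℂ}
    (hf : AnalyticAt ℂ f 0) (hF : IsTaylor f F) (w : List (Fin n)) :
    ∃ g : (SI n d → ℂ) → ℂ, AnalyticAt ℂ g 0 ∧ IsTaylor g (pdx w F) := by
  induction w with
  | nil => exact ⟨f, hf, hF⟩
  | cons j w ih =>
    obtain ⟨g, hg, hG⟩ := ih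
    exact ⟨_, t1b_analytic_pd_T1b hg (Pi.single (Sum.inl j) 1), hG.pderiv hg (Sum.inl j)⟩

theorem t1b_isTaylor_zero_T1b {ι : Type*} [Fintype ι] :
    IsTaylor (fun _ : ι → ℂ => (0 : ℂ)) (0 : MvPowerSeries ι ℂ) := by
  have := isTaylor_const (ι := ι) 0
  rwa [map_zero] at this

theorem t1b_conv_K_T1b {n d : ℕ} {F : MvPowerSeries (SI n d) ℂ} {f : (SI n d → ℂ) → ℂ}
    (hf : AnalyticAt ℂ f 0) (hF : IsTaylor f F) :
    ∃ g : (ZI n d → ℂ) → ℂ, AnalyticAt ℂ g 0 ∧ IsTaylor g (t1bK_T1b n d F) := by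
  obtain ⟨gg, hgg⟩ : ∃ gg : SI n d → (ZI n d → ℂ) → ℂ,
      gg = Sum.elim (fun _ _ => 0) (fun i y => y i) := ⟨_, rfl⟩
  have h1 : ∀ i, IsTaylor (gg i) (t1bX_T1b n d i) := by
    rintro (j | i)
    · rw [hgg]; exact t1b_isTaylor_zero_T1b
    · rw [hgg]; exact isTaylor_coord i
  have h2 : ∀ i, AnalyticAt ℂ (gg i) 0 := by
    rintro (j | i)
    · rw [hgg]; exact analyticAt_const
    · rw [hgg]
      exact (ContinuousLinearMap.proj (R := ℂ) (φ := fun _ : ZI n d => ℂ) i).analyticAt 0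
  have h3 : ∀ i, gg i 0 = 0 := by
    rintro (j | i) <;> rw [hgg] <;> rfl
  have h4 : ∀ i, MvPowerSeries.constantCoeff (t1bX_T1b n d i) = 0 := by
    rintro (j | i)
    · exact map_zero _
    · exact constantCoeff_X _
  refine ⟨fun y => f (fun i => gg i y), ?_, ?_⟩
  · have h5 : AnalyticAt ℂ (fun y : ZI n d → ℂ => (fun i => gg i y)) 0 := by
      rw [analyticAt_pi_iff]; exact h2
    have h6 : (fun i => gg i 0) = 0 := funext h3
    apply AnalyticAt.fun_comp _ h5
    rw [h6]; exact hf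
  · have := hF.comp h1 h4
    rwa [t1b_subst_T1b] at this

theorem t1b_taylor_rename_T1b {n d : ℕ} {F : MvPowerSeries (ZI n d) ℂ} {f : (ZI n d → ℂ) → ℂ}
    (hF : IsTaylor f F) :
    IsTaylor (fun s : SI n d → ℂ => f (fun i => s (Sum.inr i))) (rename (t1bE_T1b n d) F) := by
  rw [rename_eq_subst]
  apply IsTaylor.comp (f := f) (F := F) (g := fun i (s : SI n d → ℂ) => s (Sum.inr i)) hF
  · intro i; exact isTaylor_coord _
  · intro i; exact constantCoeff_X _

/-- the ring of convergent power series -/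
noncomputable def t1bO_T1b (n d : ℕ) : Subring (MvPowerSeries (ZI n d) ℂ) where
  carrier := {F | ∃ f : (ZI n d → ℂ) → ℂ, AnalyticAt ℂ f 0 ∧ IsTaylor f F}
  mul_mem' := by
    rintro F G ⟨f, hf, hF⟩ ⟨g, hg, hG⟩
    exact ⟨_, hf.fun_mul hg, hF.mul hG⟩
  one_mem' := ⟨fun _ => 1, analyticAt_const, by
    have := isTaylor_const (ι := ZI n d) 1
    rwa [map_one] at this⟩
  add_mem' := by
    rintro F G ⟨f, hf, hF⟩ ⟨g, hg, hG⟩
    exact ⟨_, hf.fun_add hg, hF.add hG⟩
  zero_mem' := ⟨fun _ => 0, analyticAt_const, t1b_isTaylor_zero_T1b⟩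
  neg_mem' := by
    rintro F ⟨f, hf, hF⟩
    have h := t1b_isTaylor_zero_T1b.sub hF
    rw [zero_sub] at h
    exact ⟨_, analyticAt_const.fun_sub hf, h⟩

theorem t1b_pderiv_rename_T1b {n d : ℕ} (F : MvPowerSeries (ZI n d) ℂ) (j : Fin n) :
    pderiv ℂ (Sum.inl j) (rename (t1bE_T1b n d) F) = 0 := by
  classical
  ext m
  rw [coeff_pderiv, coeff_rename_eq_zero, zero_mul, map_zero]
  rintro ⟨x, hx⟩
  have h1 := DFunLike.congr_fun hx (Sum.inl j)
  rw [Finsupp.mapDomain_of_notMem_range _ _ (by rintro ⟨y, hy⟩; exact Sum.inr_ne_inl hy)] at h1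
  simp at h1

theorem t1b_pdx_mul_T1b {n d : ℕ} (F : MvPowerSeries (SI n d) ℂ) (G : MvPowerSeries (ZI n d) ℂ)
    (w : List (Fin n)) :
    pdx w (F * rename (t1bE_T1b n d) G) = pdx w F * rename (t1bE_T1b n d) G := by
  induction w with
  | nil => rfl
  | cons j w ih =>
    show pderiv ℂ (Sum.inl j) (pdx w _) = pderiv ℂ (Sum.inl j) (pdx w F) * _
    rw [ih, Derivation.leibniz, t1b_pderiv_rename_T1b, smul_zero, zero_add, smul_eq_mul, mul_comm]

theorem t1b_pdx_sum_T1b {n d : ℕ} {α : Type*} (s : Finset α) (F : α → MvPowerSeries (SI n d) ℂ)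
    (w : List (Fin n)) : pdx w (∑ a ∈ s, F a) = ∑ a ∈ s, pdx w (F a) := by
  induction w with
  | nil => rfl
  | cons j w ih =>
    show pderiv ℂ (Sum.inl j) (pdx w _) = ∑ a ∈ s, pderiv ℂ (Sum.inl j) (pdx w (F a))
    rw [ih, map_sum]

theorem t1b_pdx_append_T1b {n d : ℕ} (F : MvPowerSeries (SI n d) ℂ) (j : Fin n)
    (w : List (Fin n)) : pdx (w ++ [j]) F = pdx w (pderiv ℂ (Sum.inl j) F) := by
  induction w with
  | nil => rfl
  | cons k w ih =>
    show pderiv ℂ (Sum.inl k) (pdx (w ++ [j]) F) = pderiv ℂ (Sum.inl k) (pdx w _)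
    rw [ih]

theorem t1b_zero_aux_T1b {n d : ℕ} (k : ℕ) : ∀ G : MvPowerSeries (SI n d) ℂ,
    (∀ w, t1bK_T1b n d (pdx w G) = 0) → ∀ e : SI n d →₀ ℕ, (∑ j : Fin n, e (Sum.inl j)) = k →
    coeff e G = 0 := by
  classical
  induction k with
  | zero =>
    intro G hG e he
    have h0 : ∀ j : Fin n, e (Sum.inl j) = 0 := by
      intro j
      exact (Finset.sum_eq_zero_iff.1 he) j (Finset.mem_univ j)
    have h1 : e ∈ Set.range (Finsupp.embDomain (M := ℕ) (t1bE_T1b n d)) := by
      rw [Finsupp.mem_range_embDomain_iff]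
      rintro (j | i) hs
      · exact absurd (h0 j) (Finsupp.mem_support_iff.1 (Finset.mem_coe.1 hs))
      · exact ⟨i, rfl⟩
    obtain ⟨x, rfl⟩ := h1
    have h2 := hG []
    have h3 : coeff x (t1bK_T1b n d G) = 0 := by
      have : t1bK_T1b n d G = 0 := h2
      rw [this, map_zero]
    exact h3
  | succ k ih =>
    intro G hG e he
    obtain ⟨j, hj⟩ : ∃ j : Fin n, e (Sum.inl j) ≠ 0 := by
      by_contra hcon
      push Not at hcon
      rw [Finset.sum_eq_zero (fun j _ => hcon j)] at he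
      omega
    obtain ⟨e', he'⟩ : ∃ e', e = e' + Finsupp.single (Sum.inl j) 1 := by
      refine ⟨e - Finsupp.single (Sum.inl j) 1, ?_⟩
      rw [tsub_add_cancel_of_le]
      rw [Finsupp.single_le_iff]
      omega
    have h1 : ∀ w, t1bK_T1b n d (pdx w (pderiv ℂ (Sum.inl j) G)) = 0 := by
      intro w
      rw [← t1b_pdx_append_T1b]
      exact hG _
    have h2 : (∑ j : Fin n, e' (Sum.inl j)) = k := by
      have h3 : (∑ j' : Fin n, e (Sum.inl j')) = (∑ j' : Fin n, e' (Sum.inl j')) + 1 := by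
        rw [he']
        simp only [Finsupp.add_apply, Finset.sum_add_distrib]
        congr 1
        rw [Finset.sum_eq_single j]
        · simp
        · intro b _ hb
          rw [Finsupp.single_apply, if_neg]
          intro h; exact hb (Sum.inl.inj h).symm
        · intro h; exact absurd (Finset.mem_univ j) h
      omega
    have h4 := ih _ h1 e' h2
    rw [coeff_pderiv, ← he'] at h4
    rcases mul_eq_zero.1 h4 with h5 | h5
    · exact h5
    · exfalso
      have : ((e' (Sum.inl j) : ℂ) + 1) ≠ 0 := Nat.cast_add_one_ne_zero _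
      exact this h5

theorem t1b_zero_T1b {n d : ℕ} (G : MvPowerSeries (SI n d) ℂ) (hG : ∀ w, t1bK_T1b n d (pdx w G) = 0) :
    G = 0 := by
  ext e
  rw [t1b_zero_aux_T1b _ G hG e rfl, map_zero]

end T1b

/-! ### formal degeneracy gives a holomorphic vector field -/

theorem exists_field_of_not_FHN {N n d : ℕ} {M : Set (Fin N → ℂ)} {p : Fin N → ℂ}
    (c : Chart n d M p) {Q : Bool → Fin d → MvPowerSeries (SI n d) ℂ}
    (hQ : ∀ b μ, IsTaylor (fun s => c.q b s μ) (Q b μ)) (h : ¬ FHN Q true) :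
    ∃ a : (ZI n d → ℂ) → (ZI n d → ℂ), AnalyticAt ℂ a 0 ∧ ¬ (∀ᶠ y in 𝓝 0, a y = 0) ∧
      ∀ᶠ s in 𝓝 (0 : SI n d → ℂ),
        fderiv ℂ (c.q true) s (Sum.elim 0 (a (fun i => s (Sum.inr i)))) = 0 := by
  classical
  have hqa : ∀ μ, AnalyticAt ℂ (fun s => c.q true s μ) 0 := by
    have := c.analytic true
    rwa [analyticAt_pi_iff] at this
  have hmem : ∀ (j : List (Fin n) × Fin d) (i : ZI n d),
      t1bK_T1b n d (pdx j.1 (MvPowerSeries.pderiv ℂ (Sum.inr i) (Q true j.2))) ∈ t1bO_T1b n d := by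
    intro j i
    obtain ⟨g, hg, hG⟩ := t1b_conv_pdx_T1b
      (t1b_analytic_pd_T1b (hqa j.2) (Pi.single (Sum.inr i) 1))
      ((hQ true j.2).pderiv (hqa j.2) (Sum.inr i)) j.1
    exact t1b_conv_K_T1b hg hG
  obtain ⟨m, hm⟩ : ∃ m : List (Fin n) × Fin d → ZI n d → t1bO_T1b n d, ∀ j i,
      (m j i : MvPowerSeries (ZI n d) ℂ) =
        t1bK_T1b n d (pdx j.1 (MvPowerSeries.pderiv ℂ (Sum.inr i) (Q true j.2))) :=
    ⟨fun j i => ⟨_, hmem j i⟩, fun _ _ => rfl⟩
  have hdet0 : ∀ r : ZI n d → List (Fin n) × Fin d,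
      (Matrix.of fun i i' => pdx (r i).1
        (MvPowerSeries.pderiv ℂ (Sum.inr i') (Q true (r i).2))).det = 0 := by
    intro r
    by_contra hne
    exact h ⟨r, hne⟩
  have hdet : ∀ r : ZI n d → List (Fin n) × Fin d,
      (Matrix.of fun i i' => m (r i) i').det = 0 := by
    intro r
    apply Subtype.ext
    have h1 := RingHom.map_det (t1bO_T1b n d).subtype (Matrix.of fun i i' => m (r i) i')
    have h2 := AlgHom.map_det (t1bK_T1b n d) (Matrix.of fun i i' => pdx (r i).1
        (MvPowerSeries.pderiv ℂ (Sum.inr i') (Q true (r i).2)))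
    rw [hdet0 r, map_zero] at h2
    refine h1.trans ?_
    rw [Subring.coe_zero, h2]
    congr 1
    exact Matrix.ext (fun i i' => hm _ _)
  have hdom : IsDomain (MvPowerSeries (ZI n d) ℂ) := NoZeroDivisors.to_isDomain _
  have hdom' : IsDomain (t1bO_T1b n d) := inferInstance
  obtain ⟨a, ha0, ha⟩ := exists_relation_of_minors m hdet
  have hconv : ∀ i, ∃ f : (ZI n d → ℂ) → ℂ, AnalyticAt ℂ f 0 ∧
      IsTaylor f (a i : MvPowerSeries (ZI n d) ℂ) := fun i => (a i).2
  choose af haf1 haf2 using hconv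
  refine ⟨fun y i => af i y, ?_, ?_, ?_⟩
  · rw [analyticAt_pi_iff]; exact haf1
  · intro hev
    apply ha0
    funext i
    apply Subtype.ext
    have h1 : af i =ᶠ[𝓝 0] (fun _ => 0) := by
      filter_upwards [hev] with y hy
      exact congrFun hy i
    exact IsTaylor.unique ((haf2 i).congr h1) t1b_isTaylor_zero_T1b
  · have hfz : ∀ μ, ∀ᶠ s in 𝓝 (0 : SI n d → ℂ),
        ∑ i : ZI n d, fderiv ℂ (fun s => c.q true s μ) s (Pi.single (Sum.inr i) 1) *
          af i (fun i => s (Sum.inr i)) = 0 := by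
      intro μ
      have hG : IsTaylor (fun s : SI n d → ℂ =>
          ∑ i : ZI n d, fderiv ℂ (fun s => c.q true s μ) s (Pi.single (Sum.inr i) 1) *
          af i (fun i => s (Sum.inr i)))
          (∑ i : ZI n d, MvPowerSeries.pderiv ℂ (Sum.inr i) (Q true μ) *
            MvPowerSeries.rename (t1bE_T1b n d) (a i : MvPowerSeries (ZI n d) ℂ)) := by
        apply IsTaylor.sum
        intro i _
        exact ((hQ true μ).pderiv (hqa μ) (Sum.inr i)).mul (t1b_taylor_rename_T1b (haf2 i))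
      have hG0 : (∑ i : ZI n d, MvPowerSeries.pderiv ℂ (Sum.inr i) (Q true μ) *
            MvPowerSeries.rename (t1bE_T1b n d) (a i : MvPowerSeries (ZI n d) ℂ)) = 0 := by
        apply t1b_zero_T1b
        intro w
        rw [t1b_pdx_sum_T1b, map_sum]
        simp only [t1b_pdx_mul_T1b, map_mul]
        have h1 := congrArg (Subtype.val) (ha (w, μ))
        rw [Subring.coe_zero] at h1
        rw [← h1]
        simp only [AddSubmonoidClass.coe_finsetSum, Subring.coe_mul, hm]
        apply Finset.sum_congr rfl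
        intro i _
        congr 1
        exact MvPowerSeries.killCompl_rename_app _
      rw [hG0] at hG
      apply IsTaylor.eventually_eq_zero _ hG
      apply Finset.analyticAt_fun_sum
      intro i _
      refine (t1b_analytic_pd_T1b (hqa μ) (Pi.single (Sum.inr i) 1)).fun_mul ?_
      have h5 : AnalyticAt ℂ (fun s : SI n d → ℂ => (fun i : ZI n d => s (Sum.inr i))) 0 := by
        rw [analyticAt_pi_iff]
        intro i
        exact (ContinuousLinearMap.proj (R := ℂ) (φ := fun _ : SI n d => ℂ) (Sum.inr i)).analyticAt 0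
      exact AnalyticAt.fun_comp (haf1 i) h5
    have hfz' := Filter.eventually_all.2 hfz
    have han : ∀ᶠ s in 𝓝 (0 : SI n d → ℂ), AnalyticAt ℂ (c.q true) s :=
      (c.analytic true).eventually_analyticAt
    filter_upwards [hfz', han] with s hs hsa
    funext μ
    have hdiff : DifferentiableAt ℂ (c.q true) s := hsa.differentiableAt
    have h1 : ∀ v, fderiv ℂ (c.q true) s v μ = fderiv ℂ (fun s => c.q true s μ) s v := by
      intro v
      have h2 : HasFDerivAt (fun s => c.q true s μ)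
          ((ContinuousLinearMap.proj (R := ℂ) (φ := fun _ : Fin d => ℂ) μ).comp
            (fderiv ℂ (c.q true) s)) s :=
        (ContinuousLinearMap.proj (R := ℂ) (φ := fun _ : Fin d => ℂ) μ).hasFDerivAt.comp s
          hdiff.hasFDerivAt
      rw [h2.fderiv]
      rfl
    rw [h1]
    have h3 : (Sum.elim 0 (fun i => af i (fun i => s (Sum.inr i))) : SI n d → ℂ) =
        ∑ i : ZI n d, af i (fun i => s (Sum.inr i)) • (Pi.single (Sum.inr i) (1 : ℂ)) := by
      funext k
      rw [Finset.sum_apply]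
      rcases k with j | i
      · simp
      · rw [Finset.sum_eq_single i]
        · simp
        · intro b _ hb
          simp [hb.symm]
        · intro h; exact absurd (Finset.mem_univ i) h
    have h4 : (Sum.elim 0 ((fun y i => af i y) (fun i => s (Sum.inr i))) : SI n d → ℂ) =
        ∑ i : ZI n d, af i (fun i => s (Sum.inr i)) • (Pi.single (Sum.inr i) (1 : ℂ)) := h3
    rw [h4, map_sum]
    simp only [map_smul, smul_eq_mul]
    rw [Pi.zero_apply, ← hs μ]
    apply Finset.sum_congr rfl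
    intro i _
    ring

end Pool.Agent.Results.MP_51bf1a_an.JetDet
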