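import Pool.Agent.Helper706.JD.ChartDefs

set_option autoImplicit false

open scoped Topology ContDiff ComplexConjugate
open Set Filter Complex

namespace Pool.Agent.Results.MP_51bf1a_an.JetDet

/-! ### such a field is tangent -/

/-- conjugation as a real continuous linear map -/
noncomputable def cjL_T1c (σ : Type*) [Fintype σ] : (σ → ℂ) →L[ℝ] (σ → ℂ) :=
  ContinuousLinearMap.pi (fun i => (Complex.conjCLE : ℂ ≃L[ℝ] ℂ).toContinuousLinearMap.comp
    (ContinuousLinearMap.proj i))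

theorem cjL_apply_T1c {σ : Type*} [Fintype σ] (y : σ → ℂ) : cjL_T1c σ y = cj y := by
  ext i
  simp [cjL_T1c, cj]

theorem cj_cj_T1c {σ : Type*} (y : σ → ℂ) : cj (cj y) = y := by
  ext i
  simp [cj]

theorem continuous_cj_T1c {σ : Type*} [Fintype σ] : Continuous (cj : (σ → ℂ) → (σ → ℂ)) := by
  have : (cj : (σ → ℂ) → (σ → ℂ)) = cjL_T1c σ := by
    funext y
    exact (cjL_apply_T1c y).symm
  rw [this]
  exact (cjL_T1c σ).continuous

theorem continuous_inc_T1c {n d : ℕ} : Continuous (inc : (ZI n d → ℂ) → (SI n d → ℂ)) := by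
  apply continuous_pi
  rintro (j | i)
  · simp only [inc, Sum.elim_inl]
    exact Complex.continuous_conj.comp (continuous_apply _)
  · simp only [inc, Sum.elim_inr]
    exact continuous_apply _

theorem inc_zero_T1c {n d : ℕ} : (inc (0 : ZI n d → ℂ)) = 0 := by
  ext i
  rcases i with j | i
  · simp [inc]
  · simp [inc]

theorem cj_zero_T1c {σ : Type*} : cj (0 : σ → ℂ) = 0 := by
  ext i
  simp [cj]

/-- derivative along a real line -/
theorem hasDerivAt_line_real_T1c {σ τ : Type*} [Fintype σ] [Fintype τ] {F : (σ → ℂ) → (τ → ℂ)}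
    {x w : σ → ℂ} (hF : DifferentiableAt ℂ F x) :
    HasDerivAt (fun t : ℝ => F (x + t • w)) (fderiv ℂ F x w) 0 := by
  have h1 : HasFDerivAt F ((fderiv ℂ F x).restrictScalars ℝ) (x + (0 : ℝ) • w) := by
    rw [zero_smul, add_zero]
    exact hF.hasFDerivAt.restrictScalars ℝ
  have h2 : HasDerivAt (fun t : ℝ => x + t • w) w 0 := by
    have := ((hasDerivAt_id (0 : ℝ)).smul_const w).const_add x
    simpa using this
  exact h1.comp_hasDerivAt 0 h2

/-- derivative along a complex line -/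
theorem hasDerivAt_line_complex_T1c {σ τ : Type*} [Fintype σ] [Fintype τ] {F : (σ → ℂ) → (τ → ℂ)}
    {x w : σ → ℂ} (hF : DifferentiableAt ℂ F x) :
    HasDerivAt (fun t : ℂ => F (x + t • w)) (fderiv ℂ F x w) 0 := by
  have h1 : HasFDerivAt F (fderiv ℂ F x) (x + (0 : ℂ) • w) := by
    rw [zero_smul, add_zero]
    exact hF.hasFDerivAt
  have h2 : HasDerivAt (fun t : ℂ => x + t • w) w 0 := by
    have := ((hasDerivAt_id (0 : ℂ)).smul_const w).const_add x
    simpa using this
  exact h1.comp_hasDerivAt 0 h2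

theorem cj_add_smul_T1c {σ : Type*} (s w : σ → ℂ) (t : ℝ) : cj (s + t • w) = cj s + t • cj w := by
  ext i
  simp [cj]

/-- (i) -/
theorem fderiv_conj_T1c {σ τ : Type*} [Fintype σ] [Fintype τ] {F G : (σ → ℂ) → (τ → ℂ)}
    (hFG : ∀ s, G (cj s) = cj (F s)) {s : σ → ℂ} (hF : DifferentiableAt ℂ F s)
    (hG : DifferentiableAt ℂ G (cj s)) (w : σ → ℂ) :
    fderiv ℂ G (cj s) (cj w) = cj (fderiv ℂ F s w) := by
  have h1 := hasDerivAt_line_real_T1c (w := cj w) hG
  have h2 := hasDerivAt_line_real_T1c (w := w) hF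
  have h3 : HasDerivAt (fun t : ℝ => cjL_T1c τ (F (s + t • w))) (cjL_T1c τ (fderiv ℂ F s w)) 0 :=
    (cjL_T1c τ).hasFDerivAt.comp_hasDerivAt 0 h2
  have h4 : (fun t : ℝ => cjL_T1c τ (F (s + t • w))) = fun t : ℝ => G (cj s + t • cj w) := by
    funext t
    rw [cjL_apply_T1c, ← hFG, cj_add_smul_T1c]
  rw [h4, cjL_apply_T1c] at h3
  exact h1.unique h3

/-- (ii) -/
theorem fderiv_flip_T1c {n d : ℕ} {F G : (SI n d → ℂ) → (Fin d → ℂ)} {s : SI n d → ℂ}
    (hF : DifferentiableAt ℂ F s) (hG : DifferentiableAt ℂ G (flipE F s))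
    (hinv : ∀ᶠ s' in 𝓝 s, G (flipE F s') = fun μ => s' (Sum.inr (Sum.inr μ)))
    (w : SI n d → ℂ) :
    fderiv ℂ G (flipE F s) (Sum.elim (fun j => w (Sum.inr (Sum.inl j)))
      (Sum.elim (fun j => w (Sum.inl j)) (fderiv ℂ F s w))) = fun μ => w (Sum.inr (Sum.inr μ)) := by
  have hline : HasDerivAt (fun t : ℂ => s + t • w) w 0 := by
    have := ((hasDerivAt_id (0 : ℂ)).smul_const w).const_add s
    simpa using this
  have hcoord : ∀ i : SI n d, HasDerivAt (fun t : ℂ => (s + t • w) i) (w i) 0 := fun i =>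
    (hasDerivAt_pi.1 hline) i
  have h1 : HasDerivAt (fun t : ℂ => flipE F (s + t • w))
      (Sum.elim (fun j => w (Sum.inr (Sum.inl j)))
        (Sum.elim (fun j => w (Sum.inl j)) (fderiv ℂ F s w))) 0 := by
    rw [hasDerivAt_pi]
    rintro (j | j | μ)
    · simpa only [flipE, Sum.elim_inl] using hcoord (Sum.inr (Sum.inl j))
    · simpa only [flipE, Sum.elim_inl, Sum.elim_inr] using hcoord (Sum.inl j)
    · have := (hasDerivAt_pi.1 (hasDerivAt_line_complex_T1c (w := w) hF)) μ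
      simpa only [flipE, Sum.elim_inl, Sum.elim_inr] using this
  have h2 : HasFDerivAt G (fderiv ℂ G (flipE F s)) (flipE F (s + (0 : ℂ) • w)) := by
    rw [zero_smul, add_zero]
    exact hG.hasFDerivAt
  have h3 : HasDerivAt (fun t : ℂ => G (flipE F (s + t • w)))
      (fderiv ℂ G (flipE F s) (Sum.elim (fun j => w (Sum.inr (Sum.inl j)))
        (Sum.elim (fun j => w (Sum.inl j)) (fderiv ℂ F s w)))) 0 :=
    h2.comp_hasDerivAt 0 h1
  have h4 : HasDerivAt (fun t : ℂ => (fun μ => (s + t • w) (Sum.inr (Sum.inr μ)) : Fin d → ℂ))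
      (fun μ => w (Sum.inr (Sum.inr μ))) 0 := by
    rw [hasDerivAt_pi]
    intro μ
    exact hcoord _
  have h5 : (fun t : ℂ => G (flipE F (s + t • w))) =ᶠ[𝓝 0]
      (fun t : ℂ => (fun μ => (s + t • w) (Sum.inr (Sum.inr μ)) : Fin d → ℂ)) := by
    have hc : Tendsto (fun t : ℂ => s + t • w) (𝓝 0) (𝓝 s) := by
      have := hline.continuousAt.tendsto
      simpa using this
    exact hc.eventually hinv
  exact h3.unique (h4.congr_of_eventuallyEq h5)

theorem elim_smul_T1c {n d : ℕ} (u : ZI n d → ℂ) :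
    (Sum.elim 0 (I • u) : SI n d → ℂ) = I • Sum.elim (0 : Fin n → ℂ) u := by
  ext i
  rcases i with j | i <;> simp

theorem tangent_aux_T1c {N n d : ℕ} {M : Set (Fin N → ℂ)} {p : Fin N → ℂ}
    (c : Chart n d M p) (y : ZI n d → ℂ)
    (hdt : DifferentiableAt ℂ (c.q true) (inc y))
    (hdf : DifferentiableAt ℂ (c.q false) (cj (inc y)))
    (hinv : ∀ᶠ s' in 𝓝 (inc y), c.q false (flipE (c.q true) s') =
      fun μ => s' (Sum.inr (Sum.inr μ)))
    (hm : c.q false (cj (inc y)) = fun μ => y (Sum.inr μ))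
    (u : ZI n d → ℂ) (hu : fderiv ℂ (c.q true) (inc y) (Sum.elim 0 u) = 0) :
    fderiv ℂ (c.q false) (cj (inc y)) (cj (inc u)) = fun μ => u (Sum.inr μ) := by
  have hqt : c.q true (inc y) = cj (fun μ => y (Sum.inr μ)) := by
    have := c.conj_q false (cj (inc y))
    rw [cj_cj_T1c, hm] at this
    exact this
  have hflip : flipE (c.q true) (inc y) = cj (inc y) := by
    ext i
    rcases i with j | j | μ
    · simp [flipE, cj, inc]
    · simp [flipE, cj, inc]
    · have h1 : flipE (c.q true) (inc y) (Sum.inr (Sum.inr μ)) = c.q true (inc y) μ := rfl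
      rw [h1, hqt]
      rfl
  have h1 : fderiv ℂ (c.q false) (cj (inc y)) (cj (Sum.elim (0 : Fin n → ℂ) u)) = 0 := by
    have := fderiv_conj_T1c (c.conj_q true) hdt hdf (Sum.elim (0 : Fin n → ℂ) u)
    simp only [Bool.not_true] at this
    rw [this, hu, cj_zero_T1c]
  have h2 := fderiv_flip_T1c (F := c.q true) (G := c.q false) hdt (by rw [hflip]; exact hdf) hinv
    (Sum.elim (0 : Fin n → ℂ) u)
  rw [hflip, hu] at h2
  have h3 : cj (inc u) = (Sum.elim (fun j => (Sum.elim (0 : Fin n → ℂ) u) (Sum.inr (Sum.inl j)))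
      (Sum.elim (fun j => (Sum.elim (0 : Fin n → ℂ) u) (Sum.inl j)) (0 : Fin d → ℂ)) : SI n d → ℂ) +
      cj (Sum.elim (0 : Fin n → ℂ) u) := by
    ext i
    rcases i with j | j | μ
    · simp [cj, inc]
    · simp [cj, inc]
    · simp [cj, inc]
  rw [h3, map_add, h2, h1, add_zero]
  funext μ
  simp

theorem not_HN_of_field {N n d : ℕ} {M : Set (Fin N → ℂ)} {p : Fin N → ℂ}
    (c : Chart n d M p) {a : (ZI n d → ℂ) → (ZI n d → ℂ)} (ha : AnalyticAt ℂ a 0)
    (h0 : ¬ (∀ᶠ y in 𝓝 0, a y = 0))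
    (h : ∀ᶠ s in 𝓝 (0 : SI n d → ℂ),
        fderiv ℂ (c.q true) s (Sum.elim 0 (a (fun i => s (Sum.inr i)))) = 0) :
    ¬ HolomorphicallyNondegenerate d M := by
  intro hHN
  apply h0
  have hp : p ∈ M := by
    have := c.mem.self_of_nhds
    rw [map_zero, add_zero, inc_zero_T1c, cj_zero_T1c, c.zero] at this
    exact this.2 (by funext μ; rfl)
  have htinc : Tendsto (inc : (ZI n d → ℂ) → (SI n d → ℂ)) (𝓝 0) (𝓝 0) := by
    have := (continuous_inc_T1c (n := n) (d := d)).tendsto 0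
    rwa [inc_zero_T1c] at this
  have htcinc : Tendsto (fun y : ZI n d → ℂ => cj (inc y)) (𝓝 0) (𝓝 0) := by
    have := ((continuous_cj_T1c (σ := SI n d)).comp (continuous_inc_T1c (n := n) (d := d))).tendsto 0
    simpa [Function.comp_def, inc_zero_T1c, cj_zero_T1c] using this
  have e1 : ∀ᶠ y in 𝓝 (0 : ZI n d → ℂ), DifferentiableAt ℂ (c.q true) (inc y) :=
    htinc.eventually ((c.analytic true).eventually_analyticAt.mono fun _ hx =>
      hx.differentiableAt)
  have e2 : ∀ᶠ y in 𝓝 (0 : ZI n d → ℂ), DifferentiableAt ℂ (c.q false) (cj (inc y)) :=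
    htcinc.eventually ((c.analytic false).eventually_analyticAt.mono fun _ hx =>
      hx.differentiableAt)
  have e3 : ∀ᶠ y in 𝓝 (0 : ZI n d → ℂ), ∀ᶠ s' in 𝓝 (inc y), c.q false (flipE (c.q true) s') =
      fun μ => s' (Sum.inr (Sum.inr μ)) :=
    htinc.eventually (eventually_eventually_nhds.2 (c.invol true))
  have e4 := htinc.eventually h
  have key : ∀ᶠ y in 𝓝 (0 : ZI n d → ℂ), p + c.A y ∈ M →
      CTangentVec d M (p + c.A y) (c.A (a y)) := by
    filter_upwards [e1, e2, e3, e4, c.mem, c.tangent] with y h1 h2 h3 h4 h5 h6 hM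
    have hm := h5.1 hM
    have h4' : fderiv ℂ (c.q true) (inc y) (Sum.elim 0 (a y)) = 0 := h4
    refine ⟨(h6 hM (a y)).2 (tangent_aux_T1c c y h1 h2 h3 hm _ h4'), ?_⟩
    have : I • c.A (a y) = c.A (I • a y) := (map_smul c.A I (a y)).symm
    rw [this]
    refine (h6 hM (I • a y)).2 (tangent_aux_T1c c y h1 h2 h3 hm _ ?_)
    rw [elim_smul_T1c, map_smul, h4', smul_zero]
  have hVa : AnalyticAt ℂ (fun x => c.A (a (c.A.symm (x - p)))) p := by
    have k1 : AnalyticAt ℂ (fun x : Fin N → ℂ => c.A.symm (x - p)) p := by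
      have : AnalyticAt ℂ (fun x : Fin N → ℂ => x - p) p := analyticAt_id.sub analyticAt_const
      exact (c.A.symm.toContinuousLinearMap.analyticAt _).comp this
    have k2 : AnalyticAt ℂ (fun x => a (c.A.symm (x - p))) p := by
      apply AnalyticAt.comp _ k1
      simpa using ha
    exact (c.A.toContinuousLinearMap.analyticAt _).comp k2
  have htx : Tendsto (fun x : Fin N → ℂ => c.A.symm (x - p)) (𝓝 p) (𝓝 0) := by
    have : Continuous (fun x : Fin N → ℂ => c.A.symm (x - p)) := by fun_prop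
    have := this.tendsto p
    simpa using this
  have hV := hHN p hp _ hVa (by
    filter_upwards [htx.eventually key] with x hx hxM
    have e : p + c.A (c.A.symm (x - p)) = x := by simp
    rw [e] at hx
    exact hx hxM)
  have hty : Tendsto (fun y : ZI n d → ℂ => p + c.A y) (𝓝 0) (𝓝 p) := by
    have : Continuous (fun y : ZI n d → ℂ => p + c.A y) := by fun_prop
    have := this.tendsto 0
    simpa using this
  filter_upwards [hty.eventually hV] with y hy
  simpa using hy

end Pool.Agent.Results.MP_51bf1a_an.JetDet
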