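import Pool.Agent.Helper706.JD.T2c

set_option autoImplicit false

open scoped Topology ContDiff ComplexConjugate
open Set Filter Complex

namespace Pool.Agent.Results.MP_51bf1a_an.JetDet
























/-! ### the formal finite type condition; density of finite type points -/

section aux1180

theorem isTaylor_prod_aux_T2d {ι α : Type*} [Fintype ι] [DecidableEq α] (s : Finset α)
    {f : α → (ι → ℂ) → ℂ}
    {F : α → MvPowerSeries ι ℂ} (hF : ∀ a ∈ s, IsTaylor (f a) (F a)) :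
    IsTaylor (fun x => ∏ a ∈ s, f a x) (∏ a ∈ s, F a) := by
  induction s using Finset.induction_on with
  | empty =>
    have := isTaylor_const (ι := ι) 1
    simpa using this
  | insert a s ha ih =>
    simp only [Finset.prod_insert ha]
    exact IsTaylor.mul (hF a (Finset.mem_insert_self a s))
      (ih (fun b hb => hF b (Finset.mem_insert_of_mem hb)))

theorem isTaylor_det_aux_T2d {ι α : Type*} [Fintype ι] [Fintype α] [DecidableEq α]
    {Y : α → (ι → ℂ) → (α → ℂ)} {F : α → α → MvPowerSeries ι ℂ}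
    (h : ∀ a b, IsTaylor (fun x => Y a x b) (F a b)) :
    IsTaylor (fun x => (Matrix.of fun a b => Y a x b).det) (Matrix.of F).det := by
  simp only [Matrix.det_apply', Matrix.of_apply]
  apply IsTaylor.sum
  intro σ _
  apply IsTaylor.mul
  · have h1 := isTaylor_const (ι := ι) (((Equiv.Perm.sign σ : ℤ)) : ℂ)
    rw [map_intCast] at h1
    exact h1
  · exact isTaylor_prod_aux_T2d _ (fun i _ => h (σ i) i)

theorem analytic_det_aux_T2d {ι α : Type*} [Fintype ι] [Fintype α] [DecidableEq α]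
    {Y : α → (ι → ℂ) → (α → ℂ)} {U : Set (ι → ℂ)} (h : ∀ a, AnalyticOnNhd ℂ (Y a) U) :
    AnalyticOnNhd ℂ (fun x => (Matrix.of fun a b => Y a x b).det) U := by
  simp only [Matrix.det_apply', Matrix.of_apply]
  intro x hx
  apply Finset.analyticAt_fun_sum
  intro σ _
  apply AnalyticAt.mul analyticAt_const
  apply Finset.analyticAt_fun_prod
  intro i _
  exact (analyticAt_pi_iff.1 (h (σ i) x hx)) i

theorem inc_zero_aux_T2d {n d : ℕ} : inc (0 : ZI n d → ℂ) = 0 := by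
  funext i
  rcases i with j | i
  · simp [inc]
  · simp [inc]

theorem inc_cont_aux_T2d {n d : ℕ} : Continuous (inc : (ZI n d → ℂ) → (SI n d → ℂ)) := by
  apply continuous_pi
  intro i
  rcases i with j | i
  · exact Complex.continuous_conj.comp (continuous_apply (Sum.inl j))
  · exact continuous_apply i

theorem map_nhds_aux_T2d {N n d : ℕ} {M : Set (Fin N → ℂ)} {p : Fin N → ℂ} (c : Chart n d M p)
    (y : ZI n d → ℂ) : Filter.map (fun y => p + c.A y) (𝓝 y) = 𝓝 (p + c.A y) :=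
  (c.A.toHomeomorph.trans (Homeomorph.addLeft p)).map_nhds_eq y

theorem key_aux_T2d {N n d : ℕ} {M : Set (Fin N → ℂ)} {p : Fin N → ℂ} (c : Chart n d M p)
    (hFT : ∃ᶠ x in 𝓝 p, x ∈ M ∧ FiniteTypeAt d M x) :
    ∃ r > 0, ∃ Y : SI n d → (SI n d → ℂ) → (SI n d → ℂ), (∀ s, AIter c (Y s)) ∧
      (AnalyticOnNhd ℂ (fun s => (Matrix.of fun a b => Y a s b).det) (Metric.ball 0 r)) ∧
      ∃ y, inc y ∈ Metric.ball (0 : SI n d → ℂ) r ∧
        (Matrix.of fun s s' => Y s (inc y) s').det ≠ 0 := by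
  obtain ⟨r, hr, hA⟩ := AIter.analytic c
  have h0 : p = p + c.A 0 := by simp
  rw [h0, ← map_nhds_aux_T2d, Filter.frequently_map] at hFT
  have hball : ∀ᶠ y in 𝓝 (0 : ZI n d → ℂ), inc y ∈ Metric.ball (0 : SI n d → ℂ) r := by
    apply inc_cont_aux_T2d.continuousAt
    rw [inc_zero_aux_T2d]
    exact Metric.ball_mem_nhds _ hr
  obtain ⟨y, ⟨hyM, hyF⟩, hyb, hyd⟩ := (hFT.and_eventually (hball.and (det_of_ft c))).exists
  obtain ⟨Y, hY, hdet⟩ := hyd hyM hyF
  exact ⟨r, hr, Y, hY, analytic_det_aux_T2d (fun a => hA _ (hY a)), y, hyb, hdet⟩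

end aux1180

theorem chart_FBG {N n d : ℕ} {M : Set (Fin N → ℂ)} {p : Fin N → ℂ} (c : Chart n d M p)
    (hFT : ∃ᶠ x in 𝓝 p, x ∈ M ∧ FiniteTypeAt d M x)
    {Q : Bool → Fin d → MvPowerSeries (SI n d) ℂ}
    (hQ : ∀ b μ, IsTaylor (fun s => c.q b s μ) (Q b μ)) : FBG Q true := by
  obtain ⟨r, hr, Y, hY, hD, y, hyb, hdet⟩ := key_aux_T2d c hFT
  have hF : ∀ a, ∃ F : SI n d → MvPowerSeries (SI n d) ℂ, FIter Q true F ∧
      ∀ s, IsTaylor (fun x => Y a x s) (F s) := fun a => AIter.taylor c hQ (hY a)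
  choose F hF1 hF2 using hF
  refine ⟨F, hF1, fun h0 => hdet ?_⟩
  have h1 := isTaylor_det_aux_T2d hF2
  rw [h0] at h1
  have h2 := IsTaylor.eventually_eq_zero (hD 0 (Metric.mem_ball_self hr)) h1
  exact hD.eqOn_zero_of_preconnected_of_eventuallyEq_zero
    (convex_ball (0 : SI n d → ℂ) r).isPreconnected (Metric.mem_ball_self hr) h2 hyb

theorem chart_dense {N n d : ℕ} {M : Set (Fin N → ℂ)} {p : Fin N → ℂ} (c : Chart n d M p)
    (hFT : ∃ᶠ x in 𝓝 p, x ∈ M ∧ FiniteTypeAt d M x) :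
    ∀ᶠ x in 𝓝 p, x ∈ M → ∃ᶠ x' in 𝓝 x, x' ∈ M ∧ FiniteTypeAt d M x' := by
  obtain ⟨r, hr, Y, hY, hD, y1, hyb1, hdet⟩ := key_aux_T2d c hFT
  have h0 : p = p + c.A 0 := by simp
  rw [h0, ← map_nhds_aux_T2d, Filter.eventually_map]
  have hball : ∀ᶠ y in 𝓝 (0 : ZI n d → ℂ), inc y ∈ Metric.ball (0 : SI n d → ℂ) r := by
    apply inc_cont_aux_T2d.continuousAt
    rw [inc_zero_aux_T2d]
    exact Metric.ball_mem_nhds _ hr
  filter_upwards [hball, c.identity, (ft_of_det c).eventually_nhds] with y hyb hid hft hyM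
  rw [← map_nhds_aux_T2d, Filter.frequently_map]
  intro hcon
  apply hdet
  have h1 : ∀ᶠ y' in 𝓝 y, p + c.A y' ∈ M →
      (Matrix.of fun s s' => Y s (inc y') s').det = 0 := by
    filter_upwards [hcon, hft] with y' h2 h3 h4
    by_contra h5
    exact h2 ⟨h4, h3 h4 Y hY h5⟩
  have h2 := hid hyM (fun s => (Matrix.of fun a b => Y a s b).det) (hD _ hyb) h1
  exact hD.eqOn_zero_of_preconnected_of_eventuallyEq_zero
    (convex_ball (0 : SI n d → ℂ) r).isPreconnected hyb h2 hyb1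

/-- On a connected generic submanifold, finite type at one point implies finite type on a dense
set of points. -/
theorem ft_dense {N d : ℕ} {M : Set (Fin N → ℂ)} (hconn : IsConnected M)
    (hchart : ∀ p ∈ M, ∃ n, Nonempty (Chart n d M p))
    (hFT : ∃ q ∈ M, FiniteTypeAt d M q) :
    ∀ p ∈ M, ∃ᶠ x in 𝓝 p, x ∈ M ∧ FiniteTypeAt d M x := by
  set T : Set (Fin N → ℂ) := closure {x | x ∈ M ∧ FiniteTypeAt d M x} with hT
  have hmem : ∀ p, p ∈ T ↔ ∃ᶠ x in 𝓝 p, x ∈ M ∧ FiniteTypeAt d M x := by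
    intro p
    rw [hT, mem_closure_iff_frequently]
    rfl
  obtain ⟨q, hqM, hq⟩ := hFT
  intro p0 hp0
  by_contra hp
  rw [← hmem] at hp
  have hcov : M ⊆ interior (T ∪ Mᶜ) ∪ Tᶜ := by
    intro p hpM
    by_cases hpT : p ∈ T
    · left
      rw [mem_interior_iff_mem_nhds]
      obtain ⟨n, ⟨c⟩⟩ := hchart p hpM
      have h1 := chart_dense c ((hmem p).1 hpT)
      filter_upwards [h1] with x hx
      by_cases hxM : x ∈ M
      · exact Or.inl ((hmem x).2 (hx hxM))
      · exact Or.inr hxM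
    · exact Or.inr hpT
  have hqT : q ∈ T := subset_closure ⟨hqM, hq⟩
  have hqU : q ∈ interior (T ∪ Mᶜ) := by
    rcases hcov hqM with h | h
    · exact h
    · exact absurd hqT h
  obtain ⟨x, hxM, hxU, hxV⟩ := hconn.isPreconnected _ _ isOpen_interior
    isClosed_closure.isOpen_compl hcov ⟨q, hqM, hqU⟩ ⟨p0, hp0, hp⟩
  rcases interior_subset hxU with h | h
  · exact hxV h
  · exact h hxM

end Pool.Agent.Results.MP_51bf1a_an.JetDet
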