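import Pool.Agent.Helper706.JD.CoreDefs

set_option autoImplicit false

open MvPowerSeries

namespace Pool.Agent.Results.MP_51bf1a_an.JetDet

section K5defs

variable {n d : ℕ}

/-- the formal map induced by `A` on the edges -/
noncomputable def eta (Q : Bool → Fin d → MvPowerSeries (SI n d) ℂ)
    (A : Bool → ZI n d → MvPowerSeries (ZI n d) ℂ) (b : Bool) : SI n d → MvPowerSeries (SI n d) ℂ :=
  Sum.elim (fun j => subst (uv Q b) (A b (Sum.inl j))) (fun i => subst pv (A (!b) i))

/-- the formal maps `A_b` preserve the formal CR structure -/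
def Pres (Q : Bool → Fin d → MvPowerSeries (SI n d) ℂ)
    (A : Bool → ZI n d → MvPowerSeries (ZI n d) ℂ) : Prop :=
  ∀ b μ, (subst (uv Q b) (A b (Sum.inr μ)) : MvPowerSeries (SI n d) ℂ) =
    subst (eta Q A b) (Q b μ)

end K5defs

/-! ### the induced map on the edges is invertible -/

section K5a

variable {n d : ℕ} {Q : Bool → Fin d → MvPowerSeries (SI n d) ℂ}

theorem constantCoeff_subst' {ι κ : Type*} [Fintype ι] {a : ι → MvPowerSeries κ ℂ}
    (ha : ∀ i, constantCoeff (a i) = 0) (f : MvPowerSeries ι ℂ) :
    constantCoeff (subst a f : MvPowerSeries κ ℂ) = constantCoeff f := by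
  have hsa := hasSubst_of_constantCoeff_zero ha
  have : f = C (constantCoeff f) + (f - C (constantCoeff f)) := by ring
  conv_lhs => rw [this, subst_add hsa, subst_C' ha, map_add]
  have h2 : constantCoeff (subst a (f - C (constantCoeff f)) : MvPowerSeries κ ℂ) = 0 := by
    rw [← one_le_order_iff_constCoeff_eq_zero]
    apply order_subst ha _ 1
    rw [Nat.cast_one, one_le_order_iff_constCoeff_eq_zero]
    simp
  rw [h2]; simp

theorem constantCoeff_pderiv_subst' {ι κ : Type*} [Fintype ι] [DecidableEq ι] [DecidableEq κ]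
    {a : ι → MvPowerSeries κ ℂ} (ha : ∀ i, constantCoeff (a i) = 0) (f : MvPowerSeries ι ℂ)
    (t : κ) : constantCoeff (pderiv ℂ t (subst a f : MvPowerSeries κ ℂ)) =
      ∑ i, constantCoeff (pderiv ℂ i f) * constantCoeff (pderiv ℂ t (a i)) := by
  rw [pderiv_subst ha, map_sum]
  refine Finset.sum_congr rfl fun i _ => ?_
  rw [map_mul, constantCoeff_subst' ha]

theorem uv_const (h : FormalCR Q) (b : Bool) (i : ZI n d) : constantCoeff (uv Q b i) = 0 := by
  rcases i with j | μ
  · simp [uv]
  · simp [uv, h.const]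

theorem pv_const (i : ZI n d) : constantCoeff (pv i : MvPowerSeries (SI n d) ℂ) = 0 := by
  simp [pv]

theorem eta_const (h : FormalCR Q) {A : Bool → ZI n d → MvPowerSeries (ZI n d) ℂ}
    (hA0 : ∀ b i, constantCoeff (A b i) = 0) (b : Bool) (s : SI n d) :
    constantCoeff (eta Q A b s) = 0 := by
  rcases s with j | i
  · simp only [eta, Sum.elim_inl]
    rw [constantCoeff_subst' (uv_const h b), hA0]
  · simp only [eta, Sum.elim_inr]
    rw [constantCoeff_subst' pv_const, hA0]

theorem eta_jacobian (h : FormalCR Q) {A : Bool → ZI n d → MvPowerSeries (ZI n d) ℂ}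
    (hA0 : ∀ b i, constantCoeff (A b i) = 0)
    (hAJ : ∀ b, IsUnit (Matrix.of fun i j => constantCoeff (pderiv ℂ j (A b i))).det)
    (hP : Pres Q A) (b : Bool) :
    IsUnit (Matrix.of fun s t => constantCoeff (pderiv ℂ t (eta Q A b s))).det := by
  rw [isUnit_iff_ne_zero]
  intro hdet
  obtain ⟨g, hg0, hg⟩ := Matrix.exists_mulVec_eq_zero_iff.mpr hdet
  apply hg0
  have hE : ∀ s, ∑ t, constantCoeff (pderiv ℂ t (eta Q A b s)) * g t = 0 := by
    intro s
    have := congrFun hg s
    simpa [Matrix.mulVec, dotProduct] using this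
  have hinj : ∀ (b : Bool) (u : ZI n d → ℂ),
      (∀ i, ∑ j, constantCoeff (pderiv ℂ j (A b i)) * u j = 0) → u = 0 := by
    intro b u hu
    have h1 : (Matrix.of fun i j => constantCoeff (pderiv ℂ j (A b i))).mulVec u = 0 := by
      funext i
      simpa [Matrix.mulVec, dotProduct] using hu i
    by_contra hne
    have h2 := Matrix.exists_mulVec_eq_zero_iff.mp ⟨u, hne, h1⟩
    exact (hAJ b).ne_zero h2
  -- the second half of `g` vanishes
  have hgv : (fun i => g (Sum.inr i)) = 0 := by
    apply hinj (!b)
    intro i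
    have h1 := hE (Sum.inr i)
    rw [← h1]
    simp only [eta, Sum.elim_inr]
    simp only [constantCoeff_pderiv_subst' (pv_const (n := n) (d := d))]
    symm
    refine (Fintype.sum_sum_type _).trans ?_
    have e1 : ∀ (i' : ZI n d) (x : Fin n), constantCoeff
        (pderiv ℂ (Sum.inl x) (pv i' : MvPowerSeries (SI n d) ℂ)) = 0 := by
      intro i' x
      unfold pv
      rw [pderiv_X_of_ne (by simp), map_zero]
    have e2 : ∀ (i' y : ZI n d), constantCoeff
        (pderiv ℂ (Sum.inr y) (pv i' : MvPowerSeries (SI n d) ℂ)) = if i' = y then 1 else 0 := by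
      intro i' y
      unfold pv
      by_cases hy : i' = y
      · subst hy
        rw [pderiv_X_self, if_pos rfl, map_one]
      · rw [pderiv_X_of_ne (by simpa using hy), if_neg hy, map_zero]
    simp only [e1, e2, mul_zero, Finset.sum_const_zero, zero_mul, mul_ite, mul_one, zero_add,
      Finset.sum_ite_eq', Finset.mem_univ, if_true]
  set U : ZI n d → ℂ := fun i => ∑ t, constantCoeff (pderiv ℂ t (uv Q b i)) * g t with hU
  have hsw : ∀ (c : ZI n d → ℂ), ∑ i, c i * U i =
      ∑ t, (∑ i, c i * constantCoeff (pderiv ℂ t (uv Q b i))) * g t := by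
    intro c
    simp only [hU, Finset.mul_sum, Finset.sum_mul]
    rw [Finset.sum_comm]
    refine Finset.sum_congr rfl fun t _ => Finset.sum_congr rfl fun i _ => ?_
    ring
  have hU0 : U = 0 := by
    apply hinj b
    intro i
    rw [hsw]
    rcases i with j | μ
    · have h1 := hE (Sum.inl j)
      simp only [eta, Sum.elim_inl, constantCoeff_pderiv_subst' (uv_const h b)] at h1
      exact h1
    · have h2 : ∀ t, ∑ i, constantCoeff (pderiv ℂ i (A b (Sum.inr μ))) *
          constantCoeff (pderiv ℂ t (uv Q b i)) =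
          ∑ s, constantCoeff (pderiv ℂ s (Q b μ)) * constantCoeff (pderiv ℂ t (eta Q A b s)) := by
        intro t
        rw [← constantCoeff_pderiv_subst' (uv_const h b), hP b μ,
          constantCoeff_pderiv_subst' (eta_const h hA0 b)]
      simp only [h2, Finset.sum_mul]
      rw [Finset.sum_comm]
      apply Finset.sum_eq_zero
      intro s _
      have h3 := hE s
      calc ∑ t, constantCoeff (pderiv ℂ s (Q b μ)) * constantCoeff (pderiv ℂ t (eta Q A b s)) * g t
          = constantCoeff (pderiv ℂ s (Q b μ)) *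
            ∑ t, constantCoeff (pderiv ℂ t (eta Q A b s)) * g t := by
            rw [Finset.mul_sum]
            refine Finset.sum_congr rfl fun t _ => ?_
            ring
        _ = 0 := by rw [h3, mul_zero]
  funext t
  rcases t with j | i
  · have h1 := congrFun hU0 (Sum.inl j)
    simp only [hU, uv, Sum.elim_inl, Pi.zero_apply] at h1
    have e1 : ∀ t : SI n d, constantCoeff
        (pderiv ℂ t (X (Sum.inl j) : MvPowerSeries (SI n d) ℂ)) = if t = Sum.inl j then 1 else 0 := by
      intro t
      by_cases ht : t = Sum.inl j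
      · rw [ht, pderiv_X_self, if_pos rfl, map_one]
      · rw [pderiv_X_of_ne (Ne.symm ht), if_neg ht, map_zero]
    simp only [e1, ite_mul, one_mul, zero_mul, Finset.sum_ite_eq', Finset.mem_univ, if_true] at h1
    exact h1
  · exact congrFun hgv i

end K5a

end Pool.Agent.Results.MP_51bf1a_an.JetDet
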