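import Pool.Agent.Helper706.JD.A4
import Pool.Agent.Helper706.JD.K5a

set_option autoImplicit false

open scoped Topology ContDiff ComplexConjugate
open Set Filter Complex

namespace Pool.Agent.Results.MP_51bf1a_an.JetDet


















/-! ### automorphisms induce formal automorphisms; jets -/

section aux

variable {σ : Type*}

theorem cj_cj_T4 (y : σ → ℂ) : cj (cj y) = y := by funext i; simp [cj]

theorem cj_zero_T4 : cj (0 : σ → ℂ) = 0 := by funext i; simp [cj]

theorem cj_smul_T4 (a : ℂ) (y : σ → ℂ) : cj (a • y) = conj a • cj y := by funext i; simp [cj]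

theorem cj_add_T4 (x y : σ → ℂ) : cj (x + y) = cj x + cj y := by funext i; simp [cj]

theorem continuous_cj_T4 : Continuous (cj : (σ → ℂ) → (σ → ℂ)) :=
  continuous_pi fun i => Complex.continuous_conj.comp (continuous_apply i)

theorem norm_cj_T4 [Fintype σ] (y : σ → ℂ) : ‖cj y‖ = ‖y‖ := by
  apply le_antisymm
  · rw [pi_norm_le_iff_of_nonneg (norm_nonneg _)]
    intro i
    have : ‖cj y i‖ = ‖y i‖ := by simp [cj]
    rw [this]
    exact norm_le_pi_norm y i
  · rw [pi_norm_le_iff_of_nonneg (norm_nonneg _)]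
    intro i
    have : ‖cj y i‖ = ‖y i‖ := by simp [cj]
    rw [← this]
    exact norm_le_pi_norm (cj y) i

/-- the conjugate of a power series -/
noncomputable def cseries_T4 [Fintype σ] (P : FormalMultilinearSeries ℂ (σ → ℂ) ℂ) :
    FormalMultilinearSeries ℂ (σ → ℂ) ℂ := fun n =>
  MultilinearMap.mkContinuous
    { toFun := fun m => conj (P n (fun i => cj (m i)))
      map_update_add' := by
        intro _ m i x y
        have e : ∀ z : σ → ℂ, (fun k => cj (Function.update m i z k))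
            = Function.update (fun k => cj (m k)) i (cj z) := by
          intro z
          funext k
          by_cases hk : k = i
          · subst hk; simp
          · simp [Function.update_of_ne hk]
        rw [e, e, e, cj_add_T4, (P n).map_update_add, map_add]
      map_update_smul' := by
        intro _ m i a x
        have e : ∀ z : σ → ℂ, (fun k => cj (Function.update m i z k))
            = Function.update (fun k => cj (m k)) i (cj z) := by
          intro z
          funext k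
          by_cases hk : k = i
          · subst hk; simp
          · simp [Function.update_of_ne hk]
        rw [e, e, cj_smul_T4, (P n).map_update_smul, smul_eq_mul, smul_eq_mul, map_mul,
          Complex.conj_conj] }
    ‖P n‖ (by
      intro m
      change ‖conj (P n (fun i => cj (m i)))‖ ≤ _
      rw [RCLike.norm_conj]
      refine ((P n).le_opNorm _).trans ?_
      simp only [norm_cj_T4]
      exact le_refl _)

theorem cseries_apply_T4 [Fintype σ] (P : FormalMultilinearSeries ℂ (σ → ℂ) ℂ) (n : ℕ)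
    (m : Fin n → σ → ℂ) : cseries_T4 P n m = conj (P n (fun i => cj (m i))) := rfl

theorem norm_cseries_T4 [Fintype σ] (P : FormalMultilinearSeries ℂ (σ → ℂ) ℂ) (n : ℕ) :
    ‖cseries_T4 P n‖ ≤ ‖P n‖ := MultilinearMap.mkContinuous_norm_le _ (norm_nonneg _) _

theorem analyticAt_conj_T4 [Fintype σ] {f : (σ → ℂ) → ℂ} (hf : AnalyticAt ℂ f 0) :
    AnalyticAt ℂ (fun y => conj (f (cj y))) 0 := by
  obtain ⟨P, r, hP⟩ := hf
  refine ⟨cseries_T4 P, r, ?_, hP.r_pos, ?_⟩
  · exact hP.r_le.trans (FormalMultilinearSeries.radius_le_of_le (norm_cseries_T4 P))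
  · intro y hy
    have hy' : cj y ∈ Metric.eball (0 : σ → ℂ) r := by
      rw [Metric.mem_eball, edist_zero_right] at hy ⊢
      rw [← ofReal_norm, norm_cj_T4, ofReal_norm]
      exact hy
    have := hP.hasSum hy'
    rw [zero_add] at this ⊢
    exact this.map (starRingEnd ℂ) Complex.continuous_conj

end aux



section h

variable {N n d : ℕ} {M : Set (Fin N → ℂ)} {p : Fin N → ℂ} (c : Chart n d M p)
  {H : (Fin N → ℂ) → (Fin N → ℂ)}

/-- `H` in the chart -/
noncomputable def hh_T4 (H : (Fin N → ℂ) → (Fin N → ℂ)) (y : ZI n d → ℂ) : ZI n d → ℂ :=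
  c.A.symm (H (p + c.A y) - p)

theorem hh_spec_T4 (y : ZI n d → ℂ) : p + c.A (hh_T4 c H y) = H (p + c.A y) := by
  unfold hh_T4
  rw [ContinuousLinearEquiv.apply_symm_apply]
  abel

theorem hh_zero_T4 (hp : H p = p) : hh_T4 c H 0 = 0 := by
  unfold hh_T4
  rw [map_zero, add_zero, hp, sub_self, map_zero]

theorem hh_analytic_T4 (hH : AnalyticAt ℂ H p) : AnalyticAt ℂ (hh_T4 c H) 0 := by
  unfold hh_T4
  have h1 : AnalyticAt ℂ (fun y => p + c.A y) 0 :=
    analyticAt_const.add ((c.A : (ZI n d → ℂ) →L[ℂ] (Fin N → ℂ)).analyticAt 0)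
  have h2 : AnalyticAt ℂ (fun y => H (p + c.A y)) 0 :=
    AnalyticAt.comp_of_eq hH h1 (by simp)
  have h3 : AnalyticAt ℂ (fun y => H (p + c.A y) - p) 0 := h2.sub analyticAt_const
  exact ((c.A.symm : (Fin N → ℂ) →L[ℂ] (ZI n d → ℂ)).analyticAt _).comp h3

theorem hh_fderiv_T4 (hH : AnalyticAt ℂ H p) : HasFDerivAt (hh_T4 c H)
    ((c.A.symm : (Fin N → ℂ) →L[ℂ] (ZI n d → ℂ)).comp
      ((fderiv ℂ H p).comp (c.A : (ZI n d → ℂ) →L[ℂ] (Fin N → ℂ)))) 0 := by
  unfold hh_T4
  have h1 : HasFDerivAt (fun y => p + c.A y) (c.A : (ZI n d → ℂ) →L[ℂ] (Fin N → ℂ)) 0 :=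
    (c.A : (ZI n d → ℂ) →L[ℂ] (Fin N → ℂ)).hasFDerivAt.const_add p
  have h0 : HasFDerivAt H (fderiv ℂ H p) (p + c.A 0) := by
    rw [map_zero, add_zero]
    exact hH.differentiableAt.hasFDerivAt
  have h2 := (HasFDerivAt.comp (g := H) (f := fun y => p + c.A y) 0 h0 h1).sub_const p
  exact (c.A.symm : (Fin N → ℂ) →L[ℂ] (ZI n d → ℂ)).hasFDerivAt.comp 0 h2

theorem isUnit_of_bijective_T4 {ι : Type*} [Fintype ι] [DecidableEq ι]
    (L : (ι → ℂ) →L[ℂ] (ι → ℂ)) (hL : Function.Bijective L) :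
    IsUnit (Matrix.of fun i j => L (Pi.single j 1) i).det := by
  have e : (Matrix.of fun i j => L (Pi.single j 1) i) = LinearMap.toMatrix' (L : (ι → ℂ) →ₗ[ℂ] _) := by
    ext i j
    rw [LinearMap.toMatrix'_apply]
    simp only [Matrix.of_apply]
    congr 2
  rw [e, LinearMap.det_toMatrix']
  have := LinearEquiv.isUnit_det' (LinearEquiv.ofBijective (L : (ι → ℂ) →ₗ[ℂ] _) hL)
  exact this

end h

theorem isBigO_of_sameJet {N n d : ℕ} {M : Set (Fin N → ℂ)} {p : Fin N → ℂ} (c : Chart n d M p)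
    {H₁ H₂ : (Fin N → ℂ) → (Fin N → ℂ)} (h₁ : AnalyticAt ℂ H₁ p) (h₂ : AnalyticAt ℂ H₂ p) {k : ℕ}
    (h : SameJet k p H₁ H₂) (i : ZI n d) :
    (fun y => c.A.symm (H₁ (p + c.A y) - p) i - c.A.symm (H₂ (p + c.A y) - p) i)
      =O[𝓝 0] (fun y : ZI n d → ℂ => ‖y‖ ^ (k + 1)) := by
  have hG : AnalyticAt ℂ (H₁ - H₂) p := h₁.sub h₂
  obtain ⟨P, r, hP⟩ := hG
  have hz : ∀ y, P.partialSum (k + 1) y = 0 := by
    intro y
    unfold FormalMultilinearSeries.partialSum
    apply Finset.sum_eq_zero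
    intro j hj
    have hj' : j ≤ k := Nat.lt_succ_iff.1 (Finset.mem_range.1 hj)
    have e1 := hP.factorial_smul y j
    have e2 : iteratedFDeriv ℂ j (H₁ - H₂) p = 0 := by
      rw [iteratedFDeriv_sub_apply h₁.contDiffAt h₂.contDiffAt, h j hj', sub_self]
    rw [e2] at e1
    have e3 : (j.factorial : ℕ) • P j (fun _ => y) = 0 := e1
    rw [← Nat.cast_smul_eq_nsmul ℂ] at e3
    exact (smul_eq_zero.1 e3).resolve_left (Nat.cast_ne_zero.2 (Nat.factorial_ne_zero j))
  have hO := hP.hasFPowerSeriesAt.isBigO_sub_partialSum_pow (k + 1)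
  simp only [hz, sub_zero] at hO
  have htend : Tendsto (fun y : ZI n d → ℂ => c.A y) (𝓝 0) (𝓝 0) := by
    have := c.A.continuous.tendsto 0
    rwa [map_zero] at this
  have hO2 := hO.comp_tendsto htend
  have hO3 : (fun y : ZI n d → ℂ => ‖c.A y‖ ^ (k + 1)) =O[𝓝 0] fun y => ‖y‖ ^ (k + 1) := by
    have : (fun y : ZI n d → ℂ => ‖c.A y‖) =O[𝓝 0] fun y => ‖y‖ :=
      ((c.A : (ZI n d → ℂ) →L[ℂ] (Fin N → ℂ)).isBigO_id (𝓝 0)).norm_norm
    exact this.pow (k + 1)
  have hO4 : (fun y : ZI n d → ℂ => (H₁ - H₂) (p + c.A y)) =O[𝓝 0] fun y => ‖y‖ ^ (k + 1) :=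
    hO2.trans hO3
  have hO5 : (fun y : ZI n d → ℂ => c.A.symm (H₁ (p + c.A y) - p) i
      - c.A.symm (H₂ (p + c.A y) - p) i) =O[𝓝 0]
      (fun y : ZI n d → ℂ => (H₁ - H₂) (p + c.A y)) := by
    have e : (fun y : ZI n d → ℂ => c.A.symm (H₁ (p + c.A y) - p) i
      - c.A.symm (H₂ (p + c.A y) - p) i) = fun y => ((ContinuousLinearMap.proj i :
        (ZI n d → ℂ) →L[ℂ] ℂ).comp (c.A.symm : (Fin N → ℂ) →L[ℂ] (ZI n d → ℂ)))
          ((H₁ - H₂) (p + c.A y)) := by
      funext y
      change _ = c.A.symm ((H₁ - H₂) (p + c.A y)) i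
      rw [← Pi.sub_apply, ← map_sub]
      simp
    rw [e]
    exact ContinuousLinearMap.isBigO_comp _ _ _
  exact hO5.trans hO4


section pres

variable {N n d : ℕ} {M : Set (Fin N → ℂ)} {p : Fin N → ℂ} (c : Chart n d M p)
  {H : (Fin N → ℂ) → (Fin N → ℂ)}

/-- `H` in the chart, and its conjugate -/
noncomputable def hb_T4 (H : (Fin N → ℂ) → (Fin N → ℂ)) (b : Bool) (y : ZI n d → ℂ) : ZI n d → ℂ :=
  match b with
  | false => hh_T4 c H y
  | true => cj (hh_T4 c H (cj y))

theorem hb_conj_T4 (b : Bool) (y : ZI n d → ℂ) : hb_T4 c H (!b) (cj y) = cj (hb_T4 c H b y) := by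
  cases b
  · change cj (hh_T4 c H (cj (cj y))) = _
    rw [cj_cj_T4]; rfl
  · change hh_T4 c H (cj y) = cj (cj (hh_T4 c H (cj y)))
    rw [cj_cj_T4]

/-- the endpoint of the edge -/
noncomputable def ub_T4 (b : Bool) (s : SI n d → ℂ) : ZI n d → ℂ :=
  Sum.elim (fun j => s (Sum.inl j)) (c.q b s)

theorem hb_zero_T4 (hp : H p = p) (b : Bool) : hb_T4 c H b 0 = 0 := by
  cases b
  · exact hh_zero_T4 c hp
  · change cj (hh_T4 c H (cj 0)) = 0
    rw [cj_zero_T4, hh_zero_T4 c hp, cj_zero_T4]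

theorem hb_analytic_T4 (hH : AnalyticAt ℂ H p) (b : Bool) (i : ZI n d) :
    AnalyticAt ℂ (fun y => hb_T4 c H b y i) 0 := by
  have h0 : AnalyticAt ℂ (fun y => hh_T4 c H y i) 0 :=
    ((ContinuousLinearMap.proj i : (ZI n d → ℂ) →L[ℂ] ℂ).analyticAt _).comp (hh_analytic_T4 c hH)
  cases b
  · exact h0
  · exact analyticAt_conj_T4 h0

theorem cj_inc_T4 (u : ZI n d → ℂ) : cj (inc u) = Sum.elim (fun j => u (Sum.inl j)) (cj u) := by
  funext i
  rcases i with j | i
  · simp [cj, inc]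
  · simp [cj, inc]

theorem ub_zero_T4 (b : Bool) : ub_T4 c b 0 = 0 := by
  unfold ub_T4
  rw [c.zero b]
  funext i
  rcases i with j | i <;> rfl

theorem ub_analytic_T4 (b : Bool) : AnalyticAt ℂ (ub_T4 c b) 0 := by
  rw [analyticAt_pi_iff]
  intro i
  rcases i with j | μ
  · exact (ContinuousLinearMap.proj (R := ℂ) (φ := fun _ : SI n d => ℂ) (Sum.inl j)).analyticAt _
  · exact ((ContinuousLinearMap.proj (R := ℂ) (φ := fun _ : Fin d => ℂ) μ).analyticAt _).comp
      (c.analytic b)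

/-- Step 1. -/
theorem step1_T4 (hH : IsLocalAutomorphism M p H) :
    ∀ᶠ s : SI n d → ℂ in 𝓝 0, c.q false (Sum.elim (fun j => hb_T4 c H false (s ∘ Sum.inr) (Sum.inl j))
      (hb_T4 c H true (ub_T4 c true s))) = fun μ => hb_T4 c H false (s ∘ Sum.inr) (Sum.inr μ) := by
  obtain ⟨hHa, hHp, hHb, hHM⟩ := hH
  have hpM : p + c.A 0 ∈ M := by
    rw [c.mem.self_of_nhds]
    have : cj (inc (0 : ZI n d → ℂ)) = 0 := by
      rw [cj_inc_T4, cj_zero_T4]
      funext i
      rcases i with j | i <;> rfl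
    rw [this, c.zero]
    rfl
  have hinc0 : inc (0 : ZI n d → ℂ) = 0 := by
    funext i
    rcases i with j | i <;> simp [inc]
  -- the map fed into `q false`
  let Φ : (SI n d → ℂ) → (SI n d → ℂ) := fun s =>
    Sum.elim (fun j => hb_T4 c H false (s ∘ Sum.inr) (Sum.inl j)) (hb_T4 c H true (ub_T4 c true s))
  have hinr : AnalyticAt ℂ (fun s : SI n d → ℂ => (s ∘ Sum.inr : ZI n d → ℂ)) 0 := by
    rw [analyticAt_pi_iff]
    intro i
    exact (ContinuousLinearMap.proj (R := ℂ) (φ := fun _ : SI n d => ℂ) (Sum.inr i)).analyticAt _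
  have h1 : ∀ i, AnalyticAt ℂ (fun s : SI n d → ℂ => hb_T4 c H false (s ∘ Sum.inr) i) 0 := by
    intro i
    exact AnalyticAt.comp_of_eq (hb_analytic_T4 c hHa false i) hinr (by funext; rfl)
  have h2 : ∀ i, AnalyticAt ℂ (fun s : SI n d → ℂ => hb_T4 c H true (ub_T4 c true s) i) 0 := by
    intro i
    exact AnalyticAt.comp_of_eq (hb_analytic_T4 c hHa true i) (ub_analytic_T4 c true) (ub_zero_T4 c true)
  have hΦ : AnalyticAt ℂ Φ 0 := by
    rw [analyticAt_pi_iff]
    intro i
    rcases i with j | i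
    · exact h1 (Sum.inl j)
    · exact h2 i
  have hΦ0 : Φ 0 = 0 := by
    have e1 : ((0 : SI n d → ℂ) ∘ Sum.inr : ZI n d → ℂ) = 0 := rfl
    simp only [Φ, e1, ub_zero_T4, hb_zero_T4 c hHp]
    funext i
    rcases i with j | i <;> rfl
  have hF : ∀ μ, AnalyticAt ℂ (fun s => c.q false (Φ s) μ - hb_T4 c H false (s ∘ Sum.inr) (Sum.inr μ))
      (inc 0) := by
    intro μ
    rw [hinc0]
    refine AnalyticAt.sub ?_ (h1 (Sum.inr μ))
    exact ((ContinuousLinearMap.proj (R := ℂ) (φ := fun _ : Fin d => ℂ) μ).analyticAt _).comp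
      (AnalyticAt.comp_of_eq (c.analytic false) hΦ hΦ0)
  have hvan : ∀ μ, ∀ᶠ y' in 𝓝 (0 : ZI n d → ℂ), p + c.A y' ∈ M →
      c.q false (Φ (inc y')) μ - hb_T4 c H false ((inc y') ∘ Sum.inr) (Sum.inr μ) = 0 := by
    intro μ
    have t1 : Tendsto (hh_T4 c H) (𝓝 0) (𝓝 0) := by
      have := (hh_analytic_T4 c hHa).continuousAt.tendsto
      rwa [hh_zero_T4 c hHp] at this
    have t2 : Tendsto (fun y : ZI n d → ℂ => p + c.A y) (𝓝 0) (𝓝 p) := by
      have : Continuous fun y : ZI n d → ℂ => p + c.A y := continuous_const.add c.A.continuous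
      have := this.tendsto 0
      rwa [map_zero, add_zero] at this
    filter_upwards [c.mem, t1.eventually c.mem, t2.eventually hHM] with y e1 e2 e3 hy
    have hy1 := e1.1 hy
    have hy2 : p + c.A (hh_T4 c H y) ∈ M := by
      rw [hh_spec_T4]
      exact e3 hy
    have hy3 := e2.1 hy2
    have e4 : (inc y) ∘ Sum.inr = y := rfl
    have e5 : c.q true (inc y) = cj (fun μ => y (Sum.inr μ)) := by
      have := c.conj_q false (cj (inc y))
      rw [cj_cj_T4, hy1] at this
      exact this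
    have e6 : ub_T4 c true (inc y) = cj y := by
      unfold ub_T4
      rw [e5]
      funext i
      rcases i with j | i <;> rfl
    have e7 : Φ (inc y) = cj (inc (hh_T4 c H y)) := by
      simp only [Φ, e4, e6]
      rw [cj_inc_T4]
      have : hb_T4 c H true (cj y) = cj (hh_T4 c H y) := hb_conj_T4 c false y
      rw [this]
      rfl
    rw [e7, hy3, e4]
    exact sub_self _
  have hall : ∀ μ, ∀ᶠ s in 𝓝 (0 : SI n d → ℂ),
      c.q false (Φ s) μ - hb_T4 c H false (s ∘ Sum.inr) (Sum.inr μ) = 0 := by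
    intro μ
    have := c.identity.self_of_nhds hpM _ (hF μ) (hvan μ)
    rwa [hinc0] at this
  filter_upwards [eventually_all.2 hall] with s hs
  funext μ
  exact sub_eq_zero.1 (hs μ)

/-- Step 2. -/
theorem step2_T4 (hH : IsLocalAutomorphism M p H) :
    ∀ᶠ s : SI n d → ℂ in 𝓝 0, c.q false (Sum.elim (fun j => hb_T4 c H false (ub_T4 c false s) (Sum.inl j))
      (hb_T4 c H true (s ∘ Sum.inr))) = fun μ => hb_T4 c H false (ub_T4 c false s) (Sum.inr μ) := by
  have hfl : Tendsto (flipE (c.q false)) (𝓝 0) (𝓝 (0 : SI n d → ℂ)) := by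
    rw [tendsto_pi_nhds]
    intro i
    rcases i with j | j | μ
    · exact (continuous_apply (Sum.inr (Sum.inl j) : SI n d)).tendsto 0
    · exact (continuous_apply (Sum.inl j : SI n d)).tendsto 0
    · have h := (c.analytic false).continuousAt.tendsto
      rw [c.zero] at h
      exact ((continuous_apply μ).tendsto 0).comp h
  filter_upwards [hfl.eventually (step1_T4 c hH), c.invol false] with s h1 h2
  have e1 : (flipE (c.q false) s) ∘ Sum.inr = ub_T4 c false s := rfl
  have e2 : ub_T4 c true (flipE (c.q false) s) = s ∘ Sum.inr := by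
    unfold ub_T4
    have h2' : c.q true (flipE (c.q false) s) = fun μ => s (Sum.inr (Sum.inr μ)) := h2
    rw [h2']
    funext i
    rcases i with j | i <;> rfl
  rw [e1, e2] at h1
  exact h1

/-- Step 3. -/
theorem step3_T4 (hH : IsLocalAutomorphism M p H) (b : Bool) :
    ∀ᶠ s : SI n d → ℂ in 𝓝 0, c.q b (Sum.elim (fun j => hb_T4 c H b (ub_T4 c b s) (Sum.inl j))
      (hb_T4 c H (!b) (s ∘ Sum.inr))) = fun μ => hb_T4 c H b (ub_T4 c b s) (Sum.inr μ) := by
  cases b
  · exact step2_T4 c hH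
  · have hcj : Tendsto (cj : (SI n d → ℂ) → (SI n d → ℂ)) (𝓝 0) (𝓝 0) := by
      have := (continuous_cj_T4 (σ := SI n d)).tendsto 0
      rwa [cj_zero_T4] at this
    filter_upwards [hcj.eventually (step2_T4 c hH)] with s hs
    have e1 : ub_T4 c false (cj s) = cj (ub_T4 c true s) := by
      unfold ub_T4
      have : c.q false (cj s) = cj (c.q true s) := c.conj_q true s
      rw [this]
      funext i
      rcases i with j | i <;> rfl
    have e2 : hb_T4 c H false (cj (ub_T4 c true s)) = cj (hb_T4 c H true (ub_T4 c true s)) :=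
      hb_conj_T4 c true _
    have e3 : (cj s) ∘ Sum.inr = cj (s ∘ Sum.inr) := rfl
    have e4 : hb_T4 c H true (cj (s ∘ Sum.inr)) = cj (hb_T4 c H false (s ∘ Sum.inr)) :=
      hb_conj_T4 c false _
    rw [e1, e2, e3, e4] at hs
    have e5 : (Sum.elim (fun j => cj (hb_T4 c H true (ub_T4 c true s)) (Sum.inl j))
        (cj (hb_T4 c H false (s ∘ Sum.inr))) : SI n d → ℂ) =
        cj (Sum.elim (fun j => hb_T4 c H true (ub_T4 c true s) (Sum.inl j))
          (hb_T4 c H false (s ∘ Sum.inr))) := by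
      funext i
      rcases i with j | i <;> rfl
    have e6 := c.conj_q true (Sum.elim (fun j => hb_T4 c H true (ub_T4 c true s) (Sum.inl j))
          (hb_T4 c H false (s ∘ Sum.inr)))
    change c.q false _ = _ at e6
    rw [e5, e6] at hs
    have := congrArg cj hs
    rw [cj_cj_T4] at this
    change c.q true (Sum.elim (fun j => hb_T4 c H true (ub_T4 c true s) (Sum.inl j))
          (hb_T4 c H false (s ∘ Sum.inr))) = _
    rw [this]
    funext μ
    simp [cj]

end pres

theorem chart_pres {N n d : ℕ} {M : Set (Fin N → ℂ)} {p : Fin N → ℂ} (c : Chart n d M p)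
    {Q : Bool → Fin d → MvPowerSeries (SI n d) ℂ}
    (hQ : ∀ b μ, IsTaylor (fun s => c.q b s μ) (Q b μ)) {H : (Fin N → ℂ) → (Fin N → ℂ)}
    (hH : IsLocalAutomorphism M p H) :
    ∃ A : Bool → ZI n d → MvPowerSeries (ZI n d) ℂ,
      (∀ i, IsTaylor (fun y => c.A.symm (H (p + c.A y) - p) i) (A false i)) ∧
      (∀ i, A true i = MvPowerSeries.map (starRingEnd ℂ) (A false i)) ∧
      (∀ b i, MvPowerSeries.constantCoeff (A b i) = 0) ∧
      (∀ b, IsUnit (Matrix.of fun i j =>
        MvPowerSeries.constantCoeff (MvPowerSeries.pderiv ℂ j (A b i))).det) ∧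
      Pres Q A := by
  obtain ⟨hHa, hHp, hHb, hHM⟩ := id hH
  choose F hF using fun i => exists_isTaylor (hb_analytic_T4 c hHa false i)
  let A : Bool → ZI n d → MvPowerSeries (ZI n d) ℂ := fun b i =>
    match b with
    | false => F i
    | true => MvPowerSeries.map (starRingEnd ℂ) (F i)
  have hA : ∀ b i, IsTaylor (fun y => hb_T4 c H b y i) (A b i) := by
    intro b i
    cases b
    · exact hF i
    · exact (hF i).conj
  have hA0 : ∀ b i, MvPowerSeries.constantCoeff (A b i) = 0 := by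
    intro b i
    rw [(hA b i).constantCoeff, hb_zero_T4 c hHp]
    rfl
  have hJ : (Matrix.of fun i j => MvPowerSeries.constantCoeff
      (MvPowerSeries.pderiv ℂ j (A false i))) = Matrix.of fun i j =>
        ((c.A.symm : (Fin N → ℂ) →L[ℂ] (ZI n d → ℂ)).comp
          ((fderiv ℂ H p).comp (c.A : (ZI n d → ℂ) →L[ℂ] (Fin N → ℂ)))) (Pi.single j 1) i := by
    ext i j
    simp only [Matrix.of_apply]
    rw [((hF i).pderiv (hb_analytic_T4 c hHa false i) j).constantCoeff]
    have h1 : HasFDerivAt (fun y => hb_T4 c H false y i)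
        ((ContinuousLinearMap.proj (R := ℂ) (φ := fun _ : ZI n d => ℂ) i).comp
          ((c.A.symm : (Fin N → ℂ) →L[ℂ] (ZI n d → ℂ)).comp
          ((fderiv ℂ H p).comp (c.A : (ZI n d → ℂ) →L[ℂ] (Fin N → ℂ))))) 0 :=
      (ContinuousLinearMap.proj (R := ℂ) (φ := fun _ : ZI n d => ℂ) i).hasFDerivAt.comp 0
        (hh_fderiv_T4 c hHa)
    rw [h1.fderiv]
    rfl
  have hJu : IsUnit (Matrix.of fun i j => MvPowerSeries.constantCoeff
      (MvPowerSeries.pderiv ℂ j (A false i))).det := by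
    rw [hJ]
    apply isUnit_of_bijective_T4
    exact c.A.symm.bijective.comp (hHb.comp c.A.bijective)
  have hU : ∀ b i, IsTaylor (fun s => ub_T4 c b s i) (uv Q b i) := by
    intro b i
    rcases i with j | μ
    · exact isTaylor_coord (Sum.inl j : SI n d)
    · exact hQ b μ
  have hU0 : ∀ b i, MvPowerSeries.constantCoeff (uv Q b i) = 0 := by
    intro b i
    rw [(hU b i).constantCoeff, ub_zero_T4]
    rfl
  have hP : ∀ i : ZI n d, IsTaylor (fun s : SI n d → ℂ => (s ∘ Sum.inr) i) (pv i) := by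
    intro i
    exact isTaylor_coord (Sum.inr i : SI n d)
  have hP0 : ∀ i : ZI n d, MvPowerSeries.constantCoeff (pv i : MvPowerSeries (SI n d) ℂ) = 0 := by
    intro i
    rw [(hP i).constantCoeff]
    rfl
  have hL : ∀ b i, IsTaylor (fun s => hb_T4 c H b (ub_T4 c b s) i)
      (MvPowerSeries.subst (uv Q b) (A b i)) := fun b i => (hA b i).comp (hU b) (hU0 b)
  have hR : ∀ b i, IsTaylor (fun s : SI n d → ℂ => hb_T4 c H b (s ∘ Sum.inr) i)
      (MvPowerSeries.subst pv (A b i)) := fun b i => (hA b i).comp hP hP0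
  have hE : ∀ b i, IsTaylor (fun s => (Sum.elim (fun j => hb_T4 c H b (ub_T4 c b s) (Sum.inl j))
      (hb_T4 c H (!b) (s ∘ Sum.inr)) : SI n d → ℂ) i) (eta Q A b i) := by
    intro b i
    rcases i with j | i
    · exact hL b (Sum.inl j)
    · exact hR (!b) i
  have hE0 : ∀ b i, MvPowerSeries.constantCoeff (eta Q A b i) = 0 := by
    intro b i
    rw [(hE b i).constantCoeff, ub_zero_T4, hb_zero_T4 c hHp]
    have : ((0 : SI n d → ℂ) ∘ Sum.inr : ZI n d → ℂ) = 0 := rfl
    rw [this, hb_zero_T4 c hHp]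
    rcases i with j | i <;> rfl
  refine ⟨A, hF, fun i => rfl, hA0, ?_, ?_⟩
  · intro b
    cases b
    · exact hJu
    · have e : (Matrix.of fun i j => MvPowerSeries.constantCoeff
          (MvPowerSeries.pderiv ℂ j (A true i))) = (starRingEnd ℂ).mapMatrix
          (Matrix.of fun i j => MvPowerSeries.constantCoeff
          (MvPowerSeries.pderiv ℂ j (A false i))) := by
        ext i j
        simp only [RingHom.mapMatrix_apply, Matrix.map_apply, Matrix.of_apply]
        rw [← MvPowerSeries.coeff_zero_eq_constantCoeff_apply,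
          ← MvPowerSeries.coeff_zero_eq_constantCoeff_apply, MvPowerSeries.coeff_pderiv,
          MvPowerSeries.coeff_pderiv]
        change MvPowerSeries.coeff _ (MvPowerSeries.map (starRingEnd ℂ) (F i)) * _ = _
        rw [MvPowerSeries.coeff_map]
        simp
        rfl
      rw [e, ← RingHom.map_det]
      exact hJu.map (starRingEnd ℂ)
  · intro b μ
    refine IsTaylor.unique (hL b (Sum.inr μ)) ?_
    have h1 : IsTaylor (fun s => c.q b (Sum.elim (fun j => hb_T4 c H b (ub_T4 c b s) (Sum.inl j))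
      (hb_T4 c H (!b) (s ∘ Sum.inr))) μ) (MvPowerSeries.subst (eta Q A b) (Q b μ)) :=
      (hQ b μ).comp (hE b) (hE0 b)
    refine h1.congr ?_
    filter_upwards [step3_T4 c hH b] with s hs
    rw [hs]

end Pool.Agent.Results.MP_51bf1a_an.JetDet
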