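import Pool.Agent.Helper706.JD.T2c
import Pool.Agent.Helper706.JD.T1c
import Pool.Agent.Helper706.JD.G7

set_option autoImplicit false

open scoped Topology ContDiff ComplexConjugate
open Set Filter Complex

namespace Pool.Agent.Results.MP_51bf1a_an.JetDet






/-! ### auxiliary linear maps -/

noncomputable def hyKL_T7 (n d : ℕ) : ((SI n d → ℂ) × (Fin d → ℂ)) →L[ℂ] (SI n d → ℂ) :=
  LinearMap.toContinuousLinearMap
    { toFun := fun p => Sum.elim (fun j => p.1 (Sum.inr (Sum.inl j)))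
        (Sum.elim (fun j => p.1 (Sum.inl j)) p.2)
      map_add' := by
        intro a b; ext i; rcases i with i | i | i <;> simp
      map_smul' := by
        intro a b; ext i; rcases i with i | i | i <;> simp }

noncomputable def hyK2_T7 (n d : ℕ) : (Fin d → ℂ) →L[ℂ] (SI n d → ℂ) :=
  LinearMap.toContinuousLinearMap
    { toFun := fun w => Sum.elim 0 (Sum.elim 0 w)
      map_add' := by
        intro a b; ext i; rcases i with i | i | i <;> simp
      map_smul' := by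
        intro a b; ext i; rcases i with i | i | i <;> simp }

noncomputable def hyK3_T7 (n d : ℕ) : (Fin n → ℂ) →L[ℂ] (SI n d → ℂ) :=
  LinearMap.toContinuousLinearMap
    { toFun := fun w => Sum.elim w 0
      map_add' := by
        intro a b; ext i; rcases i with i | i | i <;> simp
      map_smul' := by
        intro a b; ext i; rcases i with i | i | i <;> simp }

noncomputable def hyK4_T7 (n d : ℕ) : (ZI n d → ℂ) →L[ℂ] (SI n d → ℂ) :=
  LinearMap.toContinuousLinearMap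
    { toFun := fun w => Sum.elim 0 w
      map_add' := by
        intro a b; ext i; rcases i with i | i <;> simp
      map_smul' := by
        intro a b; ext i; rcases i with i | i <;> simp }

noncomputable def hyK5_T7 (n d : ℕ) : (Fin d → ℂ) →L[ℂ] (ZI n d → ℂ) :=
  LinearMap.toContinuousLinearMap
    { toFun := fun w => Sum.elim 0 w
      map_add' := by
        intro a b; ext i; rcases i with i | i <;> simp
      map_smul' := by
        intro a b; ext i; rcases i with i | i <;> simp }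

noncomputable def hyPW_T7 (n d : ℕ) : (SI n d → ℂ) →L[ℂ] (Fin d → ℂ) :=
  LinearMap.toContinuousLinearMap
    { toFun := fun s => fun μ => s (Sum.inr (Sum.inr μ))
      map_add' := by
        intro a b; ext i; simp
      map_smul' := by
        intro a b; ext i; simp }

theorem hyKL_apply_T7 {n d : ℕ} (p : (SI n d → ℂ) × (Fin d → ℂ)) :
    hyKL_T7 n d p = Sum.elim (fun j => p.1 (Sum.inr (Sum.inl j)))
        (Sum.elim (fun j => p.1 (Sum.inl j)) p.2) := rfl

theorem hyK2_apply_T7 {n d : ℕ} (w : Fin d → ℂ) : hyK2_T7 n d w = Sum.elim (0 : Fin n → ℂ) (Sum.elim (0 : Fin n → ℂ) w) := rfl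

theorem hyK3_apply_T7 {n d : ℕ} (w : Fin n → ℂ) : hyK3_T7 n d w = Sum.elim w (0 : ZI n d → ℂ) := rfl

theorem hyK4_apply_T7 {n d : ℕ} (w : ZI n d → ℂ) : hyK4_T7 n d w = Sum.elim (0 : Fin n → ℂ) w := rfl

theorem hyK5_apply_T7 {n d : ℕ} (w : Fin d → ℂ) : hyK5_T7 n d w = Sum.elim (0 : Fin n → ℂ) w := rfl

theorem hyPW_apply_T7 {n d : ℕ} (s : SI n d → ℂ) : hyPW_T7 n d s = fun μ => s (Sum.inr (Sum.inr μ)) := rfl

theorem hy_flipE_T7 {n d : ℕ} (f : (SI n d → ℂ) → (Fin d → ℂ)) (s : SI n d → ℂ) :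
    flipE f s = hyKL_T7 n d (s, f s) := rfl

theorem hy_fderiv_flipE_T7 {n d : ℕ} {f : (SI n d → ℂ) → (Fin d → ℂ)} {s : SI n d → ℂ}
    (hf : DifferentiableAt ℂ f s) :
    HasFDerivAt (flipE f) ((hyKL_T7 n d).comp
      ((ContinuousLinearMap.id ℂ (SI n d → ℂ)).prod (fderiv ℂ f s))) s := by
  have h1 : HasFDerivAt (fun s => (s, f s))
      ((ContinuousLinearMap.id ℂ (SI n d → ℂ)).prod (fderiv ℂ f s)) s :=
    (hasFDerivAt_id s).prodMk hf.hasFDerivAt
  exact (hyKL_T7 n d).hasFDerivAt.comp s h1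

theorem hy_analytic_flipE_T7 {n d : ℕ} {f : (SI n d → ℂ) → (Fin d → ℂ)} {s : SI n d → ℂ}
    (hf : AnalyticAt ℂ f s) : AnalyticAt ℂ (flipE f) s :=
  ((hyKL_T7 n d).analyticAt _).comp (AnalyticAt.prod analyticAt_id hf)

section hyp

variable {N n : ℕ} {M : Set (Fin N → ℂ)} {p : Fin N → ℂ} (c : Chart n 1 M p)

/-- the vector valued function `G_k` -/
noncomputable def hyG_T7 (k : Fin n) (s : SI n 1 → ℂ) : Fin 1 → ℂ :=
  fderiv ℂ (c.q false) (flipE (c.q true) s) (Pi.single (Sum.inl k) 1)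

theorem hy_flip_zero_T7 : flipE (c.q true) (0 : SI n 1 → ℂ) = 0 := by
  unfold flipE
  rw [c.zero true]
  ext i
  rcases i with i | i | i <;> simp

theorem hy_flip_zero'_T7 : flipE (c.q false) (0 : SI n 1 → ℂ) = 0 := by
  unfold flipE
  rw [c.zero false]
  ext i
  rcases i with i | i | i <;> simp

theorem hyG_analytic_T7 (k : Fin n) : AnalyticAt ℂ (hyG_T7 c k) 0 := by
  have h1 : AnalyticAt ℂ (flipE (c.q true)) (0 : SI n 1 → ℂ) := hy_analytic_flipE_T7 (c.analytic true)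
  have h2 : AnalyticAt ℂ (fderiv ℂ (c.q false)) (flipE (c.q true) (0 : SI n 1 → ℂ)) := by
    rw [hy_flip_zero_T7]
    exact (c.analytic false).fderiv
  have h3 := h2.comp h1
  exact ((ContinuousLinearMap.apply ℂ (Fin 1 → ℂ)
    (Pi.single (Sum.inl k) 1 : SI n 1 → ℂ)).analyticAt _).comp h3

/-- the derivative of `G_k` in the direction of `x_j` -/
noncomputable def hyD_T7 (j k : Fin n) (s : SI n 1 → ℂ) : Fin 1 → ℂ :=
  fderiv ℂ (hyG_T7 c k) s (Pi.single (Sum.inl j) 1)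

theorem hyD_analytic_T7 (j k : Fin n) : AnalyticAt ℂ (hyD_T7 c j k) 0 :=
  ((ContinuousLinearMap.apply ℂ (Fin 1 → ℂ)
    (Pi.single (Sum.inl j) 1 : SI n 1 → ℂ)).analyticAt _).comp (hyG_analytic_T7 c k).fderiv

theorem hy_bracket_T7 (j k : Fin n) : ∀ᶠ s in 𝓝 (0 : SI n 1 → ℂ),
    fderiv ℂ (fun s => (Sum.elim 0 (Sum.elim (Pi.single k 1)
      (fderiv ℂ (c.q false) (flipE (c.q true) s) (Pi.single (Sum.inl k) 1))) : SI n 1 → ℂ)) s
        (Sum.elim (Pi.single j 1) 0) -
      fderiv ℂ (fun _ : SI n 1 → ℂ => (Sum.elim (Pi.single j 1) 0 : SI n 1 → ℂ)) s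
        (Sum.elim 0 (Sum.elim (Pi.single k 1)
          (fderiv ℂ (c.q false) (flipE (c.q true) s) (Pi.single (Sum.inl k) 1)))) =
    Sum.elim (0 : Fin n → ℂ) (Sum.elim (0 : Fin n → ℂ) (hyD_T7 c j k s)) := by
  filter_upwards [(hyG_analytic_T7 c k).eventually_analyticAt] with s hs
  have h1 : (fun s => (Sum.elim 0 (Sum.elim (Pi.single k 1)
      (fderiv ℂ (c.q false) (flipE (c.q true) s) (Pi.single (Sum.inl k) 1))) : SI n 1 → ℂ)) =
      fun s => (Sum.elim (0 : Fin n → ℂ) (Sum.elim (Pi.single k 1) (0 : Fin 1 → ℂ)) : SI n 1 → ℂ) + hyK2_T7 n 1 (hyG_T7 c k s) := by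
    funext s
    rw [hyK2_apply_T7]
    ext i
    rcases i with i | i | i
    · simp
    · show (Pi.single k 1 : Fin n → ℂ) i = (Pi.single k 1 : Fin n → ℂ) i + (0 : ℂ)
      rw [add_zero]
    · simp [hyG_T7]
  rw [h1]
  have h2 : HasFDerivAt (fun s => (Sum.elim (0 : Fin n → ℂ) (Sum.elim (Pi.single k 1) (0 : Fin 1 → ℂ)) : SI n 1 → ℂ) +
      hyK2_T7 n 1 (hyG_T7 c k s)) ((hyK2_T7 n 1).comp (fderiv ℂ (hyG_T7 c k) s)) s :=
    ((hyK2_T7 n 1).hasFDerivAt.comp s hs.differentiableAt.hasFDerivAt).const_add _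
  rw [h2.fderiv, fderiv_fun_const]
  simp only [Pi.zero_apply, zero_apply, sub_zero,
    ContinuousLinearMap.comp_apply]
  have h3 : (Sum.elim (Pi.single j 1) 0 : SI n 1 → ℂ) = Pi.single (Sum.inl j) 1 := by
    ext i
    rcases i with i | i
    · by_cases h : i = j
      · subst h; simp
      · simp [Pi.single_apply, h]
    · simp
  rw [h3, hyK2_apply_T7]
  rfl

/-- the frame -/
noncomputable def hyY_T7 (j k : Fin n) : SI n 1 → (SI n 1 → ℂ) → (SI n 1 → ℂ)
  | Sum.inl j' => fun _ => Sum.elim (Pi.single j' 1) 0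
  | Sum.inr (Sum.inl k') => fun s => Sum.elim 0 (Sum.elim (Pi.single k' 1)
      (fderiv ℂ (c.q false) (flipE (c.q true) s) (Pi.single (Sum.inl k') 1)))
  | Sum.inr (Sum.inr _) => fun s =>
      fderiv ℂ (fun s => (Sum.elim 0 (Sum.elim (Pi.single k 1)
      (fderiv ℂ (c.q false) (flipE (c.q true) s) (Pi.single (Sum.inl k) 1))) : SI n 1 → ℂ)) s
        (Sum.elim (Pi.single j 1) 0) -
      fderiv ℂ (fun _ : SI n 1 → ℂ => (Sum.elim (Pi.single j 1) 0 : SI n 1 → ℂ)) s
        (Sum.elim 0 (Sum.elim (Pi.single k 1)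
          (fderiv ℂ (c.q false) (flipE (c.q true) s) (Pi.single (Sum.inl k) 1))))

theorem hyY_iter_T7 (j k : Fin n) : ∀ i, AIter c (hyY_T7 c j k i) := by
  intro i
  rcases i with i | i | i
  · exact AIter.L i
  · exact AIter.L' i
  · exact AIter.bracket _ _ (AIter.L j) (AIter.L' k)

theorem hyY_det_T7 (j k : Fin n) : ∀ᶠ s in 𝓝 (0 : SI n 1 → ℂ), hyD_T7 c j k s 0 ≠ 0 →
    (Matrix.of fun i i' => hyY_T7 c j k i s i').det ≠ 0 := by
  filter_upwards [hy_bracket_T7 c j k] with s hs hD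
  intro hdet
  obtain ⟨v, hv0, hv⟩ := Matrix.exists_vecMul_eq_zero_iff.2 hdet
  apply hv0
  have hcol : ∀ i', ∑ i, v i * hyY_T7 c j k i s i' = 0 := by
    intro i'
    have := congrFun hv i'
    simpa [Matrix.vecMul, dotProduct] using this
  have hlast : ∀ i' : SI n 1, ∀ μ : Fin 1, hyY_T7 c j k (Sum.inr (Sum.inr μ)) s i' =
      (Sum.elim (0 : Fin n → ℂ) (Sum.elim (0 : Fin n → ℂ) (hyD_T7 c j k s)) : SI n 1 → ℂ) i' := by
    intro i' μ
    rw [← hs]
    rfl
  have h1 : ∀ j', v (Sum.inl j') = 0 := by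
    intro j'
    have h := hcol (Sum.inl j')
    rw [Fintype.sum_sum_type, Fintype.sum_sum_type] at h
    simp only [hlast] at h
    simpa [hyY_T7, Pi.single_apply] using h
  have h2 : ∀ k', v (Sum.inr (Sum.inl k')) = 0 := by
    intro k'
    have h := hcol (Sum.inr (Sum.inl k'))
    rw [Fintype.sum_sum_type, Fintype.sum_sum_type] at h
    simp only [hlast] at h
    simpa [hyY_T7, Pi.single_apply] using h
  have h3 : v (Sum.inr (Sum.inr 0)) = 0 := by
    have h := hcol (Sum.inr (Sum.inr 0))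
    rw [Fintype.sum_sum_type, Fintype.sum_sum_type] at h
    simp only [hlast, h1, h2] at h
    have h' : v (Sum.inr (Sum.inr 0)) * hyD_T7 c j k s 0 = 0 := by
      simpa using h
    rcases mul_eq_zero.1 h' with h4 | h4
    · exact h4
    · exact absurd h4 hD
  ext i
  rcases i with i | i | i
  · exact h1 i
  · exact h2 i
  · have : i = 0 := Subsingleton.elim _ _
    rw [this]; exact h3

theorem hy_inc_zero_T7 {n d : ℕ} : inc (0 : ZI n d → ℂ) = 0 := by
  unfold inc
  ext i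
  rcases i with i | i <;> simp

theorem hy_inc_cont_T7 {n d : ℕ} : Continuous (inc : (ZI n d → ℂ) → (SI n d → ℂ)) := by
  unfold inc
  refine continuous_pi (fun i => ?_)
  rcases i with i | i
  · exact Complex.continuous_conj.comp (continuous_apply _)
  · exact continuous_apply _

theorem hy_caseA_T7 (hp : p ∈ M) (j k : Fin n)
    (h : ¬ ∀ᶠ s in 𝓝 (0 : SI n 1 → ℂ), hyD_T7 c j k s 0 = 0) : ∃ q ∈ M, FiniteTypeAt 1 M q := by
  have hid := c.identity.self_of_nhds
  rw [map_zero, add_zero, hy_inc_zero_T7] at hid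
  have hF : AnalyticAt ℂ (fun s => hyD_T7 c j k s 0) 0 := by
    exact ((ContinuousLinearMap.proj (R := ℂ) (φ := fun _ : Fin 1 => ℂ) 0).analyticAt _).comp
      (hyD_analytic_T7 c j k)
  have h2 : ¬ ∀ᶠ y in 𝓝 (0 : ZI n 1 → ℂ), p + c.A y ∈ M → hyD_T7 c j k (inc y) 0 = 0 :=
    fun h3 => h (hid hp _ hF h3)
  rw [Filter.not_eventually] at h2
  have hinc : Tendsto (inc : (ZI n 1 → ℂ) → (SI n 1 → ℂ)) (𝓝 0) (𝓝 0) := by
    have := (hy_inc_cont_T7 (n := n) (d := 1)).tendsto 0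
    rwa [hy_inc_zero_T7] at this
  have h4 := (hinc.eventually (hyY_det_T7 c j k)).and (ft_of_det c)
  obtain ⟨y, hy1, hy2, hy3⟩ := (h2.and_eventually h4).exists
  push Not at hy1
  refine ⟨p + c.A y, hy1.1, hy3 hy1.1 (hyY_T7 c j k) (hyY_iter_T7 c j k) (hy2 hy1.2)⟩

theorem hy_const_T7 {k : Fin n}
    (h : ∀ j, ∀ᶠ s in 𝓝 (0 : SI n 1 → ℂ), hyD_T7 c j k s 0 = 0) :
    ∀ᶠ s in 𝓝 (0 : SI n 1 → ℂ), hyG_T7 c k s = hyG_T7 c k (Sum.elim (0 : Fin n → ℂ) (fun i => s (Sum.inr i))) := by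
  have hall : ∀ᶠ s in 𝓝 (0 : SI n 1 → ℂ), (∀ j, hyD_T7 c j k s 0 = 0) ∧
      AnalyticAt ℂ (hyG_T7 c k) s :=
    (Filter.eventually_all.2 h).and (hyG_analytic_T7 c k).eventually_analyticAt
  obtain ⟨r, hr, hball⟩ := Metric.eventually_nhds_iff_ball.1 hall
  filter_upwards [Metric.ball_mem_nhds (0 : SI n 1 → ℂ) hr] with s hs
  rw [mem_ball_zero_iff, pi_norm_lt_iff hr] at hs
  set Z : ZI n 1 → ℂ := fun i => s (Sum.inr i) with hZ
  have hmem : ∀ χ ∈ Metric.ball (0 : Fin n → ℂ) r,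
      (Sum.elim χ Z : SI n 1 → ℂ) ∈ Metric.ball (0 : SI n 1 → ℂ) r := by
    intro χ hχ
    rw [mem_ball_zero_iff, pi_norm_lt_iff hr] at hχ ⊢
    intro i
    rcases i with i | i
    · exact hχ i
    · exact hs (Sum.inr i)
  have hsplit : ∀ χ : Fin n → ℂ, (Sum.elim χ Z : SI n 1 → ℂ) = hyK3_T7 n 1 χ + Sum.elim (0 : Fin n → ℂ) Z := by
    intro χ
    rw [hyK3_apply_T7]
    ext i
    rcases i with i | i <;> simp
  have hder : ∀ χ ∈ Metric.ball (0 : Fin n → ℂ) r,
      HasFDerivAt (fun χ : Fin n → ℂ => hyG_T7 c k (Sum.elim χ Z)) (0 : (Fin n → ℂ) →L[ℂ] (Fin 1 → ℂ))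
        χ := by
    intro χ hχ
    obtain ⟨hD, hA⟩ := hball _ (hmem χ hχ)
    have h1 : HasFDerivAt (fun χ : Fin n → ℂ => (Sum.elim χ Z : SI n 1 → ℂ)) (hyK3_T7 n 1) χ := by
      have : (fun χ : Fin n → ℂ => (Sum.elim χ Z : SI n 1 → ℂ)) =
          fun χ => hyK3_T7 n 1 χ + Sum.elim (0 : Fin n → ℂ) Z := funext hsplit
      rw [this]
      exact (hyK3_T7 n 1).hasFDerivAt.add_const _
    have h2 := hA.differentiableAt.hasFDerivAt.comp χ h1
    have h3 : (fderiv ℂ (hyG_T7 c k) (Sum.elim χ Z)).comp (hyK3_T7 n 1) = 0 := by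
      apply ContinuousLinearMap.coe_injective
      refine LinearMap.pi_ext' (fun j => ?_)
      refine LinearMap.ext_ring ?_
      simp only [LinearMap.comp_apply, LinearMap.single_apply, ContinuousLinearMap.coe_coe,
        ContinuousLinearMap.comp_apply]
      have h4 : hyK3_T7 n 1 (Pi.single j 1) = Pi.single (Sum.inl j) 1 := by
        rw [hyK3_apply_T7]
        ext i
        rcases i with i | i
        · by_cases h : i = j
          · subst h; simp
          · simp [Pi.single_apply, h]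
        · simp
      rw [h4]
      ext μ
      have : μ = 0 := Subsingleton.elim _ _
      rw [this]
      exact hD j
    rw [h3] at h2
    exact h2
  have hconst := Metric.isOpen_ball.is_const_of_fderiv_eq_zero (𝕜 := ℂ)
    (convex_ball (0 : Fin n → ℂ) r).isPreconnected
    (f := fun χ : Fin n → ℂ => hyG_T7 c k (Sum.elim χ Z))
    (fun χ hχ => (hder χ hχ).differentiableAt.differentiableWithinAt)
    (fun χ hχ => (hder χ hχ).fderiv)
    (x := fun j => s (Sum.inl j)) (y := 0)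
    (by
      rw [mem_ball_zero_iff, pi_norm_lt_iff hr]
      exact fun i => hs (Sum.inl i))
    (by simpa using hr)
  have hs' : s = Sum.elim (fun j => s (Sum.inl j)) Z := by
    ext i
    rcases i with i | i <;> rfl
  conv_lhs => rw [hs']
  exact hconst

theorem hy_tangent_T7 (k : Fin n) : ∀ᶠ s in 𝓝 (0 : SI n 1 → ℂ),
    fderiv ℂ (c.q true) s (Sum.elim (0 : Fin n → ℂ) (Sum.elim (Pi.single k 1) (hyG_T7 c k s))) = 0 := by
  have hP : Tendsto (flipE (c.q true)) (𝓝 (0 : SI n 1 → ℂ)) (𝓝 0) := by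
    have := (hy_analytic_flipE_T7 (c.analytic true)).continuousAt.tendsto
    rwa [hy_flip_zero_T7 c] at this
  have hinvt : ∀ᶠ s in 𝓝 (0 : SI n 1 → ℂ), c.q false (flipE (c.q true) s) =
      fun μ => s (Sum.inr (Sum.inr μ)) := c.invol true
  have hinvf : ∀ᶠ s in 𝓝 (0 : SI n 1 → ℂ), c.q true (flipE (c.q false) s) =
      fun μ => s (Sum.inr (Sum.inr μ)) := c.invol false
  filter_upwards [hinvt, hP.eventually hinvf.eventually_nhds,
    hP.eventually (c.analytic false).eventually_analyticAt,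
    (c.analytic true).eventually_analyticAt] with s h1 h2 h3 h4
  set s' := flipE (c.q true) s with hs'
  have hback : flipE (c.q false) s' = s := by
    unfold flipE
    ext i
    rcases i with i | i | i
    · simp [hs', flipE]
    · simp [hs', flipE]
    · simp only [Sum.elim_inr]
      exact congrFun h1 i
  have h5 : HasFDerivAt (fun s'' => c.q true (flipE (c.q false) s''))
      ((fderiv ℂ (c.q true) s).comp ((hyKL_T7 n 1).comp
      ((ContinuousLinearMap.id ℂ (SI n 1 → ℂ)).prod (fderiv ℂ (c.q false) s')))) s' := by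
    have h6 : HasFDerivAt (c.q true) (fderiv ℂ (c.q true) s) (flipE (c.q false) s') := by
      rw [hback]
      exact h4.differentiableAt.hasFDerivAt
    exact h6.comp s' (hy_fderiv_flipE_T7 h3.differentiableAt)
  have h7 : HasFDerivAt (fun s'' => c.q true (flipE (c.q false) s'')) (hyPW_T7 n 1) s' := by
    refine (hyPW_T7 n 1).hasFDerivAt.congr_of_eventuallyEq ?_
    filter_upwards [h2] with x hx
    rw [hx]
    rfl
  have h8 := congrArg (fun L => L (Pi.single (Sum.inl k) 1 : SI n 1 → ℂ)) (h5.unique h7)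
  simp only [ContinuousLinearMap.comp_apply, ContinuousLinearMap.prod_apply,
    ContinuousLinearMap.id_apply, hyKL_apply_T7, hyPW_apply_T7] at h8
  have h9 : (fun μ : Fin 1 => (Pi.single (Sum.inl k) 1 : SI n 1 → ℂ) (Sum.inr (Sum.inr μ))) = 0 := by
    ext μ; simp
  rw [h9] at h8
  have h10 : (Sum.elim (fun j : Fin n => (Pi.single (Sum.inl k) 1 : SI n 1 → ℂ)
      (Sum.inr (Sum.inl j)))
      (Sum.elim (fun j : Fin n => (Pi.single (Sum.inl k) 1 : SI n 1 → ℂ) (Sum.inl j))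
        (fderiv ℂ (c.q false) s' (Pi.single (Sum.inl k) 1))) : SI n 1 → ℂ) =
      Sum.elim (0 : Fin n → ℂ) (Sum.elim (Pi.single k 1) (hyG_T7 c k s)) := by
    ext i
    rcases i with i | i | i
    · simp
    · by_cases h : i = k
      · subst h; simp
      · simp [Pi.single_apply, h]
    · simp [hyG_T7, hs']
  rw [h10] at h8
  exact h8

theorem hy_caseB_T7 (k : Fin n)
    (h : ∀ j, ∀ᶠ s in 𝓝 (0 : SI n 1 → ℂ), hyD_T7 c j k s 0 = 0) :
    ¬ HolomorphicallyNondegenerate 1 M := by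
  refine not_HN_of_field c (a := fun Z => Sum.elim (Pi.single k 1) (hyG_T7 c k (Sum.elim (0 : Fin n → ℂ) Z)))
    ?_ ?_ ?_
  · have h1 : (fun Z : ZI n 1 → ℂ => (Sum.elim (Pi.single k 1) (hyG_T7 c k (Sum.elim (0 : Fin n → ℂ) Z)) :
        ZI n 1 → ℂ)) = fun Z => (Sum.elim (Pi.single k 1) (0 : Fin 1 → ℂ) : ZI n 1 → ℂ) +
          hyK5_T7 n 1 (hyG_T7 c k (hyK4_T7 n 1 Z)) := by
      funext Z
      rw [hyK5_apply_T7, hyK4_apply_T7]
      ext i
      rcases i with i | i
      · show (Pi.single k 1 : Fin n → ℂ) i = (Pi.single k 1 : Fin n → ℂ) i + (0 : ℂ)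
        rw [add_zero]
      · simp
    rw [h1]
    refine analyticAt_const.add (((hyK5_T7 n 1).analyticAt _).comp ?_)
    have h2 : AnalyticAt ℂ (hyG_T7 c k) (hyK4_T7 n 1 0) := by
      rw [map_zero]; exact hyG_analytic_T7 c k
    exact h2.comp ((hyK4_T7 n 1).analyticAt _)
  · intro h0
    have := congrFun h0.self_of_nhds (Sum.inl k)
    simp at this
  · filter_upwards [hy_tangent_T7 c k, hy_const_T7 c h] with s h1 h2
    rw [h2] at h1
    exact h1

end hyp

/-! ### a holomorphically nondegenerate hypersurface is of finite type somewhere -/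

theorem ft_of_hypersurface {N : ℕ} {M : Set (Fin N → ℂ)} (hN : 2 ≤ N)
    (hM : IsGenericSubmanifold 1 M) (hne : M.Nonempty) (hHN : HolomorphicallyNondegenerate 1 M) :
    ∃ q ∈ M, FiniteTypeAt 1 M q := by
  obtain ⟨p, hp⟩ := hne
  obtain ⟨n, ⟨c⟩⟩ := exists_chart hM hp
  have hn : n + 1 = N := by
    have := c.A.toLinearEquiv.finrank_eq
    simpa using this
  by_cases h : ∃ j k, ¬ ∀ᶠ s in 𝓝 (0 : SI n 1 → ℂ), hyD_T7 c j k s 0 = 0
  · obtain ⟨j, k, hjk⟩ := h
    exact hy_caseA_T7 c hp j k hjk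
  · push Not at h
    exact absurd hHN (hy_caseB_T7 c ⟨0, by omega⟩ (fun j => h j _))

end Pool.Agent.Results.MP_51bf1a_an.JetDet
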