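import Pool.Agent.Helper706.JD.T0
import Pool.Agent.Helper706.JD.T1b
import Pool.Agent.Helper706.JD.T1c
import Pool.Agent.Helper706.JD.T2d
import Pool.Agent.Helper706.JD.T4
import Pool.Agent.Helper706.JD.T7
import Pool.Agent.Helper706.JD.K5c
import Pool.Agent.Helper706.JD.G7
import Pool.Agent.Helper706.JD.H

set_option autoImplicit false

open scoped Topology ContDiff ComplexConjugate
open Set Filter Complex

namespace Pool.Agent.Results.MP_51bf1a_an.JetDet

theorem order_map_conj {σ : Type*} (f : MvPowerSeries σ ℂ) (m : ℕ) (h : (m : ℕ∞) ≤ f.order) :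
    (m : ℕ∞) ≤ (MvPowerSeries.map (starRingEnd ℂ) f).order := by
  apply MvPowerSeries.nat_le_order
  intro e he
  rw [MvPowerSeries.coeff_map, MvPowerSeries.coeff_of_lt_order, map_zero]
  exact lt_of_lt_of_le (by exact_mod_cast he) h

theorem chart_determined {N n d : ℕ} {M : Set (Fin N → ℂ)} {p : Fin N → ℂ} (c : Chart n d M p)
    (hHN : HolomorphicallyNondegenerate d M)
    (hFT : ∃ᶠ x in 𝓝 p, x ∈ M ∧ FiniteTypeAt d M x) : ∃ k, DeterminedByJets M p k := by
  obtain ⟨Q, hQ⟩ := exists_chart_series c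
  have hCR := chart_formalCR c hQ
  have hc := chart_conj c hQ
  have hHNt : FHN Q true := by
    by_contra h
    obtain ⟨a, ha, ha0, hs⟩ := exists_field_of_not_FHN c hQ h
    exact not_HN_of_field c ha ha0 hs hHN
  have hHN' : ∀ b, FHN Q b := by
    intro b
    cases b
    · exact FHN_conj hc hHNt
    · exact hHNt
  have hBGt : FBG Q true := chart_FBG c hFT hQ
  have hBG : ∀ b, FBG Q b := by
    intro b
    cases b
    · exact FBG_conj hCR hc hBGt
    · exact hBGt
  obtain ⟨k, -, hk⟩ := formal_main hCR hHN' hBG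
  refine ⟨k, fun H₁ H₂ h₁ h₂ hj => ?_⟩
  obtain ⟨A, hA, hAt, hA0, hAJ, hAP⟩ := chart_pres c hQ h₁
  obtain ⟨B, hB, hBt, hB0, -, hBP⟩ := chart_pres c hQ h₂
  have hord : ∀ i, ((k + 1 : ℕ) : ℕ∞) ≤ (A false i - B false i).order := fun i =>
    IsTaylor.order_of_isBigO ((hA i).sub (hB i)) (isBigO_of_sameJet c h₁.1 h₂.1 hj i)
  have hord' : ∀ b i, ((k + 1 : ℕ) : ℕ∞) ≤ (A b i - B b i).order := by
    intro b i
    cases b
    · exact hord i
    · rw [hAt, hBt, ← map_sub]
      exact order_map_conj _ _ (hord i)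
  have hAB := hk A B hA0 hB0 hAJ hAP hBP hord'
  -- the two maps agree near `p`
  have key : ∀ i, ∀ᶠ y in 𝓝 (0 : ZI n d → ℂ),
      c.A.symm (H₁ (p + c.A y) - p) i - c.A.symm (H₂ (p + c.A y) - p) i = 0 := by
    intro i
    have hT : IsTaylor (fun y => c.A.symm (H₁ (p + c.A y) - p) i - c.A.symm (H₂ (p + c.A y) - p) i)
        0 := by
      have h := (hA i).sub (hB i)
      rwa [hAB, sub_self] at h
    refine IsTaylor.eventually_eq_zero ?_ hT
    have han : ∀ H : (Fin N → ℂ) → (Fin N → ℂ), AnalyticAt ℂ H p →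
        AnalyticAt ℂ (fun y : ZI n d → ℂ => c.A.symm (H (p + c.A y) - p) i) 0 := by
      intro H hH
      have hAan : AnalyticAt ℂ (fun y : ZI n d → ℂ => p + c.A y) 0 :=
        analyticAt_const.add ((c.A : (ZI n d → ℂ) →L[ℂ] (Fin N → ℂ)).analyticAt 0)
      have h1 : AnalyticAt ℂ (fun y : ZI n d → ℂ => H (p + c.A y) - p) 0 := by
        refine AnalyticAt.sub ?_ analyticAt_const
        exact AnalyticAt.comp_of_eq hH hAan (by simp)
      have h2 : AnalyticAt ℂ (fun y : ZI n d → ℂ => c.A.symm (H (p + c.A y) - p)) 0 :=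
        ((c.A.symm : (Fin N → ℂ) →L[ℂ] (ZI n d → ℂ)).analyticAt _).comp h1
      exact (analyticAt_pi_iff.mp h2) i
    exact (han H₁ h₁.1).sub (han H₂ h₂.1)
  have key' : ∀ᶠ y in 𝓝 (0 : ZI n d → ℂ), H₁ (p + c.A y) = H₂ (p + c.A y) := by
    filter_upwards [eventually_all.mpr key] with y hy
    have h3 : c.A.symm (H₁ (p + c.A y) - p) = c.A.symm (H₂ (p + c.A y) - p) := by
      funext i
      exact sub_eq_zero.mp (hy i)
    have h4 := c.A.symm.injective h3
    exact sub_left_injective h4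
  have hcont : Filter.Tendsto (fun x : Fin N → ℂ => c.A.symm (x - p)) (𝓝 p) (𝓝 0) := by
    have : Continuous (fun x : Fin N → ℂ => c.A.symm (x - p)) := by fun_prop
    have h := this.tendsto p
    simpa using h
  filter_upwards [hcont.eventually key'] with x hx
  simpa using hx

/-- Finite jet determination, positive part. -/
theorem determined {N d : ℕ} {M : Set (Fin N → ℂ)} (hM : IsGenericSubmanifold d M)
    (hconn : IsConnected M) (hHN : HolomorphicallyNondegenerate d M)
    (hFT : ∃ q ∈ M, FiniteTypeAt d M q) : ∀ p ∈ M, ∃ k, DeterminedByJets M p k := by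
  intro p hp
  have hch : ∀ p ∈ M, ∃ n, Nonempty (Chart n d M p) := fun p hp => exists_chart hM hp
  obtain ⟨n, ⟨c⟩⟩ := hch p hp
  exact chart_determined c hHN (ft_dense hconn hch hFT p hp)

end Pool.Agent.Results.MP_51bf1a_an.JetDet
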