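import Pool.Agent.Helper706.JD.ChartDefs

set_option autoImplicit false

open scoped Topology ContDiff ComplexConjugate
open Set Filter Complex

namespace Pool.Agent.Results.MP_51bf1a_an.JetDet

/-- the complex linear map whose real part is `D` -/
noncomputable def coordsLam {N d : ℕ} (D : (Fin N → ℂ) →L[ℝ] (Fin d → ℝ)) :
    (Fin N → ℂ) →ₗ[ℂ] (Fin d → ℂ) where
  toFun v := fun μ => (D v μ : ℂ) - I * (D (I • v) μ : ℂ)
  map_add' v w := by
    funext μ
    simp only [smul_add, map_add, Pi.add_apply, ofReal_add]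
    ring
  map_smul' c v := by
    have h1 : c • v = (c.re : ℝ) • v + (c.im : ℝ) • (I • v) := by
      funext a
      simp only [Pi.add_apply, Pi.smul_apply, smul_eq_mul, real_smul]
      conv_lhs => rw [← re_add_im c]
      ring
    have h2 : I • (c • v) = (c.re : ℝ) • (I • v) - (c.im : ℝ) • v := by
      funext a
      simp only [Pi.sub_apply, Pi.smul_apply, smul_eq_mul, real_smul]
      conv_lhs => rw [← re_add_im c]
      linear_combination ((c.im : ℂ) * v a) * I_mul_I
    funext μ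
    rw [h2, h1]
    simp only [map_add, map_sub, map_smul, Pi.add_apply, Pi.sub_apply, Pi.smul_apply, smul_eq_mul,
      ofReal_add, ofReal_sub, ofReal_mul, RingHom.id_apply]
    conv_rhs => rw [← re_add_im c]
    linear_combination ((c.im : ℂ) * (D (I • v) μ : ℂ)) * I_mul_I

theorem coordsLam_apply {N d : ℕ} (D : (Fin N → ℂ) →L[ℝ] (Fin d → ℝ)) (v : Fin N → ℂ) (μ : Fin d) :
    coordsLam D v μ = (D v μ : ℂ) - I * (D (I • v) μ : ℂ) := rfl

theorem coordsLam_re {N d : ℕ} (D : (Fin N → ℂ) →L[ℝ] (Fin d → ℝ)) (v : Fin N → ℂ) (μ : Fin d) :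
    (coordsLam D v μ).re = D v μ := by
  rw [coordsLam_apply]
  simp

theorem coordsLam_surj {N d : ℕ} (D : (Fin N → ℂ) →L[ℝ] (Fin d → ℝ))
    (hs : Function.Surjective D)
    (hg : ∀ v : Fin N → ℂ, ∃ a b : Fin N → ℂ, D a = 0 ∧ D b = 0 ∧ v = a + I • b) :
    Function.Surjective (coordsLam D) := by
  have hreal : ∀ c : Fin d → ℝ, ∃ w, coordsLam D w = fun μ => (c μ : ℂ) := by
    intro c
    obtain ⟨v, hv⟩ := hs c
    obtain ⟨a, b, ha, hb, hab⟩ := hg v
    refine ⟨I • b, ?_⟩
    funext μ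
    have e1 : D (I • b) = c := by
      rw [← hv, hab, map_add, ha, zero_add]
    have e2 : I • (I • b) = - b := by
      rw [smul_smul, I_mul_I, neg_one_smul]
    rw [coordsLam_apply, e1, e2, map_neg, hb]
    simp
  intro c
  obtain ⟨w1, h1⟩ := hreal (fun μ => (c μ).re)
  obtain ⟨w2, h2⟩ := hreal (fun μ => (c μ).im)
  refine ⟨w1 + I • w2, ?_⟩
  rw [map_add, map_smul, h1, h2]
  funext μ
  simp only [Pi.add_apply, Pi.smul_apply, smul_eq_mul]
  rw [mul_comm]
  exact re_add_im (c μ)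

/-! ### adapted linear coordinates -/

theorem exists_coords {N d : ℕ} {M : Set (Fin N → ℂ)} {p : Fin N → ℂ}
    {ρ : (Fin N → ℂ) → (Fin d → ℝ)} (h : IsDefiningAt d M ρ p) :
    ∃ n : ℕ, ∃ A : (ZI n d → ℂ) ≃L[ℂ] (Fin N → ℂ),
      ∀ y μ, fderiv ℝ ρ p (A y) μ = (y (Sum.inr μ)).re := by
  set D := fderiv ℝ ρ p with hD
  set lam := coordsLam D with hlam
  have hsurj : Function.Surjective lam := coordsLam_surj D h.2.2.1 h.2.2.2
  obtain ⟨s, hs⟩ := LinearMap.exists_rightInverse_of_surjective lam (LinearMap.range_eq_top.2 hsurj)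
  have hs' : ∀ x, lam (s x) = x := fun x => LinearMap.congr_fun hs x
  let e := (Module.finBasis ℂ (LinearMap.ker lam)).equivFun
  let A0 : (ZI (Module.finrank ℂ (LinearMap.ker lam)) d → ℂ) →ₗ[ℂ] (Fin N → ℂ) :=
    (LinearMap.ker lam).subtype ∘ₗ e.symm.toLinearMap ∘ₗ (LinearMap.funLeft ℂ ℂ Sum.inl) +
      s ∘ₗ (LinearMap.funLeft ℂ ℂ Sum.inr)
  have hA0 : ∀ y, A0 y = ((e.symm (fun i => y (Sum.inl i)) : LinearMap.ker lam) : Fin N → ℂ) +
      s (fun μ => y (Sum.inr μ)) := fun y => rfl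
  have hlamA : ∀ y, lam (A0 y) = fun μ => y (Sum.inr μ) := by
    intro y
    rw [hA0, map_add, hs', LinearMap.mem_ker.1 (e.symm (fun i => y (Sum.inl i))).2, zero_add]
  have hinj : Function.Injective A0 := by
    rw [injective_iff_map_eq_zero]
    intro y hy
    have h1 : (fun μ => y (Sum.inr μ)) = 0 := by
      rw [← hlamA y, hy, map_zero]
    have h2 : ((e.symm (fun i => y (Sum.inl i)) : LinearMap.ker lam) : Fin N → ℂ) = 0 := by
      have := hA0 y
      rw [hy, h1, map_zero, add_zero] at this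
      exact this.symm
    have h3 : (e.symm (fun i => y (Sum.inl i)) : LinearMap.ker lam) = 0 := Subtype.ext h2
    have h4 : (fun i => y (Sum.inl i)) = 0 := by
      have := congrArg e h3
      rw [LinearEquiv.apply_symm_apply, map_zero] at this
      exact this
    funext i
    rcases i with i | μ
    · exact congrFun h4 i
    · exact congrFun h1 μ
  have hsur : Function.Surjective A0 := by
    intro v
    have hk : v - s (lam v) ∈ LinearMap.ker lam := by
      rw [LinearMap.mem_ker, map_sub, hs', sub_self]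
    refine ⟨Sum.elim (e ⟨v - s (lam v), hk⟩) (lam v), ?_⟩
    rw [hA0]
    simp only [Sum.elim_inl, Sum.elim_inr]
    have : (fun i => e ⟨v - s (lam v), hk⟩ i) = e ⟨v - s (lam v), hk⟩ := rfl
    rw [this, LinearEquiv.symm_apply_apply]
    simp
  refine ⟨_, (LinearEquiv.ofBijective A0 ⟨hinj, hsur⟩).toContinuousLinearEquiv, ?_⟩
  intro y μ
  have : (LinearEquiv.ofBijective A0 ⟨hinj, hsur⟩).toContinuousLinearEquiv y = A0 y := rfl
  rw [this, ← coordsLam_re, ← hlam, hlamA]

end Pool.Agent.Results.MP_51bf1a_an.JetDet
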