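import Pool.Agent.Helper706.JD.ChartDefs
import Pool.Agent.Helper706.JD.B
import Pool.Agent.Helper706.JD.C

set_option autoImplicit false

open scoped Topology ContDiff ComplexConjugate
open Set Filter Complex

namespace Pool.Agent.Results.MP_51bf1a_an.JetDet





/-! ### conjugate functions are analytic; polarization of the defining function -/

section conjan

theorem cj_cj {σ : Type*} (y : σ → ℂ) : cj (cj y) = y := by
  funext i; simp [cj]

theorem cj_add {σ : Type*} (y z : σ → ℂ) : cj (y + z) = cj y + cj z := by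
  funext i; simp [cj]

theorem cj_smul {σ : Type*} (c : ℂ) (y : σ → ℂ) : cj (c • y) = conj c • cj y := by
  funext i; simp [cj]

theorem norm_cj {σ : Type*} [Fintype σ] (y : σ → ℂ) : ‖cj y‖ = ‖y‖ := by
  have h : ∀ z : σ → ℂ, ‖cj z‖ ≤ ‖z‖ := by
    intro z
    refine (pi_norm_le_iff_of_nonneg (norm_nonneg z)).2 fun i => ?_
    simp only [cj, RCLike.norm_conj]
    exact norm_le_pi_norm z i
  refine le_antisymm (h y) ?_
  have := h (cj y)
  rwa [cj_cj] at this

variable {E F : Type*} [NormedAddCommGroup E] [NormedSpace ℂ E] [NormedAddCommGroup F]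
  [NormedSpace ℂ F]

/-- the multilinear map conjugated on both sides -/
noncomputable def conjMul (c₁ : E → E) (c₂ : F → F) (a₁ : ∀ x y, c₁ (x + y) = c₁ x + c₁ y)
    (a₂ : ∀ x y, c₂ (x + y) = c₂ x + c₂ y) (s₁ : ∀ (t : ℂ) x, c₁ (t • x) = conj t • c₁ x)
    (s₂ : ∀ (t : ℂ) x, c₂ (t • x) = conj t • c₂ x) (n₁ : ∀ x, ‖c₁ x‖ = ‖x‖)
    (n₂ : ∀ x, ‖c₂ x‖ = ‖x‖) (p : FormalMultilinearSeries ℂ E F) :
    FormalMultilinearSeries ℂ E F := fun n =>
  MultilinearMap.mkContinuous
    { toFun := fun v => c₂ (p n (fun i => c₁ (v i)))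
      map_update_add' := by
        intro _ m i x y
        have e : ∀ z : E, (fun j => c₁ (Function.update m i z j)) =
            Function.update (fun j => c₁ (m j)) i (c₁ z) := by
          intro z
          funext j
          by_cases hj : j = i
          · subst hj; simp
          · simp [hj]
        rw [e, e, e, a₁, ContinuousMultilinearMap.map_update_add, a₂]
      map_update_smul' := by
        intro _ m i t x
        have e : ∀ z : E, (fun j => c₁ (Function.update m i z j)) =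
            Function.update (fun j => c₁ (m j)) i (c₁ z) := by
          intro z
          funext j
          by_cases hj : j = i
          · subst hj; simp
          · simp [hj]
        rw [e, e, s₁, ContinuousMultilinearMap.map_update_smul, s₂, Complex.conj_conj] }
    ‖p n‖ (by
      intro v
      show ‖c₂ (p n (fun i => c₁ (v i)))‖ ≤ _
      rw [n₂]
      refine ((p n).le_opNorm _).trans (le_of_eq ?_)
      simp [n₁])

theorem analyticAt_conj_gen (c₁ : E → E) (c₂ : F → F) (a₁ : ∀ x y, c₁ (x + y) = c₁ x + c₁ y)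
    (a₂ : ∀ x y, c₂ (x + y) = c₂ x + c₂ y) (s₁ : ∀ (t : ℂ) x, c₁ (t • x) = conj t • c₁ x)
    (s₂ : ∀ (t : ℂ) x, c₂ (t • x) = conj t • c₂ x) (n₁ : ∀ x, ‖c₁ x‖ = ‖x‖)
    (n₂ : ∀ x, ‖c₂ x‖ = ‖x‖) (i₁ : ∀ x, c₁ (c₁ x) = x) {f : E → F} {x : E}
    (hf : AnalyticAt ℂ f x) : AnalyticAt ℂ (fun y => c₂ (f (c₁ y))) (c₁ x) := by
  obtain ⟨p, r, hp⟩ := hf
  refine ⟨conjMul c₁ c₂ a₁ a₂ s₁ s₂ n₁ n₂ p, r, ?_, hp.r_pos, ?_⟩
  · refine hp.r_le.trans ?_
    refine ENNReal.le_of_forall_nnreal_lt fun t ht => ?_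
    obtain ⟨C, hC0, hC⟩ := p.norm_mul_pow_le_of_lt_radius ht
    refine FormalMultilinearSeries.le_radius_of_bound _ C fun n => ?_
    refine le_trans ?_ (hC n)
    refine mul_le_mul_of_nonneg_right ?_ (by positivity)
    exact MultilinearMap.mkContinuous_norm_le _ (norm_nonneg _) _
  · intro y hy
    have hy' : c₁ y ∈ Metric.eball (0 : E) r := by
      rw [Metric.mem_eball, edist_zero_right] at hy ⊢
      have : ‖c₁ y‖ₑ = ‖y‖ₑ := by
        rw [← ofReal_norm, ← ofReal_norm, n₁]
      rwa [this]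
    have h := hp.hasSum hy'
    let c₂' : F →+ F := { toFun := c₂, map_zero' := by
                            have := a₂ 0 0
                            simpa using this
                          map_add' := a₂ }
    have hc : Continuous c₂' := by
      refine AddMonoidHomClass.continuous_of_bound c₂' 1 fun z => ?_
      show ‖c₂ z‖ ≤ _
      rw [n₂, one_mul]
    have h2 := h.map c₂' hc
    have e1 : c₁ (c₁ x + y) = x + c₁ y := by rw [a₁, i₁]
    show HasSum (fun n => c₂ (p n (fun _ => c₁ y))) (c₂ (f (c₁ (c₁ x + y))))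
    rw [e1]
    exact h2

end conjan

theorem analyticAt_conj_conj {ι κ : Type*} [Fintype ι] [Fintype κ] {f : (ι → ℂ) → (κ → ℂ)}
    {x : ι → ℂ} (hf : AnalyticAt ℂ f x) : AnalyticAt ℂ (fun y => cj (f (cj y))) (cj x) :=
  analyticAt_conj_gen cj cj cj_add cj_add cj_smul cj_smul norm_cj norm_cj cj_cj hf

theorem exists_polar {n d : ℕ} {g : (ZI n d → ℂ) → (Fin d → ℝ)} (hg : AnalyticAt ℝ g 0)
    (hg0 : g 0 = 0) (hd : ∀ y μ, fderiv ℝ g 0 y μ = (y (Sum.inr μ)).re) : ∃ R, Polar g R := by
  have hcj0 : cj (0 : ZI n d → ℂ) = 0 := by funext i; simp [cj]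
  have hf : ∀ μ : Fin d, AnalyticAt ℝ (fun y : ZI n d → ℂ => ((g y μ : ℝ) : ℂ)) 0 := by
    intro μ
    have h1 : AnalyticAt ℝ (fun y : ZI n d → ℂ => g y μ) 0 :=
      ((ContinuousLinearMap.proj (R := ℝ) (φ := fun _ : Fin d => ℝ) μ).analyticAt _).comp hg
    exact (Complex.ofRealCLM.analyticAt _).comp h1
  choose F hF1 hF2 using fun μ => exists_complexification (hf μ)
  have hF1' : ∀ μ, AnalyticAt ℂ (F μ) 0 := by
    intro μ
    have := hF1 μ
    have e : ((0 : ZI n d → ℂ), fun i => conj ((0 : ZI n d → ℂ) i)) = 0 := by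
      ext i <;> simp
    rwa [e] at this
  have hdiag : ∀ᶠ y in 𝓝 (0 : ZI n d → ℂ), ∀ μ, F μ (y, cj y) = (g y μ : ℂ) :=
    Filter.eventually_all.2 hF2
  refine ⟨fun x μ => F μ x, ?_, ?_, ?_, ?_, ?_⟩
  · exact AnalyticAt.pi hF1'
  · filter_upwards [hdiag] with y hy
    funext μ
    exact hy μ
  · funext μ
    have := hdiag.self_of_nhds μ
    rw [hcj0, hg0] at this
    refine this.trans ?_
    simp
  · -- derivative
    have hR : AnalyticAt ℂ (fun x μ => F μ x : (ZI n d → ℂ) × (ZI n d → ℂ) → (Fin d → ℂ)) 0 :=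
      AnalyticAt.pi hF1'
    set R : (ZI n d → ℂ) × (ZI n d → ℂ) → (Fin d → ℂ) := fun x μ => F μ x with hRdef
    have hRd := hR.differentiableAt.hasFDerivAt
    set L := fderiv ℂ R 0 with hL
    have hT : ∀ y μ, L (y, cj y) μ = (((y (Sum.inr μ)).re : ℝ) : ℂ) := by
      -- the real linear map y ↦ (y, cj y)
      let φ₂ : (ZI n d → ℂ) →L[ℝ] (ZI n d → ℂ) :=
        ContinuousLinearMap.pi fun i => (Complex.conjCLE : ℂ →L[ℝ] ℂ).comp
          (ContinuousLinearMap.proj (R := ℝ) (φ := fun _ : ZI n d => ℂ) i)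
      let φ : (ZI n d → ℂ) →L[ℝ] (ZI n d → ℂ) × (ZI n d → ℂ) :=
        (ContinuousLinearMap.id ℝ _).prod φ₂
      have hφ : ∀ y, φ y = (y, cj y) := by
        intro y
        rfl
      have h1 : HasFDerivAt (fun y => R (φ y)) ((L.restrictScalars ℝ).comp φ) 0 := by
        have h2 : HasFDerivAt R (L.restrictScalars ℝ) (φ 0) := by
          rw [map_zero]; exact hRd.restrictScalars ℝ
        exact h2.comp 0 φ.hasFDerivAt
      let ψ : (Fin d → ℝ) →L[ℝ] (Fin d → ℂ) :=
        ContinuousLinearMap.pi fun i => Complex.ofRealCLM.comp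
          (ContinuousLinearMap.proj (R := ℝ) (φ := fun _ : Fin d => ℝ) i)
      have h3 : HasFDerivAt (fun y => ψ (g y)) (ψ.comp (fderiv ℝ g 0)) 0 :=
        ψ.hasFDerivAt.comp 0 hg.differentiableAt.hasFDerivAt
      have h4 : (fun y => R (φ y)) =ᶠ[𝓝 0] (fun y => ψ (g y)) := by
        filter_upwards [hdiag] with y hy
        funext μ
        rw [hφ]
        exact hy μ
      have h5 := h1.unique (h3.congr_of_eventuallyEq h4)
      intro y μ
      have h6 := congrFun (congrArg (fun A => A y) h5) μ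
      have h7 : ((L.restrictScalars ℝ).comp φ) y μ = L (y, cj y) μ := by
        simp [hφ]
      have h8 : (ψ.comp (fderiv ℝ g 0)) y μ = ((fderiv ℝ g 0 y μ : ℝ) : ℂ) := rfl
      rw [← h7]
      refine h6.trans ?_
      rw [h8, hd]
    have hA : ∀ (y : ZI n d → ℂ) μ, L (y, 0) μ = y (Sum.inr μ) / 2 := by
      intro y μ
      have h1 := hT y μ
      have h2 := hT (I • y) μ
      have e1 : (2 * I : ℂ) • ((y, 0) : (ZI n d → ℂ) × (ZI n d → ℂ)) = I • (y, cj y) + (I • y, cj (I • y)) := by
        rw [cj_smul]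
        ext i
        · simp; ring
        · simp
      have h3 := congrFun (congrArg L e1) μ
      rw [map_add, map_smul, map_smul] at h3
      simp only [Pi.add_apply, Pi.smul_apply, smul_eq_mul] at h3
      rw [h1, h2] at h3
      have h4 : ((I • y) (Sum.inr μ)).re = - (y (Sum.inr μ)).im := by simp
      rw [h4] at h3
      have h5 : y (Sum.inr μ) = (y (Sum.inr μ)).re + (y (Sum.inr μ)).im * I := (Complex.re_add_im _).symm
      have h6 : (2 * I) * L (y, 0) μ = I * y (Sum.inr μ) := by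
        rw [h3]
        nth_rw 3 [h5]
        push_cast
        linear_combination ((y (Sum.inr μ)).im : ℂ) * (-Complex.I_sq)
      have h7 : I ≠ 0 := Complex.I_ne_zero
      have h8 : L (y, 0) μ * 2 = y (Sum.inr μ) := by
        refine mul_left_cancel₀ h7 ?_
        rw [← h6]; ring
      rw [← h8]; ring
    intro a b μ
    have h1 := hT (cj b) μ
    rw [cj_cj] at h1
    have e1 : ((a, b) : (ZI n d → ℂ) × (ZI n d → ℂ)) = (a, 0) + ((cj b, b) - (cj b, 0)) := by
      ext i <;> simp
    rw [e1, map_add, map_sub]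
    simp only [Pi.add_apply, Pi.sub_apply]
    rw [hA, hA, h1]
    have h2 : ((cj b (Sum.inr μ)).re : ℂ) = (b (Sum.inr μ) + conj (b (Sum.inr μ))) / 2 := by
      simp only [cj, Complex.conj_re]
      rw [Complex.add_conj]; push_cast; ring
    rw [h2]
    simp only [cj]
    ring
  · -- hermitian symmetry
    let K := Fin 0
    have key : ∀ μ, ∀ᶠ x in 𝓝 (0 : (ZI n d → ℂ) × (ZI n d → ℂ)),
        F μ x - conj (F μ (cj x.2, cj x.1)) = 0 := by
      intro μ
      have han : AnalyticAt ℂ (fun x : (ZI n d → ℂ) × (ZI n d → ℂ) =>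
          F μ x - conj (F μ (cj x.2, cj x.1))) 0 := by
        refine (hF1' μ).sub ?_
        have h := analyticAt_conj_gen (fun x : (ZI n d → ℂ) × (ZI n d → ℂ) => (cj x.2, cj x.1))
          (fun z : ℂ => conj z) ?_ ?_ ?_ ?_ ?_ ?_ ?_ (x := 0) (hF1' μ)
        · have e0 : (cj (0 : (ZI n d → ℂ) × (ZI n d → ℂ)).2, cj (0 : (ZI n d → ℂ) × (ZI n d → ℂ)).1) =
              (0 : (ZI n d → ℂ) × (ZI n d → ℂ)) := by
            ext i <;> simp [cj]
          rw [e0] at h
          exact h
        · intro x y; simp [cj_add]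
        · intro x y; simp
        · intro t x; simp [cj_smul]
        · intro t x; simp
        · intro x
          rw [Prod.norm_def, Prod.norm_def]
          simp only [norm_cj]
          exact max_comm _ _
        · intro x; simp
        · intro x; simp [cj_cj]
      have han' : AnalyticAt ℂ (fun x : (ZI n d → ℂ) × (ZI n d → ℂ) × (K → ℂ) =>
          F μ (x.1, x.2.1) - conj (F μ (cj x.2.1, cj x.1))) 0 := by
        let P : (ZI n d → ℂ) × (ZI n d → ℂ) × (K → ℂ) →L[ℂ] (ZI n d → ℂ) × (ZI n d → ℂ) :=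
          (ContinuousLinearMap.fst ℂ _ _).prod
            ((ContinuousLinearMap.fst ℂ _ _).comp (ContinuousLinearMap.snd ℂ _ _))
        have h0 : P 0 = 0 := map_zero P
        exact AnalyticAt.comp_of_eq (g := fun x : (ZI n d → ℂ) × (ZI n d → ℂ) =>
          F μ x - conj (F μ (cj x.2, cj x.1))) han (P.analyticAt 0) h0
      have h1 := eventually_eq_zero_of_real han' (by
        have ht : Tendsto (fun y : (ZI n d → ℂ) × (K → ℝ) => y.1) (𝓝 0) (𝓝 0) :=
          continuous_fst.tendsto' _ _ rfl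
        filter_upwards [ht.eventually hdiag] with y hy
        show F μ (y.1, cj y.1) - conj (F μ (cj (cj y.1), cj y.1)) = 0
        rw [cj_cj, hy μ, Complex.conj_ofReal, sub_self])
      have ht : Tendsto (fun x : (ZI n d → ℂ) × (ZI n d → ℂ) => ((x.1, x.2, (0 : K → ℂ)) :
          (ZI n d → ℂ) × (ZI n d → ℂ) × (K → ℂ))) (𝓝 0) (𝓝 0) := by
        refine Continuous.tendsto' ?_ _ _ rfl
        fun_prop
      filter_upwards [ht.eventually h1] with x hx
      exact hx
    filter_upwards [Filter.eventually_all.2 key] with x hx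
    funext μ
    have := sub_eq_zero.1 (hx μ)
    show F μ (cj x.2, cj x.1) = conj (F μ x)
    rw [this, Complex.conj_conj]

end Pool.Agent.Results.MP_51bf1a_an.JetDet
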