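import Pool.Agent.Helper706.JD.G2

set_option autoImplicit false

open scoped Topology ContDiff ComplexConjugate
open Set Filter Complex

namespace Pool.Agent.Results.MP_51bf1a_an.JetDet




/-! ### helpers for G3 -/

theorem g3_localinv {E F : Type*} [NormedAddCommGroup E] [NormedSpace ℂ E] [CompleteSpace E]
    [NormedAddCommGroup F] [NormedSpace ℂ F] [CompleteSpace F] (Φ : E → F) (e : E ≃L[ℂ] F)
    (hΦ : AnalyticAt ℂ Φ 0) (h0 : Φ 0 = 0) (he : HasFDerivAt Φ (e : E →L[ℂ] F) 0) :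
    ∃ Ψ : F → E, AnalyticAt ℂ Ψ 0 ∧ Ψ 0 = 0 ∧ (∀ᶠ x in 𝓝 0, Ψ (Φ x) = x) ∧
      (∀ᶠ y in 𝓝 0, Φ (Ψ y) = y) := by
  have hs : HasStrictFDerivAt Φ (e : E →L[ℂ] F) 0 := by
    have := hΦ.hasStrictFDerivAt
    rwa [he.fderiv] at this
  have hc : ContDiffAt ℂ ω Φ 0 := hΦ.contDiffAt
  have hne : (ω : WithTop ℕ∞) ≠ 0 := by simp
  refine ⟨hc.localInverse he hne, ?_, ?_, ?_, ?_⟩
  · have h1 := hc.to_localInverse he hne
    rw [h0] at h1
    exact h1.analyticAt
  · have h1 := hc.localInverse_apply_image he hne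
    rwa [h0] at h1
  · exact hs.eventually_left_inverse
  · have h1 := hs.eventually_right_inverse
    rwa [h0] at h1

theorem g3_cj_cj {σ : Type*} (y : σ → ℂ) : cj (cj y) = y := by
  funext i; simp [cj]

theorem g3_cj_zero {σ : Type*} : cj (0 : σ → ℂ) = 0 := by
  funext i; simp [cj]

theorem g3_cj_eq_zero {σ : Type*} (y : σ → ℂ) : cj y = 0 ↔ y = 0 := by
  constructor
  · intro h
    rw [← g3_cj_cj y, h, g3_cj_zero]
  · rintro rfl; exact g3_cj_zero

theorem g3_cj_cont {σ : Type*} [Fintype σ] : Continuous (cj : (σ → ℂ) → (σ → ℂ)) := by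
  unfold cj
  exact continuous_pi (fun i => Complex.continuous_conj.comp (continuous_apply i))

/-- the linear map `x ↦ (x.1_z, x.2)` -/
noncomputable def g3LS (n d : ℕ) : (ZI n d → ℂ) × (ZI n d → ℂ) →L[ℂ] (SI n d → ℂ) :=
  ContinuousLinearMap.pi (fun i => match i with
    | Sum.inl j => (ContinuousLinearMap.proj (R := ℂ) (φ := fun _ : ZI n d => ℂ) (Sum.inl j)).comp
        (ContinuousLinearMap.fst ℂ _ _)
    | Sum.inr v => (ContinuousLinearMap.proj (R := ℂ) (φ := fun _ : ZI n d => ℂ) v).comp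
        (ContinuousLinearMap.snd ℂ _ _))

theorem g3LS_apply {n d : ℕ} (x : (ZI n d → ℂ) × (ZI n d → ℂ)) :
    g3LS n d x = Sum.elim (fun j => x.1 (Sum.inl j)) x.2 := by
  funext i
  rcases i with j | v <;> rfl

/-! ### implicit function theorem -/

theorem exists_graph {n d : ℕ} {g : (ZI n d → ℂ) → (Fin d → ℝ)}
    {R : (ZI n d → ℂ) × (ZI n d → ℂ) → (Fin d → ℂ)} (hR : Polar g R) : ∃ q, Graph R q := by
  have hRd : HasFDerivAt R (fderiv ℂ R 0) 0 := hR.analytic.differentiableAt.hasFDerivAt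
  obtain ⟨L, hL⟩ : ∃ L : (ZI n d → ℂ) × (ZI n d → ℂ) →L[ℂ] (SI n d → ℂ) × (Fin d → ℂ),
      L = (g3LS n d).prod (fderiv ℂ R 0) := ⟨_, rfl⟩
  have hL1 : ∀ x, (L x).1 = g3LS n d x := fun x => by rw [hL]; rfl
  have hL2 : ∀ x, (L x).2 = fderiv ℂ R 0 x := fun x => by rw [hL]; rfl
  have hinj : Function.Injective L := by
    rw [injective_iff_map_eq_zero]
    rintro ⟨a, b⟩ h
    have h1 : g3LS n d (a, b) = 0 := by rw [← hL1, h]; rfl
    have h2 : fderiv ℂ R 0 (a, b) = 0 := by rw [← hL2, h]; rfl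
    rw [g3LS_apply] at h1
    have hb : b = 0 := by
      funext i
      exact congrFun h1 (Sum.inr i)
    have ha : a = 0 := by
      funext i
      rcases i with j | μ
      · exact congrFun h1 (Sum.inl j)
      · have h3 := congrFun h2 μ
        rw [hR.deriv, hb] at h3
        simp only [Pi.zero_apply, add_zero] at h3 ⊢
        simpa using h3
    rw [ha, hb]; rfl
  have hsurj : Function.Surjective L := by
    rintro ⟨s, t⟩
    refine ⟨(Sum.elim (fun j => s (Sum.inl j)) (fun μ => 2 * t μ - s (Sum.inr (Sum.inr μ))),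
      fun v => s (Sum.inr v)), ?_⟩
    apply Prod.ext
    · rw [hL1, g3LS_apply]
      funext i
      rcases i with j | v <;> rfl
    · rw [hL2]
      funext μ
      rw [hR.deriv]
      simp
  obtain ⟨e, he⟩ : ∃ e : ((ZI n d → ℂ) × (ZI n d → ℂ)) ≃L[ℂ] ((SI n d → ℂ) × (Fin d → ℂ)),
      (e : (ZI n d → ℂ) × (ZI n d → ℂ) →L[ℂ] (SI n d → ℂ) × (Fin d → ℂ)) = L := by
    refine ⟨(LinearEquiv.ofBijective (L : _ →ₗ[ℂ] _) ⟨hinj, hsurj⟩).toContinuousLinearEquiv, ?_⟩
    exact ContinuousLinearMap.ext (fun x => rfl)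
  obtain ⟨Φ, hΦ⟩ : ∃ Φ : (ZI n d → ℂ) × (ZI n d → ℂ) → (SI n d → ℂ) × (Fin d → ℂ),
      Φ = fun x => (g3LS n d x, R x) := ⟨_, rfl⟩
  have hΦa : AnalyticAt ℂ Φ 0 := by
    rw [hΦ]
    exact ((g3LS n d).analyticAt 0).prod hR.analytic
  have hΦ0 : Φ 0 = 0 := by
    rw [hΦ]
    simp [hR.zero]
  have hΦd : HasFDerivAt Φ (e : (ZI n d → ℂ) × (ZI n d → ℂ) →L[ℂ] (SI n d → ℂ) × (Fin d → ℂ)) 0 := by
    rw [he, hL, hΦ]
    exact (g3LS n d).hasFDerivAt.prodMk hRd
  obtain ⟨Ψ, hΨa, hΨ0, hΨl, hΨr⟩ := g3_localinv Φ e hΦa hΦ0 hΦd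
  obtain ⟨q0, hq0⟩ : ∃ q0 : (SI n d → ℂ) → (Fin d → ℂ),
      q0 = fun s μ => (Ψ (s, 0)).1 (Sum.inr μ) := ⟨_, rfl⟩
  have hq0a : AnalyticAt ℂ q0 0 := by
    have h1 : AnalyticAt ℂ (fun s : SI n d → ℂ => (s, (0 : Fin d → ℂ))) 0 :=
      analyticAt_id.prod analyticAt_const
    have h2 : AnalyticAt ℂ (fun s : SI n d → ℂ => Ψ (s, (0 : Fin d → ℂ))) 0 :=
      AnalyticAt.fun_comp (g := Ψ) (f := fun s : SI n d → ℂ => (s, (0 : Fin d → ℂ))) hΨa h1
    rw [hq0, analyticAt_pi_iff]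
    intro μ
    have h3 := ((ContinuousLinearMap.proj (R := ℂ) (φ := fun _ : ZI n d => ℂ) (Sum.inr μ)).comp
        (ContinuousLinearMap.fst ℂ (ZI n d → ℂ) (ZI n d → ℂ))).analyticAt (Ψ (0, 0))
    exact AnalyticAt.fun_comp (f := fun s : SI n d → ℂ => Ψ (s, (0 : Fin d → ℂ))) h3 h2
  have hq00 : q0 0 = 0 := by
    rw [hq0]
    funext μ
    show (Ψ (0 : (SI n d → ℂ) × (Fin d → ℂ))).1 (Sum.inr μ) = 0
    rw [hΨ0]; rfl
  have hmem : ∀ᶠ x : (ZI n d → ℂ) × (ZI n d → ℂ) in 𝓝 0, (R x = 0 ↔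
      q0 (Sum.elim (fun j => x.1 (Sum.inl j)) x.2) = fun μ => x.1 (Sum.inr μ)) := by
    have ht : Tendsto (fun x : (ZI n d → ℂ) × (ZI n d → ℂ) =>
        ((g3LS n d x, 0) : (SI n d → ℂ) × (Fin d → ℂ))) (𝓝 0) (𝓝 0) := by
      have hc : Continuous (fun x : (ZI n d → ℂ) × (ZI n d → ℂ) =>
        ((g3LS n d x, 0) : (SI n d → ℂ) × (Fin d → ℂ))) :=
        (g3LS n d).continuous.prodMk continuous_const
      have := hc.tendsto 0
      rw [map_zero] at this
      exact this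
    filter_upwards [hΨl, ht.eventually hΨr] with x hx1 hx2
    rw [← g3LS_apply]
    constructor
    · intro hRx
      have h1 : Φ x = (g3LS n d x, 0) := by rw [hΦ]; simp [hRx]
      rw [h1] at hx1
      rw [hq0]
      funext μ
      show (Ψ (g3LS n d x, 0)).1 (Sum.inr μ) = _
      rw [hx1]
    · intro hq
      obtain ⟨y, hy⟩ : ∃ y, y = Ψ (g3LS n d x, 0) := ⟨_, rfl⟩
      rw [← hy] at hx2
      rw [hΦ] at hx2
      have h1 : g3LS n d y = g3LS n d x := congrArg Prod.fst hx2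
      have h2 : R y = 0 := congrArg Prod.snd hx2
      rw [g3LS_apply, g3LS_apply] at h1
      have hyx : y = x := by
        apply Prod.ext
        · funext i
          rcases i with j | μ
          · exact congrFun h1 (Sum.inl j)
          · have h3 := congrFun hq μ
            rw [hq0] at h3
            rw [hy]
            exact h3
        · funext i
          exact congrFun h1 (Sum.inr i)
      rw [← hyx]; exact h2
  refine ⟨fun b => match b with
    | false => q0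
    | true => fun s => cj (q0 (cj s)), ?_, ?_, ?_, hmem, ?_⟩
  · intro b
    cases b with
    | false => exact hq0a
    | true =>
      have h1 := analyticAt_conj_conj hq0a
      rw [g3_cj_zero] at h1
      exact h1
  · intro b
    cases b with
    | false => exact hq00
    | true =>
      show cj (q0 (cj 0)) = 0
      rw [g3_cj_zero, hq00, g3_cj_zero]
  · intro b s
    cases b with
    | false =>
      show cj (q0 (cj (cj s))) = cj (q0 s)
      rw [g3_cj_cj]
    | true =>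
      show q0 (cj s) = cj (cj (q0 (cj s)))
      rw [g3_cj_cj]
  · have ht : Tendsto (fun x : (ZI n d → ℂ) × (ZI n d → ℂ) => (cj x.2, cj x.1)) (𝓝 0) (𝓝 0) := by
      have hc : Continuous (fun x : (ZI n d → ℂ) × (ZI n d → ℂ) => (cj x.2, cj x.1)) :=
        (g3_cj_cont.comp continuous_snd).prodMk (g3_cj_cont.comp continuous_fst)
      have := hc.tendsto 0
      simp only [Prod.fst_zero, Prod.snd_zero, g3_cj_zero] at this
      exact this
    filter_upwards [hR.herm, ht.eventually hmem] with x hx1 hx2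
    rw [hx1, g3_cj_eq_zero] at hx2
    rw [hx2]
    show _ ↔ cj (q0 (cj (Sum.elim (fun j => x.2 (Sum.inl j)) x.1))) = _
    have h1 : cj (Sum.elim (fun j => x.2 (Sum.inl j)) x.1 : SI n d → ℂ) =
        Sum.elim (fun j => cj x.2 (Sum.inl j)) (cj x.1) := by
      funext i
      rcases i with j | v <;> rfl
    rw [h1]
    constructor
    · intro h
      rw [h]
      funext μ
      simp [cj]
    · intro h
      rw [← g3_cj_cj (q0 _), h]
      rfl

end Pool.Agent.Results.MP_51bf1a_an.JetDet
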