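import Pool.Agent.Helper706.JD.CoreDefs

set_option autoImplicit false

open MvPowerSeries

namespace Pool.Agent.Results.MP_51bf1a_an.JetDet

/-! ### basic properties of the chains -/

section K1

variable {n d : ℕ} {Q : Bool → Fin d → MvPowerSeries (SI n d) ℂ}

theorem constCoeff_subst0 {ι κ : Type*} [Fintype ι] {a : ι → MvPowerSeries κ ℂ}
    (ha : ∀ i, constantCoeff (a i) = 0) (f : MvPowerSeries ι ℂ) :
    constantCoeff (subst a f : MvPowerSeries κ ℂ) = constantCoeff f := by
  have hsa := hasSubst_of_constantCoeff_zero ha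
  have : f = C (constantCoeff f) + (f - C (constantCoeff f)) := by ring
  conv_lhs => rw [this, subst_add hsa, subst_C' ha, map_add]
  have h2 : constantCoeff (subst a (f - C (constantCoeff f)) : MvPowerSeries κ ℂ) = 0 := by
    rw [← one_le_order_iff_constCoeff_eq_zero]
    apply order_subst ha _ 1
    rw [Nat.cast_one, one_le_order_iff_constCoeff_eq_zero]
    simp
  rw [h2]; simp

theorem om_const (h : FormalCR Q) : ∀ k i, constantCoeff (om Q k i) = 0 := by
  intro k
  induction k with
  | zero => intro i; exact constantCoeff_X _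
  | succ k ih =>
    intro i
    rcases i with j | μ
    · exact constantCoeff_X _
    · show constantCoeff (subst _ (Q (ty (k + 1)) μ)) = 0
      rw [constCoeff_subst0, h.const]
      rintro (j | i)
      · exact constantCoeff_X _
      · exact ih i

theorem edge_const (h : FormalCR Q) (k : ℕ) (s : SI n d) : constantCoeff (edge Q k s) = 0 := by
  rcases s with j | i
  · exact constantCoeff_X _
  · exact om_const h k i

theorem edge_subst (h : FormalCR Q) (k : ℕ) : HasSubst (edge Q k) :=
  hasSubst_of_constantCoeff_zero (edge_const h k)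

theorem om_succ (h : FormalCR Q) (k : ℕ) (i : ZI n d) :
    om Q (k + 1) i = subst (edge Q k) (uv Q (ty (k + 1)) i) := by
  rcases i with j | μ
  · show (X (Sum.inr (k, j)) : MvPowerSeries (VI n d) ℂ) = subst (edge Q k) (X (Sum.inl j))
    rw [subst_X (edge_subst h k)]
    rfl
  · rfl

theorem om_eq_pv (h : FormalCR Q) (k : ℕ) (i : ZI n d) :
    om Q k i = subst (edge Q k) (pv i : MvPowerSeries (SI n d) ℂ) := by
  show _ = subst (edge Q k) (X (Sum.inr i))
  rw [subst_X (edge_subst h k)]
  rfl

/-- `om Q k` does not involve the variables `(m, j)` with `k ≤ m` -/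
theorem om_indep (h : FormalCR Q) : ∀ k m j i, k ≤ m →
    pderiv ℂ (Sum.inr (m, j) : VI n d) (om Q k i) = 0 := by
  intro k
  induction k with
  | zero =>
    intro m j i _
    exact pderiv_X_of_ne (by simp)
  | succ k ih =>
    intro m j i hk
    rcases i with j' | μ
    · refine pderiv_X_of_ne ?_
      intro e
      have := congrArg (fun z : VI n d => Sum.elim (fun _ => 0) (fun p => p.1) z) e
      simp at this
      omega
    · rw [om_succ h]
      rw [pderiv_subst (edge_const h k)]
      refine Finset.sum_eq_zero fun s _ => ?_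
      have : pderiv ℂ (Sum.inr (m, j) : VI n d) (edge Q k s) = 0 := by
        rcases s with j' | i
        · refine pderiv_X_of_ne ?_
          intro e
          have := congrArg (fun z : VI n d => Sum.elim (fun _ => 0) (fun p => p.1) z) e
          simp at this
          omega
        · exact ih m j i (by omega)
      rw [this, mul_zero]

theorem inve_const (h : FormalCR Q) (b : Bool) (s : SI n d) : constantCoeff (inve Q b s) = 0 := by
  rcases s with j | j | μ
  · exact constantCoeff_X _
  · exact constantCoeff_X _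
  · exact h.const b μ

theorem wmat_mul (h : FormalCR Q) (b : Bool) :
    (Matrix.of fun μ ν => pderiv ℂ (Sum.inr (Sum.inr ν)) (Q b μ)) *
    (Matrix.of fun μ ν => (subst (inve Q b) (pderiv ℂ (Sum.inr (Sum.inr ν)) (Q (!b) μ)) :
      MvPowerSeries (SI n d) ℂ)) = 1 := by
  refine mul_eq_one_comm.mp ?_
  ext1 μ ν
  rw [Matrix.mul_apply]
  have h1 := congrArg (pderiv ℂ (Sum.inr (Sum.inr ν))) (h.invol b μ)
  rw [pderiv_subst (inve_const h b), Fintype.sum_sum_type, Fintype.sum_sum_type] at h1
  have h2 : ∑ x : Fin n, (subst (inve Q b) (pderiv ℂ (Sum.inl x) (Q (!b) μ)) :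
      MvPowerSeries (SI n d) ℂ) * pderiv ℂ (Sum.inr (Sum.inr ν)) (inve Q b (Sum.inl x)) = 0 := by
    refine Finset.sum_eq_zero fun x _ => ?_
    have : pderiv ℂ (Sum.inr (Sum.inr ν)) (inve Q b (Sum.inl x)) = 0 :=
      pderiv_X_of_ne (by simp)
    rw [this, mul_zero]
  have h3 : ∑ x : Fin n, (subst (inve Q b) (pderiv ℂ (Sum.inr (Sum.inl x)) (Q (!b) μ)) :
      MvPowerSeries (SI n d) ℂ) * pderiv ℂ (Sum.inr (Sum.inr ν)) (inve Q b (Sum.inr (Sum.inl x))) = 0 := by
    refine Finset.sum_eq_zero fun x _ => ?_
    have : pderiv ℂ (Sum.inr (Sum.inr ν)) (inve Q b (Sum.inr (Sum.inl x))) = 0 :=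
      pderiv_X_of_ne (by simp)
    rw [this, mul_zero]
  rw [h2, h3, zero_add, zero_add] at h1
  rw [Matrix.one_apply]
  simp only [Matrix.of_apply]
  have h4 : pderiv ℂ (Sum.inr (Sum.inr ν)) (X (Sum.inr (Sum.inr μ)) : MvPowerSeries (SI n d) ℂ) =
      if μ = ν then 1 else 0 := by
    split_ifs with hh
    · subst hh; exact pderiv_X_self
    · exact pderiv_X_of_ne (by simpa using hh)
  rw [h4] at h1
  exact h1

theorem pderiv_X_ite {V : Type*} [DecidableEq V] (u v : V) :
    pderiv ℂ u (X v : MvPowerSeries V ℂ) = if u = v then 1 else 0 := by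
  split_ifs with hh
  · subst hh; exact pderiv_X_self
  · exact pderiv_X_of_ne (fun e => hh e.symm)

/-- the comorphism of the edge with values in the fraction field -/
noncomputable def phi (h : FormalCR Q) (k : ℕ) : MvPowerSeries (SI n d) ℂ →+* KK (VI n d) :=
  (al (VI n d)).comp ((substAlgHom (edge_subst h k)).toRingHom)

theorem phi_apply (h : FormalCR Q) (k : ℕ) (f : MvPowerSeries (SI n d) ℂ) :
    phi h k f = al _ (subst (edge Q k) f) := by
  simp only [phi, RingHom.comp_apply]
  congr 1
  exact substAlgHom_apply (R := ℂ) (edge_subst h k) f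

theorem D_om_succ_inr (h : FormalCR Q) (k : ℕ) {E : Derivation ℂ (KK (VI n d)) (KK (VI n d))}
    (hE : E ∈ DD Set.univ) (μ : Fin d) :
    E (al _ (om Q (k + 1) (Sum.inr μ))) =
      ∑ j, phi h k (pderiv ℂ (Sum.inl j) (Q (ty (k + 1)) μ)) * E (al _ (X (Sum.inr (k, j)))) +
      (∑ j, phi h k (pderiv ℂ (Sum.inr (Sum.inl j)) (Q (ty (k + 1)) μ)) *
          E (al _ (om Q k (Sum.inl j))) +
        ∑ ν, phi h k (pderiv ℂ (Sum.inr (Sum.inr ν)) (Q (ty (k + 1)) μ)) *
          E (al _ (om Q k (Sum.inr ν)))) := by
  rw [om_succ h]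
  show E (al _ (subst (edge Q k) (Q (ty (k + 1)) μ))) = _
  rw [chain_rule hE (edge_const h k), Fintype.sum_sum_type, Fintype.sum_sum_type]
  simp only [phi_apply]
  rfl

theorem exists_dual (h : FormalCR Q) (k : ℕ) :
    ∃ D : ZI n d → Derivation ℂ (KK (VI n d)) (KK (VI n d)), (∀ i, D i ∈ DD Set.univ) ∧
      (∀ i i', D i (al _ (om Q k i')) = if i = i' then 1 else 0) ∧
      (∀ i m j, k ≤ m → D i (al _ (X (Sum.inr (m, j)))) = 0) := by
  induction k with
  | zero =>
    refine ⟨fun i => DK (Sum.inl i), fun i => DK_mem (Set.mem_univ _), ?_, ?_⟩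
    · intro i i'
      show DK (Sum.inl i) (al _ (X (Sum.inl i'))) = _
      rw [DK_al, pderiv_X_ite]
      by_cases hh : i = i'
      · rw [if_pos (by rw [hh]), if_pos hh, map_one]
      · rw [if_neg (fun e => hh (Sum.inl_injective e)), if_neg hh, map_zero]
    · intro i m j _
      rw [DK_al, pderiv_X_ite, if_neg (by simp), map_zero]
  | succ k ih =>
    obtain ⟨D, hD, h1, h2⟩ := ih
    set b := ty (k + 1) with hb
    -- the inverse matrix
    have hW := congrArg (fun M : Matrix (Fin d) (Fin d) (MvPowerSeries (SI n d) ℂ) =>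
      M.map (phi h k)) (wmat_mul h b)
    simp only [Matrix.map_mul, Matrix.map_one _ (map_zero (phi h k)) (map_one (phi h k))] at hW
    set M : Matrix (Fin d) (Fin d) (KK (VI n d)) :=
      (Matrix.of fun μ ν => pderiv ℂ (Sum.inr (Sum.inr ν)) (Q b μ)).map (phi h k) with hM
    set R : Matrix (Fin d) (Fin d) (KK (VI n d)) :=
      (Matrix.of fun μ ν => (subst (inve Q b) (pderiv ℂ (Sum.inr (Sum.inr ν)) (Q (!b) μ)) :
      MvPowerSeries (SI n d) ℂ)).map (phi h k) with hR
    -- the solution for a target vector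
    have key : ∀ t : ZI n d → KK (VI n d), ∃ E : Derivation ℂ (KK (VI n d)) (KK (VI n d)),
        E ∈ DD Set.univ ∧ (∀ i, E (al _ (om Q (k + 1) i)) = t i) ∧
        (∀ m j, k + 1 ≤ m → E (al _ (X (Sum.inr (m, j)))) = 0) := by
      intro t
      set w : Fin d → KK (VI n d) := fun μ =>
        t (Sum.inr μ) - ∑ j, phi h k (pderiv ℂ (Sum.inl j) (Q b μ)) * t (Sum.inl j) with hw
      set c := R.mulVec w with hc
      have hMc : M.mulVec c = w := by
        rw [hc, Matrix.mulVec_mulVec, hW, Matrix.one_mulVec]
      set E : Derivation ℂ (KK (VI n d)) (KK (VI n d)) :=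
        ∑ j, t (Sum.inl j) • DK (Sum.inr (k, j) : VI n d) + ∑ ν, c ν • D (Sum.inr ν) with hE
      have hEv : ∀ x, E x = ∑ j, t (Sum.inl j) * DK (Sum.inr (k, j) : VI n d) x +
          ∑ ν, c ν * D (Sum.inr ν) x := by
        intro x
        rw [hE, Derivation.add_apply]
        congr 1
        · rw [← Derivation.coeFnAddMonoidHom_apply, map_sum, Finset.sum_apply]
          rfl
        · rw [← Derivation.coeFnAddMonoidHom_apply, map_sum, Finset.sum_apply]
          rfl
      have hEmem : E ∈ DD (Set.univ : Set (VI n d)) := by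
        refine Submodule.add_mem _ ?_ ?_
        · exact Submodule.sum_mem _ fun j _ => Submodule.smul_mem _ _ (DK_mem (Set.mem_univ _))
        · exact Submodule.sum_mem _ fun ν _ => Submodule.smul_mem _ _ (hD _)
      have hEX : ∀ j, E (al _ (X (Sum.inr (k, j)))) = t (Sum.inl j) := by
        intro j
        rw [hEv]
        have e2 : ∑ ν, c ν * D (Sum.inr ν) (al _ (X (Sum.inr (k, j)))) = 0 :=
          Finset.sum_eq_zero fun ν _ => by rw [h2 _ _ _ le_rfl, mul_zero]
        rw [e2, add_zero, Finset.sum_eq_single j]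
        · rw [DK_al, pderiv_X_ite, if_pos rfl, map_one, mul_one]
        · intro j' _ hj
          rw [DK_al, pderiv_X_ite, if_neg (by simpa using hj), map_zero, mul_zero]
        · intro hj; exact absurd (Finset.mem_univ _) hj
      have hEom : ∀ i, E (al _ (om Q k i)) = Sum.elim (0 : Fin n → KK (VI n d)) c i := by
        intro i
        rw [hEv]
        have e1 : ∑ j, t (Sum.inl j) * DK (Sum.inr (k, j) : VI n d) (al _ (om Q k i)) = 0 :=
          Finset.sum_eq_zero fun j _ => by
            rw [DK_al, om_indep h _ _ _ _ le_rfl, map_zero, mul_zero]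
        rw [e1, zero_add]
        rcases i with j | μ
        · refine Finset.sum_eq_zero fun ν _ => ?_
          rw [h1, if_neg (by simp), mul_zero]
        · show _ = c μ
          rw [Finset.sum_eq_single μ]
          · rw [h1, if_pos rfl, mul_one]
          · intro ν _ hν
            rw [h1, if_neg (by simpa using hν), mul_zero]
          · intro hj; exact absurd (Finset.mem_univ _) hj
      refine ⟨E, hEmem, ?_, ?_⟩
      · rintro (j | μ)
        · exact hEX j
        · rw [D_om_succ_inr h k hEmem, ← hb]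
          simp only [hEX, hEom, Sum.elim_inl, Sum.elim_inr, Pi.zero_apply, mul_zero,
            Finset.sum_const_zero, zero_add]
          have e3 := congrFun hMc μ
          simp only [Matrix.mulVec, dotProduct, hM, Matrix.map_apply, Matrix.of_apply, hw] at e3
          rw [e3]
          ring
      · intro m j hm
        rw [hEv]
        have e1 : ∑ j', t (Sum.inl j') * DK (Sum.inr (k, j') : VI n d) (al _ (X (Sum.inr (m, j)))) = 0 :=
          Finset.sum_eq_zero fun j' _ => by
            rw [DK_al, pderiv_X_ite, if_neg, map_zero, mul_zero]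
            intro e
            have := congrArg (fun z : VI n d => Sum.elim (fun _ => 0) (fun p => p.1) z) e
            simp at this
            omega
        have e2 : ∑ ν, c ν * D (Sum.inr ν) (al _ (X (Sum.inr (m, j)))) = 0 :=
          Finset.sum_eq_zero fun ν _ => by rw [h2 _ _ _ (by omega), mul_zero]
        rw [e1, e2, add_zero]
    choose E hE1 hE2 hE3 using fun i : ZI n d => key (Pi.single i 1)
    refine ⟨E, hE1, ?_, hE3⟩
    intro i i'
    rw [hE2, Pi.single_apply]
    by_cases hh : i = i'
    · rw [if_pos hh, if_pos hh.symm]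
    · rw [if_neg hh, if_neg (Ne.symm hh)]

theorem edge_inj (h : FormalCR Q) (k : ℕ) {f : MvPowerSeries (SI n d) ℂ}
    (hf : (subst (edge Q k) f : MvPowerSeries (VI n d) ℂ) = 0) : f = 0 := by
  obtain ⟨D, hD, h1, h2⟩ := exists_dual h k
  refine subst_inj (edge_const h k) (W := Set.univ)
    (Da := Sum.elim (fun j => DK (Sum.inr (k, j) : VI n d)) D) ?_ ?_ hf
  · rintro (j | i)
    · exact DK_mem (Set.mem_univ _)
    · exact hD i
  · rintro (j | i) (j' | i')
    · show DK (Sum.inr (k, j) : VI n d) (al _ (X (Sum.inr (k, j')))) = _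
      rw [DK_al, pderiv_X_ite]
      by_cases hh : j = j'
      · rw [if_pos (by rw [hh]), if_pos (by rw [hh]), map_one]
      · rw [if_neg (by simpa using hh), if_neg (by simpa using hh), map_zero]
    · show DK (Sum.inr (k, j) : VI n d) (al _ (om Q k i')) = _
      rw [DK_al, om_indep h _ _ _ _ le_rfl, map_zero, if_neg (by simp)]
    · show D i (al _ (X (Sum.inr (k, j')))) = _
      rw [h2 _ _ _ le_rfl, if_neg (by simp)]
    · show D i (al _ (om Q k i')) = _
      rw [h1]
      by_cases hh : i = i'
      · rw [if_pos hh, if_pos (by rw [hh])]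
      · rw [if_neg hh, if_neg (by simpa using hh)]

end K1

end Pool.Agent.Results.MP_51bf1a_an.JetDet
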