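import Pool.Agent.Helper706.JD.K1

set_option autoImplicit false

open MvPowerSeries

namespace Pool.Agent.Results.MP_51bf1a_an.JetDet

section K2defs

variable {n d : ℕ}

/-- the solutions of the tangency equations -/
def Sol (Q : Bool → Fin d → MvPowerSeries (SI n d) ℂ) :=
  {X : Bool → ZI n d → MvPowerSeries (ZI n d) ℂ // ∀ b, Tang Q b X}

/-- the value of a derivative of a solution at the point `om Q k` of the chain -/
noncomputable def eF (Q : Bool → Fin d → MvPowerSeries (SI n d) ℂ) (k : ℕ) (w : List (ZI n d))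
    (i : ZI n d) : Sol Q → KK (VI n d) :=
  fun X => al _ (subst (om Q k) (pdz w (X.1 (ty k) i)) : MvPowerSeries (VI n d) ℂ)

/-- the span of the derivatives of order at most `s` at the point `om Q k` of the chain -/
noncomputable def VV (Q : Bool → Fin d → MvPowerSeries (SI n d) ℂ) (k s : ℕ) :
    Submodule (KK (VI n d)) (Sol Q → KK (VI n d)) :=
  Submodule.span _ {e | ∃ w i, w.length ≤ s ∧ e = eF Q k w i}

end K2defs

/-! ### the reflection argument -/

section K2

variable {n d : ℕ} {Q : Bool → Fin d → MvPowerSeries (SI n d) ℂ}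

theorem VV_mono {k s s' : ℕ} (hs : s ≤ s') : VV Q k s ≤ VV Q k s' := by
  apply Submodule.span_mono
  rintro e ⟨w, i, hw, rfl⟩
  exact ⟨w, i, hw.trans hs, rfl⟩

theorem eF_mem (k : ℕ) (w : List (ZI n d)) (i : ZI n d) : eF Q k w i ∈ VV Q k w.length :=
  Submodule.subset_span ⟨w, i, le_rfl, rfl⟩

theorem der_eF (h : FormalCR Q) (k : ℕ) {D : Derivation ℂ (KK (VI n d)) (KK (VI n d))}
    (hD : D ∈ DD Set.univ) (w : List (ZI n d)) (i : ZI n d) (X : Sol Q) :
    D (eF Q k w i X) = ∑ i', D (al _ (om Q k i')) * eF Q k (i' :: w) i X := by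
  unfold eF
  rw [chain_rule hD (om_const h k)]
  refine Finset.sum_congr rfl fun i' _ => ?_
  rw [mul_comm]
  rfl

theorem der_mem (h : FormalCR Q) (k s : ℕ) {D : Derivation ℂ (KK (VI n d)) (KK (VI n d))}
    (hD : D ∈ DD Set.univ) {f : Sol Q → KK (VI n d)} (hf : f ∈ VV Q k s) :
    (fun X => D (f X)) ∈ VV Q k (s + 1) := by
  induction hf using Submodule.span_induction with
  | mem e he =>
    obtain ⟨w, i, hw, rfl⟩ := he
    have : (fun X => D (eF Q k w i X)) = ∑ i', D (al _ (om Q k i')) • eF Q k (i' :: w) i := by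
      funext X
      rw [der_eF h k hD]
      simp [Finset.sum_apply]
    rw [this]
    refine Submodule.sum_mem _ fun i' _ => Submodule.smul_mem _ _ ?_
    exact Submodule.subset_span ⟨i' :: w, i, by simpa using hw, rfl⟩
  | zero =>
    have : (fun X : Sol Q => D ((0 : Sol Q → KK (VI n d)) X)) = 0 := by
      funext X
      simp
    rw [this]
    exact Submodule.zero_mem _
  | add f g _ _ hf hg =>
    have : (fun X : Sol Q => D ((f + g) X)) = (fun X => D (f X)) + (fun X => D (g X)) := by
      funext X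
      simp
    rw [this]
    exact Submodule.add_mem _ hf hg
  | smul c f hf' hf =>
    have : (fun X : Sol Q => D ((c • f) X)) = c • (fun X => D (f X)) + (D c) • f := by
      funext X
      simp only [Pi.smul_apply, Pi.add_apply, smul_eq_mul, Derivation.leibniz]
      ring
    rw [this]
    exact Submodule.add_mem _ (Submodule.smul_mem _ _ hf)
      (Submodule.smul_mem _ _ (VV_mono (Nat.le_succ s) hf'))

/-- pull back to an edge and pass to the fraction field -/
noncomputable def phiB (h : FormalCR Q) (k : ℕ) : MvPowerSeries (SI n d) ℂ →+* KK (VI n d) :=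
  (al (VI n d)).comp (substAlgHom (hasSubst_of_constantCoeff_zero (edge_const h k))).toRingHom

theorem phiB_apply (h : FormalCR Q) (k : ℕ) (f : MvPowerSeries (SI n d) ℂ) :
    phiB h k f = al _ (subst (edge Q k) f) := by
  unfold phiB
  rw [RingHom.comp_apply]
  congr 1
  exact substAlgHom_apply (hasSubst_of_constantCoeff_zero (edge_const h k)) f

theorem phi_inj (h : FormalCR Q) (k : ℕ) {f : MvPowerSeries (SI n d) ℂ} (hf : phiB h k f = 0) :
    f = 0 := by
  rw [phiB_apply] at hf
  apply edge_inj h k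
  apply al_inj
  rw [hf, map_zero]

theorem uv_constB (h : FormalCR Q) (b : Bool) (i : ZI n d) : constantCoeff (uv Q b i) = 0 := by
  rcases i with j | μ
  · simp [uv]
  · exact h.const b μ

theorem phi_uv (h : FormalCR Q) (k : ℕ) (f : MvPowerSeries (ZI n d) ℂ) :
    phiB h k (subst (uv Q (ty (k + 1))) f) = al _ (subst (om Q (k + 1)) f) := by
  rw [phiB_apply, subst_comp_subst_apply (hasSubst_of_constantCoeff_zero (uv_constB h _))
    (hasSubst_of_constantCoeff_zero (edge_const h k))]
  have : om Q (k + 1) = fun s => subst (edge Q k) (uv Q (ty (k + 1)) s) :=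
    funext fun i => om_succ h k i
  rw [this]

theorem phi_pv (h : FormalCR Q) (k : ℕ) (f : MvPowerSeries (ZI n d) ℂ) :
    phiB h k (subst pv f) = al _ (subst (om Q k) f) := by
  have hpv : ∀ i : ZI n d, constantCoeff (pv i : MvPowerSeries (SI n d) ℂ) = 0 := by
    intro i
    simp [pv]
  rw [phiB_apply, subst_comp_subst_apply (hasSubst_of_constantCoeff_zero hpv)
    (hasSubst_of_constantCoeff_zero (edge_const h k))]
  have : om Q k = fun s => subst (edge Q k) (pv s : MvPowerSeries (SI n d) ℂ) :=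
    funext fun i => om_eq_pv h k i
  conv_rhs => rw [this]

/-- the derivatives of the tangency equation along the edge -/
noncomputable def gF (h : FormalCR Q) (k : ℕ) (w : List (Fin n)) (μ : Fin d) :
    Sol Q → KK (VI n d) :=
  fun X => ∑ i, phiB h k (pdx w (pderiv ℂ (Sum.inr i) (Q (ty (k + 1)) μ))) * eF Q k [] i X

theorem ty_succ (k : ℕ) : (!ty (k + 1)) = ty k := by
  simp [ty]

theorem gF_nil (h : FormalCR Q) (k : ℕ) (μ : Fin d) : gF h k [] μ =
    eF Q (k + 1) [] (Sum.inr μ) - ∑ j, phiB h k (pderiv ℂ (Sum.inl j) (Q (ty (k + 1)) μ)) •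
      eF Q (k + 1) [] (Sum.inl j) := by
  funext X
  have hX := congrArg (phiB h k) (X.2 (ty (k + 1)) μ)
  simp only [map_add, map_sum, map_mul, phi_uv, phi_pv, ty_succ] at hX
  simp only [gF, eF, pdx, pdz, Pi.sub_apply, Finset.sum_apply, Pi.smul_apply, smul_eq_mul]
  rw [hX]
  ring

theorem DK_phi (h : FormalCR Q) (k : ℕ) (j : Fin n) (f : MvPowerSeries (SI n d) ℂ) :
    DK (Sum.inr (k, j) : VI n d) (phiB h k f) = phiB h k (pderiv ℂ (Sum.inl j) f) := by
  rw [phiB_apply, chain_rule (DK_mem (Set.mem_univ _)) (edge_const h k), phiB_apply]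
  rw [Fintype.sum_sum_type]
  have e1 : ∀ j' : Fin n, DK (Sum.inr (k, j) : VI n d) (al _ (edge Q k (Sum.inl j'))) =
      if j' = j then 1 else 0 := by
    intro j'
    rw [DK_al]
    simp only [edge, Sum.elim_inl]
    by_cases hj : j' = j
    · subst hj
      rw [pderiv_X_self, if_pos rfl, map_one]
    · rw [pderiv_X_of_ne, if_neg hj, map_zero]
      intro hcon
      apply hj
      have := Sum.inr_injective hcon
      exact (Prod.mk.inj this).2
  have e2 : ∀ i : ZI n d, DK (Sum.inr (k, j) : VI n d) (al _ (edge Q k (Sum.inr i))) = 0 := by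
    intro i
    rw [DK_al]
    simp only [edge, Sum.elim_inr]
    rw [om_indep h k k j i le_rfl, map_zero]
  simp only [e1, e2, mul_zero, Finset.sum_const_zero, add_zero, mul_ite, mul_one]
  simp

theorem DK_eF (h : FormalCR Q) (k : ℕ) (j : Fin n) (w : List (ZI n d)) (i : ZI n d) (X : Sol Q) :
    DK (Sum.inr (k, j) : VI n d) (eF Q k w i X) = 0 := by
  rw [der_eF h k (DK_mem (Set.mem_univ _))]
  apply Finset.sum_eq_zero
  intro i' _
  rw [DK_al, om_indep h k k j i' le_rfl, map_zero, zero_mul]

theorem gF_cons (h : FormalCR Q) (k : ℕ) (j : Fin n) (w : List (Fin n)) (μ : Fin d) :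
    (fun X => DK (Sum.inr (k, j) : VI n d) (gF h k w μ X)) = gF h k (j :: w) μ := by
  funext X
  simp only [gF]
  rw [map_sum]
  refine Finset.sum_congr rfl fun i _ => ?_
  rw [Derivation.leibniz, DK_eF h, DK_phi h]
  simp only [smul_eq_mul, pdx]
  ring

theorem gF_mem (h : FormalCR Q) (k : ℕ) (w : List (Fin n)) (μ : Fin d) :
    gF h k w μ ∈ VV Q (k + 1) w.length := by
  induction w with
  | nil =>
    have e0 : ∀ i, eF Q (k + 1) [] i ∈ VV Q (k + 1) 0 := fun i => eF_mem (k + 1) [] i
    have e1 : gF h k [] μ ∈ VV Q (k + 1) 0 := by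
      rw [gF_nil]
      apply Submodule.sub_mem
      · exact e0 _
      · apply Submodule.sum_mem
        intro j _
        apply Submodule.smul_mem
        exact e0 _
    rw [List.length_nil]
    exact e1
  | cons j w ih =>
    rw [← gF_cons]
    exact der_mem h (k + 1) _ (DK_mem (Set.mem_univ _)) ih

theorem eF_nil_mem (h : FormalCR Q) (hHN : ∀ b, FHN Q b) (k : ℕ) :
    ∃ l, ∀ i, eF Q k [] i ∈ VV Q (k + 1) l := by
  obtain ⟨r, hr⟩ := hHN (ty (k + 1))
  set m : Matrix (ZI n d) (ZI n d) (KK (VI n d)) := Matrix.of fun i i' =>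
    phiB h k (pdx (r i).1 (pderiv ℂ (Sum.inr i') (Q (ty (k + 1)) (r i).2))) with hm
  have hdet : m.det ≠ 0 := by
    intro h0
    apply hr
    apply phi_inj h k
    rw [RingHom.map_det, ← h0]
    rfl
  have hu : IsUnit m.det := isUnit_iff_ne_zero.2 hdet
  refine ⟨Finset.univ.sup (fun i => (r i).1.length), fun i' => ?_⟩
  have e : eF Q k [] i' = ∑ i, (m⁻¹ i' i) • gF h k (r i).1 (r i).2 := by
    funext X
    have h1 : (fun i => gF h k (r i).1 (r i).2 X) = m.mulVec (fun i => eF Q k [] i X) := by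
      funext i
      simp only [gF, Matrix.mulVec, dotProduct, hm, Matrix.of_apply]
    have h2 : m⁻¹.mulVec (fun i => gF h k (r i).1 (r i).2 X) = fun i => eF Q k [] i X := by
      rw [h1, Matrix.mulVec_mulVec, Matrix.nonsing_inv_mul m hu, Matrix.one_mulVec]
    have h3 := congrFun h2 i'
    simp only [Matrix.mulVec, dotProduct] at h3
    rw [← h3]
    simp [Finset.sum_apply]
  rw [e]
  refine Submodule.sum_mem _ fun i _ => Submodule.smul_mem _ _ ?_
  exact VV_mono (Finset.le_sup (f := fun i => (r i).1.length) (Finset.mem_univ i))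
    (gF_mem h k _ _)

theorem VV_step (h : FormalCR Q) (hHN : ∀ b, FHN Q b) (k : ℕ) :
    ∃ l, ∀ s, VV Q k s ≤ VV Q (k + 1) (l + s) := by
  obtain ⟨l, hl⟩ := eF_nil_mem h hHN k
  obtain ⟨D, hD, hDom, -⟩ := exists_dual h k
  have key : ∀ (w : List (ZI n d)) (i : ZI n d), eF Q k w i ∈ VV Q (k + 1) (l + w.length) := by
    intro w
    induction w with
    | nil =>
      intro i
      exact hl i
    | cons i' w ih =>
      intro i
      have e : eF Q k (i' :: w) i = fun X => D i' (eF Q k w i X) := by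
        funext X
        rw [der_eF h k (hD i')]
        simp [hDom]
      rw [e]
      exact der_mem h (k + 1) _ (hD i') (ih i)
  refine ⟨l, fun s => ?_⟩
  unfold VV
  rw [Submodule.span_le]
  rintro e ⟨w, i, hw, rfl⟩
  exact VV_mono (Nat.add_le_add_left hw l) (key w i)

theorem reflect (h : FormalCR Q) (hHN : ∀ b, FHN Q b) (k : ℕ) :
    ∃ s, ∀ i, eF Q 0 [] i ∈ VV Q k s := by
  induction k with
  | zero => exact ⟨0, fun i => eF_mem 0 [] i⟩
  | succ k ih =>
    obtain ⟨s, hs⟩ := ih
    obtain ⟨l, hl⟩ := VV_step h hHN k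
    exact ⟨l + s, fun i => hl s (hs i)⟩

end K2

end Pool.Agent.Results.MP_51bf1a_an.JetDet
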