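import Pool.Agent.Helper706.JD.F2

set_option autoImplicit false

open MvPowerSeries

namespace Pool.Agent.Results.MP_51bf1a_an.JetDet

/-! ### `DD W` is closed under brackets -/

section K3a

variable {V : Type*} [DecidableEq V]

theorem K3a_pderiv_comm (v v' : V) (f : MvPowerSeries V ℂ) :
    pderiv ℂ v (pderiv ℂ v' f) = pderiv ℂ v' (pderiv ℂ v f) := by
  by_cases h : v = v'
  · rw [h]
  ext e
  rw [coeff_pderiv, coeff_pderiv, coeff_pderiv, coeff_pderiv]
  have h1 : (e + Finsupp.single v 1 : V →₀ ℕ) v' = e v' := by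
    rw [Finsupp.add_apply, Finsupp.single_apply, if_neg h, add_zero]
  have h2 : (e + Finsupp.single v' 1 : V →₀ ℕ) v = e v := by
    rw [Finsupp.add_apply, Finsupp.single_apply, if_neg (Ne.symm h), add_zero]
  rw [h1, h2, add_right_comm e (Finsupp.single v' 1) (Finsupp.single v 1)]
  ring

theorem K3a_ext {D D' : Derivation ℂ (KK V) (KK V)}
    (h : ∀ x : MvPowerSeries V ℂ, D (al V x) = D' (al V x)) : D = D' := by
  ext k
  obtain ⟨x, y, hy, rfl⟩ := IsFractionRing.div_surjective (A := MvPowerSeries V ℂ) k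
  have hy0 : al V y ≠ 0 := by
    intro h0
    apply nonZeroDivisors.ne_zero hy
    apply al_inj
    rw [h0, map_zero]
  have hk : (al V x / al V y) * al V y = al V x := div_mul_cancel₀ _ hy0
  have e1 := D.leibniz (al V x / al V y) (al V y)
  have e2 := D'.leibniz (al V x / al V y) (al V y)
  rw [hk] at e1 e2
  rw [← h, ← h, e1] at e2
  have e3 := add_left_cancel e2
  rw [smul_eq_mul, smul_eq_mul] at e3
  exact mul_left_cancel₀ hy0 e3

theorem K3a_DK_comm (v v' : V) : ⁅DK v, DK v'⁆ = (0 : Derivation ℂ (KK V) (KK V)) := by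
  apply K3a_ext
  intro x
  rw [Derivation.commutator_apply, DK_al, DK_al, DK_al, DK_al, K3a_pderiv_comm, sub_self]
  rfl

theorem K3a_lie_zero (D : Derivation ℂ (KK V) (KK V)) :
    ⁅D, (0 : Derivation ℂ (KK V) (KK V))⁆ = 0 := by
  ext k
  simp [Derivation.commutator_apply]

theorem K3a_zero_lie (D : Derivation ℂ (KK V) (KK V)) :
    ⁅(0 : Derivation ℂ (KK V) (KK V)), D⁆ = 0 := by
  ext k
  simp [Derivation.commutator_apply]

theorem K3a_lie_add (D D₁ D₂ : Derivation ℂ (KK V) (KK V)) :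
    ⁅D, D₁ + D₂⁆ = ⁅D, D₁⁆ + ⁅D, D₂⁆ := by
  ext k
  simp only [Derivation.commutator_apply, Derivation.add_apply, map_add]
  ring

theorem K3a_add_lie (D D₁ D₂ : Derivation ℂ (KK V) (KK V)) :
    ⁅D₁ + D₂, D⁆ = ⁅D₁, D⁆ + ⁅D₂, D⁆ := by
  ext k
  simp only [Derivation.commutator_apply, Derivation.add_apply, map_add]
  ring

theorem DD_bracket {W : Set V} {D D' : Derivation ℂ (KK V) (KK V)} (hD : D ∈ DD W)
    (hD' : D' ∈ DD W) : ⁅D, D'⁆ ∈ DD W := by
  induction hD using Submodule.span_induction with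
  | mem D hD =>
    obtain ⟨v, hv, rfl⟩ := hD
    induction hD' using Submodule.span_induction with
    | mem D' hD' =>
      obtain ⟨v', hv', rfl⟩ := hD'
      rw [K3a_DK_comm]
      exact Submodule.zero_mem _
    | zero => rw [K3a_lie_zero]; exact Submodule.zero_mem _
    | add D₁ D₂ h₁ h₂ i₁ i₂ => rw [K3a_lie_add]; exact Submodule.add_mem _ i₁ i₂
    | smul c D₁ h₁ i₁ =>
      have : ⁅DK v, c • D₁⁆ = c • ⁅DK v, D₁⁆ + (DK v c) • D₁ := by
        ext k
        simp only [Derivation.commutator_apply, Derivation.add_apply, Derivation.smul_apply,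
          smul_eq_mul, Derivation.leibniz]
        ring
      rw [this]
      exact Submodule.add_mem _ (Submodule.smul_mem _ _ i₁) (Submodule.smul_mem _ _ h₁)
  | zero => rw [K3a_zero_lie]; exact Submodule.zero_mem _
  | add D₁ D₂ h₁ h₂ i₁ i₂ => rw [K3a_add_lie]; exact Submodule.add_mem _ i₁ i₂
  | smul c D₁ h₁ i₁ =>
    have : ⁅c • D₁, D'⁆ = c • ⁅D₁, D'⁆ - (D' c) • D₁ := by
      ext k
      simp only [Derivation.commutator_apply, Derivation.sub_apply, Derivation.smul_apply,
        smul_eq_mul, Derivation.leibniz]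
      ring
    rw [this]
    exact Submodule.sub_mem _ (Submodule.smul_mem _ _ i₁) (Submodule.smul_mem _ _ h₁)

end K3a

end Pool.Agent.Results.MP_51bf1a_an.JetDet
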