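import Pool.Agent.Helper706.JD.K1

set_option autoImplicit false

open MvPowerSeries

namespace Pool.Agent.Results.MP_51bf1a_an.JetDet

section K3defs

/-- evaluation of derivations on a tuple of power series -/
noncomputable def evL {V ι : Type*} (a : ι → MvPowerSeries V ℂ) :
    Derivation ℂ (KK V) (KK V) →ₗ[KK V] (ι → KK V) where
  toFun D := fun i => D (al V (a i))
  map_add' D D' := by ext i; simp
  map_smul' c D := by ext i; simp

variable {n d : ℕ}

/-- velocities of the point `om Q k` when the `x`-variables move -/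
noncomputable def UU (Q : Bool → Fin d → MvPowerSeries (SI n d) ℂ) (k : ℕ) :
    Submodule (KK (VI n d)) (ZI n d → KK (VI n d)) :=
  (DD (Set.range Sum.inr)).map (evL (om Q k))

/-- velocities of the edge `edge Q k` when the `x`-variables move -/
noncomputable def GG (Q : Bool → Fin d → MvPowerSeries (SI n d) ℂ) (k : ℕ) :
    Submodule (KK (VI n d)) (SI n d → KK (VI n d)) :=
  (DD (Set.range Sum.inr)).map (evL (edge Q k))

/-- the differential of the endpoint map at the edge `edge Q k` -/
noncomputable def AA (Q : Bool → Fin d → MvPowerSeries (SI n d) ℂ) (k : ℕ) :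
    (SI n d → KK (VI n d)) →ₗ[KK (VI n d)] (ZI n d → KK (VI n d)) where
  toFun g := Sum.elim (fun j => g (Sum.inl j)) (fun μ => ∑ s,
    al _ (subst (edge Q k) (pderiv ℂ s (Q (ty (k + 1)) μ)) : MvPowerSeries (VI n d) ℂ) * g s)
  map_add' g g' := by
    funext i
    rcases i with j | μ
    · simp
    · simp [mul_add, Finset.sum_add_distrib]
  map_smul' c g := by
    funext i
    rcases i with j | μ
    · simp
    · simp only [Sum.elim_inr, Pi.smul_apply, smul_eq_mul, RingHom.id_apply, Finset.mul_sum]
      exact Finset.sum_congr rfl fun s _ => by ring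

end K3defs

/-! ### the dimension argument -/

section K3b1

variable {n d : ℕ} {Q : Bool → Fin d → MvPowerSeries (SI n d) ℂ}

theorem k3_fr_map {K V V' : Type*} [Field K] [AddCommGroup V] [Module K V] [AddCommGroup V']
    [Module K V'] [FiniteDimensional K V] (f : V →ₗ[K] V') (G : Submodule K V) :
    Module.finrank K (G.map f) + Module.finrank K (LinearMap.ker f ⊓ G : Submodule K V) =
      Module.finrank K G := by
  have h := LinearMap.finrank_range_add_finrank_ker (f ∘ₗ G.subtype)
  have h1 : LinearMap.range (f ∘ₗ G.subtype) = G.map f := by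
    rw [LinearMap.range_comp, Submodule.range_subtype]
  have h2 : Module.finrank K (LinearMap.ker (f ∘ₗ G.subtype)) =
      Module.finrank K (LinearMap.ker f ⊓ G : Submodule K V) := by
    rw [LinearMap.ker_comp, ← Submodule.finrank_map_subtype_eq, Submodule.map_comap_subtype,
      inf_comm]
  rw [h1, h2] at h
  exact h

theorem k3_fr_comap {K V V' : Type*} [Field K] [AddCommGroup V] [Module K V] [AddCommGroup V']
    [Module K V'] [FiniteDimensional K V] (f : V →ₗ[K] V') (hf : Function.Surjective f)
    (S : Submodule K V') :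
    Module.finrank K (S.comap f) = Module.finrank K S + Module.finrank K (LinearMap.ker f) := by
  have h := k3_fr_map f (S.comap f)
  rw [Submodule.map_comap_eq_of_surjective hf,
    inf_eq_left.2 (LinearMap.ker_le_comap f)] at h
  exact h.symm

theorem mem_GG_iff (h : FormalCR Q) (k : ℕ) (g : SI n d → KK (VI n d)) :
    g ∈ GG Q k ↔ (fun i => g (Sum.inr i)) ∈ UU Q k := by
  constructor
  · rintro ⟨D, hD, rfl⟩
    exact ⟨D, hD, rfl⟩
  · rintro ⟨D, hD, hDg⟩
    refine ⟨D + ∑ j : Fin n, (g (Sum.inl j) - D (al _ (X (Sum.inr (k, j))))) •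
      DK (Sum.inr (k, j) : VI n d), ?_, ?_⟩
    · apply Submodule.add_mem _ hD
      exact Submodule.sum_mem _ fun j _ => Submodule.smul_mem _ _ (DK_mem ⟨_, rfl⟩)
    · rw [map_add, map_sum]
      simp only [map_smul]
      funext s
      rw [Pi.add_apply, Finset.sum_apply]
      rcases s with j | i
      · have h1 : ∀ j' : Fin n, ((g (Sum.inl j') - D (al _ (X (Sum.inr (k, j'))))) •
            evL (edge Q k) (DK (Sum.inr (k, j') : VI n d))) (Sum.inl j) =
            if j' = j then g (Sum.inl j) - D (al _ (X (Sum.inr (k, j)))) else 0 := by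
          intro j'
          show (g (Sum.inl j') - D (al _ (X (Sum.inr (k, j'))))) *
            DK (Sum.inr (k, j') : VI n d) (al _ (X (Sum.inr (k, j)))) = _
          rw [DK_al]
          by_cases hj : j' = j
          · subst hj
            rw [pderiv_X_self, map_one, mul_one, if_pos rfl]
          · rw [pderiv_X_of_ne (by
              intro he
              apply hj
              have := Sum.inr.inj he
              exact (Prod.mk.inj this).2.symm), map_zero, mul_zero, if_neg hj]
        rw [Finset.sum_congr rfl fun j' _ => h1 j', Finset.sum_ite_eq']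
        simp only [Finset.mem_univ, if_true]
        show D (al _ (X (Sum.inr (k, j)))) + _ = _
        ring
      · have h1 : ∀ j' : Fin n, ((g (Sum.inl j') - D (al _ (X (Sum.inr (k, j'))))) •
            evL (edge Q k) (DK (Sum.inr (k, j') : VI n d))) (Sum.inr i) = 0 := by
          intro j'
          show (g (Sum.inl j') - D (al _ (X (Sum.inr (k, j'))))) *
            DK (Sum.inr (k, j') : VI n d) (al _ (om Q k i)) = _
          rw [DK_al, om_indep h k k j' i le_rfl, map_zero, mul_zero]
        rw [Finset.sum_congr rfl fun j' _ => h1 j', Finset.sum_const_zero, add_zero]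
        exact congrFun hDg i

theorem k3_UU_succ (h : FormalCR Q) (k : ℕ) : UU Q (k + 1) = (GG Q k).map (AA Q k) := by
  have key : ∀ D ∈ DD (Set.range (Sum.inr : ℕ × Fin n → VI n d)),
      evL (om Q (k + 1)) D = AA Q k (evL (edge Q k) D) := by
    intro D hD
    funext i
    rcases i with j | μ
    · rfl
    · show D (al _ (om Q (k + 1) (Sum.inr μ))) = ∑ s,
        al _ (subst (edge Q k) (pderiv ℂ s (Q (ty (k + 1)) μ)) : MvPowerSeries (VI n d) ℂ) *
          D (al _ (edge Q k s))
      rw [om_succ h]
      exact chain_rule hD (edge_const h k) _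
  unfold UU GG
  rw [← Submodule.map_comp]
  ext t
  simp only [Submodule.mem_map]
  constructor
  · rintro ⟨D, hD, rfl⟩
    exact ⟨D, hD, (key D hD).symm⟩
  · rintro ⟨D, hD, rfl⟩
    exact ⟨D, hD, key D hD⟩

theorem k3_surj (h : FormalCR Q) (k : ℕ) : Function.Surjective (AA Q k) := by
  classical
  have hs := hasSubst_of_constantCoeff_zero (edge_const h k)
  let φ : MvPowerSeries (SI n d) ℂ →+* KK (VI n d) :=
    (al (VI n d)).comp (substAlgHom hs).toRingHom
  have hφ : ∀ f, φ f = al _ (subst (edge Q k) f : MvPowerSeries (VI n d) ℂ) := by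
    intro f
    show al _ (substAlgHom hs f) = _
    rw [substAlgHom_apply]
  have hw := congrArg φ.mapMatrix (wmat_mul h (ty (k + 1)))
  rw [map_mul, map_one] at hw
  intro t
  let r : Fin d → KK (VI n d) := fun μ => t (Sum.inr μ) - ∑ j : Fin n,
    al _ (subst (edge Q k) (pderiv ℂ (Sum.inl j) (Q (ty (k + 1)) μ)) : MvPowerSeries (VI n d) ℂ) *
      t (Sum.inl j)
  let c : Fin d → KK (VI n d) := (φ.mapMatrix (Matrix.of fun μ ν =>
    (subst (inve Q (ty (k + 1))) (pderiv ℂ (Sum.inr (Sum.inr ν)) (Q (!(ty (k + 1))) μ)) :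
      MvPowerSeries (SI n d) ℂ))).mulVec r
  have hc : (φ.mapMatrix (Matrix.of fun μ ν =>
      pderiv ℂ (Sum.inr (Sum.inr ν)) (Q (ty (k + 1)) μ))).mulVec c = r := by
    simp only [c]
    rw [Matrix.mulVec_mulVec, hw, Matrix.one_mulVec]
  refine ⟨Sum.elim (fun j => t (Sum.inl j)) (Sum.elim 0 c), ?_⟩
  funext i
  rcases i with j | μ
  · rfl
  · show (∑ s : SI n d,
      al _ (subst (edge Q k) (pderiv ℂ s (Q (ty (k + 1)) μ)) : MvPowerSeries (VI n d) ℂ) *
        (Sum.elim (fun j => t (Sum.inl j)) (Sum.elim 0 c) : SI n d → KK (VI n d)) s) = t (Sum.inr μ)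
    have hcμ := congrFun hc μ
    rw [Matrix.mulVec, dotProduct] at hcμ
    rw [Fintype.sum_sum_type, Fintype.sum_sum_type]
    simp only [Sum.elim_inl, Sum.elim_inr, Pi.zero_apply, mul_zero, Finset.sum_const_zero, zero_add]
    have h2 : ∑ x : Fin d, al _ (subst (edge Q k) (pderiv ℂ (Sum.inr (Sum.inr x))
        (Q (ty (k + 1)) μ)) : MvPowerSeries (VI n d) ℂ) * c x = r μ := by
      rw [← hcμ]
      refine Finset.sum_congr rfl fun x _ => ?_
      rw [← hφ]
      rfl
    rw [h2]
    simp only [r]
    ring

theorem exists_stable (h : FormalCR Q) :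
    ∃ k, ∀ g : SI n d → KK (VI n d), AA Q k g = 0 → g ∈ GG Q k := by
  classical
  -- the dimension of the kernel of `AA`
  have hker : ∀ k, Module.finrank (KK (VI n d)) (LinearMap.ker (AA Q k)) = n := by
    intro k
    have h1 := LinearMap.finrank_range_add_finrank_ker (AA Q k)
    rw [LinearMap.range_eq_top.2 (k3_surj h k), finrank_top] at h1
    simp only [Module.finrank_fintype_fun_eq_card, Fintype.card_sum, Fintype.card_fin] at h1
    omega
  have hGG : ∀ k, Module.finrank (KK (VI n d)) (GG Q k) = n + Module.finrank (KK (VI n d)) (UU Q k) := by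
    intro k
    let π : (SI n d → KK (VI n d)) →ₗ[KK (VI n d)] (ZI n d → KK (VI n d)) :=
      LinearMap.funLeft (KK (VI n d)) (KK (VI n d)) Sum.inr
    have hπ : Function.Surjective π := by
      intro t
      exact ⟨Sum.elim 0 t, rfl⟩
    have h1 : GG Q k = (UU Q k).comap π := by
      ext g
      rw [mem_GG_iff h, Submodule.mem_comap]
      rfl
    have h2 := LinearMap.finrank_range_add_finrank_ker π
    rw [LinearMap.range_eq_top.2 hπ, finrank_top] at h2
    simp only [Module.finrank_fintype_fun_eq_card, Fintype.card_sum, Fintype.card_fin] at h2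
    have h3 := k3_fr_comap π hπ (UU Q k)
    rw [← h1] at h3
    omega
  have hstep : ∀ k, Module.finrank (KK (VI n d)) (UU Q (k + 1)) +
      Module.finrank (KK (VI n d)) (LinearMap.ker (AA Q k) ⊓ GG Q k : Submodule (KK (VI n d)) (SI n d → KK (VI n d))) =
      n + Module.finrank (KK (VI n d)) (UU Q k) := by
    intro k
    rw [k3_UU_succ h, ← hGG k]
    exact k3_fr_map _ _
  have hbound : ∀ k, Module.finrank (KK (VI n d)) (UU Q k) ≤ n + d := by
    intro k
    have := Submodule.finrank_le (UU Q k)
    rw [Module.finrank_fintype_fun_eq_card, Fintype.card_sum, Fintype.card_fin,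
      Fintype.card_fin] at this
    exact this
  by_contra hcon
  push Not at hcon
  have hlt : ∀ k, Module.finrank (KK (VI n d)) (UU Q k) + 1 ≤ Module.finrank (KK (VI n d)) (UU Q (k + 1)) := by
    intro k
    have h1 : (LinearMap.ker (AA Q k) ⊓ GG Q k : Submodule (KK (VI n d)) (SI n d → KK (VI n d))) <
        LinearMap.ker (AA Q k) := by
      refine lt_of_le_of_ne inf_le_left fun he => ?_
      obtain ⟨g, hg, hg'⟩ := hcon k
      apply hg'
      have : g ∈ LinearMap.ker (AA Q k) := hg
      rw [← he] at this
      exact this.2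
    have h2 := Submodule.finrank_lt_finrank_of_lt h1
    rw [hker k] at h2
    have h3 := hstep k
    omega
  have hge : ∀ k, k ≤ Module.finrank (KK (VI n d)) (UU Q k) := by
    intro k
    induction k with
    | zero => exact Nat.zero_le _
    | succ k ih =>
      have := hlt k
      omega
  have h1 := hge (n + d + 1)
  have h2 := hbound (n + d + 1)
  omega

end K3b1

end Pool.Agent.Results.MP_51bf1a_an.JetDet
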