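import Pool.Agent.Helper706.JD.K3b1
import Pool.Agent.Helper706.JD.K3a

set_option autoImplicit false

open MvPowerSeries

namespace Pool.Agent.Results.MP_51bf1a_an.JetDet

section K3b2

variable {n d : ℕ} {Q : Bool → Fin d → MvPowerSeries (SI n d) ℂ}



theorem k3b2_subst_subst (h : FormalCR Q) (b : Bool) (f : MvPowerSeries (SI n d) ℂ) :
    (subst (inve Q b) (subst (inve Q (!b)) f : MvPowerSeries (SI n d) ℂ) : MvPowerSeries (SI n d) ℂ) = f := by
  have hc : ∀ b s, constantCoeff (inve Q b s) = 0 := by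
    intro b s
    rcases s with j | j | μ
    · exact constantCoeff_X _
    · exact constantCoeff_X _
    · exact h.const b μ
  have h1 := hasSubst_of_constantCoeff_zero (hc b)
  have h2 := hasSubst_of_constantCoeff_zero (hc (!b))
  rw [subst_comp_subst_apply h2 h1]
  have h3 : (fun s => (subst (inve Q b) (inve Q (!b) s) : MvPowerSeries (SI n d) ℂ)) = X := by
    funext s
    rcases s with j | j | μ
    · show subst (inve Q b) (X (Sum.inr (Sum.inl j))) = _
      rw [subst_X h1]; rfl
    · show subst (inve Q b) (X (Sum.inl j)) = _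
      rw [subst_X h1]; rfl
    · exact h.invol b μ
  rw [h3, subst_self]
  rfl

theorem k3b2_tangent (h : FormalCR Q) (b : Bool) (j : Fin n) (μ : Fin d) :
    pderiv ℂ (Sum.inr (Sum.inl j)) (Q b μ) + ∑ ν, pderiv ℂ (Sum.inr (Sum.inr ν)) (Q b μ) *
      (subst (inve Q b) (pderiv ℂ (Sum.inl j) (Q (!b) ν)) : MvPowerSeries (SI n d) ℂ) = 0 := by
  have hc : ∀ b s, constantCoeff (inve Q b s) = 0 := by
    intro b s
    rcases s with j | j | μ
    · exact constantCoeff_X _
    · exact constantCoeff_X _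
    · exact h.const b μ
  have h1 := congrArg (fun f => pderiv ℂ (Sum.inl j : SI n d) f) (h.invol (!b) μ)
  simp only [Bool.not_not] at h1
  rw [pderiv_subst (hc (!b)), pderiv_X_of_ne (by simp)] at h1
  rw [Fintype.sum_sum_type, Fintype.sum_sum_type] at h1
  have e1 : ∑ x : Fin n, (subst (inve Q (!b)) (pderiv ℂ (Sum.inl x : SI n d) (Q b μ)) : MvPowerSeries (SI n d) ℂ) *
      pderiv ℂ (Sum.inl j) (inve Q (!b) (Sum.inl x)) = 0 := by
    refine Finset.sum_eq_zero fun x _ => ?_
    show _ * pderiv ℂ (Sum.inl j) (X (Sum.inr (Sum.inl x)) : MvPowerSeries (SI n d) ℂ) = 0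
    rw [pderiv_X_of_ne (by simp), mul_zero]
  have e2 : ∑ x : Fin n, (subst (inve Q (!b)) (pderiv ℂ (Sum.inr (Sum.inl x) : SI n d) (Q b μ)) : MvPowerSeries (SI n d) ℂ) *
      pderiv ℂ (Sum.inl j) (inve Q (!b) (Sum.inr (Sum.inl x))) =
      subst (inve Q (!b)) (pderiv ℂ (Sum.inr (Sum.inl j) : SI n d) (Q b μ)) := by
    rw [Finset.sum_eq_single j]
    · show _ * pderiv ℂ (Sum.inl j) (X (Sum.inl j) : MvPowerSeries (SI n d) ℂ) = _
      rw [pderiv_X_self, mul_one]
    · intro x _ hx
      show _ * pderiv ℂ (Sum.inl j) (X (Sum.inl x) : MvPowerSeries (SI n d) ℂ) = 0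
      rw [pderiv_X_of_ne (by simpa using hx), mul_zero]
    · intro hx; exact absurd (Finset.mem_univ _) hx
  rw [e1, zero_add, e2] at h1
  have h2 := congrArg (fun f => (subst (inve Q b) f : MvPowerSeries (SI n d) ℂ)) h1
  have hs := hasSubst_of_constantCoeff_zero (hc b)
  rw [← substAlgHom_apply hs, ← substAlgHom_apply hs, map_add, map_sum, map_zero, substAlgHom_apply hs,
    k3b2_subst_subst h] at h2
  rw [← h2]
  congr 1
  refine Finset.sum_congr rfl fun ν _ => ?_
  rw [map_mul, substAlgHom_apply hs, substAlgHom_apply hs, k3b2_subst_subst h]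
  rfl

/-! ### transversality of long chains -/

theorem exists_transverse (h : FormalCR Q) (hBG : ∀ b, FBG Q b) :
    ∃ k, ∃ Δ : ZI n d → Derivation ℂ (KK (VI n d)) (KK (VI n d)),
      (∀ i, Δ i ∈ DD (Set.range Sum.inr)) ∧
      ∀ i i', Δ i (al _ (om Q k i')) = if i = i' then 1 else 0 := by
  classical
  obtain ⟨k, hk⟩ := exists_stable h
  have hs := hasSubst_of_constantCoeff_zero (edge_const h k)
  let φ : MvPowerSeries (SI n d) ℂ →+* KK (VI n d) := (al (VI n d)).comp (substAlgHom hs).toRingHom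
  have hφ : ∀ f, φ f = al (VI n d) (subst (edge Q k) f) := fun f => by
    show al (VI n d) (substAlgHom hs f) = _
    rw [substAlgHom_apply hs]
  have hφinj : ∀ f, φ f = 0 → f = 0 := by
    intro f hf
    rw [hφ] at hf
    refine edge_inj h k (al_inj ?_)
    rw [hf, map_zero]
  have hchain : ∀ D ∈ DD (V := VI n d) (Set.range Sum.inr), ∀ Y : SI n d → MvPowerSeries (SI n d) ℂ,
      (∀ s, D (al _ (edge Q k s)) = φ (Y s)) → ∀ f, D (φ f) = φ (fapp Y f) := by
    intro D hD Y hY f
    rw [hφ, chain_rule hD (edge_const h k), fapp, map_sum]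
    refine Finset.sum_congr rfl fun s _ => ?_
    rw [hY, map_mul, hφ (pderiv ℂ s f), mul_comm]
  -- every iterated bracket lifts
  have hlift : ∀ Y : SI n d → MvPowerSeries (SI n d) ℂ, FIter Q (ty (k + 1)) Y →
      ∃ D ∈ DD (V := VI n d) (Set.range Sum.inr), ∀ s, D (al _ (edge Q k s)) = φ (Y s) := by
    intro Y hY
    induction hY with
    | L j =>
      refine ⟨DK (Sum.inr (k, j)), DK_mem ⟨_, rfl⟩, fun s => ?_⟩
      rw [DK_al]
      rcases s with j' | i
      · show al _ (pderiv ℂ _ (X (Sum.inr (k, j')))) = φ ((Pi.single j 1 : Fin n → MvPowerSeries (SI n d) ℂ) j')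
        by_cases hj : j' = j
        · subst hj
          rw [pderiv_X_self, Pi.single_eq_same, map_one, map_one]
        · rw [pderiv_X_of_ne (by simpa using hj), Pi.single_eq_of_ne hj, map_zero, map_zero]
      · show al _ (pderiv ℂ _ (om Q k i)) = φ 0
        rw [om_indep h k k j i le_rfl, map_zero, map_zero]
    | L' j =>
      have h1 : (fun s => φ ((Sum.elim 0 (Sum.elim (Pi.single j 1)
          (fun ν => subst (inve Q (ty (k + 1))) (pderiv ℂ (Sum.inl j) (Q (!ty (k + 1)) ν)))) :
          SI n d → MvPowerSeries (SI n d) ℂ) s)) ∈ GG Q k := by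
        apply hk
        funext i
        rcases i with j' | μ
        · show φ 0 = 0
          exact map_zero φ
        · show ∑ s, al _ (subst (edge Q k) (pderiv ℂ s (Q (ty (k + 1)) μ)) : MvPowerSeries (VI n d) ℂ) * _ = 0
          have h2 : ∀ s, al _ (subst (edge Q k) (pderiv ℂ s (Q (ty (k + 1)) μ)) : MvPowerSeries (VI n d) ℂ) =
            φ (pderiv ℂ s (Q (ty (k + 1)) μ)) := fun s => (hφ _).symm
          simp only [h2, ← map_mul, ← map_sum]
          rw [← map_zero φ]
          congr 1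
          rw [Fintype.sum_sum_type, Fintype.sum_sum_type]
          simp only [Sum.elim_inl, Sum.elim_inr, Pi.zero_apply, mul_zero, Finset.sum_const_zero, zero_add]
          rw [← k3b2_tangent h (ty (k + 1)) j μ]
          congr 1
          rw [Finset.sum_eq_single j]
          · rw [Pi.single_eq_same, mul_one]
          · intro x _ hx
            rw [Pi.single_eq_of_ne hx, mul_zero]
          · intro hx; exact absurd (Finset.mem_univ _) hx
      obtain ⟨D, hD, hD2⟩ := Submodule.mem_map.mp h1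
      exact ⟨D, hD, fun s => congrFun hD2 s⟩
    | bracket Y Y' hY hY' ih ih' =>
      obtain ⟨D, hD, hD2⟩ := ih
      obtain ⟨D', hD', hD2'⟩ := ih'
      refine ⟨⁅D, D'⁆, DD_bracket hD hD', fun s => ?_⟩
      rw [Derivation.commutator_apply, hD2', hD2, hchain D hD Y hD2, hchain D' hD' Y' hD2', ← map_sub]
      rfl
  -- spanning
  obtain ⟨Y, hY1, hY2⟩ := hBG (ty (k + 1))
  have hG : ∀ g : SI n d → KK (VI n d), g ∈ GG Q k := by
    intro g
    let M : Matrix (SI n d) (SI n d) (KK (VI n d)) := (Matrix.of Y).map φ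
    have hM : M.det ≠ 0 := by
      intro h0
      apply hY2
      apply hφinj
      rw [RingHom.map_det]
      exact h0
    have hM2 : IsUnit M.det := isUnit_iff_ne_zero.mpr hM
    have h1 : g = Matrix.vecMul (Matrix.vecMul g M⁻¹) M := by
      rw [Matrix.vecMul_vecMul, Matrix.nonsing_inv_mul _ hM2, Matrix.vecMul_one]
    rw [h1]
    have h2 : Matrix.vecMul (Matrix.vecMul g M⁻¹) M = ∑ s, (Matrix.vecMul g M⁻¹) s • (fun t => φ (Y s t)) := by
      funext t
      rw [Finset.sum_apply]
      rfl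
    rw [h2]
    refine Submodule.sum_mem _ fun s _ => Submodule.smul_mem _ _ ?_
    obtain ⟨D, hD, hD2⟩ := hlift (Y s) (hY1 s)
    exact Submodule.mem_map.mpr ⟨D, hD, funext hD2⟩
  have hU : ∀ i : ZI n d, ∃ D ∈ DD (V := VI n d) (Set.range Sum.inr),
      ∀ i', D (al _ (om Q k i')) = (Pi.single i 1 : ZI n d → KK (VI n d)) i' := by
    intro i
    have h1 := (mem_GG_iff h k (Sum.elim 0 (Pi.single i 1))).mp (hG _)
    obtain ⟨D, hD, hD2⟩ := Submodule.mem_map.mp h1
    exact ⟨D, hD, fun i' => congrFun hD2 i'⟩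
  choose Δ hΔ1 hΔ2 using hU
  refine ⟨k, Δ, hΔ1, fun i i' => ?_⟩
  rw [hΔ2, Pi.single_apply]
  simp only [eq_comm]

end K3b2

end Pool.Agent.Results.MP_51bf1a_an.JetDet
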