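import Pool.Agent.Helper706.JD.K2
import Pool.Agent.Helper706.JD.K3b2

set_option autoImplicit false

open MvPowerSeries

namespace Pool.Agent.Results.MP_51bf1a_an.JetDet

section K4

variable {n d : ℕ} {Q : Bool → Fin d → MvPowerSeries (SI n d) ℂ}



/-! ### the core theorem: solutions vanishing to high order vanish -/

theorem formal_core (h : FormalCR Q) (hHN : ∀ b, FHN Q b) (hBG : ∀ b, FBG Q b) :
    ∃ k : ℕ, ∀ X : Bool → ZI n d → MvPowerSeries (ZI n d) ℂ, (∀ b, Tang Q b X) →
      (∀ i, (k : ℕ∞) ≤ (X false i).order) → X false = 0 := by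
  classical
  obtain ⟨k, Δ, hΔ, hΔ'⟩ := exists_transverse h hBG
  obtain ⟨s, hs⟩ := reflect h hHN k
  haveI hfin : Finite {w : List (ZI n d) // w.length ≤ s} :=
    (List.finite_length_le (ZI n d) s).to_subtype
  haveI : Fintype ({w : List (ZI n d) // w.length ≤ s} × ZI n d) := Fintype.ofFinite _
  set N₀ := Fintype.card ({w : List (ZI n d) // w.length ≤ s} × ZI n d) with hN₀
  -- the dual families
  have hΔu : ∀ i, Δ i ∈ DD (Set.univ : Set (VI n d)) := fun i => DD_mono (Set.subset_univ _) (hΔ i)
  have hΔ0 : ∀ i i', Δ i (al _ (om Q 0 i')) = 0 := by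
    intro i i'
    refine DD_kill (hΔ i) ?_
    rintro _ ⟨v, rfl⟩
    show pderiv ℂ (Sum.inr v) (X (Sum.inl i')) = 0
    exact pderiv_X_of_ne (by simp)
  let Db : ZI n d → Derivation ℂ (KK (VI n d)) (KK (VI n d)) := fun i =>
    DK (Sum.inl i) - ∑ i', (DK (Sum.inl i) (al _ (om Q k i'))) • Δ i'
  have hDbu : ∀ i, Db i ∈ DD (Set.univ : Set (VI n d)) := by
    intro i
    exact Submodule.sub_mem _ (DK_mem (Set.mem_univ _))
      (Submodule.sum_mem _ fun i' _ => Submodule.smul_mem _ _ (hΔu i'))
  have hDbapp : ∀ i x, Db i x = DK (Sum.inl i) x -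
      ∑ i', (DK (Sum.inl i) (al _ (om Q k i'))) * Δ i' x := by
    intro i x
    have hds : ∀ (S : Finset (ZI n d)) (f : ZI n d → Derivation ℂ (KK (VI n d)) (KK (VI n d))),
        (∑ i' ∈ S, f i') x = ∑ i' ∈ S, f i' x := by
      intro S f
      induction S using Finset.induction_on with
      | empty => simp
      | insert a S ha ih =>
        rw [Finset.sum_insert ha, Finset.sum_insert ha, Derivation.add_apply, ih]
    simp only [Db, Derivation.sub_apply]
    rw [hds]
    rfl
  have hba : ∀ i i', Db i (al _ (om Q k i')) = 0 := by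
    intro i i'
    rw [hDbapp]
    simp [hΔ']
  have hbb : ∀ i i', Db i (al _ (om Q 0 i')) = if i = i' then 1 else 0 := by
    intro i i'
    rw [hDbapp]
    simp only [hΔ0, mul_zero, Finset.sum_const_zero, sub_zero]
    rw [DK_al]
    show al _ (pderiv ℂ (Sum.inl i) (X (Sum.inl i'))) = _
    by_cases hi : i = i'
    · subst hi
      rw [pderiv_X_self, map_one, if_pos rfl]
    · rw [pderiv_X_of_ne (by simpa using Ne.symm hi), map_zero, if_neg hi]
  -- the claim
  have claim : ∀ (m : ℕ), N₀ < m → ∀ Y : Fin m → Sol Q, ∃ c : Fin m → ℂ, c ≠ 0 ∧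
      ∀ i, ∑ a, c a • (Y a).1 false i = 0 := by
    intro m hm Y
    obtain ⟨Cf, hC0, hC⟩ : ∃ Cf : Fin m → MvPowerSeries (ZI n d) ℂ, Cf ≠ 0 ∧
        ∀ (w : List (ZI n d)) (i : ZI n d), w.length ≤ s →
          ∑ a, Cf a * pdz w ((Y a).1 (ty k) i) = 0 := by
      let M : Matrix ({w : List (ZI n d) // w.length ≤ s} × ZI n d) (Fin m)
          (MvPowerSeries (ZI n d) ℂ) := fun p a => pdz p.1.1 ((Y a).1 (ty k) p.2)
      have hni : ¬ Function.Injective (Matrix.mulVecLin M) := by
        intro hinj
        have := card_le_of_injective (MvPowerSeries (ZI n d) ℂ) (Matrix.mulVecLin M) hinj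
        rw [Fintype.card_fin] at this
        omega
      rw [← LinearMap.ker_eq_bot, Submodule.eq_bot_iff] at hni
      push_neg at hni
      obtain ⟨Cf, hCk, hC0⟩ := hni
      refine ⟨Cf, hC0, fun w i hw => ?_⟩
      have h1 := congrFun (LinearMap.mem_ker.mp hCk) (⟨w, hw⟩, i)
      simp only [Matrix.mulVecLin_apply, Matrix.mulVec, dotProduct, Pi.zero_apply, M] at h1
      rw [← h1]
      exact Finset.sum_congr rfl fun a _ => mul_comm _ _
    let Phi : (Sol Q → KK (VI n d)) →ₗ[KK (VI n d)] KK (VI n d) :=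
      ∑ a, (al _ (subst (om Q k) (Cf a) : MvPowerSeries (VI n d) ℂ)) •
        (LinearMap.proj (Y a) : (Sol Q → KK (VI n d)) →ₗ[KK (VI n d)] KK (VI n d))
    have hPhi : ∀ f, Phi f = ∑ a, al _ (subst (om Q k) (Cf a) : MvPowerSeries (VI n d) ℂ) *
        f (Y a) := by
      intro f
      simp only [Phi, LinearMap.sum_apply, LinearMap.smul_apply, LinearMap.proj_apply, smul_eq_mul]
    have hk := hasSubst_of_constantCoeff_zero (om_const h k)
    have hPhiV : VV Q k s ≤ LinearMap.ker Phi := by
      refine Submodule.span_le.2 ?_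
      rintro _ ⟨w, i, hw, rfl⟩
      simp only [SetLike.mem_coe, LinearMap.mem_ker]
      rw [hPhi]
      simp only [eF]
      have h1 : ∀ a, al _ (subst (om Q k) (Cf a) : MvPowerSeries (VI n d) ℂ) *
          al _ (subst (om Q k) (pdz w ((Y a).1 (ty k) i)) : MvPowerSeries (VI n d) ℂ) =
          al _ (substAlgHom hk (Cf a * pdz w ((Y a).1 (ty k) i))) := by
        intro a
        rw [← map_mul, map_mul (substAlgHom hk), substAlgHom_apply, substAlgHom_apply]
      rw [Finset.sum_congr rfl fun a _ => h1 a, ← map_sum, ← map_sum, hC w i hw, map_zero, map_zero]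
    have hzero : ∀ i, ∑ a, (subst (om Q k) (Cf a) : MvPowerSeries (VI n d) ℂ) *
        subst (om Q 0) ((Y a).1 false i) = 0 := by
      intro i
      have h1 := LinearMap.mem_ker.mp (hPhiV (hs i))
      rw [hPhi] at h1
      apply al_inj
      rw [map_zero, ← h1, map_sum]
      refine Finset.sum_congr rfl fun a _ => ?_
      rw [map_mul]
      rfl
    obtain ⟨a₀, ha₀⟩ := Function.ne_iff.mp hC0
    obtain ⟨e, he⟩ : ∃ e, coeff e (Cf a₀) ≠ 0 := by
      by_contra hcon
      push_neg at hcon
      exact ha₀ (MvPowerSeries.ext fun e => by simpa using hcon e)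
    refine ⟨fun a => coeff e (Cf a), Function.ne_iff.mpr ⟨a₀, he⟩, fun i => ?_⟩
    have h2 := two_point (om_const h k) (om_const h 0) hΔu hDbu hΔ' hΔ0 hbb hba
      Cf (fun a => (Y a).1 false i) (hzero i)
    ext e'
    rw [map_sum, map_zero, ← h2 e e']
    refine Finset.sum_congr rfl fun a _ => ?_
    simp
  -- independence modulo high order
  by_contra hcon
  push_neg at hcon
  have hind : ∀ m : ℕ, ∃ (Y : Fin m → Sol Q) (N : ℕ), ∀ c : Fin m → ℂ,
      (∀ i, (N : ℕ∞) ≤ (∑ a, c a • (Y a).1 false i).order) → c = 0 := by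
    intro m
    induction m with
    | zero => exact ⟨fun a => a.elim0, 0, fun c _ => by ext a; exact a.elim0⟩
    | succ m ih =>
      obtain ⟨Y, N, hY⟩ := ih
      obtain ⟨Z, hZT, hZo, hZ0⟩ := hcon N
      obtain ⟨i₀, hi₀⟩ := Function.ne_iff.mp hZ0
      have hne : Z false i₀ ≠ 0 := hi₀
      obtain ⟨e, he⟩ : ∃ e, coeff e (Z false i₀) ≠ 0 := by
        by_contra hcon'
        push_neg at hcon'
        exact hne (MvPowerSeries.ext fun e => by simpa using hcon' e)
      obtain ⟨ZS, hZS⟩ : ∃ ZS : Sol Q, ZS.1 = Z := ⟨⟨Z, hZT⟩, rfl⟩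
      refine ⟨(Fin.snoc Y ZS : Fin (m + 1) → Sol Q), max N (e.degree + 1), fun c hc => ?_⟩
      have hsum : ∀ i, ∑ a, c a • ((Fin.snoc Y ZS : Fin (m + 1) → Sol Q) a).1 false i =
          (∑ a : Fin m, c a.castSucc • (Y a).1 false i) + c (Fin.last m) • Z false i := by
        intro i
        rw [Fin.sum_univ_castSucc]
        simp only [Fin.snoc_castSucc, Fin.snoc_last, hZS]
      have h1 : (fun a : Fin m => c a.castSucc) = 0 := by
        apply hY
        intro i
        have h2 := hc i
        rw [hsum] at h2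
        have h3 : (N : ℕ∞) ≤ ((∑ a : Fin m, c a.castSucc • (Y a).1 false i) +
            c (Fin.last m) • Z false i).order := by
          refine le_trans ?_ h2
          exact_mod_cast le_max_left _ _
        have h4 : (N : ℕ∞) ≤ ((-c (Fin.last m)) • Z false i).order :=
          le_trans (hZo i) (by
            rw [MvPowerSeries.smul_eq_C_mul]
            exact order_mul_le' le_rfl)
        have h5 := order_add_le h3 h4
        have h6 : (∑ a : Fin m, c a.castSucc • (Y a).1 false i) + c (Fin.last m) • Z false i +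
            (-c (Fin.last m)) • Z false i = ∑ a : Fin m, c a.castSucc • (Y a).1 false i := by
          rw [neg_smul]; abel
        rwa [h6] at h5
      have h2 : c (Fin.last m) = 0 := by
        have h3 := hc i₀
        rw [hsum] at h3
        have h4 : ∑ a : Fin m, c a.castSucc • (Y a).1 false i₀ = 0 := by
          refine Finset.sum_eq_zero fun a _ => ?_
          rw [show c a.castSucc = 0 from congrFun h1 a, zero_smul]
        rw [h4, zero_add] at h3
        have h5 : coeff e (c (Fin.last m) • Z false i₀) = 0 := by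
          apply coeff_of_lt_order
          refine lt_of_lt_of_le ?_ h3
          exact_mod_cast lt_of_lt_of_le (Nat.lt_succ_self _) (le_max_right _ _)
        rw [map_smul, smul_eq_mul] at h5
        exact (mul_eq_zero.mp h5).resolve_right he
      funext a
      refine Fin.lastCases h2 (fun a => ?_) a
      exact congrFun h1 a
  obtain ⟨Y, N, hY⟩ := hind (N₀ + 1)
  obtain ⟨c, hc0, hc⟩ := claim (N₀ + 1) (Nat.lt_succ_self _) Y
  apply hc0
  apply hY
  intro i
  rw [hc i]
  simp

end K4

end Pool.Agent.Results.MP_51bf1a_an.JetDet
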