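import Pool.Agent.Helper706.JD.A4
import Pool.Agent.Helper706.JD.F1

set_option autoImplicit false

open scoped Topology ContDiff ComplexConjugate
open Set Filter Complex

namespace Pool.Agent.Results.MP_51bf1a_an.JetDet

theorem map_conj_inj {σ : Type*} : Function.Injective
    (MvPowerSeries.map (σ := σ) (starRingEnd ℂ)) := by
  intro f g h
  ext e
  have h1 := congrArg (MvPowerSeries.coeff e) h
  rw [MvPowerSeries.coeff_map, MvPowerSeries.coeff_map] at h1
  exact (starRingEnd ℂ).injective h1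

theorem order_map_conj' {σ : Type*} (f : MvPowerSeries σ ℂ) (m : ℕ) (h : (m : ℕ∞) ≤ f.order) :
    (m : ℕ∞) ≤ (MvPowerSeries.map (starRingEnd ℂ) f).order := by
  apply MvPowerSeries.nat_le_order
  intro e he
  rw [MvPowerSeries.coeff_map, MvPowerSeries.coeff_of_lt_order, map_zero]
  exact lt_of_lt_of_le (by exact_mod_cast he) h

theorem map_conj_pderiv {σ : Type*} [DecidableEq σ] (i : σ) (f : MvPowerSeries σ ℂ) :
    MvPowerSeries.map (starRingEnd ℂ) (MvPowerSeries.pderiv ℂ i f) =
      MvPowerSeries.pderiv ℂ i (MvPowerSeries.map (starRingEnd ℂ) f) := by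
  ext e
  rw [MvPowerSeries.coeff_map, MvPowerSeries.coeff_pderiv, MvPowerSeries.coeff_pderiv,
    MvPowerSeries.coeff_map, map_mul, map_add, map_one, map_natCast]

theorem map_conj_subst {σ τ : Type*} [Fintype σ] {a : σ → MvPowerSeries τ ℂ}
    (ha : ∀ s, MvPowerSeries.constantCoeff (a s) = 0) (f : MvPowerSeries σ ℂ) :
    MvPowerSeries.map (starRingEnd ℂ) (MvPowerSeries.subst a f : MvPowerSeries τ ℂ) =
      MvPowerSeries.subst (fun s => MvPowerSeries.map (starRingEnd ℂ) (a s))
        (MvPowerSeries.map (starRingEnd ℂ) f) := by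
  have ha' : ∀ s, MvPowerSeries.constantCoeff (MvPowerSeries.map (starRingEnd ℂ) (a s)) = 0 := by
    intro s
    rw [MvPowerSeries.constantCoeff_map, ha, map_zero]
  have hs := MvPowerSeries.hasSubst_of_constantCoeff_zero ha
  have hs' := MvPowerSeries.hasSubst_of_constantCoeff_zero ha'
  refine ext_of_poly (T₁ := fun f => MvPowerSeries.map (starRingEnd ℂ)
      (MvPowerSeries.subst a f : MvPowerSeries τ ℂ))
    (T₂ := fun f => MvPowerSeries.subst (fun s => MvPowerSeries.map (starRingEnd ℂ) (a s))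
        (MvPowerSeries.map (starRingEnd ℂ) f)) ?_ ?_ ?_ 0 ?_ ?_ f
  · intro f g
    simp only [MvPowerSeries.subst_add hs, map_add]
  · intro f g
    simp only [MvPowerSeries.subst_add hs', map_add]
  · intro p
    induction p using MvPolynomial.induction_on with
    | C c =>
      rw [MvPolynomial.coe_C, subst_C' ha, MvPowerSeries.map_C, MvPowerSeries.map_C, subst_C' ha']
    | add p q hp hq =>
      simp only [MvPolynomial.coe_add, MvPowerSeries.subst_add hs, map_add,
        MvPowerSeries.subst_add hs']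
      rw [hp, hq]
    | mul_X p i hp =>
      simp only [MvPolynomial.coe_mul, MvPolynomial.coe_X, MvPowerSeries.subst_mul hs, map_mul,
        MvPowerSeries.subst_mul hs', MvPowerSeries.subst_X hs, MvPowerSeries.map_X,
        MvPowerSeries.subst_X hs']
      rw [hp]
  · intro f m h
    exact order_map_conj' _ _ (order_subst ha f m h)
  · intro f m h
    exact order_subst ha' _ m (order_map_conj' _ _ h)

theorem chart_conj {N n d : ℕ} {M : Set (Fin N → ℂ)} {p : Fin N → ℂ} (c : Chart n d M p)
    {Q : Bool → Fin d → MvPowerSeries (SI n d) ℂ}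
    (hQ : ∀ b μ, IsTaylor (fun s => c.q b s μ) (Q b μ)) (b : Bool) (μ : Fin d) :
    Q (!b) μ = MvPowerSeries.map (starRingEnd ℂ) (Q b μ) := by
  refine (hQ (!b) μ).unique ?_
  have h := (hQ b μ).conj
  have e : (fun s => conj (c.q b (cj s) μ)) = fun s => c.q (!b) s μ := by
    funext s
    have h1 := congrFun (c.conj_q b (cj s)) μ
    have h2 : cj (cj s) = s := by
      funext i; simp [cj]
    rw [h2] at h1
    rw [h1]
    rfl
  rwa [e] at h

theorem chart_formalCR {N n d : ℕ} {M : Set (Fin N → ℂ)} {p : Fin N → ℂ} (c : Chart n d M p)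
    {Q : Bool → Fin d → MvPowerSeries (SI n d) ℂ}
    (hQ : ∀ b μ, IsTaylor (fun s => c.q b s μ) (Q b μ)) : FormalCR Q := by
  have hconst : ∀ b μ, MvPowerSeries.constantCoeff (Q b μ) = 0 := by
    intro b μ
    rw [(hQ b μ).constantCoeff, c.zero]
    rfl
  refine ⟨hconst, fun b μ => ?_⟩
  have h1 : ∀ s, IsTaylor (fun x => flipE (c.q b) x s) (inve Q b s) := by
    intro s
    rcases s with j | j | ν
    · exact isTaylor_coord _
    · exact isTaylor_coord _
    · exact hQ b ν
  have h0 : ∀ s, MvPowerSeries.constantCoeff (inve Q b s) = 0 := by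
    intro s
    rcases s with j | j | ν
    · exact MvPowerSeries.constantCoeff_X _
    · exact MvPowerSeries.constantCoeff_X _
    · exact hconst b ν
  have h2 := (hQ (!b) μ).comp h1 h0
  have h3 : IsTaylor (fun x : SI n d → ℂ => x (Sum.inr (Sum.inr μ)))
      (MvPowerSeries.subst (inve Q b) (Q (!b) μ)) := by
    refine h2.congr ?_
    filter_upwards [c.invol b] with s hs
    exact congrFun hs μ
  exact h3.unique (isTaylor_coord _)

theorem exists_chart_series {N n d : ℕ} {M : Set (Fin N → ℂ)} {p : Fin N → ℂ} (c : Chart n d M p) :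
    ∃ Q : Bool → Fin d → MvPowerSeries (SI n d) ℂ,
      ∀ b μ, IsTaylor (fun s => c.q b s μ) (Q b μ) := by
  have h : ∀ b μ, ∃ F : MvPowerSeries (SI n d) ℂ, IsTaylor (fun s => c.q b s μ) F := by
    intro b μ
    exact exists_isTaylor (analyticAt_pi_iff.mp (c.analytic b) μ)
  choose Q hQ using h
  exact ⟨Q, hQ⟩

theorem map_conj_pdx {n d : ℕ} (w : List (Fin n)) (f : MvPowerSeries (SI n d) ℂ) :
    MvPowerSeries.map (starRingEnd ℂ) (pdx w f) = pdx w (MvPowerSeries.map (starRingEnd ℂ) f) := by
  induction w with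
  | nil => rfl
  | cons j w ih =>
    simp only [pdx]
    rw [map_conj_pderiv, ih]

theorem FHN_conj {n d : ℕ} {Q : Bool → Fin d → MvPowerSeries (SI n d) ℂ}
    (hc : ∀ b μ, Q (!b) μ = MvPowerSeries.map (starRingEnd ℂ) (Q b μ)) {b : Bool}
    (h : FHN Q b) : FHN Q (!b) := by
  obtain ⟨r, hr⟩ := h
  refine ⟨r, fun h0 => hr (map_conj_inj ?_)⟩
  rw [map_zero, ← h0, RingHom.map_det]
  congr 1
  ext i i' : 2
  rw [RingHom.mapMatrix_apply, Matrix.map_apply, Matrix.of_apply, Matrix.of_apply,
    map_conj_pdx, map_conj_pderiv, hc]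

theorem inve_conj {n d : ℕ} {Q : Bool → Fin d → MvPowerSeries (SI n d) ℂ}
    (hc : ∀ b μ, Q (!b) μ = MvPowerSeries.map (starRingEnd ℂ) (Q b μ)) (b : Bool) :
    inve Q (!b) = fun s => MvPowerSeries.map (starRingEnd ℂ) (inve Q b s) := by
  funext s
  rcases s with j | j | ν
  · exact (MvPowerSeries.map_X _ _).symm
  · exact (MvPowerSeries.map_X _ _).symm
  · exact hc b ν

theorem inve_const {n d : ℕ} {Q : Bool → Fin d → MvPowerSeries (SI n d) ℂ} (hCR : FormalCR Q)
    (b : Bool) (s : SI n d) : MvPowerSeries.constantCoeff (inve Q b s) = 0 := by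
  rcases s with j | j | ν
  · exact MvPowerSeries.constantCoeff_X _
  · exact MvPowerSeries.constantCoeff_X _
  · exact hCR.const b ν

theorem map_conj_fapp {σ : Type*} [Fintype σ] [DecidableEq σ] (Y : σ → MvPowerSeries σ ℂ)
    (f : MvPowerSeries σ ℂ) :
    MvPowerSeries.map (starRingEnd ℂ) (fapp Y f) =
      fapp (fun s => MvPowerSeries.map (starRingEnd ℂ) (Y s)) (MvPowerSeries.map (starRingEnd ℂ) f) := by
  unfold fapp
  rw [map_sum]
  refine Finset.sum_congr rfl fun s _ => ?_
  rw [map_mul, map_conj_pderiv]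

theorem FIter_conj {n d : ℕ} {Q : Bool → Fin d → MvPowerSeries (SI n d) ℂ} (hCR : FormalCR Q)
    (hc : ∀ b μ, Q (!b) μ = MvPowerSeries.map (starRingEnd ℂ) (Q b μ)) {b : Bool}
    {Y : SI n d → MvPowerSeries (SI n d) ℂ} (h : FIter Q b Y) :
    FIter Q (!b) (fun s => MvPowerSeries.map (starRingEnd ℂ) (Y s)) := by
  induction h with
  | L j =>
    have e : (fun s => MvPowerSeries.map (starRingEnd ℂ)
        ((Sum.elim (Pi.single j 1) 0 : SI n d → MvPowerSeries (SI n d) ℂ) s)) =
        Sum.elim (Pi.single j 1) 0 := by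
      funext s
      rcases s with j' | i
      · simp only [Sum.elim_inl]
        by_cases h : j' = j
        · subst h; simp
        · simp [Pi.single_eq_of_ne h]
      · simp
    rw [e]
    exact FIter.L j
  | L' j =>
    have e : (fun s => MvPowerSeries.map (starRingEnd ℂ)
        ((Sum.elim (0 : Fin n → MvPowerSeries (SI n d) ℂ) (Sum.elim (Pi.single j 1)
          (fun ν => MvPowerSeries.subst (inve Q b) (MvPowerSeries.pderiv ℂ (Sum.inl j) (Q (!b) ν)))) :
            SI n d → MvPowerSeries (SI n d) ℂ) s)) =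
        Sum.elim (0 : Fin n → MvPowerSeries (SI n d) ℂ) (Sum.elim (Pi.single j 1)
          (fun ν => MvPowerSeries.subst (inve Q (!b))
            (MvPowerSeries.pderiv ℂ (Sum.inl j) (Q (!(!b)) ν)))) := by
      funext s
      rcases s with j' | j' | ν
      · simp
      · simp only [Sum.elim_inl, Sum.elim_inr]
        by_cases h : j' = j
        · subst h; simp
        · simp [Pi.single_eq_of_ne h]
      · simp only [Sum.elim_inr]
        rw [map_conj_subst (inve_const hCR b), map_conj_pderiv, ← hc (!b), inve_conj hc]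
    rw [e]
    exact FIter.L' j
  | bracket Y Y' _ _ h1 h2 =>
    have e : (fun s => MvPowerSeries.map (starRingEnd ℂ) (fbr Y Y' s)) =
        fbr (fun s => MvPowerSeries.map (starRingEnd ℂ) (Y s))
          (fun s => MvPowerSeries.map (starRingEnd ℂ) (Y' s)) := by
      funext s
      unfold fbr
      rw [map_sub, map_conj_fapp, map_conj_fapp]
    rw [e]
    exact FIter.bracket _ _ h1 h2

theorem FBG_conj {n d : ℕ} {Q : Bool → Fin d → MvPowerSeries (SI n d) ℂ} (hCR : FormalCR Q)
    (hc : ∀ b μ, Q (!b) μ = MvPowerSeries.map (starRingEnd ℂ) (Q b μ)) {b : Bool}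
    (h : FBG Q b) : FBG Q (!b) := by
  obtain ⟨Y, hY, hdet⟩ := h
  refine ⟨fun s s' => MvPowerSeries.map (starRingEnd ℂ) (Y s s'),
    fun s => FIter_conj hCR hc (hY s), fun h0 => hdet (map_conj_inj ?_)⟩
  rw [map_zero, ← h0, RingHom.map_det]
  rfl

end Pool.Agent.Results.MP_51bf1a_an.JetDet
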