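import Pool.Agent.Helper706.JD.AIterDef
import Pool.Agent.Helper706.JD.A4

set_option autoImplicit false

open scoped Topology ContDiff ComplexConjugate
open Set Filter Complex

namespace Pool.Agent.Results.MP_51bf1a_an.JetDet


















/-! ### iterated holomorphic fields are analytic on a fixed ball; their Taylor series -/


theorem T2a_clm_T2a {E F : Type*} [NormedAddCommGroup E] [NormedSpace ℂ E] [NormedAddCommGroup F]
    [NormedSpace ℂ F] {G : Type*} [NormedAddCommGroup G] [NormedSpace ℂ G]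
    {f : G → E →L[ℂ] F} {g : G → E} {x : G} (hf : AnalyticAt ℂ f x) (hg : AnalyticAt ℂ g x) :
    AnalyticAt ℂ (fun y => f y (g y)) x := by
  have h1 := (ContinuousLinearMap.id ℂ (E →L[ℂ] F)).analyticAt_bilinear (f x, g x)
  have h1' : AnalyticAt ℂ (fun z : (E →L[ℂ] F) × E => z.1 z.2) (f x, g x) := h1
  have h2 : AnalyticAt ℂ (fun y => (f y, g y)) x := AnalyticAt.prod hf hg
  exact AnalyticAt.fun_comp (g := fun z : (E →L[ℂ] F) × E => z.1 z.2)
    (f := fun y => (f y, g y)) (x := x) h1' h2

theorem T2a_flip_T2a {n d : ℕ} {f : (SI n d → ℂ) → (Fin d → ℂ)} {s : SI n d → ℂ}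
    (hf : AnalyticAt ℂ f s) : AnalyticAt ℂ (flipE f) s := by
  apply AnalyticAt.pi
  intro i
  rcases i with k | k | μ
  · exact (ContinuousLinearMap.proj (R := ℂ) (φ := fun _ : SI n d => ℂ)
      (Sum.inr (Sum.inl k))).analyticAt s
  · exact (ContinuousLinearMap.proj (R := ℂ) (φ := fun _ : SI n d => ℂ) (Sum.inl k)).analyticAt s
  · exact (analyticAt_pi_iff.1 hf) μ

theorem T2a_flip_zero_T2a {N n d : ℕ} {M : Set (Fin N → ℂ)} {p : Fin N → ℂ} (c : Chart n d M p) :
    flipE (c.q true) 0 = 0 := by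
  funext i
  rcases i with k | k | μ
  · rfl
  · rfl
  · show c.q true 0 μ = 0
    rw [c.zero]
    rfl

theorem T2a_fderiv_comp_T2a {σ τ : Type*} [Fintype σ] [Fintype τ] {f : (σ → ℂ) → (τ → ℂ)}
    {y : σ → ℂ} (hf : DifferentiableAt ℂ f y) (v : σ → ℂ) (ν : τ) :
    fderiv ℂ (fun s => f s ν) y v = fderiv ℂ f y v ν := by
  have h1 := (ContinuousLinearMap.proj (R := ℂ) (φ := fun _ : τ => ℂ) ν).hasFDerivAt.comp y
    hf.hasFDerivAt
  have h2 : (fun s => f s ν) = (ContinuousLinearMap.proj (R := ℂ) (φ := fun _ : τ => ℂ) ν) ∘ f :=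
    rfl
  rw [h2, h1.fderiv]
  rfl

theorem T2a_expand_T2a {σ τ : Type*} [Fintype σ] [DecidableEq σ] [Fintype τ]
    {f : (σ → ℂ) → (τ → ℂ)} {y : σ → ℂ} (hf : DifferentiableAt ℂ f y) (v : σ → ℂ) (ν : τ) :
    fderiv ℂ f y v ν = ∑ u, v u * fderiv ℂ (fun s => f s ν) y (Pi.single u 1) := by
  have h1 : v = ∑ u, v u • (Pi.single u 1 : σ → ℂ) := by
    funext i
    rw [Finset.sum_apply]
    simp [Pi.single_apply]
  conv_lhs => rw [h1]
  rw [map_sum, Finset.sum_apply]
  refine Finset.sum_congr rfl fun u _ => ?_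
  rw [map_smul, Pi.smul_apply, smul_eq_mul, T2a_fderiv_comp_T2a hf]

theorem AIter.analytic {N n d : ℕ} {M : Set (Fin N → ℂ)} {p : Fin N → ℂ} (c : Chart n d M p) :
    ∃ r > 0, ∀ Y, AIter c Y → AnalyticOnNhd ℂ Y (Metric.ball 0 r) := by
  have ha := c.analytic true
  have hb := c.analytic false
  have hfl := T2a_flip_T2a ha
  have h1 := ha.eventually_analyticAt
  have h2 : ∀ᶠ s in 𝓝 (0 : SI n d → ℂ), AnalyticAt ℂ (c.q false) (flipE (c.q true) s) := by
    have h3 : Tendsto (flipE (c.q true)) (𝓝 0) (𝓝 0) := by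
      have h4 := hfl.continuousAt.tendsto
      rwa [T2a_flip_zero_T2a] at h4
    exact h3.eventually hb.eventually_analyticAt
  obtain ⟨r, hr, hball⟩ := Metric.eventually_nhds_iff_ball.1 (h1.and h2)
  refine ⟨r, hr, ?_⟩
  intro Y hY
  induction hY with
  | L j => exact analyticOnNhd_const
  | L' j =>
    intro s hs
    obtain ⟨hs1, hs2⟩ := hball s hs
    apply AnalyticAt.pi
    intro i
    rcases i with k | k | ν
    · exact analyticAt_const
    · exact analyticAt_const
    · have h3 : AnalyticAt ℂ (fun s => fderiv ℂ (c.q false) (flipE (c.q true) s)) s :=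
        AnalyticAt.fun_comp hs2.fderiv (T2a_flip_T2a hs1)
      have h4 : AnalyticAt ℂ (fun s => fderiv ℂ (c.q false) (flipE (c.q true) s)
          (Pi.single (Sum.inl j) 1)) s := T2a_clm_T2a h3 analyticAt_const
      exact (analyticAt_pi_iff.1 h4) ν
  | bracket Y Y' hY hY' ih ih' =>
    intro s hs
    exact (T2a_clm_T2a (ih' s hs).fderiv (ih s hs)).sub (T2a_clm_T2a (ih s hs).fderiv (ih' s hs))

theorem AIter.taylor {N n d : ℕ} {M : Set (Fin N → ℂ)} {p : Fin N → ℂ} (c : Chart n d M p)
    {Q : Bool → Fin d → MvPowerSeries (SI n d) ℂ}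
    (hQ : ∀ b μ, IsTaylor (fun s => c.q b s μ) (Q b μ))
    {Y : (SI n d → ℂ) → (SI n d → ℂ)} (hY : AIter c Y) :
    ∃ F : SI n d → MvPowerSeries (SI n d) ℂ, FIter Q true F ∧
      ∀ s, IsTaylor (fun x => Y x s) (F s) := by
  obtain ⟨r, hr, han⟩ := AIter.analytic c
  have h0 : (0 : SI n d → ℂ) ∈ Metric.ball (0 : SI n d → ℂ) r := Metric.mem_ball_self hr
  have hconst : ∀ (j k : Fin n), IsTaylor (fun _ : SI n d → ℂ => (Pi.single j 1 : Fin n → ℂ) k)
      ((Pi.single j 1 : Fin n → MvPowerSeries (SI n d) ℂ) k) := by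
    intro j k
    by_cases h : k = j
    · subst h
      rw [Pi.single_eq_same, Pi.single_eq_same]
      have := isTaylor_const (ι := SI n d) 1
      rwa [map_one] at this
    · rw [Pi.single_eq_of_ne h, Pi.single_eq_of_ne h]
      have := isTaylor_const (ι := SI n d) 0
      rwa [map_zero] at this
  have hzero : IsTaylor (fun _ : SI n d → ℂ => (0 : ℂ)) (0 : MvPowerSeries (SI n d) ℂ) := by
    have := isTaylor_const (ι := SI n d) 0
    rwa [map_zero] at this
  induction hY with
  | L j =>
    refine ⟨_, FIter.L j, ?_⟩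
    intro s
    rcases s with k | k
    · exact hconst j k
    · exact hzero
  | L' j =>
    refine ⟨_, FIter.L' j, ?_⟩
    intro s
    rcases s with k | k | ν
    · exact hzero
    · exact hconst j k
    · have ha := c.analytic true
      have hb := c.analytic false
      have hfl := T2a_flip_T2a ha
      have h1 := IsTaylor.pderiv ((analyticAt_pi_iff.1 hb) ν) (hQ false ν) (Sum.inl j)
      have h2 := IsTaylor.comp (κ := SI n d) (g := fun i x => flipE (c.q true) x i)
        (G := inve Q true) h1 (by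
          intro i
          rcases i with k | k | μ
          · exact isTaylor_coord (Sum.inr (Sum.inl k))
          · exact isTaylor_coord (Sum.inl k)
          · exact hQ true μ) (by
          intro i
          rcases i with k | k | μ
          · exact MvPowerSeries.constantCoeff_X _
          · exact MvPowerSeries.constantCoeff_X _
          · have h3 := IsTaylor.constantCoeff (hQ true μ)
            rw [c.zero] at h3
            exact h3)
      refine IsTaylor.congr h2 ?_
      have h3 : Tendsto (flipE (c.q true)) (𝓝 0) (𝓝 0) := by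
        have h4 := hfl.continuousAt.tendsto
        rwa [T2a_flip_zero_T2a] at h4
      filter_upwards [h3.eventually hb.eventually_analyticAt] with x hx
      exact T2a_fderiv_comp_T2a hx.differentiableAt _ ν
  | bracket Y Y' hY hY' ih ih' =>
    obtain ⟨F, hF, hFT⟩ := ih
    obtain ⟨F', hF', hFT'⟩ := ih'
    refine ⟨_, FIter.bracket F F' hF hF', ?_⟩
    have key : ∀ (Y Y' : (SI n d → ℂ) → (SI n d → ℂ)) (F F' : SI n d → MvPowerSeries (SI n d) ℂ),
        AIter c Y' → (∀ s, IsTaylor (fun x => Y x s) (F s)) →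
        (∀ s, IsTaylor (fun x => Y' x s) (F' s)) → ∀ s,
        IsTaylor (fun x => fderiv ℂ Y' x (Y x) s) (fapp F (F' s)) := by
      intro Y Y' F F' hY' hFT hFT' s
      have h1 : IsTaylor (fun x => ∑ u, Y x u * fderiv ℂ (fun x => Y' x s) x (Pi.single u 1))
          (fapp F (F' s)) := by
        unfold fapp
        refine IsTaylor.sum _ fun u _ => IsTaylor.mul (hFT u) ?_
        exact IsTaylor.pderiv ((analyticAt_pi_iff.1 (han Y' hY' 0 h0)) s) (hFT' s) u
      refine IsTaylor.congr h1 ?_
      filter_upwards [Metric.ball_mem_nhds (0 : SI n d → ℂ) hr] with x hx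
      exact (T2a_expand_T2a (han Y' hY' x hx).differentiableAt (Y x) s).symm
    intro s
    exact IsTaylor.sub (key Y Y' F F' hY' hFT hFT' s) (key Y' Y F' F hY hFT' hFT s)

end Pool.Agent.Results.MP_51bf1a_an.JetDet
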