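import Pool.Agent.Helper706.JD.ChartDefs

set_option autoImplicit false

open scoped Topology ContDiff ComplexConjugate
open Set Filter Complex

namespace Pool.Agent.Results.MP_51bf1a_an.JetDet

/-! ### derivatives along `M`, brackets of tangent fields -/

/-- A function vanishing on a regular level set has zero derivative in tangential_T2t directions. -/
theorem tangential_T2t {E F : Type*} [NormedAddCommGroup E] [NormedSpace ℝ E] [CompleteSpace E]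
    [NormedAddCommGroup F] [NormedSpace ℝ F] [CompleteSpace F]
    {g : E → F} {g' : E →L[ℝ] F} {φ : E → ℝ} {φ' : E →L[ℝ] ℝ} {x : E}
    (hg : HasStrictFDerivAt g g' x) (hφ : HasStrictFDerivAt φ φ' x)
    (hsurj : Function.Surjective g') (h0 : ∀ᶠ y in 𝓝 x, g y = g x → φ y = φ x)
    (v : E) (hv : g' v = 0) : φ' v = 0 := by
  have hext : IsLocalExtrOn φ {y | g y = g x} x := by
    left
    show ∀ᶠ y in 𝓝[{y | g y = g x}] x, φ x ≤ φ y
    rw [eventually_nhdsWithin_iff]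
    filter_upwards [h0] with y hy hy'
    exact (hy hy').ge
  obtain ⟨Λ, Λ₀, hne, h⟩ := hext.exists_linear_map_of_hasStrictFDerivAt hg hφ
  by_cases hΛ : Λ₀ = 0
  · exfalso
    apply hne
    rw [hΛ] at h ⊢
    have : Λ = 0 := by
      ext y
      obtain ⟨z, rfl⟩ := hsurj y
      have := h z
      simpa using this
    rw [this]
    rfl
  · have h1 := h v
    rw [hv, map_zero, zero_add, smul_eq_mul] at h1
    rcases mul_eq_zero.mp h1 with h2 | h2
    · exact absurd h2 hΛ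
    · exact h2

theorem deriv_along_gen_T2t {N d : ℕ} {M : Set (Fin N → ℂ)} {x : Fin N → ℂ} (hx : x ∈ M)
    {F : Type*} [NormedAddCommGroup F] [NormedSpace ℝ F] {φ ψ : (Fin N → ℂ) → F}
    (hφ : ContDiffAt ℝ 1 φ x)
    (hψ : ContDiffAt ℝ 1 ψ x) (h : ∀ᶠ y in 𝓝 x, y ∈ M → φ y = ψ y) {v : Fin N → ℂ}
    (hv : TangentVec d M x v) : fderiv ℝ φ x v = fderiv ℝ ψ x v := by
  obtain ⟨ρ, ⟨hρ1, hρ2, hρ3, _⟩, hρv⟩ := hv
  have hg : HasStrictFDerivAt ρ (fderiv ℝ ρ x) x := hρ1.hasStrictFDerivAt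
  have hφ' : HasStrictFDerivAt φ (fderiv ℝ φ x) x := hφ.hasStrictFDerivAt one_ne_zero
  have hψ' : HasStrictFDerivAt ψ (fderiv ℝ ψ x) x := hψ.hasStrictFDerivAt one_ne_zero
  have hρx : ρ x = 0 := hρ2.self_of_nhds.mp hx
  rw [← sub_eq_zero]
  rw [SeparatingDual.eq_zero_iff_forall_dual_eq_zero (R := ℝ)]
  intro L
  have h1 : HasStrictFDerivAt (fun y => L (φ y - ψ y)) (L.comp (fderiv ℝ φ x - fderiv ℝ ψ x)) x :=
    L.hasStrictFDerivAt.comp x (hφ'.sub hψ')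
  have h2 := tangential_T2t hg h1 hρ3 (by
    filter_upwards [hρ2, h] with y hy1 hy2 hy3
    rw [hρx] at hy3
    have hyM := hy1.mpr hy3
    have hxx : φ x = ψ x := h.self_of_nhds hx
    rw [hy2 hyM, hxx, sub_self, sub_self]) v hρv
  simpa using h2

theorem deriv_along {N d : ℕ} {M : Set (Fin N → ℂ)} {x : Fin N → ℂ} (hx : x ∈ M)
    {κ : Type*} [Fintype κ] {φ ψ : (Fin N → ℂ) → (κ → ℂ)} (hφ : ContDiffAt ℝ 1 φ x)
    (hψ : ContDiffAt ℝ 1 ψ x) (h : ∀ᶠ y in 𝓝 x, y ∈ M → φ y = ψ y) {v : Fin N → ℂ}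
    (hv : TangentVec d M x v) : fderiv ℝ φ x v = fderiv ℝ ψ x v :=
  deriv_along_gen_T2t hx hφ hψ h hv

/-- a defining function is annihilated by nearby tangent vectors -/
theorem tangent_annih_T2t {N d : ℕ} {M : Set (Fin N → ℂ)} {y : Fin N → ℂ}
    {ρ : (Fin N → ℂ) → (Fin d → ℝ)} (hρ1 : AnalyticAt ℝ ρ y) (hρ2 : ∀ᶠ x in 𝓝 y, x ∈ M ↔ ρ x = 0)
    {V : (Fin N → ℂ) → (Fin N → ℂ)} (hVt : ∀ᶠ z in 𝓝 y, z ∈ M → TangentVec d M z (V z)) :
    ∀ᶠ z in 𝓝 y, z ∈ M → fderiv ℝ ρ z (V z) = 0 := by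
  filter_upwards [hρ1.eventually_analyticAt, eventually_eventually_nhds.mpr hρ2, hVt] with z h1 h2 h3 hz
  have h4 := deriv_along_gen_T2t (φ := ρ) (ψ := fun _ => 0) hz (h1.contDiffAt.of_le le_top)
    contDiffAt_const (by filter_upwards [h2] with w hw hwM; exact hw.mp hwM) (h3 hz)
  rw [h4]
  simp

theorem tangent_bracket_at_T2t {N d : ℕ} {M : Set (Fin N → ℂ)} {y : Fin N → ℂ} (hy : y ∈ M)
    {V W : (Fin N → ℂ) → (Fin N → ℂ)} (hV : ContDiffAt ℝ 2 V y) (hW : ContDiffAt ℝ 2 W y)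
    (hVt : ∀ᶠ z in 𝓝 y, z ∈ M → TangentVec d M z (V z))
    (hWt : ∀ᶠ z in 𝓝 y, z ∈ M → TangentVec d M z (W z)) :
    TangentVec d M y (VectorField.lieBracket ℝ V W y) := by
  obtain ⟨ρ, hdef, hρV⟩ := hVt.self_of_nhds hy
  have hρ1 := hdef.1
  have hρ2 := hdef.2.1
  refine ⟨ρ, hdef, ?_⟩
  have hVd : DifferentiableAt ℝ V y := hV.differentiableAt two_ne_zero
  have hWd : DifferentiableAt ℝ W y := hW.differentiableAt two_ne_zero
  have hρd : AnalyticAt ℝ (fderiv ℝ ρ) y := hρ1.fderiv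
  have key : ∀ {V W : (Fin N → ℂ) → (Fin N → ℂ)}, ContDiffAt ℝ 2 V y →
      (∀ᶠ z in 𝓝 y, z ∈ M → TangentVec d M z (V z)) → TangentVec d M y (W y) →
      fderiv ℝ (fderiv ℝ ρ) y (W y) (V y) + fderiv ℝ ρ y (fderiv ℝ V y (W y)) = 0 := by
    intro V W hV hVt hW
    have h0 := tangent_annih_T2t hρ1 hρ2 hVt
    have h1 : ContDiffAt ℝ 1 (fun z => fderiv ℝ ρ z (V z)) y :=
      (hρd.contDiffAt.of_le le_top).clm_apply (hV.of_le one_le_two)
    have h2 := deriv_along_gen_T2t (φ := fun z => fderiv ℝ ρ z (V z)) (ψ := fun _ => 0) hy h1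
      contDiffAt_const h0 hW
    rw [fderiv_clm_apply hρd.differentiableAt (hV.differentiableAt two_ne_zero)] at h2
    simp at h2
    rw [add_comm]
    exact h2
  have e1 := key hV hVt (hWt.self_of_nhds hy)
  have e2 := key hW hWt (hVt.self_of_nhds hy)
  have hsymm : fderiv ℝ (fderiv ℝ ρ) y (W y) (V y) = fderiv ℝ (fderiv ℝ ρ) y (V y) (W y) := by
    have := (hρ1.contDiffAt (n := 2)).isSymmSndFDerivAt (by simp)
    exact this _ _
  rw [VectorField.lieBracket, map_sub]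
  rw [hsymm] at e1
  have := e2.trans e1.symm
  rw [add_right_inj] at this
  rw [this, sub_self]

theorem tangent_bracket {N d : ℕ} {M : Set (Fin N → ℂ)} {x : Fin N → ℂ} (hx : x ∈ M)
    {V W : (Fin N → ℂ) → (Fin N → ℂ)} (hV : ContDiffAt ℝ ∞ V x) (hW : ContDiffAt ℝ ∞ W x)
    (hVt : ∀ᶠ y in 𝓝 x, y ∈ M → TangentVec d M y (V y))
    (hWt : ∀ᶠ y in 𝓝 x, y ∈ M → TangentVec d M y (W y)) :
    ∀ᶠ y in 𝓝 x, y ∈ M → TangentVec d M y (VectorField.lieBracket ℝ V W y) := by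
  have hV2 : ContDiffAt ℝ 2 V x := hV.of_le (WithTop.coe_le_coe.mpr le_top)
  have hW2 : ContDiffAt ℝ 2 W x := hW.of_le (WithTop.coe_le_coe.mpr le_top)
  filter_upwards [hV2.eventually (by simp), hW2.eventually (by simp),
    eventually_eventually_nhds.mpr hVt, eventually_eventually_nhds.mpr hWt] with y h1 h2 h3 h4 hy
  exact tangent_bracket_at_T2t hy h1 h2 h3 h4

end Pool.Agent.Results.MP_51bf1a_an.JetDet
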