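import Pool.Agent.Helper706.JD.T2a
import Pool.Agent.Helper706.JD.T2t

set_option autoImplicit false

open scoped Topology ContDiff ComplexConjugate
open Set Filter Complex

namespace Pool.Agent.Results.MP_51bf1a_an.JetDet







/-- `inc` as a real linear map -/
noncomputable def incL_T2b (n d : ℕ) : (ZI n d → ℂ) →L[ℝ] (SI n d → ℂ) :=
  LinearMap.toContinuousLinearMap
    { toFun := inc
      map_add' := by intro x y; funext i; rcases i with j | i <;> simp [inc]
      map_smul' := by intro r x; funext i; rcases i with j | i <;> simp [inc] }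

theorem incL_apply_T2b {n d : ℕ} (y : ZI n d → ℂ) : incL_T2b n d y = inc y := rfl

theorem inc_zero_T2b {n d : ℕ} : inc (0 : ZI n d → ℂ) = 0 := by
  rw [← incL_apply_T2b, map_zero]

theorem inc_sub_T2b {n d : ℕ} (x y : ZI n d → ℂ) : inc (x - y) = inc x - inc y := by
  rw [← incL_apply_T2b, ← incL_apply_T2b, ← incL_apply_T2b, map_sub]

theorem inc_cont_T2b {n d : ℕ} : Continuous (inc : (ZI n d → ℂ) → (SI n d → ℂ)) :=
  (incL_T2b n d).continuous

/-- derivative of a combination of holomorphic fields along the submanifold -/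
theorem deriv_comb_T2b {N n d : ℕ} {M : Set (Fin N → ℂ)} {p : Fin N → ℂ} (c : Chart n d M p)
    {ι : Type} [Fintype ι] (e : ι → (ZI n d → ℂ) → ℂ) (Z : ι → (SI n d → ℂ) → (SI n d → ℂ))
    {y : ZI n d → ℂ} (hx : p + c.A y ∈ M) {W : (Fin N → ℂ) → (Fin N → ℂ)}
    (hW : ContDiffAt ℝ 1 W (p + c.A y)) (he : ∀ k, ContDiffAt ℝ 1 (e k) y)
    (hZ : ∀ k, AnalyticAt ℂ (Z k) (inc y))
    (h : ∀ᶠ y' in 𝓝 y, p + c.A y' ∈ M →
      inc (c.A.symm (W (p + c.A y'))) = ∑ k, e k y' • Z k (inc y'))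
    {v : Fin N → ℂ} (hv : TangentVec d M (p + c.A y) v) :
    inc (c.A.symm (fderiv ℝ W (p + c.A y) v)) =
      ∑ k, (fderiv ℝ (e k) y (c.A.symm v) • Z k (inc y) +
        e k y • fderiv ℂ (Z k) (inc y) (inc (c.A.symm v))) := by
  set x := p + c.A y with hxdef
  let B : (Fin N → ℂ) →L[ℝ] (ZI n d → ℂ) := (c.A.symm : (Fin N → ℂ) →L[ℂ] (ZI n d → ℂ)).restrictScalars ℝ
  have hB : ∀ u, B u = c.A.symm u := fun u => rfl
  let Φ : (Fin N → ℂ) → (ZI n d → ℂ) := fun x' => B (x' - p)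
  have hΦx : Φ x = y := by
    show c.A.symm (x - p) = y
    rw [hxdef]; simp
  have hΦ' : HasFDerivAt Φ B x := by
    have := (B.hasFDerivAt (x := x - p)).comp x ((hasFDerivAt_id (𝕜 := ℝ) x).sub_const p)
    rw [ContinuousLinearMap.comp_id] at this
    exact this
  have hΦc : ContDiffAt ℝ 1 Φ x := by
    have : ContDiff ℝ 1 Φ := B.contDiff.comp (contDiff_id.sub contDiff_const)
    exact this.contDiffAt
  let φ : (Fin N → ℂ) → (SI n d → ℂ) := fun x' => incL_T2b n d (B (W x'))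
  let ψ : (Fin N → ℂ) → (SI n d → ℂ) := fun x' => ∑ k, e k (Φ x') • Z k (incL_T2b n d (Φ x'))
  have hZr : ∀ k, ContDiffAt ℝ 1 (Z k) (inc y) := fun k =>
    ((hZ k).contDiffAt (n := 1)).restrict_scalars ℝ
  have hφ : ContDiffAt ℝ 1 φ x :=
    (incL_T2b n d).contDiff.contDiffAt.comp x (B.contDiff.contDiffAt.comp x hW)
  have hψ : ContDiffAt ℝ 1 ψ x := by
    refine ContDiffAt.sum fun k _ => ?_
    have h1 : ContDiffAt ℝ 1 (fun x' => e k (Φ x')) x := by
      refine ContDiffAt.comp x (g := e k) (f := Φ) ?_ hΦc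
      rw [hΦx]; exact he k
    have h2 : ContDiffAt ℝ 1 (fun x' => Z k (incL_T2b n d (Φ x'))) x := by
      refine ContDiffAt.comp x (g := Z k) (f := fun x' => incL_T2b n d (Φ x')) ?_
        ((incL_T2b n d).contDiff.contDiffAt.comp x hΦc)
      rw [hΦx]; exact hZr k
    exact h1.smul h2
  have hΦt : Tendsto Φ (𝓝 x) (𝓝 y) := by
    have := hΦ'.continuousAt
    rw [ContinuousAt, hΦx] at this
    exact this
  have heq : ∀ᶠ x' in 𝓝 x, x' ∈ M → φ x' = ψ x' := by
    filter_upwards [hΦt.eventually h] with x' hx' hM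
    have hx'' : p + c.A (Φ x') = x' := by
      show p + c.A (c.A.symm (x' - p)) = x'
      simp
    rw [hx''] at hx'
    exact hx' hM
  have key := deriv_along hx hφ hψ heq hv
  have hWd : HasFDerivAt W (fderiv ℝ W x) x := (hW.differentiableAt one_ne_zero).hasFDerivAt
  have e1 : fderiv ℝ φ x v = inc (c.A.symm (fderiv ℝ W x v)) := by
    have : HasFDerivAt φ ((incL_T2b n d).comp (B.comp (fderiv ℝ W x))) x :=
      (incL_T2b n d).hasFDerivAt.comp x (B.hasFDerivAt.comp x hWd)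
    rw [this.fderiv]
    rfl
  have e2 : fderiv ℝ ψ x v = ∑ k, (fderiv ℝ (e k) y (c.A.symm v) • Z k (inc y) +
        e k y • fderiv ℂ (Z k) (inc y) (inc (c.A.symm v))) := by
    have hk : ∀ k ∈ (Finset.univ : Finset ι), HasFDerivAt (fun x' => e k (Φ x') • Z k (incL_T2b n d (Φ x')))
        (e k (Φ x) • (((fderiv ℂ (Z k) (inc y)).restrictScalars ℝ).comp ((incL_T2b n d).comp B)) +
          ((fderiv ℝ (e k) y).comp B).smulRight (Z k (incL_T2b n d (Φ x)))) x := by
      intro k _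
      have h1 : HasFDerivAt (fun x' => e k (Φ x')) ((fderiv ℝ (e k) y).comp B) x := by
        refine HasFDerivAt.comp x (g := e k) (f := Φ) ?_ hΦ'
        rw [hΦx]; exact ((he k).differentiableAt one_ne_zero).hasFDerivAt
      have h2 : HasFDerivAt (fun x' => Z k (incL_T2b n d (Φ x')))
          (((fderiv ℂ (Z k) (inc y)).restrictScalars ℝ).comp ((incL_T2b n d).comp B)) x := by
        refine HasFDerivAt.comp x (g := Z k) (f := fun x' => incL_T2b n d (Φ x')) ?_
          ((incL_T2b n d).hasFDerivAt.comp x hΦ')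
        rw [hΦx]
        exact ((hZ k).differentiableAt.hasFDerivAt).restrictScalars ℝ
      exact h1.smul h2
    have := HasFDerivAt.fun_sum hk
    rw [show ψ = fun x' => ∑ k, e k (Φ x') • Z k (incL_T2b n d (Φ x')) from rfl, this.fderiv]
    rw [sum_apply]
    refine Finset.sum_congr rfl fun k _ => ?_
    rw [hΦx, add_comm]
    rfl
  rw [← e1, ← e2, key]


theorem base_aux_T2b {N n d : ℕ} {M : Set (Fin N → ℂ)} {p : Fin N → ℂ} (c : Chart n d M p)
    {y : ZI n d → ℂ} (hy : p + c.A y ∈ M)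
    (hm : (p + c.A y ∈ M ↔ c.q false (cj (inc y)) = fun μ => y (Sum.inr μ)))
    (ht : p + c.A y ∈ M → ∀ v, (TangentVec d M (p + c.A y) (c.A v) ↔
      fderiv ℂ (c.q false) (cj (inc y)) (cj (inc v)) = fun μ => v (Sum.inr μ)))
    {u : Fin N → ℂ} (hu : CTangentVec d M (p + c.A y) u) :
    inc (c.A.symm u) = ∑ i : Fin n ⊕ Fin n,
      (Sum.elim (fun j => conj (c.A.symm u (Sum.inl j))) (fun j => c.A.symm u (Sum.inl j)) i : ℂ) •
      (Sum.elim (fun j : Fin n => (fun _ => Sum.elim (Pi.single j 1) 0 : (SI n d → ℂ) → (SI n d → ℂ)))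
        (fun j : Fin n => (fun s => Sum.elim 0 (Sum.elim (Pi.single j 1)
      (fderiv ℂ (c.q false) (flipE (c.q true) s) (Pi.single (Sum.inl j) 1))) :
        (SI n d → ℂ) → (SI n d → ℂ))) i) (inc y) := by
  have hq := hm.1 hy
  have hflip : flipE (c.q true) (inc y) = cj (inc y) := by
    have h1 := c.conj_q false (cj (inc y))
    have h2 : cj (cj (inc y)) = inc y := by
      funext i; simp [cj]
    rw [h2, hq] at h1
    have h1' : c.q true (inc y) = cj (fun μ => y (Sum.inr μ)) := h1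
    funext i
    rcases i with j | i | i
    · simp [flipE, cj, inc]
    · simp [flipE, cj, inc]
    · show c.q true (inc y) i = conj (y (Sum.inr i))
      rw [h1']
      rfl
  set v := c.A.symm u with hv
  have hAv : c.A v = u := by rw [hv]; simp
  have hAIv : c.A (I • v) = I • u := by rw [map_smul, hAv]
  set D := fderiv ℂ (c.q false) (cj (inc y)) with hD
  have e1 : D (cj (inc v)) = fun μ => v (Sum.inr μ) := (ht hy v).1 (by rw [hAv]; exact hu.1)
  have e2 : D (cj (inc (I • v))) = fun μ => (I • v) (Sum.inr μ) :=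
    (ht hy (I • v)).1 (by rw [hAIv]; exact hu.2)
  have e3 : cj (inc (I • v)) = I • (Sum.elim (fun j => v (Sum.inl j)) (fun i => - conj (v i)) : SI n d → ℂ) := by
    funext i
    rcases i with j | i
    · simp [cj, inc]
    · simp [cj, inc]
  have e4 : D (Sum.elim (fun j => v (Sum.inl j)) (fun i => - conj (v i))) = fun μ => v (Sum.inr μ) := by
    rw [e3, map_smul] at e2
    have : I • D (Sum.elim (fun j => v (Sum.inl j)) (fun i => - conj (v i))) = I • (fun μ => v (Sum.inr μ)) := by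
      rw [e2]; rfl
    exact smul_right_injective _ I_ne_zero this
  have e5 : D (Sum.elim (fun j => v (Sum.inl j)) 0) = fun μ => v (Sum.inr μ) := by
    have h2 : (2 : ℂ) • (Sum.elim (fun j => v (Sum.inl j)) 0 : SI n d → ℂ) =
        cj (inc v) + Sum.elim (fun j => v (Sum.inl j)) (fun i => - conj (v i)) := by
      funext i
      rcases i with j | i
      · simp [cj, inc]; ring
      · simp [cj, inc]
    have h3 : (2 : ℂ) • D (Sum.elim (fun j => v (Sum.inl j)) 0) = (2 : ℂ) • (fun μ => v (Sum.inr μ)) := by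
      rw [← map_smul, h2, map_add, e1, e4, two_smul]
    exact smul_right_injective _ two_ne_zero h3
  have e6 : ∑ j : Fin n, v (Sum.inl j) • D (Pi.single (Sum.inl j) 1) = fun μ => v (Sum.inr μ) := by
    rw [← e5]
    have : (Sum.elim (fun j => v (Sum.inl j)) 0 : SI n d → ℂ) =
        ∑ j : Fin n, v (Sum.inl j) • (Pi.single (Sum.inl j) 1 : SI n d → ℂ) := by
      funext i
      rcases i with j | i
      · simp [Finset.sum_apply, Pi.single_apply]
      · simp [Finset.sum_apply]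
    rw [this, map_sum]
    simp only [map_smul]
  rw [Fintype.sum_sum_type]
  simp only [Sum.elim_inl, Sum.elim_inr]
  rw [hflip, ← hD]
  funext i
  rcases i with j | i | i
  · simp [inc, Finset.sum_apply, Pi.single_apply]
  · simp [inc, Finset.sum_apply, Pi.single_apply]
  · have := congrFun e6 i
    simp only [Finset.sum_apply, Pi.smul_apply, smul_eq_mul] at this
    simp [inc, Finset.sum_apply, this]

theorem real_to_analytic_aux_T2b {N n d : ℕ} {M : Set (Fin N → ℂ)} {p : Fin N → ℂ} (c : Chart n d M p)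
    {y₀ : ZI n d → ℂ} (hy₀ : p + c.A y₀ ∈ M) {r : ℝ} (hr : inc y₀ ∈ Metric.ball (0 : SI n d → ℂ) r)
    (hrA : ∀ Y, AIter c Y → AnalyticOnNhd ℂ Y (Metric.ball 0 r))
    (hm : ∀ᶠ y in 𝓝 y₀, (p + c.A y ∈ M ↔ c.q false (cj (inc y)) = fun μ => y (Sum.inr μ)))
    (ht : ∀ᶠ y in 𝓝 y₀, p + c.A y ∈ M → ∀ v, (TangentVec d M (p + c.A y) (c.A v) ↔
      fderiv ℂ (c.q false) (cj (inc y)) (cj (inc v)) = fun μ => v (Sum.inr μ)))
    {V : (Fin N → ℂ) → (Fin N → ℂ)} (hV : IteratedBracket d M (p + c.A y₀) V) :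
    ContDiffAt ℝ ∞ V (p + c.A y₀) ∧
        (∀ᶠ x in 𝓝 (p + c.A y₀), x ∈ M → TangentVec d M x (V x)) ∧
        ∃ (ι : Type) (_ : Fintype ι) (f : ι → (ZI n d → ℂ) → ℂ)
          (Y : ι → (SI n d → ℂ) → (SI n d → ℂ)),
          (∀ i, ContDiffAt ℝ ∞ (f i) y₀) ∧ (∀ i, AIter c (Y i)) ∧
          ∀ᶠ y in 𝓝 y₀, p + c.A y ∈ M →
            inc (c.A.symm (V (p + c.A y))) = ∑ i, f i y • Y i (inc y) := by
  let B : (Fin N → ℂ) →L[ℝ] (ZI n d → ℂ) := (c.A.symm : (Fin N → ℂ) →L[ℂ] (ZI n d → ℂ)).restrictScalars ℝ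
  let A' : (ZI n d → ℂ) →L[ℝ] (Fin N → ℂ) := (c.A : (ZI n d → ℂ) →L[ℂ] (Fin N → ℂ)).restrictScalars ℝ
  have hAc : ContDiff ℝ ∞ (fun y => p + A' y) := contDiff_const.add A'.contDiff
  have hAt : Tendsto (fun y => p + c.A y) (𝓝 y₀) (𝓝 (p + c.A y₀)) := by
    have : Continuous (fun y => p + c.A y) := continuous_const.add c.A.continuous
    exact this.tendsto y₀
  have hco : ∀ V : (Fin N → ℂ) → (Fin N → ℂ), ContDiffAt ℝ ∞ V (p + c.A y₀) →
      ContDiffAt ℝ ∞ (fun y => c.A.symm (V (p + c.A y))) y₀ := by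
    intro V hV
    exact B.contDiff.contDiffAt.comp y₀ (ContDiffAt.comp y₀ (g := V) (f := fun y => p + A' y) hV hAc.contDiffAt)
  induction hV with
  | base V hV hT =>
    refine ⟨hV, ?_, Fin n ⊕ Fin n, inferInstance,
      fun i y => Sum.elim (fun j => conj (c.A.symm (V (p + c.A y)) (Sum.inl j)))
        (fun j => c.A.symm (V (p + c.A y)) (Sum.inl j)) i,
      Sum.elim (fun j : Fin n => (fun _ => Sum.elim (Pi.single j 1) 0 : (SI n d → ℂ) → (SI n d → ℂ)))
        (fun j : Fin n => (fun s => Sum.elim 0 (Sum.elim (Pi.single j 1)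
      (fderiv ℂ (c.q false) (flipE (c.q true) s) (Pi.single (Sum.inl j) 1))) :
        (SI n d → ℂ) → (SI n d → ℂ))), ?_, ?_, ?_⟩
    · filter_upwards [hT] with x hx hM using (hx hM).1
    · intro i
      rcases i with j | j
      · have h1 : ContDiffAt ℝ ∞ (fun y => c.A.symm (V (p + c.A y)) (Sum.inl j)) y₀ :=
          (contDiffAt_pi.1 (hco V hV)) (Sum.inl j)
        exact (Complex.conjCLE.contDiff.contDiffAt).comp y₀ h1
      · exact (contDiffAt_pi.1 (hco V hV)) (Sum.inl j)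
    · intro i
      rcases i with j | j
      · exact AIter.L j
      · exact AIter.L' j
    · filter_upwards [hm, ht, hAt.eventually hT] with y h1 h2 h3 hM
      exact base_aux_T2b c hM h1 h2 (h3 hM)
  | bracket V W hV hW ihV ihW =>
    obtain ⟨cV, tV, ι, _, f, Y, hf, hY, eV⟩ := ihV
    obtain ⟨cW, tW, κ, _, e, Z, he, hZ, eW⟩ := ihW
    have hV1 : ∀ᶠ x in 𝓝 (p + c.A y₀), ContDiffAt ℝ 1 V x :=
      (cV.of_le (by exact_mod_cast le_top)).eventually (by simp)
    have hW1 : ∀ᶠ x in 𝓝 (p + c.A y₀), ContDiffAt ℝ 1 W x :=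
      (cW.of_le (by exact_mod_cast le_top)).eventually (by simp)
    have hf1 : ∀ᶠ y in 𝓝 y₀, ∀ i, ContDiffAt ℝ 1 (f i) y :=
      eventually_all.2 fun i => ((hf i).of_le (by exact_mod_cast le_top)).eventually (by simp)
    have he1 : ∀ᶠ y in 𝓝 y₀, ∀ i, ContDiffAt ℝ 1 (e i) y :=
      eventually_all.2 fun i => ((he i).of_le (by exact_mod_cast le_top)).eventually (by simp)
    have hball : ∀ᶠ y in 𝓝 y₀, inc y ∈ Metric.ball (0 : SI n d → ℂ) r :=
      inc_cont_T2b.continuousAt.eventually_mem (Metric.isOpen_ball.mem_nhds hr)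
    have hDf : ∀ (g : (ZI n d → ℂ) → ℂ) (U : (Fin N → ℂ) → (Fin N → ℂ)), ContDiffAt ℝ ∞ g y₀ →
        ContDiffAt ℝ ∞ U (p + c.A y₀) →
        ContDiffAt ℝ ∞ (fun y => fderiv ℝ g y (c.A.symm (U (p + c.A y)))) y₀ := by
      intro g U hg hU
      exact (hg.fderiv_right (m := ∞) (by simp)).clm_apply (hco U hU)
    refine ⟨?_, tangent_bracket hy₀ cV cW tV tW, κ ⊕ (ι ⊕ (ι × κ)), inferInstance,
      fun i y => Sum.elim (fun k => fderiv ℝ (e k) y (c.A.symm (V (p + c.A y))))
        (Sum.elim (fun i => - fderiv ℝ (f i) y (c.A.symm (W (p + c.A y))))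
          (fun ik => f ik.1 y * e ik.2 y)) i,
      Sum.elim Z (Sum.elim Y (fun ik => fun s => fderiv ℂ (Z ik.2) s (Y ik.1 s) - fderiv ℂ (Y ik.1) s (Z ik.2 s))),
      ?_, ?_, ?_⟩
    · have h1 : ContDiffAt ℝ ∞ (fun x => fderiv ℝ W x (V x)) (p + c.A y₀) :=
        (cW.fderiv_right (m := ∞) (by simp)).clm_apply cV
      have h2 : ContDiffAt ℝ ∞ (fun x => fderiv ℝ V x (W x)) (p + c.A y₀) :=
        (cV.fderiv_right (m := ∞) (by simp)).clm_apply cW
      exact h1.sub h2
    · intro i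
      rcases i with k | i | ik
      · exact hDf (e k) V (he k) cV
      · exact (hDf (f i) W (hf i) cW).neg
      · exact (hf ik.1).mul (he ik.2)
    · intro i
      rcases i with k | i | ik
      · exact hZ k
      · exact hY i
      · exact AIter.bracket _ _ (hY ik.1) (hZ ik.2)
    · filter_upwards [hAt.eventually hV1, hAt.eventually hW1, hf1, he1, hball,
        eV.eventually_nhds, eW.eventually_nhds, hAt.eventually tV, hAt.eventually tW]
        with y a1 a2 a3 a4 a5 a6 a7 a8 a9 hM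
      have kW := deriv_comb_T2b c e Z hM a2 a4 (fun k => hrA _ (hZ k) _ a5) a7 (a8 hM)
      have kV := deriv_comb_T2b c f Y hM a1 a3 (fun k => hrA _ (hY k) _ a5) a6 (a9 hM)
      have sV := a6.self_of_nhds hM
      have sW := a7.self_of_nhds hM
      rw [VectorField.lieBracket, map_sub, inc_sub_T2b, kW, kV, sV, sW]
      rw [Fintype.sum_sum_type, Fintype.sum_sum_type]
      simp only [Sum.elim_inl, Sum.elim_inr]
      have t1 : ∀ k, fderiv ℂ (Z k) (inc y) (∑ i, f i y • Y i (inc y)) =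
          ∑ i, f i y • fderiv ℂ (Z k) (inc y) (Y i (inc y)) := by
        intro k; rw [map_sum]; simp only [map_smul]
      have t2 : ∀ i, fderiv ℂ (Y i) (inc y) (∑ k, e k y • Z k (inc y)) =
          ∑ k, e k y • fderiv ℂ (Y i) (inc y) (Z k (inc y)) := by
        intro i; rw [map_sum]; simp only [map_smul]
      simp only [t1, t2, Finset.sum_add_distrib, Finset.smul_sum, neg_smul, Finset.sum_neg_distrib,
        Fintype.sum_prod_type, smul_sub, Finset.sum_sub_distrib, smul_smul]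
      rw [Finset.sum_comm (f := fun k i => (e k y * f i y) • fderiv ℂ (Z k) (inc y) (Y i (inc y)))]
      have t3 : ∑ i, ∑ k, (e k y * f i y) • fderiv ℂ (Z k) (inc y) (Y i (inc y)) =
          ∑ i, ∑ k, (f i y * e k y) • fderiv ℂ (Z k) (inc y) (Y i (inc y)) := by
        refine Finset.sum_congr rfl fun i _ => Finset.sum_congr rfl fun k _ => ?_
        rw [mul_comm]
      rw [t3]
      abel

/-! ### real brackets are combinations of holomorphic brackets -/

theorem real_to_analytic {N n d : ℕ} {M : Set (Fin N → ℂ)} {p : Fin N → ℂ} (c : Chart n d M p) :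
    ∀ᶠ y₀ in 𝓝 (0 : ZI n d → ℂ), p + c.A y₀ ∈ M →
      ∀ V, IteratedBracket d M (p + c.A y₀) V →
        ContDiffAt ℝ ∞ V (p + c.A y₀) ∧
        (∀ᶠ x in 𝓝 (p + c.A y₀), x ∈ M → TangentVec d M x (V x)) ∧
        ∃ (m : ℕ) (f : Fin m → (ZI n d → ℂ) → ℂ) (Y : Fin m → (SI n d → ℂ) → (SI n d → ℂ)),
          (∀ i, ContDiffAt ℝ ∞ (f i) y₀) ∧ (∀ i, AIter c (Y i)) ∧
          ∀ᶠ y in 𝓝 y₀, p + c.A y ∈ M →
            inc (c.A.symm (V (p + c.A y))) = ∑ i, f i y • Y i (inc y) := by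
  obtain ⟨r, hr0, hrA⟩ := AIter.analytic c
  have hball : ∀ᶠ y in 𝓝 (0 : ZI n d → ℂ), inc y ∈ Metric.ball (0 : SI n d → ℂ) r := by
    refine inc_cont_T2b.continuousAt.eventually_mem (Metric.isOpen_ball.mem_nhds ?_)
    rw [inc_zero_T2b]
    exact Metric.mem_ball_self hr0
  filter_upwards [hball, c.mem.eventually_nhds, c.tangent.eventually_nhds] with y₀ h1 h2 h3 hM V hV
  obtain ⟨g1, g2, ι, _, f, Y, hf, hY, h⟩ := real_to_analytic_aux_T2b c hM h1 hrA h2 h3 hV
  refine ⟨g1, g2, Fintype.card ι, fun i => f ((Fintype.equivFin ι).symm i),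
    fun i => Y ((Fintype.equivFin ι).symm i), fun i => hf _, fun i => hY _, ?_⟩
  filter_upwards [h] with y hy hM'
  rw [hy hM']
  exact ((Fintype.equivFin ι).symm.sum_comp (fun i => f i y • Y i (inc y))).symm

end Pool.Agent.Results.MP_51bf1a_an.JetDet
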