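import Pool.Agent.Helper706.JD.T2a
import Pool.Agent.Helper706.JD.T2t

set_option autoImplicit false

open scoped Topology ContDiff ComplexConjugate
open Set Filter Complex

namespace Pool.Agent.Results.MP_51bf1a_an.JetDet







section T3a

variable {N n d : ℕ}

/-- `inc` as a real-linear map -/
noncomputable def incL_T3a : (ZI n d → ℂ) →L[ℝ] (SI n d → ℂ) :=
  LinearMap.toContinuousLinearMap
    { toFun := inc
      map_add' := by intro x y; funext s; rcases s with s | s <;> simp [inc]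
      map_smul' := by intro a x; funext s; rcases s with s | s <;> simp [inc] }

theorem incL_apply_T3a (y : ZI n d → ℂ) : incL_T3a y = inc y := rfl

theorem inc_add_T3a (x y : ZI n d → ℂ) : inc (x + y) = inc x + inc y := incL_T3a.map_add x y

theorem inc_sub_T3a (x y : ZI n d → ℂ) : inc (x - y) = inc x - inc y := incL_T3a.map_sub x y

theorem inc_zero_T3a : inc (0 : ZI n d → ℂ) = 0 := incL_T3a.map_zero

theorem continuous_inc_T3a : Continuous (inc : (ZI n d → ℂ) → (SI n d → ℂ)) := incL_T3a.continuous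

/-- `cj` as a real-linear map -/
noncomputable def cjL_T3a {σ : Type*} [Fintype σ] : (σ → ℂ) →L[ℝ] (σ → ℂ) :=
  LinearMap.toContinuousLinearMap
    { toFun := cj
      map_add' := by intro x y; funext s; simp [cj]
      map_smul' := by intro a x; funext s; simp [cj] }

theorem cjL_apply_T3a {σ : Type*} [Fintype σ] (y : σ → ℂ) : cjL_T3a y = cj y := rfl

theorem cj_cj_T3a {σ : Type*} (y : σ → ℂ) : cj (cj y) = y := by funext i; simp [cj]

theorem continuous_cj_T3a {σ : Type*} [Fintype σ] : Continuous (cj : (σ → ℂ) → (σ → ℂ)) :=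
  cjL_T3a.continuous

/-- the affine change of coordinates -/
theorem contDiff_T_T3a (A : (ZI n d → ℂ) ≃L[ℂ] (Fin N → ℂ)) (p : Fin N → ℂ) {k : WithTop ℕ∞} :
    ContDiff ℝ k (fun x : Fin N → ℂ => A.symm (x - p)) :=
  (A.symm.contDiff.restrict_scalars ℝ).comp (contDiff_id.sub contDiff_const)

theorem contDiff_tau_T3a (A : (ZI n d → ℂ) ≃L[ℂ] (Fin N → ℂ)) (p : Fin N → ℂ) {k : WithTop ℕ∞} :
    ContDiff ℝ k (fun y : ZI n d → ℂ => p + A y) :=
  contDiff_const.add (A.contDiff.restrict_scalars ℝ)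

theorem hasFDerivAt_T_T3a (A : (ZI n d → ℂ) ≃L[ℂ] (Fin N → ℂ)) (p x : Fin N → ℂ) :
    HasFDerivAt (fun x : Fin N → ℂ => A.symm (x - p))
      ((A.symm : (Fin N → ℂ) →L[ℂ] (ZI n d → ℂ)).restrictScalars ℝ) x := by
  have h := ((A.symm : (Fin N → ℂ) →L[ℂ] (ZI n d → ℂ)).restrictScalars ℝ).hasFDerivAt
    (x := x - p)
  exact h.comp x ((hasFDerivAt_id x).sub_const p)

theorem hasFDerivAt_tau_T3a (A : (ZI n d → ℂ) ≃L[ℂ] (Fin N → ℂ)) (p : Fin N → ℂ)
    (y : ZI n d → ℂ) :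
    HasFDerivAt (fun y : ZI n d → ℂ => p + A y)
      ((A : (ZI n d → ℂ) →L[ℂ] (Fin N → ℂ)).restrictScalars ℝ) y := by
  have h := ((A : (ZI n d → ℂ) →L[ℂ] (Fin N → ℂ)).restrictScalars ℝ).hasFDerivAt
    (x := y)
  exact h.const_add p

/-- `deriv_along` in the coordinates of the chart -/
theorem deriv_along'_T3a {M : Set (Fin N → ℂ)} {p : Fin N → ℂ} (A : (ZI n d → ℂ) ≃L[ℂ] (Fin N → ℂ))
    {y : ZI n d → ℂ} (hy : p + A y ∈ M) {κ : Type*} [Fintype κ]
    {φ ψ : (ZI n d → ℂ) → (κ → ℂ)} (hφ : ContDiffAt ℝ 1 φ y)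
    (hψ : ContDiffAt ℝ 1 ψ y) (h : ∀ᶠ y' in 𝓝 y, p + A y' ∈ M → φ y' = ψ y')
    {v : ZI n d → ℂ} (hv : TangentVec d M (p + A y) (A v)) :
    fderiv ℝ φ y v = fderiv ℝ ψ y v := by
  have hT : (fun x : Fin N → ℂ => A.symm (x - p)) (p + A y) = y := by simp
  have key : ∀ χ : (ZI n d → ℂ) → (κ → ℂ), ContDiffAt ℝ 1 χ y →
      ContDiffAt ℝ 1 (fun x => χ (A.symm (x - p))) (p + A y) ∧
      fderiv ℝ (fun x => χ (A.symm (x - p))) (p + A y) (A v) = fderiv ℝ χ y v := by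
    intro χ hχ
    have hχ' : ContDiffAt ℝ 1 χ ((fun x : Fin N → ℂ => A.symm (x - p)) (p + A y)) := by
      rw [hT]; exact hχ
    refine ⟨hχ'.comp (p + A y) (contDiff_T_T3a A p).contDiffAt, ?_⟩
    have h1 : HasFDerivAt χ (fderiv ℝ χ y) ((fun x : Fin N → ℂ => A.symm (x - p)) (p + A y)) := by
      rw [hT]; exact (hχ.differentiableAt one_ne_zero).hasFDerivAt
    have h2 := h1.comp (p + A y) (hasFDerivAt_T_T3a A p (p + A y))
    have h3 : fderiv ℝ (fun x => χ (A.symm (x - p))) (p + A y) =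
        (fderiv ℝ χ y).comp ((A.symm : (Fin N → ℂ) →L[ℂ] (ZI n d → ℂ)).restrictScalars ℝ) :=
      h2.fderiv
    rw [h3]
    simp
  have hcont : Tendsto (fun x : Fin N → ℂ => A.symm (x - p)) (𝓝 (p + A y)) (𝓝 y) := by
    have := (contDiff_T_T3a (k := 0) A p).continuous.tendsto (p + A y)
    simpa using this
  have h' : ∀ᶠ x in 𝓝 (p + A y), x ∈ M → φ (A.symm (x - p)) = ψ (A.symm (x - p)) := by
    filter_upwards [hcont.eventually h] with x hx hxM
    apply hx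
    simpa using hxM
  have := deriv_along hy (key φ hφ).1 (key ψ hψ).1 h' hv
  rwa [(key φ hφ).2, (key ψ hψ).2] at this

/-- a combination of real brackets -/
def Comb_T3a (A : (ZI n d → ℂ) ≃L[ℂ] (Fin N → ℂ))
    (M : Set (Fin N → ℂ)) (p : Fin N → ℂ)
    (y₀ : ZI n d → ℂ) (κ : Type) [Fintype κ] (G : (ZI n d → ℂ) → (SI n d → ℂ))
    (f : κ → (ZI n d → ℂ) → ℂ) (V : κ → (Fin N → ℂ) → (Fin N → ℂ)) : Prop :=
  (∀ i, ContDiffAt ℝ ∞ (f i) y₀) ∧
  (∀ i, IteratedBracket d M (p + A y₀) (V i) ∧ ContDiffAt ℝ ∞ (V i) (p + A y₀) ∧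
    ∀ᶠ x in 𝓝 (p + A y₀), x ∈ M → TangentVec d M x (V i x)) ∧
  ∀ᶠ y in 𝓝 y₀, p + A y ∈ M → G y = ∑ i, f i y • inc (A.symm (V i (p + A y)))

theorem hat_fderiv_T3a (A : (ZI n d → ℂ) ≃L[ℂ] (Fin N → ℂ)) (p : Fin N → ℂ)
    {V : (Fin N → ℂ) → (Fin N → ℂ)} {y : ZI n d → ℂ} (hV : DifferentiableAt ℝ V (p + A y)) :
    HasFDerivAt (fun y : ZI n d → ℂ => A.symm (V (p + A y)))
      (((A.symm : (Fin N → ℂ) →L[ℂ] (ZI n d → ℂ)).restrictScalars ℝ).comp
        ((fderiv ℝ V (p + A y)).comp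
          ((A : (ZI n d → ℂ) →L[ℂ] (Fin N → ℂ)).restrictScalars ℝ))) y := by
  have h1 := hV.hasFDerivAt.comp y (hasFDerivAt_tau_T3a A p y)
  exact ((A.symm : (Fin N → ℂ) →L[ℂ] (ZI n d → ℂ)).restrictScalars ℝ).hasFDerivAt.comp y h1

theorem inc_hat_hasFDerivAt_T3a (A : (ZI n d → ℂ) ≃L[ℂ] (Fin N → ℂ)) (p : Fin N → ℂ)
    {V : (Fin N → ℂ) → (Fin N → ℂ)} {y : ZI n d → ℂ} (hV : DifferentiableAt ℝ V (p + A y)) :
    HasFDerivAt (fun y : ZI n d → ℂ => inc (A.symm (V (p + A y))))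
      (incL_T3a.comp (((A.symm : (Fin N → ℂ) →L[ℂ] (ZI n d → ℂ)).restrictScalars ℝ).comp
        ((fderiv ℝ V (p + A y)).comp
          ((A : (ZI n d → ℂ) →L[ℂ] (Fin N → ℂ)).restrictScalars ℝ)))) y :=
  incL_T3a.hasFDerivAt.comp y (hat_fderiv_T3a A p hV)

theorem inc_hat_contDiffAt_T3a (A : (ZI n d → ℂ) ≃L[ℂ] (Fin N → ℂ)) (p : Fin N → ℂ) {k : WithTop ℕ∞}
    {V : (Fin N → ℂ) → (Fin N → ℂ)} {y : ZI n d → ℂ} (hV : ContDiffAt ℝ k V (p + A y)) :
    ContDiffAt ℝ k (fun y : ZI n d → ℂ => inc (A.symm (V (p + A y)))) y := by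
  have h1 : ContDiffAt ℝ k (fun y : ZI n d → ℂ => V (p + A y)) y :=
    hV.comp y (contDiff_tau_T3a A p).contDiffAt
  have h2 : ContDiffAt ℝ k (fun y : ZI n d → ℂ => A.symm (V (p + A y))) y :=
    (A.symm.contDiff.restrict_scalars ℝ).contDiffAt.comp y h1
  exact incL_T3a.contDiff.contDiffAt.comp y h2

theorem hat_contDiffAt_T3a (A : (ZI n d → ℂ) ≃L[ℂ] (Fin N → ℂ)) (p : Fin N → ℂ) {k : WithTop ℕ∞}
    {V : (Fin N → ℂ) → (Fin N → ℂ)} {y : ZI n d → ℂ} (hV : ContDiffAt ℝ k V (p + A y)) :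
    ContDiffAt ℝ k (fun y : ZI n d → ℂ => A.symm (V (p + A y))) y := by
  have h1 : ContDiffAt ℝ k (fun y : ZI n d → ℂ => V (p + A y)) y :=
    hV.comp y (contDiff_tau_T3a A p).contDiffAt
  exact (A.symm.contDiff.restrict_scalars ℝ).contDiffAt.comp y h1

/-- derivative of a holomorphic field along the totally real copy -/
theorem half_T3a {M : Set (Fin N → ℂ)} {p : Fin N → ℂ} (A : (ZI n d → ℂ) ≃L[ℂ] (Fin N → ℂ))
    {κ : Type} [Fintype κ] {Z : (SI n d → ℂ) → (SI n d → ℂ)}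
    {e : κ → (ZI n d → ℂ) → ℂ} {W : κ → (Fin N → ℂ) → (Fin N → ℂ)} {y : ZI n d → ℂ}
    (hy : p + A y ∈ M) (hZ : AnalyticAt ℂ Z (inc y))
    (he : ∀ k, ContDiffAt ℝ 1 (e k) y) (hW : ∀ k, ContDiffAt ℝ 1 (W k) (p + A y))
    (h : ∀ᶠ y' in 𝓝 y, p + A y' ∈ M → Z (inc y') = ∑ k, e k y' • inc (A.symm (W k (p + A y'))))
    {v : ZI n d → ℂ} (hv : TangentVec d M (p + A y) (A v)) :
    fderiv ℂ Z (inc y) (inc v) = ∑ k, (e k y • inc (A.symm (fderiv ℝ (W k) (p + A y) (A v))) +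
      fderiv ℝ (e k) y v • inc (A.symm (W k (p + A y)))) := by
  have hφ : ContDiffAt ℝ 1 (fun y => Z (inc y)) y := by
    have h1 : ContDiffAt ℝ 1 Z (incL_T3a y) := (hZ.contDiffAt.restrict_scalars ℝ)
    exact h1.comp y incL_T3a.contDiff.contDiffAt
  have hψ : ContDiffAt ℝ 1 (fun y => ∑ k, e k y • inc (A.symm (W k (p + A y)))) y := by
    apply ContDiffAt.sum
    intro k _
    exact (he k).smul (inc_hat_contDiffAt_T3a A p (hW k))
  have h1 := deriv_along'_T3a A hy hφ hψ h hv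
  have h2 : HasFDerivAt (fun y => Z (inc y))
      (((fderiv ℂ Z (inc y)).restrictScalars ℝ).comp incL_T3a) y := by
    have h3 : HasFDerivAt Z ((fderiv ℂ Z (incL_T3a y)).restrictScalars ℝ) (incL_T3a y) :=
      (hZ.differentiableAt.hasFDerivAt).restrictScalars ℝ
    exact h3.comp y incL_T3a.hasFDerivAt
  have h3 : HasFDerivAt (fun y => ∑ k, e k y • inc (A.symm (W k (p + A y)))) _ y :=
    HasFDerivAt.fun_sum (u := Finset.univ) fun k _ =>
      ((he k).differentiableAt one_ne_zero).hasFDerivAt.smul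
        (inc_hat_hasFDerivAt_T3a A p ((hW k).differentiableAt one_ne_zero))
  rw [h2.fderiv, h3.fderiv] at h1
  simpa [incL_apply_T3a] using h1

theorem lie_contDiffAt_T3a {V W : (Fin N → ℂ) → (Fin N → ℂ)} {x : Fin N → ℂ}
    (hV : ContDiffAt ℝ ∞ V x) (hW : ContDiffAt ℝ ∞ W x) :
    ContDiffAt ℝ ∞ (VectorField.lieBracket ℝ V W) x := by
  have h1 : ContDiffAt ℝ ∞ (fun x => fderiv ℝ W x (V x)) x :=
    (hW.fderiv_right (m := ∞) (by simp)).clm_apply hV
  have h2 : ContDiffAt ℝ ∞ (fun x => fderiv ℝ V x (W x)) x :=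
    (hV.fderiv_right (m := ∞) (by simp)).clm_apply hW
  exact h1.sub h2

theorem comb_bracket_T3a {M : Set (Fin N → ℂ)} {p : Fin N → ℂ} (A : (ZI n d → ℂ) ≃L[ℂ] (Fin N → ℂ))
    {κ κ' : Type} [Fintype κ] [Fintype κ'] {Y Z : (SI n d → ℂ) → (SI n d → ℂ)}
    {f : κ → (ZI n d → ℂ) → ℂ} {V : κ → (Fin N → ℂ) → (Fin N → ℂ)}
    {e : κ' → (ZI n d → ℂ) → ℂ} {W : κ' → (Fin N → ℂ) → (Fin N → ℂ)} {y₀ : ZI n d → ℂ}
    (hy₀ : p + A y₀ ∈ M) (hY : ∀ᶠ s in 𝓝 (inc y₀), AnalyticAt ℂ Y s)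
    (hZ : ∀ᶠ s in 𝓝 (inc y₀), AnalyticAt ℂ Z s)
    (cY : Comb_T3a A M p y₀ κ (fun y => Y (inc y)) f V)
    (cZ : Comb_T3a A M p y₀ κ' (fun y => Z (inc y)) e W) :
    Comb_T3a A M p y₀ ((κ × κ') ⊕ ((κ × κ') ⊕ (κ × κ')))
      (fun y => fderiv ℂ Z (inc y) (Y (inc y)) - fderiv ℂ Y (inc y) (Z (inc y)))
      (Sum.elim (fun ik y => f ik.1 y * e ik.2 y)
        (Sum.elim (fun ik y => f ik.1 y * fderiv ℝ (e ik.2) y (A.symm (V ik.1 (p + A y))))
          (fun ik y => -(e ik.2 y * fderiv ℝ (f ik.1) y (A.symm (W ik.2 (p + A y)))))))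
      (Sum.elim (fun ik => VectorField.lieBracket ℝ (V ik.1) (W ik.2))
        (Sum.elim (fun ik => W ik.2) (fun ik => V ik.1))) := by
  obtain ⟨cY1, cY2, cY3⟩ := cY
  obtain ⟨cZ1, cZ2, cZ3⟩ := cZ
  refine ⟨?_, ?_, ?_⟩
  · rintro (⟨i, k⟩ | ⟨i, k⟩ | ⟨i, k⟩)
    · exact (cY1 i).mul (cZ1 k)
    · exact (cY1 i).mul (((cZ1 k).fderiv_right (m := ∞) (by simp)).clm_apply
        (hat_contDiffAt_T3a A p (cY2 i).2.1))
    · exact ((cZ1 k).mul (((cY1 i).fderiv_right (m := ∞) (by simp)).clm_apply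
        (hat_contDiffAt_T3a A p (cZ2 k).2.1))).neg
  · rintro (⟨i, k⟩ | ⟨i, k⟩ | ⟨i, k⟩)
    · exact ⟨IteratedBracket.bracket _ _ (cY2 i).1 (cZ2 k).1,
        lie_contDiffAt_T3a (cY2 i).2.1 (cZ2 k).2.1,
        tangent_bracket hy₀ (cY2 i).2.1 (cZ2 k).2.1 (cY2 i).2.2 (cZ2 k).2.2⟩
    · exact cZ2 k
    · exact cY2 i
  · have hi : Tendsto (inc : (ZI n d → ℂ) → (SI n d → ℂ)) (𝓝 y₀) (𝓝 (inc y₀)) :=
      continuous_inc_T3a.tendsto y₀
    have hτ : Tendsto (fun y : ZI n d → ℂ => p + A y) (𝓝 y₀) (𝓝 (p + A y₀)) :=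
      (contDiff_tau_T3a (k := 0) A p).continuous.tendsto y₀
    have e1 : ∀ᶠ y in 𝓝 y₀, ∀ k, ContDiffAt ℝ 1 (e k) y :=
      eventually_all.2 fun k => ((cZ1 k).of_le (by simp)).eventually (by simp)
    have f1 : ∀ᶠ y in 𝓝 y₀, ∀ k, ContDiffAt ℝ 1 (f k) y :=
      eventually_all.2 fun k => ((cY1 k).of_le (by simp)).eventually (by simp)
    have W1 : ∀ᶠ y in 𝓝 y₀, ∀ k, ContDiffAt ℝ 1 (W k) (p + A y) :=
      eventually_all.2 fun k => hτ.eventually
        ((((cZ2 k).2.1).of_le (by simp)).eventually (by simp))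
    have V1 : ∀ᶠ y in 𝓝 y₀, ∀ k, ContDiffAt ℝ 1 (V k) (p + A y) :=
      eventually_all.2 fun k => hτ.eventually
        ((((cY2 k).2.1).of_le (by simp)).eventually (by simp))
    have Wt : ∀ᶠ y in 𝓝 y₀, ∀ k, p + A y ∈ M → TangentVec d M (p + A y) (W k (p + A y)) :=
      eventually_all.2 fun k => hτ.eventually ((cZ2 k).2.2)
    have Vt : ∀ᶠ y in 𝓝 y₀, ∀ k, p + A y ∈ M → TangentVec d M (p + A y) (V k (p + A y)) :=
      eventually_all.2 fun k => hτ.eventually ((cY2 k).2.2)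
    filter_upwards [e1, f1, W1, V1, Wt, Vt, hi.eventually hY, hi.eventually hZ,
      cY3.eventually_nhds, cZ3.eventually_nhds, cY3, cZ3] with y e1 f1 W1 V1 Wt Vt aY aZ hY' hZ' hY0 hZ0 hyM
    have hA : fderiv ℂ Z (inc y) (Y (inc y)) = ∑ i, f i y • ∑ k,
        (e k y • inc (A.symm (fderiv ℝ (W k) (p + A y) (V i (p + A y)))) +
          fderiv ℝ (e k) y (A.symm (V i (p + A y))) • inc (A.symm (W k (p + A y)))) := by
      rw [hY0 hyM, map_sum]
      refine Finset.sum_congr rfl fun i _ => ?_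
      rw [map_smul]
      have := half_T3a A hyM aZ e1 W1 hZ' (v := A.symm (V i (p + A y))) (by simpa using Vt i hyM)
      rw [this]
      simp
    have hB : fderiv ℂ Y (inc y) (Z (inc y)) = ∑ k, e k y • ∑ i,
        (f i y • inc (A.symm (fderiv ℝ (V i) (p + A y) (W k (p + A y)))) +
          fderiv ℝ (f i) y (A.symm (W k (p + A y))) • inc (A.symm (V i (p + A y)))) := by
      rw [hZ0 hyM, map_sum]
      refine Finset.sum_congr rfl fun i _ => ?_
      rw [map_smul]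
      have := half_T3a A hyM aY f1 V1 hY' (v := A.symm (W i (p + A y))) (by simpa using Wt i hyM)
      rw [this]
      simp
    rw [hA, hB]
    simp only [Fintype.sum_sum_type, Sum.elim_inl, Sum.elim_inr, Fintype.sum_prod_type,
      VectorField.lieBracket, Finset.smul_sum, smul_add, map_sub, inc_sub_T3a, smul_sub, smul_smul,
      Finset.sum_add_distrib, Finset.sum_sub_distrib, neg_smul, Finset.sum_neg_distrib]
    rw [Finset.sum_comm (s := (Finset.univ : Finset κ')) (t := (Finset.univ : Finset κ))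
      (f := fun k i => (e k y * f i y) • inc (A.symm (fderiv ℝ (V i) (p + A y) (W k (p + A y))))),
      Finset.sum_comm (s := (Finset.univ : Finset κ')) (t := (Finset.univ : Finset κ))
      (f := fun k i => (e k y * fderiv ℝ (f i) y (A.symm (W k (p + A y)))) •
        inc (A.symm (V i (p + A y))))]
    simp only [mul_comm (e _ y) (f _ y)]
    abel

/-- the base fields in the chart -/
noncomputable def bf_T3a {M : Set (Fin N → ℂ)} {p : Fin N → ℂ} (c : Chart n d M p) (j : Fin n)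
    (y : ZI n d → ℂ) : ZI n d → ℂ :=
  Sum.elim (Pi.single j 1) (fderiv ℂ (c.q false) (cj (inc y)) (Pi.single (Sum.inl j) 1))

theorem flip_inc_T3a {M : Set (Fin N → ℂ)} {p : Fin N → ℂ} (c : Chart n d M p) {y : ZI n d → ℂ}
    (hm : c.q false (cj (inc y)) = fun μ => y (Sum.inr μ)) :
    flipE (c.q true) (inc y) = cj (inc y) := by
  have h := c.conj_q false (cj (inc y))
  rw [cj_cj_T3a, hm] at h
  have h' : c.q true (inc y) = cj fun μ => y (Sum.inr μ) := h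
  funext s
  rcases s with s | s | s
  · simp [flipE, cj, inc]
  · simp [flipE, cj, inc]
  · change c.q true (inc y) s = _
    rw [h']
    simp [cj, inc]

theorem deriv_conj_T3a {M : Set (Fin N → ℂ)} {p : Fin N → ℂ} (c : Chart n d M p) {s : SI n d → ℂ}
    (hf : AnalyticAt ℂ (c.q false) (cj s)) (ht : AnalyticAt ℂ (c.q true) s) (u : SI n d → ℂ) :
    fderiv ℂ (c.q true) s u = cj (fderiv ℂ (c.q false) (cj s) (cj u)) := by
  have h1 : HasFDerivAt (c.q true) ((fderiv ℂ (c.q true) s).restrictScalars ℝ) s :=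
    ht.differentiableAt.hasFDerivAt.restrictScalars ℝ
  have h2 : HasFDerivAt (c.q false) ((fderiv ℂ (c.q false) (cjL_T3a s)).restrictScalars ℝ) (cjL_T3a s) :=
    hf.differentiableAt.hasFDerivAt.restrictScalars ℝ
  have h3 := cjL_T3a.hasFDerivAt.comp s (h2.comp s cjL_T3a.hasFDerivAt)
  have h4 : (cjL_T3a ∘ (c.q false ∘ cjL_T3a)) = c.q true := by
    funext s
    have := c.conj_q false (cj s)
    rw [cj_cj_T3a] at this
    exact this.symm
  rw [h4] at h3
  have h5 := h1.unique h3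
  have h6 := congrArg (fun L => L u) h5
  exact h6

theorem deriv_invol_T3a {M : Set (Fin N → ℂ)} {p : Fin N → ℂ} (c : Chart n d M p) {s : SI n d → ℂ}
    (hf : AnalyticAt ℂ (c.q false) (flipE (c.q true) s)) (ht : AnalyticAt ℂ (c.q true) s)
    (hi : ∀ᶠ s' in 𝓝 s, c.q false (flipE (c.q true) s') = fun μ => s' (Sum.inr (Sum.inr μ)))
    (u : SI n d → ℂ) :
    fderiv ℂ (c.q false) (flipE (c.q true) s)
      (flipE (fun u => fderiv ℂ (c.q true) s u) u) = fun μ => u (Sum.inr (Sum.inr μ)) := by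
  have hl : HasDerivAt (fun t : ℂ => s + t • u) u 0 := by
    simpa using ((hasDerivAt_id (0 : ℂ)).smul_const u).const_add s
  have h0 : s + (0 : ℂ) • u = s := by simp
  have hq : HasDerivAt (fun t : ℂ => c.q true (s + t • u)) (fderiv ℂ (c.q true) s u) 0 := by
    have h1 : HasFDerivAt (c.q true) (fderiv ℂ (c.q true) s) (s + (0 : ℂ) • u) := by
      rw [h0]; exact ht.differentiableAt.hasFDerivAt
    exact h1.comp_hasDerivAt (0 : ℂ) hl
  have hfl : HasDerivAt (fun t : ℂ => flipE (c.q true) (s + t • u))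
      (flipE (fun u => fderiv ℂ (c.q true) s u) u) 0 := by
    rw [hasDerivAt_pi]
    rintro (j | j | μ)
    · simpa [flipE] using (hasDerivAt_pi.1 hl) (Sum.inr (Sum.inl j))
    · simpa [flipE] using (hasDerivAt_pi.1 hl) (Sum.inl j)
    · simpa [flipE] using (hasDerivAt_pi.1 hq) μ
  have hcomp : HasDerivAt (fun t : ℂ => c.q false (flipE (c.q true) (s + t • u)))
      (fderiv ℂ (c.q false) (flipE (c.q true) s)
        (flipE (fun u => fderiv ℂ (c.q true) s u) u)) 0 := by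
    have h1 : HasFDerivAt (c.q false) (fderiv ℂ (c.q false) (flipE (c.q true) s))
        (flipE (c.q true) (s + (0 : ℂ) • u)) := by
      rw [h0]; exact hf.differentiableAt.hasFDerivAt
    exact h1.comp_hasDerivAt (0 : ℂ) hfl
  have hcont : Tendsto (fun t : ℂ => s + t • u) (𝓝 0) (𝓝 s) := by
    have := hl.continuousAt.tendsto
    simpa using this
  have hev : (fun t : ℂ => c.q false (flipE (c.q true) (s + t • u))) =ᶠ[𝓝 0]
      fun t : ℂ => fun μ => (s + t • u) (Sum.inr (Sum.inr μ)) := hcont.eventually hi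
  have hr : HasDerivAt (fun t : ℂ => fun μ : Fin d => (s + t • u) (Sum.inr (Sum.inr μ)))
      (fun μ => u (Sum.inr (Sum.inr μ))) 0 := by
    rw [hasDerivAt_pi]
    intro μ
    exact (hasDerivAt_pi.1 hl) (Sum.inr (Sum.inr μ))
  exact (hcomp.congr_of_eventuallyEq hev.symm).unique hr

theorem tangentVec_neg_T3a {M : Set (Fin N → ℂ)} {x v : Fin N → ℂ} (h : TangentVec d M x v) :
    TangentVec d M x (-v) := by
  obtain ⟨ρ, h1, h2⟩ := h
  exact ⟨ρ, h1, by rw [map_neg, h2, neg_zero]⟩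

theorem bf_tangent_T3a {M : Set (Fin N → ℂ)} {p : Fin N → ℂ} (c : Chart n d M p) {y : ZI n d → ℂ}
    (hm : c.q false (cj (inc y)) = fun μ => y (Sum.inr μ))
    (hf : AnalyticAt ℂ (c.q false) (cj (inc y))) (ht : AnalyticAt ℂ (c.q true) (inc y))
    (hi : ∀ᶠ s' in 𝓝 (inc y), c.q false (flipE (c.q true) s') = fun μ => s' (Sum.inr (Sum.inr μ)))
    (htan : ∀ v, (TangentVec d M (p + c.A y) (c.A v) ↔
      fderiv ℂ (c.q false) (cj (inc y)) (cj (inc v)) = fun μ => v (Sum.inr μ))) (j : Fin n) :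
    CTangentVec d M (p + c.A y) (c.A (bf_T3a c j y)) ∧
      CTangentVec d M (p + c.A y) (c.A (I • bf_T3a c j y)) := by
  have hfl := flip_inc_T3a c hm
  set a := fderiv ℂ (c.q false) (cj (inc y)) (Pi.single (Sum.inl j) 1) with ha
  have hcs : cj (Pi.single (Sum.inl j) 1 : SI n d → ℂ) = Pi.single (Sum.inl j) 1 := by
    funext s
    by_cases h : s = Sum.inl j
    · subst h; simp [cj]
    · simp [cj, Pi.single_eq_of_ne h]
  have hb : fderiv ℂ (c.q true) (inc y) (Pi.single (Sum.inl j) 1) = cj a := by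
    rw [deriv_conj_T3a c hf ht, hcs]
  have hD := deriv_invol_T3a c (s := inc y) (by rw [hfl]; exact hf) ht hi (Pi.single (Sum.inl j) 1)
  rw [hfl] at hD
  have hu : flipE (fun u => fderiv ℂ (c.q true) (inc y) u) (Pi.single (Sum.inl j) 1) =
      (Sum.elim (0 : Fin n → ℂ) (Sum.elim (Pi.single j 1) (cj a)) : SI n d → ℂ) := by
    rw [← hb]
    funext s
    rcases s with s | s | s
    · simp [flipE]
    · by_cases h : s = j
      · subst h; simp [flipE]
      · simp [flipE, h]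
    · simp [flipE]
  rw [hu] at hD
  have hD' : fderiv ℂ (c.q false) (cj (inc y)) ((Sum.elim (0 : Fin n → ℂ) (Sum.elim (Pi.single j 1) (cj a)) : SI n d → ℂ)) = 0 := by
    rw [hD]; funext μ; simp
  have h1 : cj (inc (bf_T3a c j y)) = (Pi.single (Sum.inl j) 1 : SI n d → ℂ) +
      (Sum.elim (0 : Fin n → ℂ) (Sum.elim (Pi.single j 1) (cj a)) : SI n d → ℂ) := by
    funext s
    rcases s with s | s | s
    · by_cases h : s = j
      · subst h; simp [cj, inc, bf_T3a]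
      · simp [cj, inc, bf_T3a, h]
    · by_cases h : s = j
      · subst h; simp [cj, inc, bf_T3a]
      · simp [cj, inc, bf_T3a, h]
    · simp [cj, inc, bf_T3a, ha]
  have h2 : cj (inc (I • bf_T3a c j y)) = I • (Pi.single (Sum.inl j) 1 : SI n d → ℂ) +
      (-I) • (Sum.elim (0 : Fin n → ℂ) (Sum.elim (Pi.single j 1) (cj a)) : SI n d → ℂ) := by
    funext s
    rcases s with s | s | s
    · by_cases h : s = j
      · subst h; simp [cj, inc, bf_T3a]
      · simp [cj, inc, bf_T3a, h]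
    · by_cases h : s = j
      · subst h; simp [cj, inc, bf_T3a]
      · simp [cj, inc, bf_T3a, h]
    · simp [cj, inc, bf_T3a, ha]
  have t1 : TangentVec d M (p + c.A y) (c.A (bf_T3a c j y)) := by
    rw [htan, h1, map_add, hD', add_zero]
    funext μ
    simp [bf_T3a]
  have t2 : TangentVec d M (p + c.A y) (c.A (I • bf_T3a c j y)) := by
    rw [htan, h2, map_add, map_smul, map_smul, hD', smul_zero, add_zero]
    funext μ
    simp [bf_T3a]
  refine ⟨⟨t1, by rw [← map_smul]; exact t2⟩, ⟨t2, ?_⟩⟩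
  rw [← map_smul, smul_smul, I_mul_I, neg_one_smul, map_neg]
  exact tangentVec_neg_T3a t1

theorem bf_contDiffAt_T3a {M : Set (Fin N → ℂ)} {p : Fin N → ℂ} (c : Chart n d M p) (j : Fin n)
    {y : ZI n d → ℂ} (hf : AnalyticAt ℂ (c.q false) (cj (inc y))) :
    ContDiffAt ℝ ∞ (bf_T3a c j) y := by
  have h1 : ContDiffAt ℝ ∞ (fun y => fderiv ℂ (c.q false) (cj (inc y))) y := by
    have h2 : ContDiffAt ℝ ∞ (fderiv ℂ (c.q false)) (cjL_T3a (incL_T3a y)) :=
      (hf.fderiv.contDiffAt).restrict_scalars ℝ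
    have h2' : ContDiffAt ℝ ∞ (fun z : SI n d → ℂ => fderiv ℂ (c.q false) (cjL_T3a z)) (incL_T3a y) :=
      h2.comp (incL_T3a y) (cjL_T3a : (SI n d → ℂ) →L[ℝ] (SI n d → ℂ)).contDiff.contDiffAt
    exact h2'.comp y incL_T3a.contDiff.contDiffAt
  have h3 : ContDiffAt ℝ ∞
      (fun y => fderiv ℂ (c.q false) (cj (inc y)) (Pi.single (Sum.inl j) 1)) y := by
    have h4 : ContDiff ℝ ∞ (fun L : (SI n d → ℂ) →L[ℂ] (Fin d → ℂ) => L (Pi.single (Sum.inl j) 1)) :=
      ((ContinuousLinearMap.apply ℂ (Fin d → ℂ) (Pi.single (Sum.inl j) 1 : SI n d → ℂ)).contDiff).restrict_scalars ℝ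
    exact h4.contDiffAt.comp y h1
  rw [contDiffAt_pi]
  rintro (i | i)
  · simp only [bf_T3a, Sum.elim_inl]
    exact contDiffAt_const
  · simp only [bf_T3a, Sum.elim_inr]
    exact (contDiffAt_pi.1 h3) i

theorem Comb_T3a.congr {M : Set (Fin N → ℂ)} {p : Fin N → ℂ} {A : (ZI n d → ℂ) ≃L[ℂ] (Fin N → ℂ)}
    {y₀ : ZI n d → ℂ} {κ : Type} [Fintype κ] {G G' : (ZI n d → ℂ) → (SI n d → ℂ)}
    {f : κ → (ZI n d → ℂ) → ℂ} {V : κ → (Fin N → ℂ) → (Fin N → ℂ)}
    (h : Comb_T3a A M p y₀ κ G f V) (hG : ∀ᶠ y in 𝓝 y₀, p + A y ∈ M → G' y = G y) :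
    Comb_T3a A M p y₀ κ G' f V := by
  refine ⟨h.1, h.2.1, ?_⟩
  filter_upwards [h.2.2, hG] with y h1 h2 hy
  rw [h2 hy, h1 hy]

theorem comb_base_T3a {M : Set (Fin N → ℂ)} {p : Fin N → ℂ} (c : Chart n d M p) (j : Fin n)
    {y₀ : ZI n d → ℂ} (hf : AnalyticAt ℂ (c.q false) (cj (inc y₀)))
    (ht : ∀ᶠ y in 𝓝 y₀, p + c.A y ∈ M → CTangentVec d M (p + c.A y) (c.A (bf_T3a c j y)) ∧
      CTangentVec d M (p + c.A y) (c.A (I • bf_T3a c j y))) (a b : ℂ) :
    Comb_T3a c.A M p y₀ (Fin 2) (fun y => a • inc (bf_T3a c j y) + b • inc (I • bf_T3a c j y))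
      ![fun _ => a, fun _ => b]
      ![fun x => c.A (bf_T3a c j (c.A.symm (x - p))), fun x => c.A (I • bf_T3a c j (c.A.symm (x - p)))] := by
  have hT : (fun x : Fin N → ℂ => c.A.symm (x - p)) (p + c.A y₀) = y₀ := by simp
  have hcont : Tendsto (fun x : Fin N → ℂ => c.A.symm (x - p)) (𝓝 (p + c.A y₀)) (𝓝 y₀) := by
    have := (contDiff_T_T3a (k := 0) c.A p).continuous.tendsto (p + c.A y₀)
    simpa using this
  have hAc : ContDiff ℝ ∞ (c.A : (ZI n d → ℂ) → (Fin N → ℂ)) := c.A.contDiff.restrict_scalars ℝ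
  have s0 : ContDiffAt ℝ ∞ (fun x => bf_T3a c j (c.A.symm (x - p))) (p + c.A y₀) := by
    have h1 : ContDiffAt ℝ ∞ (bf_T3a c j) ((fun x : Fin N → ℂ => c.A.symm (x - p)) (p + c.A y₀)) := by
      rw [hT]; exact bf_contDiffAt_T3a c j hf
    exact ContDiffAt.comp (g := bf_T3a c j) (f := fun x : Fin N → ℂ => c.A.symm (x - p)) (p + c.A y₀) h1
      (contDiff_T_T3a c.A p).contDiffAt
  have s0' : ContDiffAt ℝ ∞ (fun x => I • bf_T3a c j (c.A.symm (x - p))) (p + c.A y₀) :=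
    s0.const_smul I
  have s1 : ContDiffAt ℝ ∞ (fun x => c.A (bf_T3a c j (c.A.symm (x - p)))) (p + c.A y₀) :=
    hAc.contDiffAt.comp (p + c.A y₀) s0
  have s2 : ContDiffAt ℝ ∞ (fun x => c.A (I • bf_T3a c j (c.A.symm (x - p)))) (p + c.A y₀) :=
    hAc.contDiffAt.comp (p + c.A y₀) s0'
  have ht' : ∀ᶠ x in 𝓝 (p + c.A y₀), x ∈ M →
      CTangentVec d M x (c.A (bf_T3a c j (c.A.symm (x - p)))) ∧
      CTangentVec d M x (c.A (I • bf_T3a c j (c.A.symm (x - p)))) := by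
    filter_upwards [hcont.eventually ht] with x hx hxM
    have h1 : p + c.A (c.A.symm (x - p)) = x := by simp
    rw [h1] at hx
    exact hx hxM
  have t1 : ∀ᶠ x in 𝓝 (p + c.A y₀), x ∈ M →
      CTangentVec d M x (c.A (bf_T3a c j (c.A.symm (x - p)))) := ht'.mono fun x hx hxM => (hx hxM).1
  have t2 : ∀ᶠ x in 𝓝 (p + c.A y₀), x ∈ M →
      CTangentVec d M x (c.A (I • bf_T3a c j (c.A.symm (x - p)))) := ht'.mono fun x hx hxM => (hx hxM).2
  refine ⟨?_, ?_, ?_⟩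
  · intro i
    fin_cases i
    · exact contDiffAt_const
    · exact contDiffAt_const
  · intro i
    fin_cases i
    · exact ⟨IteratedBracket.base _ s1 t1, s1, t1.mono fun x hx hxM => (hx hxM).1⟩
    · exact ⟨IteratedBracket.base _ s2 t2, s2, t2.mono fun x hx hxM => (hx hxM).1⟩
  · refine Eventually.of_forall fun y _ => ?_
    rw [Fin.sum_univ_two]
    simp

theorem single_half_T3a (j j' : Fin n) : conj ((Pi.single j 1 : Fin n → ℂ) j') =
    (Pi.single j 1 : Fin n → ℂ) j' := by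
  by_cases h : j' = j
  · subst h; simp
  · simp [h]

end T3a

/-! ### holomorphic brackets are combinations of real brackets -/

theorem analytic_to_real {N n d : ℕ} {M : Set (Fin N → ℂ)} {p : Fin N → ℂ} (c : Chart n d M p) :
    ∀ᶠ y₀ in 𝓝 (0 : ZI n d → ℂ), p + c.A y₀ ∈ M →
      ∀ Y, AIter c Y →
        ∃ (m : ℕ) (f : Fin m → (ZI n d → ℂ) → ℂ) (V : Fin m → (Fin N → ℂ) → (Fin N → ℂ)),
          (∀ i, ContDiffAt ℝ ∞ (f i) y₀) ∧
          (∀ i, IteratedBracket d M (p + c.A y₀) (V i) ∧ ContDiffAt ℝ ∞ (V i) (p + c.A y₀) ∧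
            ∀ᶠ x in 𝓝 (p + c.A y₀), x ∈ M → TangentVec d M x (V i x)) ∧
          ∀ᶠ y in 𝓝 y₀, p + c.A y ∈ M →
            Y (inc y) = ∑ i, f i y • inc (c.A.symm (V i (p + c.A y))) := by
  obtain ⟨r, hr, hAn⟩ := AIter.analytic c
  have i0 : Tendsto (inc : (ZI n d → ℂ) → (SI n d → ℂ)) (𝓝 0) (𝓝 0) := by
    have := (continuous_inc_T3a (n := n) (d := d)).tendsto 0
    rwa [inc_zero_T3a] at this
  have c0 : Tendsto (fun y : ZI n d → ℂ => cj (inc y)) (𝓝 0) (𝓝 0) := by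
    have h1 : Tendsto (cj : (SI n d → ℂ) → (SI n d → ℂ)) (𝓝 0) (𝓝 0) := by
      have := (continuous_cj_T3a (σ := SI n d)).tendsto 0
      have h0 : cj (0 : SI n d → ℂ) = 0 := by funext s; simp [cj]
      rwa [h0] at this
    exact h1.comp i0
  have hmem := c.mem
  have htan := c.tangent
  have hinv := i0.eventually (c.invol true).eventually_nhds
  have hf := c0.eventually (c.analytic false).eventually_analyticAt
  have ht := i0.eventually (c.analytic true).eventually_analyticAt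
  have hball : ∀ᶠ y in 𝓝 (0 : ZI n d → ℂ), inc y ∈ Metric.ball (0 : SI n d → ℂ) r :=
    i0.eventually (Metric.ball_mem_nhds 0 hr)
  have hall := ((hmem.and (htan.and (hinv.and (hf.and ht)))).eventually_nhds)
  filter_upwards [hall, hball, hf] with y₀ hall hball hf₀ hM Y hY
  have hflip : ∀ᶠ y in 𝓝 y₀, p + c.A y ∈ M → flipE (c.q true) (inc y) = cj (inc y) := by
    filter_upwards [hall] with y hy hyM
    exact flip_inc_T3a c (hy.1.1 hyM)
  have hbt : ∀ j, ∀ᶠ y in 𝓝 y₀, p + c.A y ∈ M →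
      CTangentVec d M (p + c.A y) (c.A (bf_T3a c j y)) ∧
      CTangentVec d M (p + c.A y) (c.A (I • bf_T3a c j y)) := by
    intro j
    filter_upwards [hall] with y hy hyM
    exact bf_tangent_T3a c (hy.1.1 hyM) hy.2.2.2.1 hy.2.2.2.2 hy.2.2.1 (hy.2.1 hyM) j
  have hloc : ∀ Y, AIter c Y → ∀ᶠ s in 𝓝 (inc y₀), AnalyticAt ℂ Y s := fun Y hY =>
    (hAn Y hY (inc y₀) hball).eventually_analyticAt
  suffices H : ∃ (κ : Type) (_ : Fintype κ) (f : κ → (ZI n d → ℂ) → ℂ)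
      (V : κ → (Fin N → ℂ) → (Fin N → ℂ)), Comb_T3a c.A M p y₀ κ (fun y => Y (inc y)) f V by
    obtain ⟨κ, _, f, V, h1, h2, h3⟩ := H
    let e := (Fintype.equivFin κ)
    refine ⟨Fintype.card κ, fun i => f (e.symm i), fun i => V (e.symm i), fun i => h1 _,
      fun i => h2 _, ?_⟩
    filter_upwards [h3] with y hy hyM
    rw [hy hyM]
    exact (Equiv.sum_comp e.symm (fun i => f i y • inc (c.A.symm (V i (p + c.A y))))).symm
  induction hY with
  | L j =>
    refine ⟨Fin 2, inferInstance, _, _, (comb_base_T3a c j hf₀ (hbt j) (1 / 2) (I / 2)).congr ?_⟩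
    refine Eventually.of_forall fun y _ => ?_
    funext s
    rcases s with s | s
    · simp only [inc, Sum.elim_inl, Pi.add_apply, Pi.smul_apply, smul_eq_mul, map_mul, conj_I, bf_T3a,
        single_half_T3a]
      linear_combination (1 / 2 * (Pi.single j 1 : Fin n → ℂ) s) * I_mul_I
    · simp only [inc, Sum.elim_inr, Pi.add_apply, Pi.smul_apply, smul_eq_mul, Pi.zero_apply]
      linear_combination (-(1 / 2) * bf_T3a c j y s) * I_mul_I
  | L' j =>
    refine ⟨Fin 2, inferInstance, _, _, (comb_base_T3a c j hf₀ (hbt j) (1 / 2) (-(I / 2))).congr ?_⟩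
    filter_upwards [hflip] with y hy hyM
    rw [hy hyM]
    funext s
    rcases s with s | s
    · simp only [inc, Sum.elim_inl, Pi.add_apply, Pi.smul_apply, smul_eq_mul, map_mul, conj_I, bf_T3a,
        single_half_T3a, Pi.zero_apply]
      linear_combination (-(1 / 2) * (Pi.single j 1 : Fin n → ℂ) s) * I_mul_I
    · simp only [inc, Sum.elim_inr, Pi.add_apply, Pi.smul_apply, smul_eq_mul]
      change bf_T3a c j y s = _
      linear_combination (1 / 2 * bf_T3a c j y s) * I_mul_I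
  | bracket Y Y' hY hY' ihY ihY' =>
    obtain ⟨κ, iκ, f, V, cY⟩ := ihY
    obtain ⟨κ', iκ', e, W, cZ⟩ := ihY'
    exact ⟨_, inferInstance, _, _, comb_bracket_T3a c.A hM (hloc Y hY) (hloc Y' hY') cY cZ⟩

end Pool.Agent.Results.MP_51bf1a_an.JetDet
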