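import Pool.Agent.Helper706.JD.T2b
import Pool.Agent.Helper706.JD.T3a

set_option autoImplicit false

open scoped Topology ContDiff ComplexConjugate
open Set Filter Complex

namespace Pool.Agent.Results.MP_51bf1a_an.JetDet





/-! ### finite type in terms of the holomorphic fields -/

section ftdet_aux

variable {n d : ℕ}

lemma ftd_cj_cj_T2c {σ : Type*} (y : σ → ℂ) : cj (cj y) = y := by funext i; simp [cj]

lemma ftd_cj_add_T2c {σ : Type*} (x y : σ → ℂ) : cj (x + y) = cj x + cj y := by
  funext i; simp [cj]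

lemma ftd_cj_smul_T2c {σ : Type*} (a : ℂ) (y : σ → ℂ) : cj (a • y) = (conj a) • cj y := by
  funext i; simp [cj]

lemma ftd_inc_add_T2c (x y : ZI n d → ℂ) : (inc (x + y) : SI n d → ℂ) = inc x + inc y := by
  funext i; rcases i with i | i <;> simp [inc]

lemma ftd_inc_smul_T2c (r : ℝ) (y : ZI n d → ℂ) : (inc (r • y) : SI n d → ℂ) = r • inc y := by
  funext i; rcases i with i | i <;> simp [inc]

/-- `cj` as a continuous real-linear map -/
noncomputable def cjL_T2c (σ : Type*) [Fintype σ] : (σ → ℂ) →L[ℝ] (σ → ℂ) :=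
  ContinuousLinearMap.pi fun i =>
    (Complex.conjCLE : ℂ →L[ℝ] ℂ).comp (ContinuousLinearMap.proj i)

lemma cjL_apply_T2c {σ : Type*} [Fintype σ] (y : σ → ℂ) : cjL_T2c σ y = cj y := by
  funext i; simp [cjL_T2c, cj]

/-- `inc` as a real-linear map -/
noncomputable def incL_T2c (n d : ℕ) : (ZI n d → ℂ) →ₗ[ℝ] (SI n d → ℂ) where
  toFun := inc
  map_add' := ftd_inc_add_T2c
  map_smul' := ftd_inc_smul_T2c

lemma incL_apply_T2c (y : ZI n d → ℂ) : incL_T2c n d y = inc y := rfl

lemma ftd_inc_continuous_T2c : Continuous (inc : (ZI n d → ℂ) → (SI n d → ℂ)) :=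
  (incL_T2c n d).continuous_of_finiteDimensional

lemma ftd_cj_continuous_T2c {σ : Type*} [Fintype σ] : Continuous (cj : (σ → ℂ) → (σ → ℂ)) := by
  have : (cj : (σ → ℂ) → (σ → ℂ)) = cjL_T2c σ := by funext y; exact (cjL_apply_T2c y).symm
  rw [this]; exact (cjL_T2c σ).continuous

lemma ftd_inc_zero_T2c : (inc (0 : ZI n d → ℂ) : SI n d → ℂ) = 0 := by
  funext i; rcases i with i | i <;> simp [inc]

lemma ftd_cj_zero_T2c {σ : Type*} : cj (0 : σ → ℂ) = 0 := by funext i; simp [cj]

lemma ftd_inc_tendsto_T2c : Tendsto (inc : (ZI n d → ℂ) → (SI n d → ℂ)) (𝓝 0) (𝓝 0) := by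
  have := (ftd_inc_continuous_T2c (n := n) (d := d)).tendsto 0
  rwa [ftd_inc_zero_T2c] at this

lemma ftd_cjinc_tendsto_T2c :
    Tendsto (fun y : ZI n d → ℂ => cj (inc y : SI n d → ℂ)) (𝓝 0) (𝓝 0) := by
  have h := (ftd_cj_continuous_T2c (σ := SI n d)).tendsto 0
  rw [ftd_cj_zero_T2c] at h
  exact h.comp ftd_inc_tendsto_T2c

/-- a spanning set contains the rows of an invertible matrix -/
lemma ftd_exists_det_T2c {σ : Type*} [Fintype σ] [DecidableEq σ] (t : Set (σ → ℂ))
    (ht : Submodule.span ℂ t = ⊤) :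
    ∃ b : σ → (σ → ℂ), (∀ s, b s ∈ t) ∧ (Matrix.of b).det ≠ 0 := by
  obtain ⟨b, hbt, hspan, hli⟩ := exists_linearIndependent ℂ t
  rw [ht] at hspan
  have hb : ⊤ ≤ Submodule.span ℂ (Set.range (Subtype.val : b → (σ → ℂ))) := by
    rw [Subtype.range_coe, hspan]
  let B := Module.Basis.mk hli hb
  haveI : Finite b := Module.Finite.finite_basis B
  haveI : Fintype b := Fintype.ofFinite b
  have hcard : Fintype.card σ = Fintype.card b := by
    rw [← Module.finrank_eq_card_basis B, Module.finrank_fintype_fun_eq_card]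
  let e := Fintype.equivOfCardEq hcard
  refine ⟨fun s => (e s : σ → ℂ), fun s => hbt (e s).2, ?_⟩
  have hli2 : LinearIndependent ℂ (fun s => ((e s : b) : σ → ℂ)) := hli.comp e e.injective
  have hu : IsUnit (Matrix.of fun s => ((e s : b) : σ → ℂ)) :=
    Matrix.linearIndependent_rows_iff_isUnit.1 hli2
  exact ((Matrix.isUnit_iff_isUnit_det _).1 hu).ne_zero

lemma ftd_span_of_det_T2c {σ : Type*} [Fintype σ] [DecidableEq σ] (b : σ → (σ → ℂ))
    (h : (Matrix.of b).det ≠ 0) : Submodule.span ℂ (Set.range b) = ⊤ := by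
  have hu : IsUnit (Matrix.of b) := (Matrix.isUnit_iff_isUnit_det _).2 (isUnit_iff_ne_zero.2 h)
  have hli : LinearIndependent ℂ b := Matrix.linearIndependent_rows_iff_isUnit.2 hu
  exact hli.span_eq_top_of_card_eq_finrank' (by rw [Module.finrank_fintype_fun_eq_card])

end ftdet_aux

section ftdet_chart

variable {N n d : ℕ} {M : Set (Fin N → ℂ)} {p : Fin N → ℂ} (c : Chart n d M p)

/-- derivative of the conjugation relation -/
lemma ftd_deriv_conj_T2c {s : SI n d → ℂ} (hf : DifferentiableAt ℂ (c.q false) (cj s))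
    (ht : DifferentiableAt ℂ (c.q true) s) (w : SI n d → ℂ) :
    fderiv ℂ (c.q false) (cj s) (cj w) = cj (fderiv ℂ (c.q true) s w) := by
  have h1 : HasFDerivAt (c.q false) ((fderiv ℂ (c.q false) (cj s)).restrictScalars ℝ)
      (cjL_T2c (SI n d) s) := by
    rw [cjL_apply_T2c]; exact hf.hasFDerivAt.restrictScalars ℝ
  have h2 := h1.comp s (cjL_T2c (SI n d)).hasFDerivAt
  have h3 : HasFDerivAt (c.q true) ((fderiv ℂ (c.q true) s).restrictScalars ℝ) s :=
    ht.hasFDerivAt.restrictScalars ℝ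
  have h4 := (cjL_T2c (Fin d)).hasFDerivAt.comp s h3
  have e : (⇑(cjL_T2c (Fin d)) ∘ c.q true) = (c.q false ∘ ⇑(cjL_T2c (SI n d))) := by
    funext s
    simp only [Function.comp, cjL_apply_T2c]
    exact (c.conj_q true s).symm
  rw [e] at h4
  have h5 := h2.unique h4
  have h6 := congrArg (fun L : (SI n d → ℂ) →L[ℝ] (Fin d → ℂ) => L w) h5
  simpa [cjL_apply_T2c] using h6

lemma ftd_flip_inc_T2c {y : ZI n d → ℂ}
    (hm : c.q false (cj (inc y)) = fun μ => y (Sum.inr μ)) :
    flipE (c.q true) (inc y) = cj (inc y) := by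
  have h1 : c.q true (inc y) = fun μ => conj (y (Sum.inr μ)) := by
    have h2 := c.conj_q false (cj (inc y))
    rw [ftd_cj_cj_T2c, hm] at h2
    exact h2
  funext i
  rcases i with j | j | j
  · simp [flipE, cj, inc]
  · simp [flipE, cj, inc]
  · show c.q true (inc y) j = cj (inc y) (Sum.inr (Sum.inr j))
    rw [h1]; simp [cj, inc]

/-- derivative of the involution relation -/
lemma ftd_deriv_invol_T2c {y : ZI n d → ℂ}
    (hm : c.q false (cj (inc y)) = fun μ => y (Sum.inr μ))
    (hf : DifferentiableAt ℂ (c.q false) (cj (inc y)))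
    (ht : DifferentiableAt ℂ (c.q true) (inc y))
    (hi : ∀ᶠ s in 𝓝 (inc y : SI n d → ℂ), c.q false (flipE (c.q true) s) =
      fun μ => s (Sum.inr (Sum.inr μ))) (w : SI n d → ℂ) :
    fderiv ℂ (c.q false) (cj (inc y)) (Sum.elim (fun j => w (Sum.inr (Sum.inl j)))
      (Sum.elim (fun j => w (Sum.inl j)) (fderiv ℂ (c.q true) (inc y) w))) =
      fun μ => w (Sum.inr (Sum.inr μ)) := by
  let Φ : (SI n d → ℂ) →L[ℂ] (SI n d → ℂ) := ContinuousLinearMap.pi fun i => match i with
    | Sum.inl j => ContinuousLinearMap.proj (Sum.inr (Sum.inl j))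
    | Sum.inr (Sum.inl j) => ContinuousLinearMap.proj (Sum.inl j)
    | Sum.inr (Sum.inr μ) => (ContinuousLinearMap.proj μ).comp (fderiv ℂ (c.q true) (inc y))
  have hΦ : ∀ w, Φ w = Sum.elim (fun j => w (Sum.inr (Sum.inl j)))
      (Sum.elim (fun j => w (Sum.inl j)) (fderiv ℂ (c.q true) (inc y) w)) := by
    intro w; funext i
    rcases i with j | j | j <;> simp [Φ]
  have hφ : HasFDerivAt (flipE (c.q true)) Φ (inc y) := by
    rw [hasFDerivAt_pi']
    intro i
    rcases i with j | j | j
    · exact (ContinuousLinearMap.proj (R := ℂ) (φ := fun _ : SI n d => ℂ)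
        (Sum.inr (Sum.inl j))).hasFDerivAt
    · exact (ContinuousLinearMap.proj (R := ℂ) (φ := fun _ : SI n d => ℂ)
        (Sum.inl j)).hasFDerivAt
    · exact (ContinuousLinearMap.proj (R := ℂ) (φ := fun _ : Fin d => ℂ) j).hasFDerivAt.comp
        (inc y) ht.hasFDerivAt
  have h1 : HasFDerivAt (c.q false) (fderiv ℂ (c.q false) (cj (inc y)))
      (flipE (c.q true) (inc y)) := by
    rw [ftd_flip_inc_T2c c hm]; exact hf.hasFDerivAt
  have h2 := h1.comp (inc y) hφ
  let Pj : (SI n d → ℂ) →L[ℂ] (Fin d → ℂ) := ContinuousLinearMap.pi fun μ =>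
    ContinuousLinearMap.proj (Sum.inr (Sum.inr μ))
  have h3 : HasFDerivAt (c.q false ∘ flipE (c.q true)) Pj (inc y) := by
    refine Pj.hasFDerivAt.congr_of_eventuallyEq ?_
    filter_upwards [hi] with s hs
    simp only [Function.comp]
    rw [hs]; rfl
  have h4 := h2.unique h3
  have h5 := congrArg (fun L : (SI n d → ℂ) →L[ℂ] (Fin d → ℂ) => L w) h4
  have h6 : fderiv ℂ (c.q false) (cj (inc y)) (Φ w) = Pj w := h5
  rw [hΦ] at h6
  rw [h6]; rfl

/-- the local facts at a point of `M` near `0` -/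
lemma ftd_local_T2c : ∀ᶠ y in 𝓝 (0 : ZI n d → ℂ),
    DifferentiableAt ℂ (c.q false) (cj (inc y)) ∧ DifferentiableAt ℂ (c.q true) (inc y) ∧
    (∀ᶠ s in 𝓝 (inc y : SI n d → ℂ), c.q false (flipE (c.q true) s) =
      fun μ => s (Sum.inr (Sum.inr μ))) := by
  have h1 := ftd_cjinc_tendsto_T2c.eventually (c.analytic false).eventually_analyticAt
  have h2 := ftd_inc_tendsto_T2c.eventually (c.analytic true).eventually_analyticAt
  have h3 := ftd_inc_tendsto_T2c.eventually (c.invol true).eventually_nhds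
  filter_upwards [h1, h2, h3] with y k1 k2 k3
  exact ⟨k1.differentiableAt, k2.differentiableAt, k3⟩

end ftdet_chart

theorem det_of_ft {N n d : ℕ} {M : Set (Fin N → ℂ)} {p : Fin N → ℂ} (c : Chart n d M p) :
    ∀ᶠ y in 𝓝 (0 : ZI n d → ℂ), p + c.A y ∈ M → FiniteTypeAt d M (p + c.A y) →
      ∃ Y : SI n d → (SI n d → ℂ) → (SI n d → ℂ), (∀ s, AIter c (Y s)) ∧
        (Matrix.of fun s s' => Y s (inc y) s').det ≠ 0 := by
  filter_upwards [real_to_analytic c, c.mem, c.tangent, ftd_local_T2c c] with y hra hmem htan hloc hyM hft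
  obtain ⟨hf, ht, hi⟩ := hloc
  have hm := hmem.1 hyM
  have hra := hra hyM
  have htan := htan hyM
  set S : Submodule ℂ (SI n d → ℂ) := Submodule.span ℂ {w | ∃ Y, AIter c Y ∧ w = Y (inc y)} with hS
  -- all tangent vectors are in `S`
  have hinS : ∀ v, fderiv ℂ (c.q false) (cj (inc y)) (cj (inc v)) = (fun μ => v (Sum.inr μ)) →
      (inc v : SI n d → ℂ) ∈ S := by
    intro v hv
    have h1 := hft (c.A v) ((htan v).2 hv)
    -- the preimage of S is a real submodule
    let T : Submodule ℝ (Fin N → ℂ) :=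
      { carrier := {w | (inc (c.A.symm w) : SI n d → ℂ) ∈ S}
        add_mem' := by
          intro a b ha hb
          simp only [Set.mem_ofPred_eq] at ha hb ⊢
          rw [map_add, ftd_inc_add_T2c]
          exact S.add_mem ha hb
        zero_mem' := by
          simp only [Set.mem_ofPred_eq]
          rw [map_zero, ftd_inc_zero_T2c]
          exact S.zero_mem
        smul_mem' := by
          intro r a ha
          simp only [Set.mem_ofPred_eq] at ha ⊢
          have e : c.A.symm (r • a) = r • c.A.symm a := by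
            have := c.A.symm.map_smul (r : ℂ) a
            simpa using this
          rw [e, ftd_inc_smul_T2c]
          have : (r • inc (c.A.symm a) : SI n d → ℂ) = (r : ℂ) • inc (c.A.symm a) := by
            funext i; simp
          rw [this]
          exact S.smul_mem _ ha }
    have h2 : Submodule.span ℝ {w : Fin N → ℂ | ∃ V, IteratedBracket d M (p + c.A y) V ∧
        w = V (p + c.A y)} ≤ T := by
      rw [Submodule.span_le]
      rintro w ⟨V, hV, rfl⟩
      obtain ⟨-, -, m, f, Y, -, hY, he⟩ := hra V hV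
      have h3 := he.self_of_nhds hyM
      show (inc (c.A.symm (V (p + c.A y))) : SI n d → ℂ) ∈ S
      rw [h3]
      exact S.sum_mem fun i _ => S.smul_mem _ (Submodule.subset_span ⟨Y i, hY i, rfl⟩)
    have h3 : (inc (c.A.symm (c.A v)) : SI n d → ℂ) ∈ S := h2 h1
    simpa using h3
  have htop : S = ⊤ := by
    rw [eq_top_iff]
    intro w _
    -- w = (α, β)
    let α : Fin n → ℂ := fun j => w (Sum.inl j)
    let β : ZI n d → ℂ := fun i => w (Sum.inr i)
    let β' : ZI n d → ℂ := Sum.elim α (fderiv ℂ (c.q true) (inc y) w)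
    let E : (ZI n d → ℂ) → (ZI n d → ℂ) → (SI n d → ℂ) := fun b b' =>
      Sum.elim (fun j => b (Sum.inl j)) b'
    have hE : ∀ (a₁ a₂ : ℂ) (b₁ b₂ b₁' b₂' : ZI n d → ℂ),
        E (a₁ • b₁ + a₂ • b₂) (a₁ • b₁' + a₂ • b₂') = a₁ • E b₁ b₁' + a₂ • E b₂ b₂' := by
      intro a₁ a₂ b₁ b₂ b₁' b₂'
      funext i; rcases i with i | i <;> simp [E]
    have hcjE : ∀ v : ZI n d → ℂ, cj (inc v) = E v (cj v) := by
      intro v; funext i; rcases i with i | i <;> simp [E, cj, inc]
    -- first relation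
    have r1 : fderiv ℂ (c.q false) (cj (inc y)) (E β β') = fun μ => β (Sum.inr μ) := by
      have := ftd_deriv_invol_T2c c hm hf ht hi w
      convert this using 2
    have r2 : fderiv ℂ (c.q false) (cj (inc y)) (E (cj β') (cj β)) =
        fun μ => (cj β') (Sum.inr μ) := by
      have h1 := ftd_deriv_conj_T2c c hf ht w
      have e1 : cj w = E (cj β') (cj β) := by
        funext i; rcases i with i | i <;> simp [E, cj, β, β', α]
      rw [← e1, h1]
      funext μ; simp [cj, β']
    have key : ∀ a₁ a₂ : ℂ, fderiv ℂ (c.q false) (cj (inc y))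
        (E (a₁ • β + a₂ • cj β') (a₁ • β' + a₂ • cj β)) =
        fun μ => (a₁ • β + a₂ • cj β') (Sum.inr μ) := by
      intro a₁ a₂
      rw [hE, map_add, map_smul, map_smul, r1, r2]
      funext μ; simp
    let v : ZI n d → ℂ := (1 / 2 : ℂ) • β + (1 / 2 : ℂ) • cj β'
    let u : ZI n d → ℂ := (1 / (2 * I) : ℂ) • β + (-(1 / (2 * I)) : ℂ) • cj β'
    have c1 : conj (1 / 2 : ℂ) = 1 / 2 := by
      rw [map_div₀, map_one]; congr 1; exact Complex.conj_ofNat 2
    have c2 : conj (1 / (2 * I) : ℂ) = -(1 / (2 * I)) := by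
      rw [map_div₀, map_one, map_mul, Complex.conj_I]
      have : conj (2 : ℂ) = 2 := Complex.conj_ofNat 2
      rw [this]
      rw [mul_neg, div_neg]
    have hv : fderiv ℂ (c.q false) (cj (inc y)) (cj (inc v)) = fun μ => v (Sum.inr μ) := by
      have e : cj v = (1 / 2 : ℂ) • β' + (1 / 2 : ℂ) • cj β := by
        simp only [v]
        rw [ftd_cj_add_T2c, ftd_cj_smul_T2c, ftd_cj_smul_T2c, c1, ftd_cj_cj_T2c, add_comm]
      rw [hcjE v, e]
      exact key _ _
    have hu : fderiv ℂ (c.q false) (cj (inc y)) (cj (inc u)) = fun μ => u (Sum.inr μ) := by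
      have e : cj u = (1 / (2 * I) : ℂ) • β' + (-(1 / (2 * I)) : ℂ) • cj β := by
        simp only [u]
        rw [ftd_cj_add_T2c, ftd_cj_smul_T2c, ftd_cj_smul_T2c, map_neg, c2, ftd_cj_cj_T2c, neg_neg, add_comm]
      rw [hcjE u, e]
      exact key _ _
    have hw : w = inc v + I • inc u := by
      have hI : I * (1 / (2 * I)) = 1 / 2 := by
        field_simp
      have hII : I * I = -1 := Complex.I_mul_I
      funext i
      rcases i with i | i
      · have e1 : (cj v) (Sum.inl i) = (1 / 2 : ℂ) * w (Sum.inl i) + (1 / 2 : ℂ) * conj (β (Sum.inl i)) := by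
          have e : cj v = (1 / 2 : ℂ) • β' + (1 / 2 : ℂ) • cj β := by
            simp only [v]
            rw [ftd_cj_add_T2c, ftd_cj_smul_T2c, ftd_cj_smul_T2c, c1, ftd_cj_cj_T2c, add_comm]
          rw [e]; simp [β', α, cj]
        have e2 : (cj u) (Sum.inl i) = (1 / (2 * I) : ℂ) * w (Sum.inl i) +
            (-(1 / (2 * I)) : ℂ) * conj (β (Sum.inl i)) := by
          have e : cj u = (1 / (2 * I) : ℂ) • β' + (-(1 / (2 * I)) : ℂ) • cj β := by
            simp only [u]
            rw [ftd_cj_add_T2c, ftd_cj_smul_T2c, ftd_cj_smul_T2c, map_neg, c2, ftd_cj_cj_T2c, neg_neg, add_comm]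
          rw [e]; simp [β', α, cj]
        show w (Sum.inl i) = (cj v) (Sum.inl i) + I * (cj u) (Sum.inl i)
        rw [e1, e2]
        linear_combination (-w (Sum.inl i) + conj (β (Sum.inl i))) * hI
      · have e1 : v i = (1 / 2 : ℂ) * w (Sum.inr i) + (1 / 2 : ℂ) * cj β' i := by
          simp [v, β]
        have e2 : u i = (1 / (2 * I) : ℂ) * w (Sum.inr i) + (-(1 / (2 * I)) : ℂ) * cj β' i := by
          simp [u, β]
        show w (Sum.inr i) = v i + I * u i
        rw [e1, e2]
        linear_combination (-w (Sum.inr i) + cj β' i) * hI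
    rw [hw]
    exact S.add_mem (hinS v hv) (S.smul_mem _ (hinS u hu))
  obtain ⟨b, hb, hdet⟩ := ftd_exists_det_T2c _ htop
  choose Y hY hbY using hb
  refine ⟨Y, hY, ?_⟩
  have e : (Matrix.of fun s s' => Y s (inc y) s') = Matrix.of b := by
    ext s s'
    simp [hbY]
  rw [e]; exact hdet

theorem ft_of_det {N n d : ℕ} {M : Set (Fin N → ℂ)} {p : Fin N → ℂ} (c : Chart n d M p) :
    ∀ᶠ y in 𝓝 (0 : ZI n d → ℂ), p + c.A y ∈ M →
      ∀ Y : SI n d → (SI n d → ℂ) → (SI n d → ℂ), (∀ s, AIter c (Y s)) →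
        (Matrix.of fun s s' => Y s (inc y) s').det ≠ 0 → FiniteTypeAt d M (p + c.A y) := by
  filter_upwards [analytic_to_real c, c.tangent] with y har htan hyM Y hY hdet
  have har := har hyM
  have htan := htan hyM
  have hspanY := ftd_span_of_det_T2c (fun s => Y s (inc y)) hdet
  -- the tangent space in coordinates
  let D := fderiv ℂ (c.q false) (cj (inc y))
  let TR : Submodule ℝ (ZI n d → ℂ) :=
    { carrier := {v | D (cj (inc v)) = fun μ => v (Sum.inr μ)}
      add_mem' := by
        intro a b ha hb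
        simp only [Set.mem_ofPred_eq] at ha hb ⊢
        rw [ftd_inc_add_T2c, ftd_cj_add_T2c, map_add, ha, hb]; rfl
      zero_mem' := by
        simp only [Set.mem_ofPred_eq]
        rw [ftd_inc_zero_T2c, ftd_cj_zero_T2c, map_zero]; rfl
      smul_mem' := by
        intro r a ha
        simp only [Set.mem_ofPred_eq] at ha ⊢
        have e : (cj (inc (r • a)) : SI n d → ℂ) = (r : ℂ) • cj (inc a) := by
          rw [ftd_inc_smul_T2c]
          funext i; simp [cj]
        rw [e, map_smul, ha]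
        funext μ; simp }
  let U : Submodule ℝ (ZI n d → ℂ) := Submodule.span ℝ
    {v | (∃ V, IteratedBracket d M (p + c.A y) V ∧ c.A v = V (p + c.A y)) ∧ v ∈ TR}
  have hUT : U ≤ TR := by
    rw [Submodule.span_le]
    intro v hv
    exact hv.2
  -- the complex span
  have hgen : ∀ s : SI n d → ℂ, ∃ v ∈ U, ∃ u ∈ U, s = inc v + I • inc u := by
    have hsm : ∀ (a : ℂ) (s : SI n d → ℂ), (∃ v ∈ U, ∃ u ∈ U, s = inc v + I • inc u) →
        ∃ v ∈ U, ∃ u ∈ U, a • s = inc v + I • inc u := by
      rintro a s ⟨v, hv, u, hu, rfl⟩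
      refine ⟨a.re • v + (-a.im) • u, U.add_mem (U.smul_mem _ hv) (U.smul_mem _ hu),
        a.im • v + a.re • u, U.add_mem (U.smul_mem _ hv) (U.smul_mem _ hu), ?_⟩
      rw [ftd_inc_add_T2c, ftd_inc_add_T2c, ftd_inc_smul_T2c, ftd_inc_smul_T2c, ftd_inc_smul_T2c, ftd_inc_smul_T2c]
      funext i
      simp only [Pi.smul_apply, Pi.add_apply, smul_eq_mul, Complex.real_smul]
      have h1 : a = (a.re : ℂ) + (a.im : ℂ) * I := (Complex.re_add_im a).symm
      have hII : I * I = -1 := Complex.I_mul_I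
      generalize hx : a.re = x at *
      generalize hz : a.im = z at *
      rw [h1]
      push_cast
      linear_combination ((z : ℂ) * inc u i) * hII
    have hadd : ∀ s s' : SI n d → ℂ, (∃ v ∈ U, ∃ u ∈ U, s = inc v + I • inc u) →
        (∃ v ∈ U, ∃ u ∈ U, s' = inc v + I • inc u) →
        ∃ v ∈ U, ∃ u ∈ U, s + s' = inc v + I • inc u := by
      rintro s s' ⟨v, hv, u, hu, rfl⟩ ⟨v', hv', u', hu', rfl⟩
      refine ⟨v + v', U.add_mem hv hv', u + u', U.add_mem hu hu', ?_⟩
      rw [ftd_inc_add_T2c, ftd_inc_add_T2c]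
      funext i
      simp only [Pi.smul_apply, Pi.add_apply, smul_eq_mul]
      ring
    have hzero : ∃ v ∈ U, ∃ u ∈ U, (0 : SI n d → ℂ) = inc v + I • inc u :=
      ⟨0, U.zero_mem, 0, U.zero_mem, by rw [ftd_inc_zero_T2c, smul_zero, add_zero]⟩
    have hYs : ∀ s, ∃ v ∈ U, ∃ u ∈ U, Y s (inc y) = inc v + I • inc u := by
      intro s
      obtain ⟨m, f, V, -, hV, he⟩ := har (Y s) (hY s)
      have h1 := he.self_of_nhds hyM
      rw [h1]
      refine Finset.sum_induction _ (fun s => ∃ v ∈ U, ∃ u ∈ U, s = inc v + I • inc u)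
        (fun a b => hadd a b) hzero ?_
      intro i _
      apply hsm
      obtain ⟨hVi, -, hTi⟩ := hV i
      have hT := hTi.self_of_nhds hyM
      refine ⟨c.A.symm (V i (p + c.A y)), ?_, 0, U.zero_mem, ?_⟩
      · apply Submodule.subset_span
        refine ⟨⟨V i, hVi, by simp⟩, ?_⟩
        exact (htan _).1 (by simpa using hT)
      · rw [ftd_inc_zero_T2c, smul_zero, add_zero]
    intro s
    have hs : s ∈ Submodule.span ℂ (Set.range fun s => Y s (inc y)) := by
      rw [hspanY]; trivial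
    induction hs using Submodule.span_induction with
    | mem x hx => obtain ⟨s, rfl⟩ := hx; exact hYs s
    | zero => exact hzero
    | add x z _ _ hx hz => exact hadd x z hx hz
    | smul a x _ hx => exact hsm a x hx
  intro w hw
  set v₀ := c.A.symm w with hv₀
  have hwv : w = c.A v₀ := by simp [hv₀]
  have hv₀T : v₀ ∈ TR := (htan v₀).1 (by rw [← hwv]; exact hw)
  obtain ⟨v, hv, u, hu, he⟩ := hgen (inc v₀)
  -- v₀ - v = I u
  set v' := v₀ - v with hv'
  have hv'T : v' ∈ TR := TR.sub_mem hv₀T (hUT hv)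
  have huT : u ∈ TR := hUT hu
  have he' : (inc v' : SI n d → ℂ) = I • inc u := by
    have h1 : (inc v₀ : SI n d → ℂ) = inc v' + inc v := by
      rw [← ftd_inc_add_T2c, hv', sub_add_cancel]
    rw [h1, add_comm] at he
    exact add_left_cancel he
  have h1 : ∀ i, v' i = I * u i := fun i => by
    have := congrFun he' (Sum.inr i)
    simpa [inc] using this
  have h2 : ∀ j, u (Sum.inl j) = 0 := by
    intro j
    have k1 := congrFun he' (Sum.inl j)
    simp only [inc, Sum.elim_inl, Pi.smul_apply, smul_eq_mul] at k1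
    rw [h1, map_mul, Complex.conj_I] at k1
    have k2 : (2 * I) * conj (u (Sum.inl j)) = 0 := by linear_combination -k1
    have k3 : conj (u (Sum.inl j)) = 0 := by
      rcases mul_eq_zero.1 k2 with h | h
      · exfalso
        rcases mul_eq_zero.1 h with h | h
        · norm_num at h
        · exact Complex.I_ne_zero h
      · exact h
    simpa using k3
  have h3 : (cj (inc v') : SI n d → ℂ) = (-I) • cj (inc u) := by
    funext i
    rcases i with j | i
    · simp [cj, inc, h1, h2]
    · simp [cj, inc, h1]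
  have h4 : D (cj (inc v')) = fun μ => v' (Sum.inr μ) := hv'T
  have h5 : D (cj (inc u)) = fun μ => u (Sum.inr μ) := huT
  rw [h3, map_smul, h5] at h4
  have h6 : ∀ μ, u (Sum.inr μ) = 0 := by
    intro μ
    have k1 := congrFun h4 μ
    simp only [Pi.smul_apply, smul_eq_mul] at k1
    rw [h1] at k1
    have k2 : (2 * I) * u (Sum.inr μ) = 0 := by linear_combination -k1
    rcases mul_eq_zero.1 k2 with h | h
    · exfalso
      rcases mul_eq_zero.1 h with h | h
      · norm_num at h
      · exact Complex.I_ne_zero h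
    · exact h
  have h7 : v₀ = v := by
    have : v' = 0 := by
      funext i
      rw [h1]
      rcases i with i | i
      · rw [h2]; simp
      · rw [h6]; simp
    rw [hv', sub_eq_zero] at this
    exact this
  rw [hwv, h7]
  -- v ∈ U
  let Sp := Submodule.span ℝ {w : Fin N → ℂ | ∃ V, IteratedBracket d M (p + c.A y) V ∧
    w = V (p + c.A y)}
  have hU2 : ∀ v ∈ U, c.A v ∈ Sp := by
    intro v hv
    induction hv using Submodule.span_induction with
    | mem x hx =>
      obtain ⟨⟨V, hV, hx⟩, -⟩ := hx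
      exact Submodule.subset_span ⟨V, hV, hx⟩
    | zero => rw [map_zero]; exact Sp.zero_mem
    | add x z _ _ hx hz => rw [map_add]; exact Sp.add_mem hx hz
    | smul r x _ hx =>
      have e : c.A (r • x) = r • c.A x := by
        have := c.A.map_smul (r : ℂ) x
        simpa using this
      rw [e]; exact Sp.smul_mem _ hx
  exact hU2 v hv

end Pool.Agent.Results.MP_51bf1a_an.JetDet
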